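import Pool.Agent.SWQ.Defs

/-!
# SWQ module Axa: existence of the axis

PROOF.  Consider all `(x, b, p)` with `x : Γ × I`, `b : Γ`, `0 < q b`, `p : G.Walk x (tr b x)` (they exist: `conn`), and choose one with `τ = p.length` minimal (`Nat.find`).  `τ ≥ 1` (`τ = 0` gives `tr b x = x`,
`b = 1`, `q 1 = 0`).  Translate by `x.1⁻¹` (the translated walk goes from `(1, x.2)` to `tr (x.1⁻¹ b x.1) (1, x.2)`, `q (x.1⁻¹ b x.1) = q b`): `i0 = x.2`, `g = x.1⁻¹ b x.1`, walk `W` from `(1, i0)` to `(g, i0)`.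
`X (k τ + r) = tr (g ^ k) (W.getVert r)`, `0 ≤ r < τ` (`k = j / τ`, `r = j % τ`).  `X (j + τ) = tr g (X j)`; adjacency also for `r = τ - 1` (`W.getVert τ = (g, i0) = tr g (X 0)`).
Minimality (M): a walk from `x` to `tr b x` of length `< τ` has `q b ≤ 0`; the reversed walk goes from `x' = tr b x` to `tr b⁻¹ x'`, so also `q b⁻¹ ≤ 0`, `q b = 0`.
There is a walk of length `j' - j` from `X j` to `X j'` for `j ≤ j'`.
Injectivity: let `X a = X b`, `a < b`.  If `b - a < τ`: the walk from `X b = X a` to `X (a + τ) = tr g (X a)` has length `τ - (b - a) < τ` and `q g > 0`, contradiction to (M).  Otherwise `b = a + k τ + r`, `k ≥ 1`, `0 ≤ r < τ`,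
`X a = X b = tr (g^k) (X (a + r))`, so `X (a + r) = tr (g^(-k)) (X a)`.  `r = 0`: `g^k = 1`, contradiction (`k q g > 0`).  `r > 0`: (M) gives `q (g^(-k)) = 0`, contradiction.
Overlap: let `X (m + j) = tr b (X j)` for `k0 ≤ j ≤ k0 + τ^2`, `m > 0`, `m = i τ + r`, `0 ≤ r < τ`, `b' = g^(-i) b`: `X (r + j) = tr b' (X j)` for these `j`.  If `r = 0` then `b' = 1` (first coordinates), so `b = g^i`, `m = i τ`.  If `r > 0`: (M) gives `q b' = 0`;
by induction `X (k0 + r s) = tr (b'^s) (X k0)` for `s ≤ τ`; `s = τ`: `X (k0 + r τ) = tr (g^r) (X k0)`, so `b'^τ = g^r`, `0 = τ q b' = r q g > 0`, contradiction.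
-/

set_option autoImplicit false

open scoped ENNReal NNReal Classical
open Filter Topology

namespace Pool.Agent.SWQ

open SWH

section aux

variable {Γ I : Type} [Group Γ] {G : SimpleGraph (Γ × I)}

private theorem axa_dist_le (inv : ∀ (γ : Γ) (x y : Γ × I), G.Adj (tr γ x) (tr γ y) ↔ G.Adj x y)
    (conn : G.Connected) (a : Γ) (x y : Γ × I) : G.dist (tr a x) (tr a y) ≤ G.dist x y := by
  obtain ⟨w, hw⟩ := conn.exists_walk_length_eq_dist x y
  let f : G →g G := ⟨tr a, fun {u v} h => (inv a u v).2 h⟩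
  have h1 := SimpleGraph.dist_le (w.map f)
  rw [SimpleGraph.Walk.length_map, hw] at h1
  exact h1

private theorem axa_dist (inv : ∀ (γ : Γ) (x y : Γ × I), G.Adj (tr γ x) (tr γ y) ↔ G.Adj x y)
    (conn : G.Connected) (a : Γ) (x y : Γ × I) : G.dist (tr a x) (tr a y) = G.dist x y := by
  refine le_antisymm (axa_dist_le inv conn a x y) ?_
  have h1 := axa_dist_le inv conn a⁻¹ (tr a x) (tr a y)
  rwa [← tr_mul, ← tr_mul, inv_mul_cancel, tr_one, tr_one] at h1

private theorem axa_fst {a b : Γ} {x : Γ × I} (h : tr a x = tr b x) : a = b := by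
  have h1 := congrArg Prod.fst h
  exact mul_right_cancel h1

omit [Group Γ] in
private theorem axa_path (conn : G.Connected) {X : ℤ → Γ × I} (hX : ∀ j, G.Adj (X j) (X (j + 1)))
    (a : ℤ) (n : ℕ) : G.dist (X a) (X (a + n)) ≤ n := by
  induction n with
  | zero => simp
  | succ n ih =>
    have h1 := conn.dist_triangle (u := X a) (v := X (a + n)) (w := X (a + (n + 1 : ℕ)))
    have h2 : G.dist (X (a + n)) (X (a + (n + 1 : ℕ))) = 1 := by
      rw [SimpleGraph.dist_eq_one_iff_adj]
      have h3 := hX (a + n)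
      rwa [add_assoc] at h3
    omega

end aux

theorem axq {Γ I : Type} [Group Γ] (G : SimpleGraph (Γ × I))
    (inv : ∀ (γ : Γ) (x y : Γ × I), G.Adj (tr γ x) (tr γ y) ↔ G.Adj x y) (conn : G.Connected) (q : Γ → ℝ)
    (hom : ∀ a (n : ℤ), q (a ^ n) = n * q a) (conj : ∀ a b, q (b * a * b⁻¹) = q a) (pos : ∃ a, 0 < q a) :
    ∃ (i0 : I) (g : Γ) (X : ℤ → Γ × I) (τ : ℕ), 0 < q g ∧ 1 ≤ τ ∧ X 0 = (1, i0) ∧
      (∀ j, G.Adj (X j) (X (j + 1))) ∧ Function.Injective X ∧ (∀ j, X (j + τ) = tr g (X j)) ∧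
      ∀ (m : ℕ) (b : Γ) (k : ℤ), 0 < m → (∀ j, k ≤ j → j ≤ k + (τ ^ 2 : ℕ) → X (m + j) = tr b (X j)) →
        ∃ i : ℕ, b = g ^ i ∧ m = i * τ := by
  have hq1 : q 1 = 0 := by
    have h := hom 1 0
    rw [zpow_zero, Int.cast_zero, zero_mul] at h
    exact h
  have hqi : ∀ a, q a⁻¹ = - q a := by
    intro a
    have h := hom a (-1)
    rw [zpow_neg_one] at h
    rw [h]
    push_cast
    ring
  -- the minimum
  obtain ⟨a0, ha0⟩ := pos
  obtain ⟨v0⟩ := conn.nonempty
  have hex : ∃ n, ∃ (x : Γ × I) (b : Γ), 0 < q b ∧ G.dist x (tr b x) = n := ⟨_, v0, a0, ha0, rfl⟩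
  obtain ⟨x0, b0, hb0, hd0⟩ := Nat.find_spec hex
  have hmin : ∀ (x : Γ × I) (b : Γ), 0 < q b → Nat.find hex ≤ G.dist x (tr b x) :=
    fun x b hb => Nat.find_min' hex ⟨x, b, hb, rfl⟩
  generalize Nat.find hex = τ at hd0 hmin
  have hM : ∀ (x : Γ × I) (b : Γ), G.dist x (tr b x) < τ → q b = 0 := by
    intro x b hlt
    have h1 : q b ≤ 0 := by
      by_contra h
      have := hmin x b (not_le.1 h)
      omega
    have h2 : q b⁻¹ ≤ 0 := by
      by_contra h
      have h3 := hmin (tr b x) b⁻¹ (not_le.1 h)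
      rw [← tr_mul, inv_mul_cancel, tr_one, SimpleGraph.dist_comm] at h3
      omega
    rw [hqi] at h2
    linarith
  -- the walk
  set g : Γ := x0.1⁻¹ * b0 * x0.1 with hg
  have hqg : q g = q b0 := by
    have h := conj b0 x0.1⁻¹
    rw [inv_inv] at h
    exact h
  have hgpos : 0 < q g := by rw [hqg]; exact hb0
  have hdist : G.dist ((1 : Γ), x0.2) (g, x0.2) = τ := by
    rw [← hd0, ← axa_dist inv conn x0.1 (1, x0.2) (g, x0.2)]
    congr 1
    · unfold tr
      simp
    · unfold tr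
      simp [hg, mul_assoc]
  obtain ⟨W, hW⟩ := conn.exists_walk_length_eq_dist ((1 : Γ), x0.2) (g, x0.2)
  rw [hdist] at hW
  have hτ : 1 ≤ τ := by
    by_contra h
    have h0 : τ = 0 := by omega
    rw [h0] at hdist
    have h1 := (conn.dist_eq_zero_iff).1 hdist
    have h2 : (1 : Γ) = g := congrArg Prod.fst h1
    rw [← h2, hq1] at hgpos
    exact lt_irrefl _ hgpos
  have hτ' : (0 : ℤ) < τ := by omega
  obtain ⟨X, hXdef⟩ : ∃ X : ℤ → Γ × I, ∀ j, X j = tr (g ^ (j / (τ : ℤ))) (W.getVert (j % (τ : ℤ)).toNat) :=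
    ⟨_, fun _ => rfl⟩
  have hXf : ∀ (k : ℤ) (r : ℕ), r < τ → X (k * τ + r) = tr (g ^ k) (W.getVert r) := by
    intro k r hr
    have h1 : (k * (τ : ℤ) + r) / (τ : ℤ) = k := by
      rw [add_comm, Int.add_mul_ediv_right _ _ hτ'.ne', Int.ediv_eq_zero_of_lt (by omega) (by omega),
        zero_add]
    have h2 : (k * (τ : ℤ) + r) % (τ : ℤ) = r := by
      rw [add_comm, Int.add_mul_emod_self_right, Int.emod_eq_of_lt (by omega) (by omega)]
    rw [hXdef, h1, h2, Int.toNat_natCast]
  have hXf' : ∀ (k : ℤ) (r : ℕ), r ≤ τ → X (k * τ + r) = tr (g ^ k) (W.getVert r) := by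
    intro k r hr
    rcases hr.lt_or_eq with h | h
    · exact hXf k r h
    · subst h
      have h1 := hXf (k + 1) 0 (by omega)
      have h2 : (k + 1) * (r : ℤ) + (0 : ℕ) = k * r + r := by push_cast; ring
      rw [h2] at h1
      rw [h1, ← hW, SimpleGraph.Walk.getVert_length, SimpleGraph.Walk.getVert_zero]
      unfold tr
      simp only [mul_one]
      rw [zpow_add_one]
  have hdec : ∀ j : ℤ, ∃ (k : ℤ) (r : ℕ), r < τ ∧ j = k * τ + r := by
    intro j
    refine ⟨j / τ, (j % τ).toNat, ?_, ?_⟩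
    · have h1 := Int.emod_lt_of_pos j hτ'
      have h2 := Int.emod_nonneg j hτ'.ne'
      omega
    · have h2 := Int.emod_nonneg j hτ'.ne'
      have h3 := Int.mul_ediv_add_emod j τ
      rw [Int.toNat_of_nonneg h2, mul_comm]
      exact h3.symm
  have hper : ∀ (i j : ℤ), X (j + i * τ) = tr (g ^ i) (X j) := by
    intro i j
    obtain ⟨k, r, hr, rfl⟩ := hdec j
    have h1 : k * (τ : ℤ) + r + i * τ = (i + k) * τ + r := by ring
    rw [h1, hXf _ _ hr, hXf _ _ hr, ← tr_mul, zpow_add]
  have hadj : ∀ j, G.Adj (X j) (X (j + 1)) := by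
    intro j
    obtain ⟨k, r, hr, rfl⟩ := hdec j
    have h1 : k * (τ : ℤ) + r + 1 = k * τ + ((r + 1 : ℕ) : ℤ) := by push_cast; ring
    rw [h1, hXf _ _ hr, hXf' _ _ (by omega), inv]
    exact W.adj_getVert_succ (by omega)
  have hpath := axa_path conn hadj
  have hlt : ∀ a b : ℤ, a < b → X a ≠ X b := by
    intro a b hab heq
    obtain ⟨k, r, hr, hkr⟩ := hdec (b - a)
    have hb : b = (a + r) + k * τ := by linarith
    have h1 : X (a + r) = tr (g ^ (-k)) (X a) := by
      rw [heq, hb, hper, ← tr_mul, ← zpow_add, neg_add_cancel, zpow_zero, tr_one]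
    have h2 := hM (X a) (g ^ (-k)) (by
      rw [← h1]
      exact lt_of_le_of_lt (hpath a r) hr)
    rw [hom] at h2
    have h3 : k = 0 := by
      rcases mul_eq_zero.1 h2 with h | h
      · have h4 : -k = 0 := by exact_mod_cast h
        omega
      · exact absurd h hgpos.ne'
    subst h3
    have hr0 : 0 < r := by
      rw [zero_mul, zero_add] at hkr
      omega
    rw [neg_zero, zpow_zero, tr_one] at h1
    have h4 := hM (X a) g (by
      have h5 : tr g (X a) = X ((a + r) + ((τ - r : ℕ) : ℤ)) := by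
        have h6 := hper 1 a
        rw [zpow_one] at h6
        rw [← h6]
        congr 1
        push_cast [hr.le]
        ring
      rw [h5]
      have h7 := hpath (a + r) (τ - r)
      rw [h1] at h7
      omega)
    exact hgpos.ne' h4
  refine ⟨x0.2, g, X, τ, hgpos, hτ, ?_, hadj, ?_, ?_, ?_⟩
  · have h1 := hXf 0 0 (by omega)
    have h2 : (0 : ℤ) * (τ : ℤ) + (0 : ℕ) = 0 := by push_cast; ring
    rw [h2, zpow_zero, tr_one, SimpleGraph.Walk.getVert_zero] at h1
    exact h1
  · intro a b hab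
    rcases lt_trichotomy a b with h | h | h
    · exact absurd hab (hlt a b h)
    · exact h
    · exact absurd hab.symm (hlt b a h)
  · intro j
    have h1 := hper 1 j
    rwa [one_mul, zpow_one] at h1
  · intro m b k hm hj
    set i : ℕ := m / τ with hi
    set r : ℕ := m % τ with hr
    have hrτ : r < τ := Nat.mod_lt _ (by omega)
    have hmir : m = i * τ + r := by
      rw [hi, hr, mul_comm]
      exact (Nat.div_add_mod m τ).symm
    have hj' : ∀ j, k ≤ j → j ≤ k + (τ ^ 2 : ℕ) → X (r + j) = tr (g ^ (-(i : ℤ)) * b) (X j) := by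
      intro j h1 h2
      have h3 := hj j h1 h2
      have h4 : (m : ℤ) + j = (r + j) + (i : ℤ) * τ := by
        rw [hmir]
        push_cast
        ring
      rw [h4, hper] at h3
      rw [tr_mul, ← h3, ← tr_mul, ← zpow_add, neg_add_cancel, zpow_zero, tr_one]
    have hsq : (0 : ℤ) ≤ ((τ ^ 2 : ℕ) : ℤ) := Int.natCast_nonneg _
    rcases Nat.eq_zero_or_pos r with h0 | h0
    · refine ⟨i, ?_, by rw [hmir, h0, add_zero]⟩
      have h1 := hj' k le_rfl (by omega)
      rw [h0, Nat.cast_zero, zero_add] at h1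
      have h2 : g ^ (-(i : ℤ)) * b = 1 := by
        apply axa_fst (x := X k)
        rw [tr_one]
        exact h1.symm
      rw [zpow_neg, inv_mul_eq_one, zpow_natCast] at h2
      exact h2.symm
    · exfalso
      set b' := g ^ (-(i : ℤ)) * b with hb'
      have h1 := hM (X k) b' (by
        rw [← hj' k le_rfl (by omega), add_comm]
        exact lt_of_le_of_lt (hpath k r) hrτ)
      have h2 : ∀ s : ℕ, s ≤ τ → X (k + r * s) = tr (b' ^ s) (X k) := by
        intro s
        induction s with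
        | zero =>
          intro _
          rw [pow_zero, tr_one]
          simp
        | succ s ih =>
          intro hs
          have h3 := ih (by omega)
          have hrs : r * s ≤ τ ^ 2 := by
            rw [sq]
            exact Nat.mul_le_mul hrτ.le (by omega)
          have h4 := hj' (k + r * s) (le_add_of_nonneg_right (by positivity)) (by
            have : ((r * s : ℕ) : ℤ) ≤ ((τ ^ 2 : ℕ) : ℤ) := by exact_mod_cast hrs
            push_cast at this ⊢
            linarith)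
          have h5 : (k : ℤ) + r * ((s + 1 : ℕ) : ℤ) = r + (k + r * s) := by push_cast; ring
          rw [h5, h4, h3, ← tr_mul, pow_succ']
      have h3 := h2 τ le_rfl
      have h4 := hper r k
      rw [h3] at h4
      have h5 := axa_fst h4
      have h6 : q (b' ^ τ) = q (g ^ (r : ℤ)) := by rw [h5]
      rw [hom, ← zpow_natCast, hom, h1, mul_zero] at h6
      have h7 : (0 : ℝ) < (r : ℤ) * q g := by
        have : (0 : ℝ) < ((r : ℤ) : ℝ) := by exact_mod_cast h0
        positivity
      linarith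

end Pool.Agent.SWQ
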