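import Pool.Agent.SWQ.Defs

/-!
# SWQ module Bas: relative heights and the axis

PROOF.  `sg d x y = d.s (x.1⁻¹ * y.1)`, `Ax d x j = tr x.1 (d.X j)`.  `sg_tri`: `H.qm` for `x⁻¹ y` and `y⁻¹ z`.  `sg_self`: `H.qm 1 1`.
By induction (`Int.induction_on`, or for `g ^ n` and then for inverses) `d.s (d.g ^ i * a) = d.s a + i`, `d.s (a * d.g ^ i) = d.s a + i`
and `d.X (j + i * τ) = tr (d.g ^ i) (d.X j)` for `i : ℤ`.  Hence `Ax_mul`, `Ax_Ax`, `sg_Ax_left`, `sg_Ax_right`.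
`sg_Ax_ge`: `sg d x (Ax d x j) = d.s (d.X j).1 = n + d.s (d.X (j - n τ)).1 ≥ n - c0` (`H.c0up`); `sg_Ax_le`: `H.c0dn`.
`sg_bd`: `|sg d x y| ≤ m0` for adjacent `x, y` (the finitely many neighbours of the finitely many `(1, i)`; translate by `tr`).
By induction along the chain with `sg_tri`: `|sg d x v| ≤ (n + 1) * (m0 + 2 D)` for `v` in a chain of length `n` which starts at `x`; the same for
`sg d v x` (`sg_symm`).
-/

set_option autoImplicit false

open scoped ENNReal NNReal Classical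
open Filter Topology

namespace Pool.Agent.SWQ

open SWH

variable {Γ I : Type} [Group Γ] [Fintype I] {G : SimpleGraph (Γ × I)} {d : Dat Γ I} {θ : ℝ}

private theorem bas_sl (H : Hyq G d θ) (i : ℤ) : ∀ a, d.s (d.g ^ i * a) = d.s a + i := by
  induction i using Int.induction_on with
  | zero => intro a; simp
  | succ i ih =>
    intro a
    rw [zpow_add_one, mul_assoc, ih, H.sl]
    ring
  | pred i ih =>
    intro a
    rw [zpow_sub_one, mul_assoc, ih]
    have h1 := H.sl (d.g⁻¹ * a)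
    rw [mul_inv_cancel_left] at h1
    rw [h1]
    ring

private theorem bas_sr (H : Hyq G d θ) (i : ℤ) : ∀ a, d.s (a * d.g ^ i) = d.s a + i := by
  induction i using Int.induction_on with
  | zero => intro a; simp
  | succ i ih =>
    intro a
    rw [zpow_add_one, ← mul_assoc, H.sr, ih]
    ring
  | pred i ih =>
    intro a
    have h1 := H.sr (a * d.g ^ (-(i : ℤ) - 1))
    rw [mul_assoc, ← zpow_add_one, sub_add_cancel, ih] at h1
    linarith

private theorem bas_X (H : Hyq G d θ) (i : ℤ) : ∀ j, d.X (j + i * d.τ) = tr (d.g ^ i) (d.X j) := by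
  induction i using Int.induction_on with
  | zero => intro j; simp [tr]
  | succ i ih =>
    intro j
    have h1 : j + ((i : ℤ) + 1) * d.τ = (j + i * d.τ) + d.τ := by ring
    rw [h1, H.Xper, ih, ← tr_mul, add_comm (i : ℤ) 1, zpow_one_add]
  | pred i ih =>
    intro j
    have h1 := H.Xper (j + (-(i : ℤ) - 1) * d.τ)
    have h2 : j + (-(i : ℤ) - 1) * d.τ + d.τ = j + (-(i : ℤ)) * d.τ := by ring
    rw [h2, ih] at h1
    have h3 : tr d.g⁻¹ (tr (d.g ^ (-(i : ℤ))) (d.X j)) =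
        tr d.g⁻¹ (tr d.g (d.X (j + (-(i : ℤ) - 1) * d.τ))) := by rw [h1]
    rw [← tr_mul, ← tr_mul, inv_mul_cancel, tr_one] at h3
    rw [← h3]
    congr 1
    rw [sub_eq_add_neg, add_comm, zpow_add, zpow_neg_one]

private theorem bas_m0 (H : Hyq G d θ) : ∃ m0 : ℕ, ∀ x y, G.Adj x y → |sg d x y| ≤ m0 := by
  have hf : (⋃ i : I, (fun y : Γ × I => (d.s y.1).natAbs) '' G.neighborSet (1, i)).Finite :=
    Set.finite_iUnion (fun i => (H.fin _).image _)
  obtain ⟨M, hM⟩ := hf.bddAbove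
  refine ⟨M, ?_⟩
  intro x y hxy
  have h1 : G.Adj (tr x.1⁻¹ x) (tr x.1⁻¹ y) := (H.inv _ _ _).2 hxy
  have h2 : tr x.1⁻¹ x = (1, x.2) := by simp [tr]
  rw [h2] at h1
  have h3 : (d.s (tr x.1⁻¹ y).1).natAbs ≤ M :=
    hM (Set.mem_iUnion.2 ⟨x.2, tr x.1⁻¹ y, h1, rfl⟩)
  have h4 : sg d x y = d.s (tr x.1⁻¹ y).1 := rfl
  rw [h4, Int.abs_eq_natAbs]
  exact_mod_cast h3

theorem sg_tr (a : Γ) (x y : Γ × I) : sg d (tr a x) (tr a y) = sg d x y := by
  simp [sg, tr, mul_assoc]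

theorem sg_flip (x y : Γ × I) : sg d.flip x y = - sg d x y := by
  rfl

theorem Ax_flip (x : Γ × I) (j : ℤ) : Ax d.flip x j = Ax d x (-j) := by
  rfl

theorem Ax_tr (a : Γ) (x : Γ × I) (j : ℤ) : Ax d (tr a x) j = tr a (Ax d x j) := by
  simp [Ax, tr, mul_assoc]

theorem N_cast : (d.N : ℤ) = d.n1 * d.τ := by
  simp [Dat.N]

theorem sg_tri (H : Hyq G d θ) (x y z : Γ × I) : |sg d x z - sg d x y - sg d y z| ≤ d.D := by
  have h1 := H.qm (x.1⁻¹ * y.1) (y.1⁻¹ * z.1)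
  have h2 : x.1⁻¹ * y.1 * (y.1⁻¹ * z.1) = x.1⁻¹ * z.1 := by group
  rw [h2] at h1
  exact h1

theorem sg_self (H : Hyq G d θ) (x : Γ × I) : |sg d x x| ≤ d.D := by
  have h1 := sg_tri H x x x
  rw [abs_le] at h1 ⊢
  omega

theorem sg_symm (H : Hyq G d θ) (x y : Γ × I) : |sg d x y + sg d y x| ≤ 2 * d.D := by
  have h1 := sg_tri H x y x
  have h2 := sg_self H x
  rw [abs_le] at h1 h2 ⊢
  omega

theorem N_pos (H : Hyq G d θ) : 1 ≤ d.N := by
  have h1 := H.hn
  have h2 := H.τpos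
  unfold Dat.N
  exact Nat.mul_pos (by omega) h2

theorem Ax_zero (H : Hyq G d θ) {x : Γ × I} (hx : x.2 = d.i0) : Ax d x 0 = x := by
  unfold Ax
  rw [H.X0]
  refine Prod.ext ?_ hx.symm
  simp [tr]

theorem Ax_adj (H : Hyq G d θ) (x : Γ × I) (j : ℤ) : G.Adj (Ax d x j) (Ax d x (j + 1)) := by
  exact (H.inv _ _ _).2 (H.Xadj j)

theorem Ax_inj (H : Hyq G d θ) (x : Γ × I) : Function.Injective (Ax d x) := by
  intro i j hij
  apply H.Xinj
  have h1 : x.1 * (d.X i).1 = x.1 * (d.X j).1 := congrArg Prod.fst hij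
  have h2 : (d.X i).2 = (d.X j).2 := by
    have h3 := congrArg Prod.snd hij
    exact h3
  exact Prod.ext (mul_left_cancel h1) h2

theorem Ax_mul (H : Hyq G d θ) (x : Γ × I) (i : ℤ) : Ax d x (i * d.τ) = (x.1 * d.g ^ i, d.i0) := by
  have h1 := bas_X H i 0
  rw [zero_add, H.X0] at h1
  unfold Ax
  rw [h1]
  simp [tr]

theorem Ax_Ax (H : Hyq G d θ) (x : Γ × I) (i j : ℤ) : Ax d (Ax d x (i * d.τ)) j = Ax d x (i * d.τ + j) := by
  rw [Ax_mul H]
  unfold Ax
  have h1 := bas_X H i j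
  rw [add_comm] at h1
  rw [h1]
  exact tr_mul _ _ _

theorem sg_Ax_left (H : Hyq G d θ) (x : Γ × I) (i : ℤ) (v : Γ × I) :
    sg d (Ax d x (i * d.τ)) v = sg d x v - i := by
  rw [Ax_mul H]
  unfold sg
  have h1 : (x.1 * d.g ^ i)⁻¹ * v.1 = d.g ^ (-i) * (x.1⁻¹ * v.1) := by
    rw [mul_inv_rev, zpow_neg, mul_assoc]
  change d.s ((x.1 * d.g ^ i)⁻¹ * v.1) = _
  rw [h1, bas_sl H]
  ring

theorem sg_Ax_right (H : Hyq G d θ) (x : Γ × I) (i : ℤ) (v : Γ × I) :
    sg d v (Ax d x (i * d.τ)) = sg d v x + i := by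
  rw [Ax_mul H]
  unfold sg
  change d.s (v.1⁻¹ * (x.1 * d.g ^ i)) = _
  rw [← mul_assoc, bas_sr H]

theorem sg_Ax_ge (H : Hyq G d θ) (x : Γ × I) (n j : ℤ) (hj : n * d.τ ≤ j) : n - d.c0 ≤ sg d x (Ax d x j) := by
  have h1 : sg d x (Ax d x j) = d.s (d.X j).1 := by
    simp [sg, Ax, tr]
  have h2 := bas_X H n (j - n * d.τ)
  rw [sub_add_cancel] at h2
  have h3 : (d.X j).1 = d.g ^ n * (d.X (j - n * d.τ)).1 := by rw [h2]; rfl
  rw [h1, h3, bas_sl H]
  have h4 := H.c0up (j - n * d.τ) (by omega)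
  omega

theorem sg_Ax_le (H : Hyq G d θ) (x : Γ × I) (n j : ℤ) (hj : j ≤ n * d.τ) : sg d x (Ax d x j) ≤ n + d.c0 := by
  have h1 : sg d x (Ax d x j) = d.s (d.X j).1 := by
    simp [sg, Ax, tr]
  have h2 := bas_X H n (j - n * d.τ)
  rw [sub_add_cancel] at h2
  have h3 : (d.X j).1 = d.g ^ n * (d.X (j - n * d.τ)).1 := by rw [h2]; rfl
  rw [h1, h3, bas_sl H]
  have h4 := H.c0dn (j - n * d.τ) (by omega)
  omega

theorem sg_bd (H : Hyq G d θ) : ∃ B : ℕ → ℕ, Monotone B ∧ ∀ (x : Γ × I) (l : List (Γ × I)),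
    (x :: l).IsChain G.Adj → ∀ v ∈ x :: l, |sg d x v| ≤ B l.length ∧ |sg d v x| ≤ B l.length := by
  obtain ⟨m0, hm0⟩ := bas_m0 H
  refine ⟨fun n => (n + 1) * (m0 + d.D), ?_, ?_⟩
  · intro a b hab
    exact Nat.mul_le_mul_right _ (by omega)
  intro x l
  induction l generalizing x with
  | nil =>
    intro _ v hv
    have h1 : v = x := by simpa using hv
    subst h1
    have h2 := sg_self H v
    have h3 : ((((([] : List (Γ × I)).length + 1) * (m0 + d.D) : ℕ)) : ℤ) = m0 + d.D := by simp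
    constructor
    · refine h2.trans ?_
      change (d.D : ℤ) ≤ ((((([] : List (Γ × I)).length + 1) * (m0 + d.D) : ℕ)) : ℤ)
      rw [h3]; omega
    · refine h2.trans ?_
      change (d.D : ℤ) ≤ ((((([] : List (Γ × I)).length + 1) * (m0 + d.D) : ℕ)) : ℤ)
      rw [h3]; omega
  | cons y l ih =>
    intro hc v hv
    have hadj : G.Adj x y := by
      rw [List.isChain_cons_cons] at hc
      exact hc.1
    have hc' : (y :: l).IsChain G.Adj := by
      rw [List.isChain_cons_cons] at hc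
      exact hc.2
    have h0 : ((((y :: l).length + 1) * (m0 + d.D) : ℕ) : ℤ) =
        (((l.length + 1) * (m0 + d.D) : ℕ) : ℤ) + m0 + d.D := by
      push_cast [List.length_cons]
      ring
    have hpos : (0 : ℤ) ≤ (((l.length + 1) * (m0 + d.D) : ℕ) : ℤ) := Int.natCast_nonneg _
    change |sg d x v| ≤ ((((y :: l).length + 1) * (m0 + d.D) : ℕ) : ℤ) ∧
      |sg d v x| ≤ ((((y :: l).length + 1) * (m0 + d.D) : ℕ) : ℤ)
    rw [h0]
    rcases List.mem_cons.1 hv with rfl | hv'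
    · have h2 := sg_self H v
      constructor <;> omega
    · have h1 := ih y hc' v hv'
      change |sg d y v| ≤ (((l.length + 1) * (m0 + d.D) : ℕ) : ℤ) ∧
        |sg d v y| ≤ (((l.length + 1) * (m0 + d.D) : ℕ) : ℤ) at h1
      obtain ⟨h1a, h1b⟩ := h1
      have h2 := hm0 x y hadj
      have h3 := hm0 y x hadj.symm
      have h4 := sg_tri H x y v
      have h5 := sg_tri H v y x
      rw [abs_le] at h1a h1b h2 h3 h4 h5 ⊢
      rw [abs_le]
      generalize (((l.length + 1) * (m0 + d.D) : ℕ) : ℤ) = Bn at *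
      constructor <;> constructor <;> omega

end Pool.Agent.SWQ
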