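import Pool.Agent.SWQ.Ptf
import Pool.Agent.SWH.Brg

/-!
# SWQ module Byp: from walks to self-avoiding walks

PROOF.  `byp`: strong induction on `l.length`.  If `x :: l` has no repetition take `l' = l`.  Otherwise `l` has two positions `i < j ≤ l.length` with
`pt x l i = pt x l j`; replace `l` by `l.take i ++ l.drop j`, a shorter chain with the same ends (`endp_append`, `endp_drop`) and its vertices are
vertices of `x :: l`.  (Or by recursion on `l`, or with `SimpleGraph.Walk.bypass`.)
`byp_conn`: a walk `p : G.Walk x y`, `l = p.support.tail` is a chain; then `byp`.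
-/

set_option autoImplicit false

open scoped ENNReal NNReal Classical
open Filter Topology

namespace Pool.Agent.SWQ

open SWH

variable {V : Type} {G : SimpleGraph V}

private theorem byp_end {y x : V} {l a b : List V} (h : y :: l = a ++ x :: b) : endp y l = endp x b := by
  cases a with
  | nil =>
    rw [List.nil_append, List.cons.injEq] at h
    rw [h.1, h.2]
  | cons c a' =>
    rw [List.cons_append, List.cons.injEq] at h
    rw [h.2, endp_append, endp_cons]

theorem byp (x : V) (l : List V) (h : (x :: l).IsChain G.Adj) :
    ∃ l', Sw G x l' ∧ endp x l' = endp x l ∧ l'.length ≤ l.length ∧ ∀ v ∈ x :: l', v ∈ x :: l := by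
  induction l generalizing x with
  | nil => exact ⟨[], ⟨h, by simp⟩, rfl, le_rfl, fun v hv => hv⟩
  | cons y t ih =>
    rw [List.isChain_cons_cons] at h
    obtain ⟨l1, h1, h2, h3, h4⟩ := ih y h.2
    by_cases hx : x ∈ y :: l1
    · obtain ⟨a, b, hab⟩ := List.append_of_mem hx
      have hsub : ∀ v ∈ x :: b, v ∈ y :: l1 := by
        intro v hv
        rw [hab]
        exact List.mem_append_right a hv
      refine ⟨b, ⟨?_, ?_⟩, ?_, ?_, ?_⟩
      · have hc := h1.1
        rw [hab] at hc
        exact hc.right_of_append
      · have hn := h1.2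
        rw [hab] at hn
        exact (List.nodup_append.1 hn).2.1
      · rw [endp_cons, ← h2]
        exact (byp_end hab).symm
      · have hl := congrArg List.length hab
        rw [List.length_cons, List.length_append, List.length_cons] at hl
        rw [List.length_cons]
        omega
      · intro v hv
        exact List.mem_cons_of_mem x (h4 v (hsub v hv))
    · refine ⟨y :: l1, ⟨?_, ?_⟩, ?_, ?_, ?_⟩
      · rw [List.isChain_cons_cons]
        exact ⟨h.1, h1.1⟩
      · rw [List.nodup_cons]
        exact ⟨hx, h1.2⟩
      · rw [endp_cons, endp_cons, h2]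
      · rw [List.length_cons, List.length_cons]
        omega
      · intro v hv
        rcases List.mem_cons.1 hv with hv | hv
        · rw [hv]; exact List.mem_cons_self
        · exact List.mem_cons_of_mem x (h4 v hv)

private theorem byp_walk {x y : V} (p : G.Walk x y) : ∃ l, (x :: l).IsChain G.Adj ∧ endp x l = y := by
  induction p with
  | nil => exact ⟨[], by simp, rfl⟩
  | @cons u v w h p ih =>
    obtain ⟨l, h1, h2⟩ := ih
    refine ⟨v :: l, ?_, ?_⟩
    · rw [List.isChain_cons_cons]
      exact ⟨h, h1⟩
    · rw [endp_cons, h2]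

theorem byp_conn (h : G.Connected) (x y : V) : ∃ l, Sw G x l ∧ endp x l = y := by
  obtain ⟨p⟩ := h.preconnected x y
  obtain ⟨l, h1, h2⟩ := byp_walk p
  obtain ⟨l', h3, h4, -, -⟩ := byp x l h1
  exact ⟨l', h3, h4.trans h2⟩

end Pool.Agent.SWQ
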