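import Pool.Agent.SWQ.Defs

/-!
# SWQ module Ptf: vertices of walks, reversed walks

PROOF.  `pt x l j = endp x (l.take j)`.  All statements by induction on `l` (or `l1`) and the lemmas on `List.take`, `List.drop`, `endp_cons`,
`endp_append`.  `rv x l = (x :: l).reverse.tail`; `rv_cons`: the head of `(x :: l).reverse` is the last element of `x :: l`, i.e. `endp x l`.
`Sw_rv`: `List.nodup_reverse`, `List.isChain_reverse` and symmetry of `G.Adj`.
-/

set_option autoImplicit false

open scoped ENNReal NNReal Classical
open Filter Topology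

namespace Pool.Agent.SWQ

open SWH

variable {V : Type}

private theorem ptf_succ (x y : V) (l : List V) (j : ℕ) : pt x (y :: l) (j + 1) = pt y l j := by
  unfold pt
  rw [List.take_succ_cons, endp_cons]

private theorem ptf_get (x : V) (l : List V) {j : ℕ} (h : j ≤ l.length) :
    (x :: l)[j]? = some (pt x l j) := by
  induction l generalizing x j with
  | nil =>
    have : j = 0 := by simpa using h
    subst this
    simp [pt, endp]
  | cons y l ih =>
    cases j with
    | zero => simp [pt, endp]
    | succ j =>
      rw [ptf_succ, List.getElem?_cons_succ]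
      exact ih y (by simpa using h)

private theorem ptf_snoc (x a : V) (l : List V) : rv x (l ++ [a]) = (x :: l).reverse := by
  unfold rv
  simp

private theorem ptf_endp_snoc (x a : V) (l : List V) : endp x (l ++ [a]) = a := by
  rw [endp_append, endp_cons, endp_nil]

theorem pt_zero (x : V) (l : List V) : pt x l 0 = x := by
  simp [pt, endp]

theorem pt_length (x : V) (l : List V) : pt x l l.length = endp x l := by
  unfold pt
  rw [List.take_length]

theorem pt_ge (x : V) (l : List V) {j : ℕ} (h : l.length ≤ j) : pt x l j = endp x l := by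
  unfold pt
  rw [List.take_of_length_le h]

theorem pt_left (x : V) (l1 l2 : List V) {j : ℕ} (h : j ≤ l1.length) : pt x (l1 ++ l2) j = pt x l1 j := by
  unfold pt
  rw [List.take_append_of_le_length h]

theorem pt_right (x : V) (l1 l2 : List V) (j : ℕ) : pt x (l1 ++ l2) (l1.length + j) = pt (endp x l1) l2 j := by
  unfold pt
  rw [List.take_length_add_append, endp_append]

theorem pt_take (x : V) (l : List V) {j t : ℕ} (h : j ≤ t) : pt x (l.take t) j = pt x l j := by
  unfold pt
  rw [List.take_take, min_eq_left h]

theorem pt_drop (x : V) (l : List V) {t : ℕ} (h : t ≤ l.length) (j : ℕ) :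
    pt (pt x l t) (l.drop t) j = pt x l (t + j) := by
  have h1 := pt_right x (l.take t) (l.drop t) j
  rw [List.take_append_drop, List.length_take, min_eq_left h] at h1
  exact h1.symm

theorem endp_take (x : V) (l : List V) (t : ℕ) : endp x (l.take t) = pt x l t := rfl

theorem endp_drop (x : V) (l : List V) {t : ℕ} (h : t ≤ l.length) : endp (pt x l t) (l.drop t) = endp x l := by
  have h1 := endp_append x (l.take t) (l.drop t)
  rw [List.take_append_drop] at h1
  exact h1.symm

theorem pt_mem (x : V) (l : List V) (j : ℕ) : pt x l j ∈ x :: l := by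
  have h1 := endp_mem x (l.take j)
  rcases List.mem_cons.1 h1 with h | h
  · exact List.mem_cons.2 (Or.inl h)
  · exact List.mem_cons.2 (Or.inr (List.mem_of_mem_take h))

theorem mem_pt {x : V} {l : List V} {v : V} (h : v ∈ x :: l) : ∃ j ≤ l.length, pt x l j = v := by
  induction l generalizing x with
  | nil =>
    refine ⟨0, le_rfl, ?_⟩
    rw [pt_zero]
    exact (List.mem_singleton.1 h).symm
  | cons y l ih =>
    rcases List.mem_cons.1 h with h1 | h1
    · exact ⟨0, Nat.zero_le _, by rw [pt_zero, h1]⟩
    · obtain ⟨j, hj, hv⟩ := ih h1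
      exact ⟨j + 1, by simpa using hj, by rw [ptf_succ, hv]⟩

theorem mem_pt_pos {x : V} {l : List V} {v : V} (h : v ∈ l) : ∃ j, 1 ≤ j ∧ j ≤ l.length ∧ pt x l j = v := by
  cases l with
  | nil => simp at h
  | cons y l =>
    obtain ⟨j, hj, hv⟩ := mem_pt h
    exact ⟨j + 1, by omega, by simpa using hj, by rw [ptf_succ, hv]⟩

theorem pt_pos_mem (x : V) {l : List V} {j : ℕ} (h1 : 1 ≤ j) (h2 : j ≤ l.length) : pt x l j ∈ l := by
  cases l with
  | nil => simp only [List.length_nil] at h2; omega
  | cons y l =>
    obtain ⟨j, rfl⟩ : ∃ i, j = i + 1 := ⟨j - 1, by omega⟩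
    rw [ptf_succ]
    exact pt_mem y l j

theorem pt_inj {x : V} {l : List V} (h : (x :: l).Nodup) {i j : ℕ} (hi : i ≤ l.length) (hj : j ≤ l.length)
    (hij : pt x l i = pt x l j) : i = j := by
  have h1 := ptf_get x l hi
  have h2 := ptf_get x l hj
  rw [hij, ← h2] at h1
  exact (List.getElem?_inj (by simp only [List.length_cons]; omega) h).1 h1

theorem pt_ext {x : V} {l l' : List V} (h : l.length = l'.length)
    (hp : ∀ j ≤ l.length, pt x l j = pt x l' j) : l = l' := by
  have : x :: l = x :: l' := by
    apply List.ext_getElem?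
    intro i
    by_cases hi : i ≤ l.length
    · rw [ptf_get x l hi, ptf_get x l' (h ▸ hi), hp i hi]
    · rw [List.getElem?_eq_none (by simp only [List.length_cons]; omega),
        List.getElem?_eq_none (by simp only [List.length_cons]; omega)]
  exact (List.cons_eq_cons.1 this).2

theorem pt_map {Γ I : Type} [Group Γ] (a : Γ) (x : Γ × I) (l : List (Γ × I)) (j : ℕ) :
    pt (tr a x) (l.map (tr a)) j = tr a (pt x l j) := by
  unfold pt
  rw [← List.map_take, endp_map]

theorem chain_pt {G : SimpleGraph V} {x : V} {l : List V} :
    (x :: l).IsChain G.Adj ↔ ∀ j < l.length, G.Adj (pt x l j) (pt x l (j + 1)) := by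
  induction l generalizing x with
  | nil => simp
  | cons y l ih =>
    rw [List.isChain_cons_cons, ih]
    constructor
    · rintro ⟨h1, h2⟩ j hj
      cases j with
      | zero => rw [ptf_succ, pt_zero, pt_zero]; exact h1
      | succ j => rw [ptf_succ, ptf_succ]; exact h2 j (by simpa using hj)
    · intro h
      refine ⟨?_, fun j hj => ?_⟩
      · have := h 0 (by simp)
        rw [ptf_succ, pt_zero, pt_zero] at this
        exact this
      · have := h (j + 1) (by simpa using hj)
        rw [ptf_succ, ptf_succ] at this
        exact this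

theorem rv_length (x : V) (l : List V) : (rv x l).length = l.length := by
  unfold rv
  simp

theorem rv_cons (x : V) (l : List V) : endp x l :: rv x l = (x :: l).reverse := by
  rcases List.eq_nil_or_concat l with rfl | ⟨l', a, rfl⟩
  · simp [rv, endp]
  · rw [List.concat_eq_append, ptf_snoc, ptf_endp_snoc]
    simp

theorem endp_rv (x : V) (l : List V) : endp (endp x l) (rv x l) = x := by
  rcases List.eq_nil_or_concat l with rfl | ⟨l', a, rfl⟩
  · simp [rv, endp]
  · rw [List.concat_eq_append, ptf_snoc, List.reverse_cons, ptf_endp_snoc]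

theorem pt_rv (x : V) (l : List V) {j : ℕ} (h : j ≤ l.length) :
    pt (endp x l) (rv x l) j = pt x l (l.length - j) := by
  have h1 := ptf_get (endp x l) (rv x l) (j := j) (by rw [rv_length]; exact h)
  rw [rv_cons, List.getElem?_reverse (by simp only [List.length_cons]; omega)] at h1
  have h2 := ptf_get x l (j := l.length - j) (by omega)
  have h3 : (x :: l).length - 1 - j = l.length - j := by simp only [List.length_cons]; omega
  rw [h3, h2] at h1
  exact (Option.some_injective _ h1).symm

theorem rv_rv (x : V) (l : List V) : rv (endp x l) (rv x l) = l := by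
  have h1 : rv (endp x l) (rv x l) = (endp x l :: rv x l).reverse.tail := rfl
  rw [h1, rv_cons, List.reverse_reverse, List.tail_cons]

theorem mem_rv (x : V) (l : List V) (v : V) : v ∈ endp x l :: rv x l ↔ v ∈ x :: l := by
  rw [rv_cons, List.mem_reverse]

theorem chain_rv {G : SimpleGraph V} {x : V} {l : List V} (h : (x :: l).IsChain G.Adj) :
    (endp x l :: rv x l).IsChain G.Adj := by
  rw [rv_cons, List.isChain_reverse]
  exact h.imp (fun a b hab => hab.symm)

theorem Sw_rv {G : SimpleGraph V} {x : V} {l : List V} (h : Sw G x l) : Sw G (endp x l) (rv x l) := by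
  refine ⟨chain_rv h.1, ?_⟩
  rw [rv_cons, List.nodup_reverse]
  exact h.2

end Pool.Agent.SWQ
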