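import Pool.Agent.SWQ.Bas
import Pool.Agent.SWQ.Ptf
import Pool.Agent.SWH.Wtk
import Pool.Agent.SWH.Ker

/-!
# SWQ module Ivq: invariance of the classes of walks

PROOF.  `l ↦ l.map (tr a)` is injective; `List.isChain_map`, `List.nodup_map_iff`, `H.inv`, `endp_map`, `pt_map`, `List.map_take`, `List.map_drop`,
`List.map_append`, `sg_tr`, `Ax_tr`, `(hd d y).map (tr a) = hd d (tr a y)`.  For the classes with existential quantifiers translate `z, b, u` by `tr a` in
one direction, and apply this to `a⁻¹` for the other direction (`tr a⁻¹ (tr a x) = x`).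
-/

set_option autoImplicit false

open scoped ENNReal NNReal Classical
open Filter Topology

namespace Pool.Agent.SWQ

open SWH

variable {Γ I : Type} [Group Γ] [Fintype I] {G : SimpleGraph (Γ × I)} {d : Dat Γ I} {θ : ℝ}

private theorem Ivq_inv_tr (a : Γ) (x : Γ × I) : tr a⁻¹ (tr a x) = x := by
  rw [← tr_mul, inv_mul_cancel, tr_one]

private theorem Ivq_inv_map (a : Γ) (l : List (Γ × I)) : (l.map (tr a)).map (tr a⁻¹) = l := by
  rw [List.map_map]
  have h : (tr a⁻¹ ∘ tr a : Γ × I → Γ × I) = id := by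
    funext x
    exact Ivq_inv_tr a x
  rw [h, List.map_id]

/-- it is enough to prove one direction -/
private theorem Ivq_iff {P : Γ × I → List (Γ × I) → Prop}
    (h : ∀ (a : Γ) (x : Γ × I) (l : List (Γ × I)), P x l → P (tr a x) (l.map (tr a)))
    (a : Γ) (x : Γ × I) (l : List (Γ × I)) : P (tr a x) (l.map (tr a)) ↔ P x l := by
  refine ⟨fun h1 => ?_, h a x l⟩
  have h2 := h a⁻¹ _ _ h1
  rw [Ivq_inv_tr, Ivq_inv_map] at h2
  exact h2

theorem hd_tr (a : Γ) (y : Γ × I) : hd d (tr a y) = (hd d y).map (tr a) := by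
  unfold hd
  rw [List.map_map]
  refine List.map_congr_left fun k _ => ?_
  exact Ax_tr a y _

theorem Sw_inq (H : Hyq G d θ) (a : Γ) (x : Γ × I) (l : List (Γ × I)) :
    Sw G (tr a x) (l.map (tr a)) ↔ Sw G x l := by
  unfold Sw
  have h1 : tr a x :: l.map (tr a) = (x :: l).map (tr a) := rfl
  rw [h1, List.isChain_map, List.nodup_map_iff (fun _ _ h => tr_inj a h)]
  have h2 : (fun x y : Γ × I => G.Adj (tr a x) (tr a y)) = G.Adj := by
    funext x y
    exact propext (H.inv a x y)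
  rw [h2]

theorem Hw_inv (H : Hyq G d θ) (a : Γ) (x : Γ × I) (l : List (Γ × I)) :
    Hw G d (tr a x) (l.map (tr a)) ↔ Hw G d x l := by
  unfold Hw
  simp only [pt_map, Ax_tr, sg_tr, List.length_map, Sw_inq H, tr_snd]
  have h1 : ∀ u v : Γ × I, tr a u = tr a v ↔ u = v := fun u v => ⟨fun h => tr_inj a h, fun h => by rw [h]⟩
  simp only [h1]

theorem Eb_inv (H : Hyq G d θ) (a : Γ) (x : Γ × I) (l : List (Γ × I)) :
    Eb G d (tr a x) (l.map (tr a)) ↔ Eb G d x l := by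
  unfold Eb
  simp only [Hw_inv H, endp_map, pt_map, Ax_tr, sg_tr, List.length_map, tr_snd]
  have h1 : ∀ u v : Γ × I, tr a u = tr a v ↔ u = v := fun u v => ⟨fun h => tr_inj a h, fun h => by rw [h]⟩
  simp only [h1]

theorem Cd_inv (H : Hyq G d θ) (L : ℤ) (a : Γ) (x : Γ × I) (l : List (Γ × I)) :
    Cd G d L (tr a x) (l.map (tr a)) ↔ Cd G d L x l := by
  unfold Cd
  simp only [endp_map, pt_map, sg_tr, List.length_map, ← List.map_take, ← List.map_drop, hd_tr,
    ← List.map_append, Eb_inv H, Hw_inv H]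

theorem Sh_inv (H : Hyq G d θ) (a : Γ) (x : Γ × I) (l : List (Γ × I)) :
    Sh G d (tr a x) (l.map (tr a)) ↔ Sh G d x l := by
  unfold Sh
  simp only [Sw_inq H, endp_map, List.length_map, tr_snd]

private theorem Ivq_mem (a : Γ) (x : Γ × I) (l : List (Γ × I)) (P : Γ × I → Prop) :
    (∀ v ∈ tr a x :: l.map (tr a), P v) ↔ ∀ v ∈ x :: l, P (tr a v) := by
  have h1 : tr a x :: l.map (tr a) = (x :: l).map (tr a) := rfl
  rw [h1]
  simp only [List.mem_map]
  refine ⟨fun h v hv => h _ ⟨v, hv, rfl⟩, ?_⟩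
  rintro h _ ⟨v, hv, rfl⟩
  exact h v hv

private theorem Ivq_Dh (H : Hyq G d θ) (K R : ℕ) (a : Γ) (x : Γ × I) (l : List (Γ × I)) (z : Γ × I)
    (b : List (Γ × I)) (h : Dh G d K R x l z b) :
    Dh G d K R (tr a x) (l.map (tr a)) (tr a z) (b.map (tr a)) := by
  obtain ⟨h1, h2, h3, h4, h5⟩ := h
  refine ⟨?_, ?_, ?_, ?_, ?_⟩
  · rw [endp_map, h1]
  · rw [List.length_map]; exact h2
  · rw [List.length_map]; exact h3
  · rw [← List.map_append, Hw_inv H]; exact h4
  · rw [Ivq_mem a x l (fun v => (K : ℤ) ≤ sg d (tr a z) v)]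
    intro v hv
    rw [sg_tr]
    exact h5 v hv

theorem DH_inv (H : Hyq G d θ) (K R : ℕ) (a : Γ) (x : Γ × I) (l : List (Γ × I)) :
    DH G d K R (tr a x) (l.map (tr a)) ↔ DH G d K R x l := by
  refine Ivq_iff (P := DH G d K R) ?_ a x l
  rintro a x l ⟨h1, z, b, h2⟩
  exact ⟨(Sw_inq H a x l).2 h1, tr a z, b.map (tr a), Ivq_Dh H K R a x l z b h2⟩

theorem DU_inv (H : Hyq G d θ) (R : ℕ) (T : ℤ) (a : Γ) (x : Γ × I) (l : List (Γ × I)) :
    DU G d R T (tr a x) (l.map (tr a)) ↔ DU G d R T x l := by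
  refine Ivq_iff (P := DU G d R T) ?_ a x l
  rintro a x l ⟨z, b, u, h1, h2, h3, h4, h5⟩
  refine ⟨tr a z, b.map (tr a), u.map (tr a), ?_, ?_, ?_, ?_, ?_⟩
  · rw [endp_map, h1]
  · rw [List.length_map]; exact h2
  · rw [List.length_map]; exact h3
  · rw [← List.map_append, ← List.map_append, Eb_inv H]; exact h4
  · rw [← List.map_append, ← List.map_append, endp_map, sg_tr]; exact h5

theorem SH_inv (H : Hyq G d θ) (K R T C : ℕ) (a : Γ) (x : Γ × I) (l : List (Γ × I)) :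
    SH G d K R T C (tr a x) (l.map (tr a)) ↔ SH G d K R T C x l := by
  refine Ivq_iff (P := SH G d K R T C) ?_ a x l
  rintro a x l ⟨h1, h2, z, b, h3, h4⟩
  refine ⟨(Sw_inq H a x l).2 h1, ?_, tr a z, b.map (tr a), Ivq_Dh H K R a x l z b h3, ?_⟩
  · rw [Ivq_mem a x l (fun v => ∀ w ∈ tr a x :: l.map (tr a), |sg d v w| ≤ (T : ℤ))]
    intro v hv
    rw [Ivq_mem a x l (fun w => |sg d (tr a v) w| ≤ (T : ℤ))]
    intro w hw
    rw [sg_tr]
    exact h2 v hv w hw
  · rw [Ivq_mem a z b (fun w => ∀ v ∈ tr a x :: l.map (tr a), sg d v w ≤ (T : ℤ) + C)]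
    intro w hw
    rw [Ivq_mem a x l (fun v => sg d v (tr a w) ≤ (T : ℤ) + C)]
    intro v hv
    rw [sg_tr]
    exact h4 w hw v hv

theorem Ln_inv {P : Γ × I → List (Γ × I) → Prop} (hP : ∀ γ x l, P (tr γ x) (l.map (tr γ)) ↔ P x l) (n : ℕ) (γ : Γ)
    (x : Γ × I) (l : List (Γ × I)) : Ln P n (tr γ x) (l.map (tr γ)) ↔ Ln P n x l := by
  unfold Ln
  rw [hP, List.length_map]

end Pool.Agent.SWQ
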