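import Pool.Agent.SWQ.Bas
import Pool.Agent.SWQ.Byp
import Pool.Agent.SWQ.Ivq

/-!
# SWQ module Rfl: rays

PROOF.  `ray`: For each type `i` let `l` be a self-avoiding walk from `(1, i)` to some `p` of type `i0` (`byp_conn`; e.g. `p = (1, i0)`), `n = l.length`.  Let `k ≥ 0` be the largest number such that
`Ax p k` is a vertex of `(1, i) :: l` (`k = 0` is one, there are finitely many by `Ax_inj`), `Ax p k = pt (1, i) l c`.  The list `l.take c ++ [Ax p (k+1), ..., Ax p (c1 τ)]` is self-avoiding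
for all `c1` with `c1 τ ≥ k`; its end is `y = Ax p (c1 τ)` (type `i0`, `Ax_mul`).  Take `c1` large (depending on `m`, with `(c1 - n1) τ ≥ k`).  The last `N` steps are on the axis of `p`: `Ax y (-j) = Ax p (c1 τ - j)`
(`Ax_Ax`).  Heights: with `B` as in `sg_bd` (`b = B n`): vertices of `l`: `sg (1, i) v ≥ - b`; vertices `Ax p j`, `j ≥ 0`: `sg (1, i) v ≥ sg (1, i) p + sg p v - D ≥ - b - c0 - D` (`sg_Ax_ge`).
So `C = b + c0 + D`, maximum over the types.  Seen from `y`: `sg y v = sg p v - c1` (`sg_Ax_left`): for `v ∈ l`: `sg p v ≤ 2 b + 3 D`-like constant, fine for large `c1`; for `v = Ax p j`,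
`0 ≤ j ≤ (c1 - n1) τ`: `sg p v ≤ c1 - n1 + c0` (`sg_Ax_le`), so `sg y v ≤ c0 - n1 ≤ -κ` (`H.hn`).  `sg (1, i) y = sg (1, i) p + c1 ≥ m` for large `c1`.
For a general vertex `v = (a, i)` put `r v = (r (1, i)).map (tr a)`.  All conditions are invariant (`Sw_inq`, `pt_map`, `sg_tr`, `Ax_tr`).  `ℓ` = the maximal length.
`ray_mult`: `w ∈ v :: r v`, `v = (a, i)`, means `w = tr a u` with `u ∈ (1, i) :: r (1, i)`, and `a = w.1 * u.1⁻¹` is determined by `u`; so at most `b = card I * (ℓ + 1)` vertices `v`.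
-/

set_option autoImplicit false

open scoped ENNReal NNReal Classical
open Filter Topology

namespace Pool.Agent.SWQ

open SWH

variable {Γ I : Type} [Group Γ] [Fintype I] {G : SimpleGraph (Γ × I)} {d : Dat Γ I} {θ : ℝ}

theorem Dh_mono {K R R' : ℕ} (hR : R ≤ R') {x : Γ × I} {l : List (Γ × I)} {z : Γ × I} {b : List (Γ × I)}
    (h : Dh G d K R x l z b) : Dh G d K R' x l z b :=
  ⟨h.1, h.2.1.trans hR, h.2.2.1, h.2.2.2.1, h.2.2.2.2⟩

theorem Ray_mono {C C' m m' ℓ ℓ' : ℕ} (hC : C ≤ C') (hm : m' ≤ m) (hℓ : ℓ ≤ ℓ') {v : Γ × I} {r : List (Γ × I)}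
    (h : Ray G d C m ℓ v r) : Ray G d C' m' ℓ' v r := by
  obtain ⟨h1, h2, h3, h4, h5, h6, h7, h8⟩ := h
  refine ⟨h1, h2, h3, h4.trans hℓ, h5, fun w hw => ?_, h7, ?_⟩
  · have := h6 w hw
    have hC' : (C : ℤ) ≤ C' := by exact_mod_cast hC
    omega
  · have hm' : (m' : ℤ) ≤ m := by exact_mod_cast hm
    omega

private theorem rfl_pt_get {V : Type} (x : V) (l : List V) (j : ℕ) (h : j < l.length) :
    pt x l (j + 1) = l[j] := by
  induction l generalizing x j with
  | nil => simp at h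
  | cons a l ih =>
    cases j with
    | zero => simp [pt, endp_cons, endp_nil]
    | succ j =>
      have h1 : j < l.length := by simpa using h
      have h2 := ih a j h1
      unfold pt at h2 ⊢
      rw [List.take_succ_cons, endp_cons, h2]
      rfl

/-- A piece of the axis. -/
private noncomputable def rfl_seg (d : Dat Γ I) (p : Γ × I) (k : ℤ) (n : ℕ) : List (Γ × I) :=
  (List.range n).map (fun j : ℕ => Ax d p (k + 1 + j))

private theorem rfl_seg_length (p : Γ × I) (k : ℤ) (n : ℕ) : (rfl_seg d p k n).length = n := by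
  simp [rfl_seg]

private theorem rfl_seg_pt (p : Γ × I) (k : ℤ) (n j : ℕ) (hj : j ≤ n) :
    pt (Ax d p k) (rfl_seg d p k n) j = Ax d p (k + j) := by
  cases j with
  | zero => rw [pt_zero]; simp
  | succ j =>
    rw [rfl_pt_get _ _ _ (by rw [rfl_seg_length]; omega)]
    simp only [rfl_seg, List.getElem_map, List.getElem_range]
    congr 1
    push_cast
    ring

private theorem rfl_Ray_tr (H : Hyq G d θ) {C m ℓ : ℕ} {x : Γ × I} {l : List (Γ × I)} (a : Γ)
    (h : Ray G d C m ℓ x l) : Ray G d C m ℓ (tr a x) (l.map (tr a)) := by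
  obtain ⟨h1, h2, h3, h4, h5, h6, h7, h8⟩ := h
  refine ⟨(Sw_inq H a x l).2 h1, ?_, ?_, ?_, ?_, ?_, ?_, ?_⟩
  · rw [endp_map, tr_snd]
    exact h2
  · rw [List.length_map]
    exact h3
  · rw [List.length_map]
    exact h4
  · intro j hj
    rw [List.length_map, pt_map, endp_map, Ax_tr, h5 j hj]
  · intro w hw
    rw [← List.map_cons, List.mem_map] at hw
    obtain ⟨u, hu, rfl⟩ := hw
    rw [sg_tr]
    exact h6 u hu
  · intro j hj
    rw [List.length_map] at hj
    rw [endp_map, pt_map, sg_tr]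
    exact h7 j hj
  · rw [endp_map, sg_tr]
    exact h8

/-- The ray at one vertex. -/
private theorem rfl_one (H : Hyq G d θ) (x : Γ × I) : ∃ C : ℕ, ∀ m : ℕ, ∃ r : List (Γ × I),
    Ray G d C m r.length x r := by
  obtain ⟨B, -, hB⟩ := sg_bd H
  obtain ⟨l, hl, hend⟩ := byp_conn H.conn x ((1 : Γ), d.i0)
  set p : Γ × I := ((1 : Γ), d.i0) with hp
  set b : ℕ := B l.length with hb
  have hbd := hB x l hl.1
  have hpmem : p ∈ x :: l := by
    rw [← hend]
    exact endp_mem x l
  have hxmem : x ∈ x :: l := List.mem_cons_self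
  -- the last vertex of the axis on the walk
  have hfin : Set.Finite {k : ℕ | Ax d p (k : ℤ) ∈ x :: l} := by
    have h1 : Set.Finite {v : Γ × I | v ∈ x :: l} := List.finite_toSet _
    refine Set.Finite.of_injOn (f := fun k : ℕ => Ax d p (k : ℤ)) (t := {v | v ∈ x :: l})
      (fun k hk => hk) ?_ h1
    intro a _ c _ hac
    have := Ax_inj H p hac
    exact_mod_cast this
  have hne : (0 : ℕ) ∈ {k : ℕ | Ax d p (k : ℤ) ∈ x :: l} := by
    change Ax d p ((0 : ℕ) : ℤ) ∈ x :: l
    rw [Nat.cast_zero, Ax_zero H rfl]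
    exact hpmem
  obtain ⟨k, hk, hkmax⟩ := hfin.exists_maximal ⟨0, hne⟩
  have hkm : ∀ j : ℤ, (k : ℤ) < j → Ax d p j ∉ x :: l := by
    intro j hj hmem
    obtain ⟨j', rfl⟩ := Int.eq_ofNat_of_zero_le (by omega : (0 : ℤ) ≤ j)
    have h1 : j' ∈ {k : ℕ | Ax d p (k : ℤ) ∈ x :: l} := hmem
    have h2 : k ≤ j' := by omega
    have h3 := hkmax h1 h2
    omega
  obtain ⟨c, hc, hptc⟩ := mem_pt hk
  refine ⟨b + d.c0 + d.D, fun m => ?_⟩
  set c1 : ℕ := d.n1 + k + (2 * b + d.D + d.κ) + (m + b) with hc1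
  have hτ := H.τpos
  have hn := H.hn
  have hκ := H.hκ
  have hkτ : k + d.N ≤ c1 * d.τ := by
    have h1 : d.N = d.n1 * d.τ := rfl
    have h2 : c1 * d.τ = d.n1 * d.τ + k * d.τ + ((2 * b + d.D + d.κ) + (m + b)) * d.τ := by
      rw [hc1]; ring
    have h3 : k ≤ k * d.τ := Nat.le_mul_of_pos_right _ (by omega)
    rw [h1, h2]
    omega
  set n : ℕ := c1 * d.τ - k with hnn
  have hnN : d.N ≤ n := by omega
  have hsum : (k : ℤ) + (n : ℤ) = (c1 : ℤ) * d.τ := by
    have h1 : k + n = c1 * d.τ := by omega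
    exact_mod_cast h1
  set r : List (Γ × I) := l.take c ++ rfl_seg d p k n with hr
  have hlen1 : (l.take c).length = c := by
    rw [List.length_take]
    omega
  have hlen : r.length = c + n := by
    rw [hr, List.length_append, hlen1, rfl_seg_length]
  have hpt1 : ∀ j ≤ c, pt x r j = pt x l j := by
    intro j hj
    rw [hr, pt_left x _ _ (by omega), pt_take x l hj]
  have hpt2 : ∀ j ≤ n, pt x r (c + j) = Ax d p ((k : ℤ) + j) := by
    intro j hj
    have h1 := pt_right x (l.take c) (rfl_seg d p k n) j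
    rw [hlen1] at h1
    rw [hr, h1, endp_take, hptc, rfl_seg_pt p k n j hj]
  have hendr : endp x r = Ax d p ((c1 : ℤ) * d.τ) := by
    rw [← pt_length, hlen, hpt2 n le_rfl, hsum]
  have hsub : ∀ v ∈ x :: l.take c, v ∈ x :: l := by
    intro v hv
    rw [List.mem_cons] at hv ⊢
    rcases hv with hv | hv
    · exact Or.inl hv
    · exact Or.inr (List.mem_of_mem_take hv)
  have hsegmem : ∀ v ∈ rfl_seg d p k n, ∃ j : ℤ, (k : ℤ) < j ∧ v = Ax d p j := by
    intro v hv
    rw [rfl_seg, List.mem_map] at hv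
    obtain ⟨j, -, rfl⟩ := hv
    exact ⟨(k : ℤ) + 1 + j, by omega, rfl⟩
  have hSw : Sw G x r := by
    constructor
    · rw [chain_pt]
      intro j hj
      by_cases h1 : j < c
      · rw [hpt1 j h1.le, hpt1 (j + 1) h1]
        exact chain_pt.1 hl.1 j (by omega)
      · obtain ⟨j', rfl⟩ := Nat.exists_eq_add_of_le (not_lt.1 h1)
        rw [hlen] at hj
        rw [hpt2 j' (by omega), add_assoc, hpt2 (j' + 1) (by omega)]
        have h2 := Ax_adj H p ((k : ℤ) + j')
        have h3 : (k : ℤ) + ((j' + 1 : ℕ) : ℤ) = (k : ℤ) + j' + 1 := by push_cast; ring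
        rw [h3]
        exact h2
    · rw [hr, ← List.cons_append, List.nodup_append']
      refine ⟨?_, ?_, ?_⟩
      · have h1 : (x :: l.take c).Sublist (x :: l) := (List.take_sublist c l).cons_cons x
        exact h1.nodup hl.2
      · rw [rfl_seg]
        refine List.Nodup.map ?_ List.nodup_range
        intro a a' haa
        have := Ax_inj H p haa
        omega
      · intro v hv hv'
        obtain ⟨j, hj, rfl⟩ := hsegmem v hv'
        exact hkm j hj (hsub _ hv)
  refine ⟨r, hSw, ?_, ?_, le_rfl, ?_, ?_, ?_, ?_⟩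
  · rw [hendr, Ax_mul H]
  · omega
  · intro j hj
    have h1 : r.length - j = c + (n - j) := by omega
    rw [h1, hpt2 _ (by omega), hendr, Ax_Ax H]
    congr 1
    have h2 : ((n - j : ℕ) : ℤ) = (n : ℤ) - j := by omega
    rw [h2]
    linarith
  · intro w hw
    rw [hr, ← List.cons_append, List.mem_append] at hw
    push_cast
    rcases hw with hw | hw
    · have h1 := (hbd w (hsub w hw)).1
      rw [abs_le] at h1
      omega
    · obtain ⟨j, hj, rfl⟩ := hsegmem w hw
      have h1 := (hbd p hpmem).1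
      have h2 := sg_tri H x p (Ax d p j)
      have h3 := sg_Ax_ge H p 0 j (by rw [zero_mul]; omega)
      rw [abs_le] at h1 h2
      omega
  · intro j hj
    rw [hendr, sg_Ax_left H]
    by_cases h1 : j ≤ c
    · rw [hpt1 j h1]
      have h2 := (hbd _ (pt_mem x l j)).1
      have h3 := (hbd p hpmem).2
      have h4 := sg_tri H p x (pt x l j)
      rw [abs_le] at h2 h3 h4
      have h5 : (c1 : ℤ) = d.n1 + k + (2 * b + d.D + d.κ) + (m + b) := by
        rw [hc1]; push_cast; ring
      omega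
    · obtain ⟨j', rfl⟩ := Nat.exists_eq_add_of_le (not_le.1 h1).le
      rw [hlen] at hj
      rw [hpt2 j' (by omega)]
      have h2 := sg_Ax_le H p ((c1 : ℤ) - d.n1) ((k : ℤ) + j') (by
        have h3 : (d.N : ℤ) = d.n1 * d.τ := N_cast
        have h4 : ((c1 : ℤ) - d.n1) * d.τ = c1 * d.τ - d.N := by rw [h3]; ring
        rw [h4, ← hsum]
        omega)
      omega
  · rw [hendr, sg_Ax_right H]
    have h1 := (hbd p hpmem).1
    rw [abs_le] at h1
    have h5 : (c1 : ℤ) = d.n1 + k + (2 * b + d.D + d.κ) + (m + b) := by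
      rw [hc1]; push_cast; ring
    omega

theorem ray (H : Hyq G d θ) : ∃ C : ℕ, ∀ m : ℕ, ∃ (ℓ : ℕ) (r : Γ × I → List (Γ × I)),
    (∀ a v, r (tr a v) = (r v).map (tr a)) ∧ ∀ v, Ray G d C m ℓ v (r v) := by
  choose C hC using fun i : I => rfl_one H ((1 : Γ), i)
  refine ⟨∑ i, C i, fun m => ?_⟩
  choose r hr using fun i : I => hC i m
  refine ⟨∑ i, (r i).length, fun v => (r v.2).map (tr v.1), ?_, ?_⟩
  · intro a v
    rw [List.map_map]
    exact List.map_congr_left fun u _ => tr_mul a v.1 u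
  · intro v
    have h1 := rfl_Ray_tr H v.1 (hr v.2)
    have h2 : tr v.1 ((1 : Γ), v.2) = v := by
      unfold tr
      simp
    rw [h2] at h1
    exact Ray_mono (Finset.single_le_sum (f := C) (fun i _ => Nat.zero_le _) (Finset.mem_univ v.2))
      le_rfl (Finset.single_le_sum (f := fun i => (r i).length) (fun i _ => Nat.zero_le _)
        (Finset.mem_univ v.2)) h1

theorem ray_mult {r : Γ × I → List (Γ × I)} (hr : ∀ a v, r (tr a v) = (r v).map (tr a)) {ℓ : ℕ}
    (hℓ : ∀ v, (r v).length ≤ ℓ) : ∃ b : ℕ, ∀ (w : Γ × I) (L : List (Γ × I)), L.Nodup →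
      (∀ v ∈ L, w ∈ v :: r v) → L.length ≤ b := by
  refine ⟨∑ _i : I, (ℓ + 1), fun w L hL hw => ?_⟩
  have h1 : L.toFinset ⊆ Finset.univ.biUnion (fun i : I =>
      (((1 : Γ), i) :: r ((1 : Γ), i)).toFinset.image (fun u => (w.1 * u.1⁻¹, i))) := by
    intro v hv
    rw [List.mem_toFinset] at hv
    rw [Finset.mem_biUnion]
    refine ⟨v.2, Finset.mem_univ _, ?_⟩
    rw [Finset.mem_image]
    have h2 : tr v.1 ((1 : Γ), v.2) = v := by
      unfold tr
      simp
    have h3 := hw v hv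
    have h4 : v :: r v = (((1 : Γ), v.2) :: r ((1 : Γ), v.2)).map (tr v.1) := by
      rw [List.map_cons, ← hr, h2]
    rw [h4, List.mem_map] at h3
    obtain ⟨u, hu, huw⟩ := h3
    refine ⟨u, List.mem_toFinset.2 hu, ?_⟩
    rw [← huw]
    unfold tr
    simp
  rw [← List.toFinset_card_of_nodup hL]
  refine (Finset.card_le_card h1).trans (Finset.card_biUnion_le.trans ?_)
  refine Finset.sum_le_sum fun i _ => Finset.card_image_le.trans ?_
  refine (List.toFinset_card_le _).trans ?_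
  rw [List.length_cons]
  have := hℓ ((1 : Γ), i)
  omega

end Pool.Agent.SWQ
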