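import Pool.Agent.SWQ.Hdf
import Pool.Agent.SWQ.Rfl

/-!
# SWQ module Gen: general walks

PROOF.  Let `C` be as in `ray` for `H.flip`, `K0 = κ + C + D + n1 + c0 + 1`, `K ≥ K0`, `m = K + 4 D`, `ℓ, r` as in `ray` for `H.flip`, `R0 = ℓ`.  Let `v ∈ x :: l` with `sg d.flip x v` maximal
(i.e. `sg d x v` minimal), `z = endp v (r v)`.  As in module Lrg (for `d.flip`): `sg d.flip z w ≤ -K` for all `w ∈ x :: l`, i.e. `sg d z w ≥ K`.  Let `q` be the largest number `≤ (r v).length` with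
`pt v (r v) q ∈ x :: l`, `v1 = pt v (r v) q = pt x l c`, `u = (r v).drop q`, `b = rv v1 u` (a walk from `z` to `v1`).  As in module Brk, (0): `q + N ≤ (r v).length`
(`sg d.flip z v1 ≥ -n1 - c0` otherwise).
`Dh d K R v1 (l.drop c) z b` and `Dh d K R v1 (rv x (l.take c)) z b`: `endp z b = v1`, `N ≤ b.length ≤ ℓ`; `Sw z (b ++ ..)`: the vertices of `z :: b` are `pt v (r v) j`, `j ≥ q`, for `j > q` not in `x :: l`;
first `N` vertices: `pt z b j = pt v (r v) (.. - j) = Ax d.flip z (-j) = Ax d z j`; heights: `Ray` for `d.flip`: `sg d z w = - sg d.flip z w ≥ κ`; for `w ∈ x :: l` `≥ K ≥ κ`.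
The vertices of `rv x (l.take c)` are vertices of `x :: l` (`mem_rv`), `Sw_rv`.
-/

set_option autoImplicit false

open scoped ENNReal NNReal Classical
open Filter Topology

namespace Pool.Agent.SWQ

open SWH

variable {Γ I : Type} [Group Γ] [Fintype I] {G : SimpleGraph (Γ × I)} {d : Dat Γ I} {θ : ℝ}

private theorem gen_aux (H : Hyq G d θ) {C m ℓ K R : ℕ} {v z v1 : Γ × I} {r L l' : List (Γ × I)} {q : ℕ}
    (hKκ : d.κ + d.n1 + d.c0 + 1 ≤ K) (hR : ℓ ≤ R) (hray : Ray G d.flip C m ℓ v r) (hz : z = endp v r)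
    (hL : ∀ w ∈ L, (K : ℤ) ≤ sg d z w) (hq : q ≤ r.length) (hv1 : v1 = pt v r q) (hv1L : v1 ∈ L)
    (hlast : ∀ j, q < j → j ≤ r.length → pt v r j ∉ L)
    (hSw : Sw G v1 l') (hsub : ∀ w ∈ v1 :: l', w ∈ L) :
    Dh G d K R v1 l' z (rv v1 (r.drop q)) := by
  obtain ⟨rSw, rty, rN, rℓ, rax, rC, rκ, rm⟩ := hray
  rw [← hz] at rty rax rκ rm
  have rN' : d.N ≤ r.length := rN
  have hax : ∀ j : ℕ, j ≤ d.N → pt v r (r.length - j) = Ax d z j := by
    intro j hj
    have h1 := rax j hj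
    rw [Ax_flip, neg_neg] at h1
    exact h1
  have hκ : ∀ j : ℕ, j + d.N ≤ r.length → (d.κ : ℤ) ≤ sg d z (pt v r j) := by
    intro j hj
    have h1 := rκ j hj
    rw [sg_flip] at h1
    have h2 : d.flip.κ = d.κ := rfl
    rw [h2] at h1
    omega
  have h0 : q + d.N ≤ r.length := by
    by_contra hcon
    push Not at hcon
    have h1 := hax (r.length - q) (by omega)
    have h2 : r.length - (r.length - q) = q := by omega
    rw [h2, ← hv1] at h1
    have h3 := hL v1 hv1L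
    rw [h1] at h3
    have h4 : ((r.length - q : ℕ) : ℤ) ≤ (d.n1 : ℤ) * d.τ := by
      have h5 : r.length - q ≤ d.n1 * d.τ := by
        have : d.N = d.n1 * d.τ := rfl
        omega
      exact_mod_cast h5
    have h6 := sg_Ax_le H z (d.n1 : ℤ) ((r.length - q : ℕ) : ℤ) h4
    omega
  obtain ⟨u, hu⟩ : ∃ u, u = r.drop q := ⟨_, rfl⟩
  have hulen : u.length = r.length - q := by rw [hu, List.length_drop]
  have hendu : endp v1 u = z := by
    rw [hu, hv1, hz]
    exact endp_drop v r hq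
  have hptu : ∀ j, pt v1 u j = pt v r (q + j) := by
    intro j
    rw [hu, hv1]
    exact pt_drop v r hq j
  rw [← hu]
  have hendb : endp z (rv v1 u) = v1 := by
    rw [← hendu]
    exact endp_rv v1 u
  have hblen : (rv v1 u).length = r.length - q := by rw [rv_length, hulen]
  have hptb : ∀ j, j ≤ r.length - q → pt z (rv v1 u) j = pt v r (r.length - j) := by
    intro j hj
    rw [← hendu, pt_rv v1 u (by omega), hptu, hulen]
    congr 1
    omega
  have hSwr : Sw G v (r.take q ++ r.drop q) := by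
    rw [List.take_append_drop]
    exact rSw
  have hSwu : Sw G v1 u := by
    have h1 := (Sw_split hSwr).2
    rw [endp_take, ← hv1, ← hu] at h1
    exact h1
  have hSwb : Sw G z (rv v1 u) := by
    have h1 := Sw_rv hSwu
    rw [hendu] at h1
    exact h1
  have hmemb : ∀ w ∈ z :: rv v1 u, ∃ j, q ≤ j ∧ j ≤ r.length ∧ pt v r j = w := by
    intro w hw
    obtain ⟨j, hj, hjw⟩ := mem_pt hw
    rw [hblen] at hj
    rw [hptb j hj] at hjw
    exact ⟨r.length - j, by omega, by omega, hjw⟩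
  refine ⟨hendb, ?_, ?_, ⟨rty, ?_, ?_, ?_, ?_⟩, ?_⟩
  · rw [hblen]; omega
  · rw [hblen]; omega
  · refine Sw_append hSwb (by rw [hendb]; exact hSw) ?_
    intro w hw hw2
    obtain ⟨j, hj1, hj2, hj3⟩ := hmemb w hw
    rcases Nat.lt_or_ge q j with h | h
    · exact hlast j h hj2 (by rw [hj3]; exact hsub w (List.mem_cons_of_mem _ hw2))
    · have h1 : j = q := by omega
      rw [h1, ← hv1] at hj3
      rw [← hj3] at hw2
      exact (List.nodup_cons.1 hSw.2).1 hw2
  · rw [List.length_append, hblen]; omega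
  · intro j hj
    rw [pt_left _ _ _ (by rw [hblen]; omega), hptb j (by omega)]
    exact hax j hj
  · intro j hj
    by_cases hjb : j ≤ (rv v1 u).length
    · rw [pt_left _ _ _ hjb]
      rw [hblen] at hjb
      rw [hptb j hjb]
      exact hκ _ (by omega)
    · have h1 : j = (rv v1 u).length + (j - (rv v1 u).length) := by omega
      rw [h1, pt_right, hendb]
      have h2 := hL _ (hsub _ (pt_mem v1 l' (j - (rv v1 u).length)))
      omega
  · intro w hw
    exact hL w (hsub w hw)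

theorem gen (H : Hyq G d θ) : ∃ K0 : ℕ, ∀ K ≥ K0, ∃ R0 : ℕ, ∀ R ≥ R0, ∀ x l, Sw G x l →
    ∃ c ≤ l.length, DH G d K R (pt x l c) (l.drop c) ∧ DH G d K R (pt x l c) (rv x (l.take c)) := by
  obtain ⟨C, hC⟩ := ray H.flip
  refine ⟨d.κ + C + d.D + d.n1 + d.c0 + 1, fun K hK => ?_⟩
  obtain ⟨ℓ, r, _, hr⟩ := hC (K + 4 * d.D)
  refine ⟨ℓ, fun R hR x l hSw => ?_⟩
  obtain ⟨v, hv, hmin⟩ := Finset.exists_min_image (x :: l).toFinset (fun w => sg d x w)
    ⟨x, List.mem_toFinset.2 List.mem_cons_self⟩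
  rw [List.mem_toFinset] at hv
  have hmin' : ∀ w ∈ x :: l, sg d x v ≤ sg d x w := fun w hw => hmin w (List.mem_toFinset.2 hw)
  have hray := hr v
  have hray' : Ray G d.flip C (K + 4 * d.D) ℓ v (r v) := hr v
  obtain ⟨rSw, rty, rN, rℓ, rax, rC, rκ, rm⟩ := hray
  obtain ⟨z, hz⟩ : ∃ z, z = endp v (r v) := ⟨_, rfl⟩
  rw [← hz, sg_flip] at rm
  push_cast at rm
  have t1 := abs_le.1 (sg_tri H x v z)
  have t2 := abs_le.1 (sg_symm H x z)
  have hL : ∀ w ∈ x :: l, (K : ℤ) ≤ sg d z w := by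
    intro w hw
    have t3 := abs_le.1 (sg_tri H z x w)
    have t4 := hmin' w hw
    omega
  have hP0 : pt v (r v) 0 ∈ x :: l := by
    rw [pt_zero]
    exact hv
  set q := Nat.findGreatest (fun j => pt v (r v) j ∈ x :: l) (r v).length with hqdef
  have hq1 : q ≤ (r v).length := Nat.findGreatest_le _
  have hq2 : pt v (r v) q ∈ x :: l :=
    Nat.findGreatest_spec (P := fun j => pt v (r v) j ∈ x :: l) (Nat.zero_le _) hP0
  have hq3 : ∀ j, q < j → j ≤ (r v).length → pt v (r v) j ∉ x :: l := by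
    intro j h1 h2
    exact Nat.findGreatest_is_greatest (P := fun j => pt v (r v) j ∈ x :: l) h1 h2
  obtain ⟨c, hc, hcq⟩ := mem_pt hq2
  have hSs : Sw G x (l.take c ++ l.drop c) := by
    rw [List.take_append_drop]
    exact hSw
  have hS1 := (Sw_split hSs).1
  have hS2 := (Sw_split hSs).2
  rw [endp_take] at hS2
  have hS3 := Sw_rv hS1
  rw [endp_take] at hS3
  have hm : pt x l c ∈ x :: l := pt_mem x l c
  refine ⟨c, hc, ⟨hS2, z, rv (pt x l c) ((r v).drop q), ?_⟩, ⟨hS3, z, rv (pt x l c) ((r v).drop q), ?_⟩⟩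
  · refine gen_aux H (by omega) hR hray' hz hL hq1 hcq hm hq3 hS2 ?_
    intro w hw
    rcases List.mem_cons.1 hw with h | h
    · rw [h]; exact hm
    · exact List.mem_cons_of_mem _ (List.mem_of_mem_drop h)
  · refine gen_aux H (by omega) hR hray' hz hL hq1 hcq hm hq3 hS3 ?_
    intro w hw
    rw [← endp_take, mem_rv] at hw
    rcases List.mem_cons.1 hw with h | h
    · rw [h]; exact List.mem_cons_self
    · exact List.mem_cons_of_mem _ (List.mem_of_mem_take h)

end Pool.Agent.SWQ
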