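import Mathlib
import Pool.Agent.SWH.Defs

/-!
# SWQ: self-avoiding walks on nonamenable graphs with a quasimorphism (MP_69df71_pr): definitions

The vertex set is `Γ × I`, `Γ` acts by left multiplication on the first coordinate.  `s : Γ → ℤ` is a quasimorphism
with `s (g a) = s a + 1 = s (a g)`, `X : ℤ → Γ × I` is the axis of `g`: a self-avoiding path with `X 0 = (1, i0)` and
`X (j + τ) = g X j`.
`sg x y = s (x⁻¹ y)` is the relative height of `y` above `x`.  `Ax x` is the axis through the vertex `x` of type `i0`.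
`pt x l j` is the vertex number `j` of the walk with the first vertex `x` and the later vertices `l`.
`N = n1 * τ` is the length of a handle (an axis segment).
`Hw`: half-space walks: they start with a handle and afterwards their vertices are at relative height at least `κ` above
the first vertex.
`Eb`: bridges: half-space walks which end with a handle and whose vertices before this handle are at relative height
at most `- κ` seen from the last vertex.
`Cd L`: bridges of span at least `L` which cannot be cut.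
-/

set_option autoImplicit false

open scoped ENNReal NNReal Classical
open Filter Topology

noncomputable section

namespace Pool.Agent.SWQ

open SWH

/-- The data. -/
structure Dat (Γ I : Type) where
  i0 : I
  g : Γ
  s : Γ → ℤ
  X : ℤ → Γ × I
  D : ℕ
  τ : ℕ
  N0 : ℕ
  c0 : ℕ
  κ : ℕ
  n1 : ℕ

/-- The length of a handle. -/
def Dat.N {Γ I : Type} (d : Dat Γ I) : ℕ := d.n1 * d.τ

/-- The data upside down. -/
def Dat.flip {Γ I : Type} [Group Γ] (d : Dat Γ I) : Dat Γ I where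
  i0 := d.i0
  g := d.g⁻¹
  s := fun a => - d.s a
  X := fun j => d.X (-j)
  D := d.D
  τ := d.τ
  N0 := d.N0
  c0 := d.c0
  κ := d.κ
  n1 := d.n1

/-- The hypotheses.  `gap` is the spectral gap. -/
structure Hyq {Γ I : Type} [Group Γ] [Fintype I] (G : SimpleGraph (Γ × I)) (d : Dat Γ I) (θ : ℝ) : Prop where
  inv : ∀ (γ : Γ) (x y : Γ × I), G.Adj (tr γ x) (tr γ y) ↔ G.Adj x y
  conn : G.Connected
  fin : ∀ x, (G.neighborSet x).Finite
  pos : 0 < θ
  gap : ∀ f : Γ × I → ℝ, f.support.Finite →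
    ENNReal.ofReal θ * ∑' x, ENNReal.ofReal (f x ^ 2) ≤
      ∑' x, ∑' y, if G.Adj x y then ENNReal.ofReal ((f x - f y) ^ 2) else 0
  sl : ∀ a, d.s (d.g * a) = d.s a + 1
  sr : ∀ a, d.s (a * d.g) = d.s a + 1
  qm : ∀ a b, |d.s (a * b) - d.s a - d.s b| ≤ d.D
  X0 : d.X 0 = (1, d.i0)
  Xadj : ∀ j, G.Adj (d.X j) (d.X (j + 1))
  Xinj : Function.Injective d.X
  Xper : ∀ j, d.X (j + d.τ) = tr d.g (d.X j)
  τpos : 1 ≤ d.τ
  ovl : ∀ (m : ℕ) (b : Γ) (k : ℤ), 0 < m → (∀ j, k ≤ j → j ≤ k + d.N0 → d.X (m + j) = tr b (d.X j)) →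
    ∃ i : ℕ, b = d.g ^ i ∧ m = i * d.τ
  c0up : ∀ j, 0 ≤ j → -(d.c0 : ℤ) ≤ d.s (d.X j).1
  c0dn : ∀ j, j ≤ 0 → d.s (d.X j).1 ≤ d.c0
  hκ : d.c0 + d.D + 1 ≤ d.κ
  hn : d.κ + d.c0 + 2 * d.D + 1 ≤ d.n1
  hN : d.N0 ≤ d.n1 * d.τ

theorem flip_flip {Γ I : Type} [Group Γ] (d : Dat Γ I) : d.flip.flip = d := by
  cases d
  simp [Dat.flip]

theorem flip_N {Γ I : Type} [Group Γ] (d : Dat Γ I) : d.flip.N = d.N := rfl

theorem Hyq.flip {Γ I : Type} [Group Γ] [Fintype I] {G : SimpleGraph (Γ × I)} {d : Dat Γ I} {θ : ℝ}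
    (H : Hyq G d θ) : Hyq G d.flip θ where
  inv := H.inv
  conn := H.conn
  fin := H.fin
  pos := H.pos
  gap := H.gap
  sl := by
    intro a
    have h1 := H.sl (d.g⁻¹ * a)
    rw [mul_inv_cancel_left] at h1
    change - d.s (d.g⁻¹ * a) = - d.s a + 1
    omega
  sr := by
    intro a
    have h1 := H.sr (a * d.g⁻¹)
    rw [inv_mul_cancel_right] at h1
    change - d.s (a * d.g⁻¹) = - d.s a + 1
    omega
  qm := by
    intro a b
    have h1 := H.qm a b
    change |- d.s (a * b) - - d.s a - - d.s b| ≤ d.D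
    rw [abs_le] at h1 ⊢
    omega
  X0 := by
    change d.X (-0) = (1, d.i0)
    rw [neg_zero]
    exact H.X0
  Xadj := by
    intro j
    have h1 := (H.Xadj (-(j + 1))).symm
    have h2 : -(j + 1) + 1 = -j := by ring
    rw [h2] at h1
    exact h1
  Xinj := by
    intro a b hab
    have h1 := H.Xinj hab
    omega
  Xper := by
    intro j
    have h1 := H.Xper (-(j + d.τ))
    have h2 : -(j + (d.τ : ℤ)) + d.τ = -j := by ring
    rw [h2] at h1
    change d.X (-(j + d.τ)) = tr d.g⁻¹ (d.X (-j))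
    rw [h1, ← tr_mul, inv_mul_cancel, tr_one]
  τpos := H.τpos
  ovl := by
    intro m b k hm hj
    obtain ⟨i, h1, h2⟩ := H.ovl m b⁻¹ (-k - d.N0 - m) hm (by
      intro j h1 h2
      have h3 := hj (-j - m) (by omega) (by change (-j - m : ℤ) ≤ k + d.N0; omega)
      change d.X (-((m : ℤ) + (-j - m))) = tr b (d.X (-(-j - m))) at h3
      have h4 : -((m : ℤ) + (-j - m)) = j := by ring
      have h5 : -(-j - (m : ℤ)) = m + j := by ring
      rw [h4, h5] at h3
      rw [h3, ← tr_mul, inv_mul_cancel, tr_one])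
    refine ⟨i, ?_, h2⟩
    change b = d.g⁻¹ ^ i
    rw [inv_pow, ← h1, inv_inv]
  c0up := by
    intro j hj
    have h1 := H.c0dn (-j) (by omega)
    change -(d.c0 : ℤ) ≤ - d.s (d.X (-j)).1
    omega
  c0dn := by
    intro j hj
    have h1 := H.c0up (-j) (by omega)
    change - d.s (d.X (-j)).1 ≤ (d.c0 : ℤ)
    omega
  hκ := H.hκ
  hn := H.hn
  hN := H.hN

section
variable {Γ I : Type} [Group Γ]

/-- The relative height of `y` above `x`. -/
def sg (d : Dat Γ I) (x y : Γ × I) : ℤ := d.s (x.1⁻¹ * y.1)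

/-- The axis through `x`. -/
def Ax (d : Dat Γ I) (x : Γ × I) (j : ℤ) : Γ × I := tr x.1 (d.X j)

/-- The vertex number `j` of a walk. -/
def pt {V : Type} (x : V) (l : List V) (j : ℕ) : V := endp x (l.take j)

/-- The reversed walk: if `x :: l` is a walk to `y` then `y :: rv x l` is the reversed walk. -/
def rv {V : Type} (x : V) (l : List V) : List V := (x :: l).reverse.tail

/-- The handle above `y`. -/
def hd (d : Dat Γ I) (y : Γ × I) : List (Γ × I) := (List.range d.N).map (fun k => Ax d y ((k : ℤ) + 1))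

/-- Half-space walks. -/
def Hw (G : SimpleGraph (Γ × I)) (d : Dat Γ I) (x : Γ × I) (l : List (Γ × I)) : Prop :=
  x.2 = d.i0 ∧ Sw G x l ∧ d.N ≤ l.length ∧ (∀ j : ℕ, j ≤ d.N → pt x l j = Ax d x j) ∧
    ∀ j : ℕ, d.N ≤ j → (d.κ : ℤ) ≤ sg d x (pt x l j)

/-- Bridges. -/
def Eb (G : SimpleGraph (Γ × I)) (d : Dat Γ I) (x : Γ × I) (l : List (Γ × I)) : Prop :=
  Hw G d x l ∧ (endp x l).2 = d.i0 ∧ 2 * d.N ≤ l.length ∧
    (∀ j : ℕ, j ≤ d.N → pt x l (l.length - j) = Ax d (endp x l) (-(j : ℤ))) ∧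
    ∀ j : ℕ, j + d.N ≤ l.length → sg d (endp x l) (pt x l j) ≤ -(d.κ : ℤ)

/-- Bridges of span at least `L` which cannot be cut. -/
def Cd (G : SimpleGraph (Γ × I)) (d : Dat Γ I) (L : ℤ) (x : Γ × I) (l : List (Γ × I)) : Prop :=
  Eb G d x l ∧ L ≤ sg d x (endp x l) ∧ ∀ t : ℕ, t < l.length →
    ¬ (Eb G d x (l.take t) ∧ L ≤ sg d x (pt x l t) ∧ Hw G d (pt x l t) (l.drop t ++ hd d (endp x l)))

/-- Short walks between vertices of type `i0`. -/
def Sh (G : SimpleGraph (Γ × I)) (d : Dat Γ I) (x : Γ × I) (l : List (Γ × I)) : Prop :=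
  Sw G x l ∧ l.length < 2 * d.N ∧ x.2 = d.i0 ∧ (endp x l).2 = d.i0

/-- The part of the function `k` with `|s - T| ≤ w`. -/
def slc (d : Dat Γ I) (w : ℕ) (T : ℤ) (k : Γ → ℝ≥0∞) (a : Γ) : ℝ≥0∞ := if |d.s a - T| ≤ w then k a else 0

/-- The sum of the norms of the parts. -/
def Nw (d : Dat Γ I) (w : ℕ) (k : Γ → ℝ≥0∞) : ℝ≥0∞ := ∑' T : ℤ, nrm (slc d w T k)

/-- The part of the function `k` with `T ≤ s`. -/
def hi (d : Dat Γ I) (T : ℤ) (k : Γ → ℝ≥0∞) (a : Γ) : ℝ≥0∞ := if T ≤ d.s a then k a else 0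

/-- Walks which extend to half-space walks: `b` is a walk from `z` to `x`. -/
def Dh (G : SimpleGraph (Γ × I)) (d : Dat Γ I) (K R : ℕ) (x : Γ × I) (l : List (Γ × I)) (z : Γ × I)
    (b : List (Γ × I)) : Prop :=
  endp z b = x ∧ b.length ≤ R ∧ d.N ≤ b.length ∧ Hw G d z (b ++ l) ∧ ∀ v ∈ x :: l, (K : ℤ) ≤ sg d z v

/-- Walks with a handle at the first vertex. -/
def DH (G : SimpleGraph (Γ × I)) (d : Dat Γ I) (K R : ℕ) (x : Γ × I) (l : List (Γ × I)) : Prop :=
  Sw G x l ∧ ∃ z b, Dh G d K R x l z b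

/-- Walks with handles at both ends; `T` is a lower bound for the span. -/
def DU (G : SimpleGraph (Γ × I)) (d : Dat Γ I) (R : ℕ) (T : ℤ) (x : Γ × I) (l : List (Γ × I)) : Prop :=
  ∃ z b u, endp z b = x ∧ b.length ≤ R ∧ u.length ≤ R ∧ Eb G d z (b ++ l ++ u) ∧
    T ≤ sg d z (endp z (b ++ l ++ u))

/-- A ray at the vertex `v`: it ends with a handle. -/
def Ray (G : SimpleGraph (Γ × I)) (d : Dat Γ I) (C m ℓ : ℕ) (v : Γ × I) (r : List (Γ × I)) : Prop :=
  Sw G v r ∧ (endp v r).2 = d.i0 ∧ d.N ≤ r.length ∧ r.length ≤ ℓ ∧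
    (∀ j : ℕ, j ≤ d.N → pt v r (r.length - j) = Ax d (endp v r) (-(j : ℤ))) ∧
    (∀ w ∈ v :: r, -(C : ℤ) ≤ sg d v w) ∧
    (∀ j : ℕ, j + d.N ≤ r.length → sg d (endp v r) (pt v r j) ≤ -(d.κ : ℤ)) ∧
    (m : ℤ) ≤ sg d v (endp v r)

/-- Walks with a handle at the first vertex in a slab of height `T`. -/
def SH (G : SimpleGraph (Γ × I)) (d : Dat Γ I) (K R T C : ℕ) (x : Γ × I) (l : List (Γ × I)) : Prop :=
  Sw G x l ∧ (∀ v ∈ x :: l, ∀ w ∈ x :: l, |sg d v w| ≤ T) ∧
    ∃ z b, Dh G d K R x l z b ∧ ∀ w ∈ z :: b, ∀ v ∈ x :: l, sg d v w ≤ (T : ℤ) + C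

/-- The number of vertices of the ray at `v` in the list `L`. -/
def cnt {V : Type} (r : V → List V) (L : List V) (v : V) : ℕ := ((v :: r v).filter (fun w => w ∈ L)).length

/-- All vertices of the list but at most `M` have at most `k` vertices of the list on their rays. -/
def Pot {V : Type} (r r' : V → List V) (k M : ℕ) (L : List V) : Prop :=
  (L.filter (fun v => k < cnt r L v + cnt r' L v)).length ≤ M

/-- The class `P` with lengths at most `n`. -/
def Ln {V : Type} (P : V → List V → Prop) (n : ℕ) (x : V) (l : List V) : Prop := P x l ∧ l.length ≤ n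

end

end Pool.Agent.SWQ
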