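import Pool.Agent.SWQ.Ptf
import Pool.Agent.SWQ.Defs
import Pool.Agent.SWH.Wtk
import Pool.Agent.SWH.Ker

/-!
# SWQ module Gnk: the generating function of all walks

PROOF.  The right side is `∑' v, wt z (Ln DH n) v x * wt z (Ln DH n) v y`; expand both factors as sums over lists (as in the proof of `cmp_wt` in `Pool/Agent/SWH/Wtk.lean`): it is the sum of
`z ^ (l'.length + l2.length)` over all `(v, l', l2)` with `Ln DH n v l'`, `endp v l' = x`, `Ln DH n v l2`, `endp v l2 = y`.  For `l` with `SwN G n x l`, `endp x l = y`, choose `c` as in `hg`;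
the map `l ↦ (pt x l c, rv x (l.take c), l.drop c)` is injective (`rv_rv`: `l.take c = rv v (rv x (l.take c))`, `x = endp v l'`), and the lengths add up to `l.length` (`rv_length`).
-/

set_option autoImplicit false

open scoped ENNReal NNReal Classical
open Filter Topology

namespace Pool.Agent.SWQ

open SWH

variable {Γ I : Type} [Group Γ] [Fintype I] {G : SimpleGraph (Γ × I)} {d : Dat Γ I} {θ : ℝ}

private theorem Gnk_sub {α : Type} (p : α → Prop) [DecidablePred p] (f : α → ℝ≥0∞) :
    (∑' a, if p a then f a else 0) = ∑' a : {a // p a}, f a := by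
  have h1 : (∑' a : {a // p a}, f a) = ∑' a, Set.indicator {a | p a} f a := tsum_subtype {a | p a} f
  rw [h1]
  refine tsum_congr fun a => ?_
  by_cases h : p a
  · rw [if_pos h, Set.indicator_of_mem (show a ∈ {a | p a} from h)]
  · rw [if_neg h, Set.indicator_of_notMem (show a ∉ {a | p a} from h)]

private theorem Gnk_wt {V : Type} (z : ℝ≥0∞) (P : V → List V → Prop) (x y : V) :
    wt z P x y = ∑' l : {l : List V // P x l ∧ endp x l = y}, z ^ (l : List V).length := by
  unfold wt
  exact Gnk_sub (fun l : List V => P x l ∧ endp x l = y) (fun l => z ^ l.length)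

private theorem Gnk_cmp {V : Type} (z : ℝ≥0∞) (P : V → List V → Prop) (x y : V) :
    cmp (tp (wt z P)) (wt z P) x y = ∑' p : V × (List V × List V),
      if (P p.1 p.2.1 ∧ endp p.1 p.2.1 = x) ∧ (P p.1 p.2.2 ∧ endp p.1 p.2.2 = y) then
        z ^ (p.2.1.length + p.2.2.length) else 0 := by
  rw [ENNReal.tsum_prod (f := fun (v : V) (q : List V × List V) =>
      if (P v q.1 ∧ endp v q.1 = x) ∧ (P v q.2 ∧ endp v q.2 = y) then
        z ^ (q.1.length + q.2.length) else 0)]
  unfold SWH.cmp tp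
  refine tsum_congr fun v => ?_
  rw [ENNReal.tsum_prod (f := fun (l1 l2 : List V) =>
      if (P v l1 ∧ endp v l1 = x) ∧ (P v l2 ∧ endp v l2 = y) then
        z ^ (l1.length + l2.length) else 0)]
  unfold wt
  rw [← ENNReal.tsum_mul_right]
  refine tsum_congr fun l1 => ?_
  rw [← ENNReal.tsum_mul_left]
  refine tsum_congr fun l2 => ?_
  by_cases a1 : P v l1 ∧ endp v l1 = x
  · by_cases a2 : P v l2 ∧ endp v l2 = y
    · rw [if_pos a1, if_pos a2, if_pos ⟨a1, a2⟩, pow_add]
    · rw [if_neg a2, mul_zero, if_neg (fun h => a2 h.2)]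
  · rw [if_neg a1, zero_mul, if_neg (fun h => a1 h.1)]

theorem gnk {K R : ℕ} (hg : ∀ x l, Sw G x l → ∃ c ≤ l.length, DH G d K R (pt x l c) (l.drop c) ∧
      DH G d K R (pt x l c) (rv x (l.take c))) (z : ℝ≥0∞) (n : ℕ) (x y : Γ × I) :
    wt z (SwN G n) x y ≤ cmp (tp (wt z (Ln (DH G d K R) n))) (wt z (Ln (DH G d K R) n)) x y := by
  have hg' : ∀ l, Sw G x l → ∃ c : ℕ, c ≤ l.length ∧ DH G d K R (pt x l c) (l.drop c) ∧
      DH G d K R (pt x l c) (rv x (l.take c)) := fun l hl => hg x l hl
  choose! C hC using hg'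
  rw [Gnk_cmp]
  rw [Gnk_wt z (SwN G n) x y]
  let φ : {l : List (Γ × I) // SwN G n x l ∧ endp x l = y} →
      (Γ × I) × (List (Γ × I) × List (Γ × I)) :=
    fun l => (pt x l.1 (C l.1), rv x (l.1.take (C l.1)), l.1.drop (C l.1))
  have hφ : Function.Injective φ := by
    intro a b hab
    simp only [φ, Prod.mk.injEq] at hab
    obtain ⟨e1, e2, e3⟩ := hab
    have ha := rv_rv x (a.1.take (C a.1))
    have hb := rv_rv x (b.1.take (C b.1))
    rw [endp_take, e1, e2] at ha
    rw [endp_take, ha] at hb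
    refine Subtype.ext ?_
    rw [← List.take_append_drop (C a.1) a.1, ← List.take_append_drop (C b.1) b.1, hb, e3]
  refine le_trans (le_of_eq ?_) (ENNReal.tsum_comp_le_tsum_of_injective hφ _)
  refine tsum_congr fun l => ?_
  obtain ⟨l, ⟨hl1, hl2⟩, hl3⟩ := l
  obtain ⟨c1, c2, c3⟩ := hC l hl1
  simp only [φ]
  rw [if_pos]
  · rw [rv_length, ← List.length_append, List.take_append_drop]
  · refine ⟨⟨⟨c3, ?_⟩, ?_⟩, ⟨c2, ?_⟩, ?_⟩
    · rw [rv_length]
      rw [List.length_take]
      exact (min_le_right _ _).trans hl2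
    · rw [← endp_take]
      exact endp_rv x (l.take (C l))
    · rw [List.length_drop]
      exact (Nat.sub_le _ _).trans hl2
    · rw [endp_drop x l c1]
      exact hl3

end Pool.Agent.SWQ
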