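import Pool.Agent.SWQ.Rcr
import Pool.Agent.SWQ.Gen
import Pool.Agent.SWQ.Gnk

/-!
# SWQ module Bnq: the generating function of self-avoiding walks is bounded on l2

PROOF.  Take `K` and then `R` larger than the numbers of `rcr` and `gen`; `gnk`, `nn_mono`, `nn_cmp`, `nn_tp` (`InvK_wt`, `Ln_inv`, `DH_inv`): `nn (wt z (SwN G n)) ≤ B * B`.
-/

set_option autoImplicit false

open scoped ENNReal NNReal Classical
open Filter Topology

namespace Pool.Agent.SWQ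

open SWH

variable {Γ I : Type} [Group Γ] [Fintype I] {G : SimpleGraph (Γ × I)} {d : Dat Γ I} {θ : ℝ}

theorem bnq (H : Hyq G d θ) (z : ℝ≥0∞) (h0 : z ≠ 0) (h1 : z ≤ 1) (hz : ∀ z' < z, ∀ x, row (wt z' (Sw G)) x ≠ ⊤) :
    ∃ B : ℝ≥0∞, B ≠ ⊤ ∧ ∀ n, nn (wt z (SwN G n)) ≤ B := by
  obtain ⟨K1, hK1⟩ := rcr H z h0 h1 hz
  obtain ⟨K2, hK2⟩ := gen H
  obtain ⟨R1, hR1⟩ := hK1 (max K1 K2) (le_max_left _ _)
  obtain ⟨R2, hR2⟩ := hK2 (max K1 K2) (le_max_right _ _)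
  obtain ⟨B, hB, hn⟩ := hR1 (max R1 R2) (le_max_left _ _)
  have hg := hR2 (max R1 R2) (le_max_right _ _)
  refine ⟨B * B, ENNReal.mul_ne_top hB hB, fun n => ?_⟩
  have hI : InvK (wt z (Ln (DH G d (max K1 K2) (max R1 R2)) n)) :=
    InvK_wt (Ln_inv (DH_inv H _ _) n) z
  calc nn (wt z (SwN G n))
      ≤ nn (cmp (tp (wt z (Ln (DH G d (max K1 K2) (max R1 R2)) n)))
          (wt z (Ln (DH G d (max K1 K2) (max R1 R2)) n))) := nn_mono (fun x y => gnk hg z n x y)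
    _ ≤ nn (tp (wt z (Ln (DH G d (max K1 K2) (max R1 R2)) n))) *
          nn (wt z (Ln (DH G d (max K1 K2) (max R1 R2)) n)) := nn_cmp hI
    _ = nn (wt z (Ln (DH G d (max K1 K2) (max R1 R2)) n)) *
          nn (wt z (Ln (DH G d (max K1 K2) (max R1 R2)) n)) := by rw [nn_tp hI]
    _ ≤ B * B := mul_le_mul' (hn n) (hn n)

end Pool.Agent.SWQ
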