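import Pool.Agent.SWQ.Hdf
import Pool.Agent.SWQ.Rfl

/-!
# SWQ module Brk: breaking a walk at the last vertex of a ray

PROOF.  Put `y = endp v r`, `v1 = pt v r q = pt x l c`, `u = r.drop q` (a walk from `v1` to `y`), `e = b ++ l.take c ++ u`, `b' = rv v1 u`.
(0) `q + N ≤ r.length`: otherwise `v1 = Ax y (-j)` with `j = r.length - q < N = n1 τ`, so `sg y v1 ≥ -n1 - c0` (`sg_Ax_ge` with `n = -n1`), but `sg y v1 ≤ -K` by `hy`.
(1) `Eb z e`.  `Sw`: `Sw z (b ++ l.take c)` (initial part of `b ++ l`, `Sw_split`), `Sw v1 u` (`Sw_split`), and the vertices of `u` are `pt v r j` with `j > q`, not in `z :: (b ++ l)` (`hlast`).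
The first `N` vertices are those of `b` (`N ≤ b.length`).  Heights `≥ κ` seen from `z` after the handle: vertices of `b ++ l.take c`: `Hw z (b ++ l)`; vertices `w` of `r`:
`sg z w ≥ sg z v + sg v w - D ≥ K - C - D ≥ κ`.  End: type, the last `N` steps are those of `r`, `2 N ≤ e.length`.  Seen from `y`: vertices of `z :: (b ++ l.take c)`: `≤ -K ≤ -κ`; vertices of `r` before the
last handle: `Ray`.
(2) `Dh d.flip K R' v1 (l.drop c) y b'`.  `endp y b' = v1` (`endp_rv`), `b'.length = r.length - q ∈ [N, R']`.  `Hw d.flip y (b' ++ l.drop c)`: `Sw y b'` (`Sw_rv`), `Sw v1 (l.drop c)`, disjoint: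
the vertices of `y :: b'` are `pt v r j`, `j ≥ q`; for `j > q` not in `x :: l`, for `j = q` it is `v1`, not in `l.drop c` (no repetition).  First `N` vertices: `pt y b' j = pt v r (r.length - j) = Ax y (-j) = Ax d.flip y j`
(`pt_rv`, `Ax_flip`).  Heights: `sg d.flip y w = - sg d y w ≥ κ` for the vertices of `b'` after the handle by `Ray`, and `≥ K` for the vertices of `x :: l` by `hy`.
-/

set_option autoImplicit false

open scoped ENNReal NNReal Classical
open Filter Topology

namespace Pool.Agent.SWQ

open SWH

variable {Γ I : Type} [Group Γ] [Fintype I] {G : SimpleGraph (Γ × I)} {d : Dat Γ I} {θ : ℝ}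

theorem brk (H : Hyq G d θ) {K R R' C m : ℕ} (hK : d.κ + C + d.D + d.n1 + d.c0 + 1 ≤ K) {x : Γ × I}
    {l : List (Γ × I)} {z : Γ × I} {b : List (Γ × I)} (hl : Sw G x l) (hb : Dh G d K R x l z b) {v : Γ × I}
    {r : List (Γ × I)} (hv : v ∈ x :: l) (hr : Ray G d C m R' v r)
    (hy : ∀ w ∈ z :: (b ++ l), sg d (endp v r) w ≤ -(K : ℤ)) {c q : ℕ} (hc : c ≤ l.length) (hq : q ≤ r.length)
    (hcq : pt v r q = pt x l c) (hlast : ∀ j, q < j → j ≤ r.length → pt v r j ∉ z :: (b ++ l)) :
    Eb G d z (b ++ l.take c ++ r.drop q) ∧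
      Dh G d.flip K R' (pt x l c) (l.drop c) (endp v r) (rv (pt v r q) (r.drop q)) := by
  obtain ⟨hr1, hr2, hr3, hr4, hr5, hr6, hr7, hr8⟩ := hr
  obtain ⟨hb1, hb2, hb3, ⟨hw1, hw2, hw3, hw4, hw5⟩, hb5⟩ := hb
  -- membership facts
  have hxz : x ∈ z :: b := by
    rw [← hb1]; exact endp_mem z b
  have hsub : ∀ w ∈ x :: l, w ∈ z :: (b ++ l) := by
    intro w hw
    rcases List.mem_cons.1 hw with h | h
    · rw [h]
      rcases List.mem_cons.1 hxz with h' | h'
      · rw [h']; exact List.mem_cons_self
      · exact List.mem_cons_of_mem _ (List.mem_append_left _ h')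
    · exact List.mem_cons_of_mem _ (List.mem_append_right _ h)
  have hv1 : pt v r q ∈ x :: l := by
    rw [hcq]; exact pt_mem x l c
  have hN0 := N_pos H
  -- (0)
  have h0 : q + d.N ≤ r.length := by
    by_contra hlt
    push Not at hlt
    have e1 := hr5 (r.length - q) (by omega)
    have e2 : r.length - (r.length - q) = q := by omega
    rw [e2] at e1
    have e3 := sg_Ax_ge H (endp v r) (-(d.n1 : ℤ)) (-((r.length - q : ℕ) : ℤ)) (by
      have e4 := N_cast (d := d)
      have e5 : ((r.length - q : ℕ) : ℤ) ≤ (d.N : ℤ) := by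
        have : r.length - q ≤ d.N := by omega
        exact_mod_cast this
      rw [neg_mul, ← e4]
      omega)
    rw [← e1] at e3
    have e6 := hy _ (hsub _ hv1)
    omega
  -- the tail of the ray
  have hulen : (r.drop q).length = r.length - q := List.length_drop
  have hupt : ∀ i, pt (pt v r q) (r.drop q) i = pt v r (q + i) := fun i => pt_drop v r hq i
  have huend : endp (pt v r q) (r.drop q) = endp v r := endp_drop v r hq
  have hsplit : (b ++ l.take c) ++ l.drop c = b ++ l := by
    rw [List.append_assoc, List.take_append_drop]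
  have hAend : endp z (b ++ l.take c) = pt v r q := by
    rw [endp_append, hb1, endp_take, hcq]
  have hAsub : ∀ w ∈ z :: (b ++ l.take c), w ∈ z :: (b ++ l) := by
    intro w hw
    rw [← hsplit]
    rcases List.mem_cons.1 hw with h | h
    · rw [h]; exact List.mem_cons_self
    · exact List.mem_cons_of_mem _ (List.mem_append_left _ h)
  have hSA : Sw G z (b ++ l.take c) := by
    rw [← hsplit] at hw2
    exact (Sw_split hw2).1
  have hSu : Sw G (pt v r q) (r.drop q) := by
    have e1 : Sw G v (r.take q ++ r.drop q) := by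
      rw [List.take_append_drop]; exact hr1
    have e2 := (Sw_split e1).2
    rw [endp_take] at e2
    exact e2
  have hSl : Sw G (pt x l c) (l.drop c) := by
    have e1 : Sw G x (l.take c ++ l.drop c) := by
      rw [List.take_append_drop]; exact hl
    have e2 := (Sw_split e1).2
    rw [endp_take] at e2
    exact e2
  have hAlen : (b ++ l.take c).length = b.length + c := by
    rw [List.length_append, List.length_take]; omega
  have hend : endp z (b ++ l.take c ++ r.drop q) = endp v r := by
    rw [endp_append, hAend, huend]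
  -- vertices of the concatenation
  have hptA : ∀ j, j ≤ (b ++ l.take c).length →
      pt z (b ++ l.take c ++ r.drop q) j = pt z (b ++ l.take c) j := fun j hj => pt_left z _ _ hj
  have hptU : ∀ i, pt z (b ++ l.take c ++ r.drop q) ((b ++ l.take c).length + i) = pt v r (q + i) := by
    intro i
    rw [pt_right, hAend, hupt]
  have hvr : ∀ w ∈ v :: r, (d.κ : ℤ) ≤ sg d z w := by
    intro w hw
    have e1 := sg_tri H z v w
    have e2 := hb5 v hv
    have e3 := hr6 w hw
    rw [abs_le] at e1
    omega
  refine ⟨⟨⟨hw1, ?_, ?_, ?_, ?_⟩, ?_, ?_, ?_, ?_⟩, ?_⟩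
  · -- self-avoiding
    refine Sw_append hSA (by rw [hAend]; exact hSu) ?_
    intro w hw hwu
    obtain ⟨j, h1, h2, h3⟩ := mem_pt_pos (x := pt v r q) hwu
    rw [hupt] at h3
    refine hlast (q + j) (by omega) (by omega) ?_
    rw [h3]
    exact hAsub w hw
  · rw [List.length_append, hAlen]; omega
  · intro j hj
    rw [hptA j (by rw [hAlen]; omega), pt_left z b _ (by omega), ← pt_left z b l (by omega)]
    exact hw4 j hj
  · intro j hj
    by_cases hjA : j ≤ (b ++ l.take c).length
    · rw [hptA j hjA]
      have e1 := hw5 j hj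
      rw [← hsplit, pt_left z _ _ hjA] at e1
      exact e1
    · obtain ⟨i, hi⟩ : ∃ i, j = (b ++ l.take c).length + i := ⟨j - (b ++ l.take c).length, by omega⟩
      rw [hi, hptU]
      exact hvr _ (pt_mem v r _)
  · rw [hend]; exact hr2
  · rw [List.length_append, hAlen, hulen]; omega
  · intro j hj
    rw [hend]
    have e1 : (b ++ l.take c ++ r.drop q).length - j = (b ++ l.take c).length + (r.length - q - j) := by
      rw [List.length_append, hulen]; omega
    rw [e1, hptU]
    have e2 : q + (r.length - q - j) = r.length - j := by omega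
    rw [e2]
    exact hr5 j hj
  · intro j hj
    rw [hend]
    by_cases hjA : j ≤ (b ++ l.take c).length
    · rw [hptA j hjA]
      have e1 := hy _ (hAsub _ (pt_mem z (b ++ l.take c) j))
      omega
    · obtain ⟨i, hi⟩ : ∃ i, j = (b ++ l.take c).length + i := ⟨j - (b ++ l.take c).length, by omega⟩
      rw [hi, hptU]
      refine hr7 (q + i) ?_
      rw [List.length_append, hulen] at hj
      omega
  · -- the reversed end of the ray
    have hb'len : (rv (pt v r q) (r.drop q)).length = r.length - q := by rw [rv_length, hulen]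
    have hb'end : endp (endp v r) (rv (pt v r q) (r.drop q)) = pt v r q := by
      have e1 := endp_rv (pt v r q) (r.drop q)
      rw [huend] at e1
      exact e1
    have hb'pt : ∀ j, j ≤ r.length - q → pt (endp v r) (rv (pt v r q) (r.drop q)) j = pt v r (r.length - j) := by
      intro j hj
      have e1 := pt_rv (pt v r q) (r.drop q) (j := j) (by rw [hulen]; exact hj)
      rw [huend, hulen, hupt] at e1
      rw [e1]
      congr 1
      omega
    have hdsub : ∀ w ∈ pt x l c :: l.drop c, w ∈ x :: l := by
      intro w hw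
      rcases List.mem_cons.1 hw with h | h
      · rw [h]; exact pt_mem x l c
      · exact List.mem_cons_of_mem _ (List.mem_of_mem_drop h)
    refine ⟨?_, ?_, ?_, ⟨hr2, ?_, ?_, ?_, ?_⟩, ?_⟩
    · rw [hb'end, hcq]
    · rw [hb'len]; omega
    · rw [hb'len, flip_N]; omega
    · have hrev : Sw G (endp v r) (rv (pt v r q) (r.drop q)) := by
        have e1 := Sw_rv hSu
        rw [huend] at e1
        exact e1
      refine Sw_append hrev (by rw [hb'end, hcq]; exact hSl) ?_
      intro w hw hwd
      have e1 : w ∈ pt v r q :: r.drop q := by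
        rw [← mem_rv, huend]; exact hw
      obtain ⟨i, h1, h2⟩ := mem_pt e1
      rw [hupt] at h2
      rcases Nat.eq_zero_or_pos i with h3 | h3
      · rw [h3, Nat.add_zero, hcq] at h2
        obtain ⟨i', h4, h5, h6⟩ := mem_pt_pos (x := pt x l c) hwd
        rw [pt_drop x l hc] at h6
        rw [List.length_drop] at h5
        have h7 := pt_inj hl.2 (by omega) hc (h6.trans h2.symm)
        omega
      · refine hlast (q + i) (by omega) (by rw [hulen] at h1; omega) ?_
        rw [h2]
        exact List.mem_cons_of_mem _ (List.mem_append_right _ (List.mem_of_mem_drop hwd))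
    · rw [List.length_append, hb'len, flip_N]; omega
    · intro j hj
      rw [flip_N] at hj
      rw [pt_left _ _ _ (by rw [hb'len]; omega), hb'pt j (by omega), Ax_flip]
      exact hr5 j hj
    · intro j hj
      rw [flip_N] at hj
      rw [sg_flip]
      change (d.κ : ℤ) ≤ _
      by_cases hjA : j ≤ r.length - q
      · rw [pt_left _ _ _ (by rw [hb'len]; exact hjA), hb'pt j hjA]
        have e1 := hr7 (r.length - j) (by omega)
        omega
      · obtain ⟨i, hi⟩ : ∃ i, j = (rv (pt v r q) (r.drop q)).length + i :=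
          ⟨j - (rv (pt v r q) (r.drop q)).length, by rw [hb'len]; omega⟩
        rw [hi, pt_right, hb'end, hcq]
        have e1 := hy _ (hsub _ (hdsub _ (pt_mem (pt x l c) (l.drop c) i)))
        omega
    · intro w hw
      rw [sg_flip]
      have e1 := hy _ (hsub _ (hdsub w hw))
      omega

end Pool.Agent.SWQ
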