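import Pool.Agent.SWQ.Hdf
import Pool.Agent.SWQ.Byp

/-!
# SWQ module Cnn: existence of bridges along a given walk

PROOF.  Let `B` be as in `sg_bd`, `b = B R`.  Let `K` be large: `K ≥ b + n1 + κ + 2 c0 + 2 D + 2` (and `K ≥ n1`).  Put `p' = endp p l`, `x = Ax p (-c τ)`,
`y = Ax p' (c' τ)`.  Middle walk: from `a = Ax x N = Ax p (-(c - n1) τ)` up the axis through `p` to `p`, then `l`, then up the axis through `p'` to
`b' = Ax p' ((c' - n1) τ) = Ax y (-N)`.  By `byp` there is a self-avoiding walk `l'` from `a` to `b'` with vertices among those of the middle walk.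
`e = hd x ++ l' ++ (handle from b' to y: the vertices Ax y (-N + 1), ..., Ax y 0)`.
Heights seen from `x` (`sg_Ax_left`: `sg x v = sg p v + c`): vertices of `l`: `≥ c - b`; vertices `Ax p' j`, `j ≥ 0`: `sg p v ≥ sg p p' + sg p' v - D ≥ - b - c0 - D`,
so `≥ c - b - c0 - D`; vertices `Ax x j` with `j ≥ N`: `≥ n1 - c0`; vertices `Ax x j` with `j ≤ N`: `≤ n1 + c0` (`sg_Ax_le`).
So the handle `Ax x j`, `0 ≤ j < N`, is disjoint from the rest (`Ax_inj` for the axis of `p`, heights for the others), and all vertices after it have height `≥ κ` seen from `x`.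
In the same way (upside down) seen from `y`: `sg y v = sg p' v - c'`: vertices of `l`: `≤ b - c'`; `Ax p (-j)`, `j ≥ 0`: `≤ b + c0 + D - c'`;
`Ax y (-j)`, `j ≥ N`: `≤ -n1 + c0`; `Ax y (-j)`, `0 ≤ j ≤ N`: `≥ -n1 - c0`.
-/

set_option autoImplicit false

open scoped ENNReal NNReal Classical
open Filter Topology

namespace Pool.Agent.SWQ

open SWH

variable {Γ I : Type} [Group Γ] [Fintype I] {G : SimpleGraph (Γ × I)} {d : Dat Γ I} {θ : ℝ}

private theorem chain_app {V : Type} {G : SimpleGraph V} (x : V) (l1 l2 : List V)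
    (h1 : (x :: l1).IsChain G.Adj) (h2 : (endp x l1 :: l2).IsChain G.Adj) : (x :: (l1 ++ l2)).IsChain G.Adj := by
  induction l1 generalizing x with
  | nil => exact h2
  | cons a l ih =>
    rw [List.isChain_cons_cons] at h1
    rw [endp_cons] at h2
    rw [List.cons_append, List.isChain_cons_cons]
    exact ⟨h1.1, ih a h1.2 h2⟩

/-- The part of the axis above the vertex number `j0`. -/
private def ups (d : Dat Γ I) (x : Γ × I) (j0 : ℤ) (m : ℕ) : List (Γ × I) :=
  (List.range m).map (fun k : ℕ => Ax d x (j0 + ((k : ℤ) + 1)))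

omit [Fintype I] in
private theorem ups_length (x : Γ × I) (j0 : ℤ) (m : ℕ) : (ups d x j0 m).length = m := by
  simp [ups]

omit [Fintype I] in
private theorem ups_endp (x : Γ × I) (j0 : ℤ) (m : ℕ) :
    endp (Ax d x j0) (ups d x j0 m) = Ax d x (j0 + m) := by
  cases m with
  | zero => simp [ups, endp_nil]
  | succ k =>
    unfold ups
    rw [List.range_succ, List.map_append, endp_append]
    simp [endp_cons, endp_nil]

omit [Fintype I] in
private theorem ups_take (x : Γ × I) (j0 : ℤ) {i m : ℕ} (h : i ≤ m) :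
    (ups d x j0 m).take i = ups d x j0 i := by
  unfold ups
  rw [← List.map_take, List.take_range, min_eq_left h]

omit [Fintype I] in
private theorem ups_pt (x : Γ × I) (j0 : ℤ) {i m : ℕ} (h : i ≤ m) :
    pt (Ax d x j0) (ups d x j0 m) i = Ax d x (j0 + i) := by
  unfold pt
  rw [ups_take x j0 h, ups_endp]

private theorem ups_chain (H : Hyq G d θ) (x : Γ × I) (j0 : ℤ) (m : ℕ) :
    (Ax d x j0 :: ups d x j0 m).IsChain G.Adj := by
  rw [chain_pt, ups_length]
  intro j hj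
  rw [ups_pt x j0 hj.le, ups_pt x j0 (Nat.succ_le_of_lt hj)]
  have h1 := Ax_adj H x (j0 + j)
  have h2 : j0 + ((j + 1 : ℕ) : ℤ) = j0 + j + 1 := by push_cast; ring
  rw [h2]
  exact h1

private theorem ups_sw (H : Hyq G d θ) (x : Γ × I) (j0 : ℤ) (m : ℕ) : Sw G (Ax d x j0) (ups d x j0 m) := by
  refine ⟨ups_chain H x j0 m, ?_⟩
  have h1 : Ax d x j0 :: ups d x j0 m = (List.range (m + 1)).map (fun k : ℕ => Ax d x (j0 + (k : ℤ))) := by
    rw [List.range_succ_eq_map, List.map_cons, List.map_map]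
    simp [ups, Function.comp_def]
  rw [h1]
  refine List.Nodup.map ?_ List.nodup_range
  intro a b hab
  have h2 := Ax_inj H x hab
  omega

omit [Fintype I] in
private theorem mem_ups {x : Γ × I} {j0 : ℤ} {m : ℕ} {v : Γ × I} (h : v ∈ ups d x j0 m) :
    ∃ j : ℤ, 0 < j ∧ j ≤ m ∧ v = Ax d x (j0 + j) := by
  unfold ups at h
  obtain ⟨k, hk, rfl⟩ := List.mem_map.1 h
  have h1 := List.mem_range.1 hk
  exact ⟨(k : ℤ) + 1, by omega, by omega, rfl⟩

theorem con (H : Hyq G d θ) (R : ℕ) : ∃ K : ℕ, ∀ (p : Γ × I) (l : List (Γ × I)), (p :: l).IsChain G.Adj →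
    p.2 = d.i0 → (endp p l).2 = d.i0 → l.length ≤ R → ∀ c c' : ℕ, K ≤ c → K ≤ c' →
      ∃ e, Eb G d (Ax d p (-(c : ℤ) * d.τ)) e ∧
        endp (Ax d p (-(c : ℤ) * d.τ)) e = Ax d (endp p l) ((c' : ℤ) * d.τ) := by
  obtain ⟨B, hB, hb⟩ := sg_bd H
  obtain ⟨b, hbR⟩ : ∃ b : ℕ, b = B R := ⟨_, rfl⟩
  refine ⟨b + d.n1 + d.κ + 2 * d.c0 + 2 * d.D + 2, ?_⟩
  intro p l hl hp hp' hR c c' hc hc'
  obtain ⟨p', hp'e⟩ : ∃ p', p' = endp p l := ⟨_, rfl⟩
  rw [← hp'e] at hp'
  rw [← hp'e]
  obtain ⟨x, hxe⟩ : ∃ x, x = Ax d p (-(c : ℤ) * d.τ) := ⟨_, rfl⟩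
  obtain ⟨y, hye⟩ : ∃ y, y = Ax d p' ((c' : ℤ) * d.τ) := ⟨_, rfl⟩
  rw [← hxe, ← hye]
  have hx : x.2 = d.i0 := by rw [hxe, Ax_mul H]
  have hy : y.2 = d.i0 := by rw [hye, Ax_mul H]
  have hτ : (0 : ℤ) < d.τ := by exact_mod_cast H.τpos
  have hN : (d.N : ℤ) = d.n1 * d.τ := N_cast
  have hκ := H.hκ
  have hn := H.hn
  have hAx : ∀ j, Ax d x j = Ax d p (-(c : ℤ) * d.τ + j) := fun j => by rw [hxe, Ax_Ax H]
  have hAy : ∀ j, Ax d y j = Ax d p' ((c' : ℤ) * d.τ + j) := fun j => by rw [hye, Ax_Ax H]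
  have hsx : ∀ v, sg d x v = sg d p v + c := by
    intro v
    rw [hxe, sg_Ax_left H]
    ring
  have hsy : ∀ v, sg d y v = sg d p' v - c' := by
    intro v
    rw [hye, sg_Ax_left H]
  have hlb : ∀ v ∈ p :: l, |sg d p v| ≤ b := by
    intro v hv
    have h1 := (hb p l hl v hv).1
    have h2 := hB hR
    rw [← hbR] at h2
    exact h1.trans (by exact_mod_cast h2)
  have hlb' : ∀ v ∈ p :: l, |sg d p' v| ≤ b := by
    intro v hv
    have h3 := chain_rv hl
    have h1 := (hb (endp p l) (rv p l) h3 v ((mem_rv p l v).2 hv)).1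
    rw [rv_length, ← hp'e] at h1
    have h2 := hB hR
    rw [← hbR] at h2
    exact h1.trans (by exact_mod_cast h2)
  have hpp' : |sg d p p'| ≤ b := by
    rw [hp'e]
    exact hlb _ (endp_mem p l)
  have hp'p : |sg d p' p| ≤ b := hlb' p List.mem_cons_self
  -- heights
  have X2 : ∀ j, 0 ≤ j → (c : ℤ) - b - d.c0 - d.D ≤ sg d x (Ax d p' j) := by
    intro j hj
    rw [hsx]
    have h1 := sg_tri H p p' (Ax d p' j)
    have h2 := sg_Ax_ge H p' 0 j (by rw [zero_mul]; exact hj)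
    rw [abs_le] at h1 hpp'
    omega
  have Y2 : ∀ j, j ≤ 0 → sg d y (Ax d p j) ≤ (b : ℤ) + d.c0 + d.D - c' := by
    intro j hj
    rw [hsy]
    have h1 := sg_tri H p' p (Ax d p j)
    have h2 := sg_Ax_le H p 0 j (by rw [zero_mul]; exact hj)
    rw [abs_le] at h1 hp'p
    omega
  have X1 : ∀ v ∈ p :: l, (c : ℤ) - b ≤ sg d x v := by
    intro v hv
    rw [hsx]
    have h1 := hlb v hv
    rw [abs_le] at h1
    omega
  have Y1 : ∀ v ∈ p :: l, sg d y v ≤ (b : ℤ) - c' := by
    intro v hv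
    rw [hsy]
    have h1 := hlb' v hv
    rw [abs_le] at h1
    omega
  -- numbers
  obtain ⟨m1, hm1⟩ : ∃ m1 : ℕ, (m1 : ℤ) = ((c : ℤ) - d.n1) * d.τ := by
    refine ⟨(c - d.n1) * d.τ, ?_⟩
    have h1 : d.n1 ≤ c := by omega
    push_cast [h1]
    ring
  obtain ⟨m2, hm2⟩ : ∃ m2 : ℕ, (m2 : ℤ) = ((c' : ℤ) - d.n1) * d.τ := by
    refine ⟨(c' - d.n1) * d.τ, ?_⟩
    have h1 : d.n1 ≤ c' := by omega
    push_cast [h1]
    ring
  have hm1' : -(c : ℤ) * d.τ + d.N = -(m1 : ℤ) := by rw [hm1, hN]; ring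
  have hm2' : (c' : ℤ) * d.τ - d.N = (m2 : ℤ) := by rw [hm2, hN]; ring
  have hm1p : (0 : ℤ) ≤ m1 := Int.natCast_nonneg _
  have hm2p : (0 : ℤ) ≤ m2 := Int.natCast_nonneg _
  have hNp : (1 : ℤ) ≤ d.N := by exact_mod_cast N_pos H
  -- the middle walk
  obtain ⟨a, ha⟩ : ∃ a, a = Ax d x d.N := ⟨_, rfl⟩
  have ha2 : a = Ax d p (-(m1 : ℤ)) := by rw [ha, hAx, hm1']
  obtain ⟨b', hb'⟩ : ∃ b', b' = Ax d y (-(d.N : ℤ)) := ⟨_, rfl⟩
  have hb2 : b' = Ax d p' (m2 : ℤ) := by
    rw [hb', hAy, ← hm2']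
    rfl
  obtain ⟨M, hM⟩ : ∃ M, M = ups d p (-(m1 : ℤ)) m1 ++ (l ++ ups d p' 0 m2) := ⟨_, rfl⟩
  have e1 : endp a (ups d p (-(m1 : ℤ)) m1) = p := by
    rw [ha2, ups_endp, neg_add_cancel, Ax_zero H hp]
  have e3 : endp p' (ups d p' 0 m2) = b' := by
    have h1 := ups_endp (d := d) p' 0 m2
    rw [Ax_zero H hp', zero_add] at h1
    rw [h1, hb2]
  have hMe : endp a M = b' := by
    rw [hM, endp_append, e1, endp_append, ← hp'e, e3]
  have hMc : (a :: M).IsChain G.Adj := by
    rw [hM]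
    refine chain_app a _ _ (by rw [ha2]; exact ups_chain H p _ _) ?_
    rw [e1]
    refine chain_app p _ _ hl ?_
    rw [← hp'e]
    have h1 := ups_chain H p' 0 m2
    rwa [Ax_zero H hp'] at h1
  obtain ⟨l', hl'1, hl'2, -, hl'4⟩ := byp a M hMc
  rw [hMe] at hl'2
  -- the two properties
  have hPX : ∀ v ∈ a :: M, (∃ j : ℤ, (d.N : ℤ) ≤ j ∧ v = Ax d x j) ∨
      (d.n1 : ℤ) + d.κ + d.c0 + d.D + 2 ≤ sg d x v := by
    intro v hv
    rcases List.mem_cons.1 hv with h | h
    · exact Or.inl ⟨d.N, le_rfl, by rw [h, ha]⟩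
    · rw [hM] at h
      rcases List.mem_append.1 h with h | h
      · obtain ⟨j, h1, h2, h3⟩ := mem_ups h
        refine Or.inl ⟨d.N + j, by omega, ?_⟩
        rw [h3, hAx, ← add_assoc, hm1']
      · rcases List.mem_append.1 h with h | h
        · right
          have h1 := X1 v (List.mem_cons_of_mem _ h)
          omega
        · right
          obtain ⟨j, h1, h2, h3⟩ := mem_ups h
          have h4 := X2 (0 + j) (by omega)
          rw [h3]
          omega
  have hPY : ∀ v ∈ a :: M, (∃ j : ℤ, j ≤ -(d.N : ℤ) ∧ v = Ax d y j) ∨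
      sg d y v ≤ -((d.n1 : ℤ) + d.κ + d.c0 + d.D + 2) := by
    intro v hv
    rcases List.mem_cons.1 hv with h | h
    · right
      have h4 := Y2 (-(m1 : ℤ)) (by omega)
      rw [h, ha2]
      omega
    · rw [hM] at h
      rcases List.mem_append.1 h with h | h
      · right
        obtain ⟨j, h1, h2, h3⟩ := mem_ups h
        have h4 := Y2 (-(m1 : ℤ) + j) (by omega)
        rw [h3]
        omega
      · rcases List.mem_append.1 h with h | h
        · right
          have h1 := Y1 v (List.mem_cons_of_mem _ h)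
          omega
        · left
          obtain ⟨j, h1, h2, h3⟩ := mem_ups h
          refine ⟨j - (c' : ℤ) * d.τ, by omega, ?_⟩
          rw [h3, hAy]
          congr 1
          ring
  -- the handle at the start
  have hAmem : ∀ v ∈ x :: hd d x, ∃ i : ℤ, 0 ≤ i ∧ i ≤ d.N ∧ v = Ax d x i := by
    intro v hv
    obtain ⟨j, h1, h2⟩ := mem_pt hv
    rw [hd_length] at h1
    rw [pt_hd H hx h1] at h2
    exact ⟨j, by omega, by exact_mod_cast h1, h2.symm⟩
  have hAPY : ∀ v ∈ x :: hd d x, sg d y v ≤ -((d.n1 : ℤ) + d.κ + d.c0 + d.D + 2) := by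
    intro v hv
    obtain ⟨i, h1, h2, h3⟩ := hAmem v hv
    have h4 := Y2 (-(c : ℤ) * d.τ + i) (by omega)
    rw [h3, hAx]
    omega
  -- the handle at the end
  obtain ⟨top, htop⟩ : ∃ top, top = ups d y (-(d.N : ℤ)) d.N := ⟨_, rfl⟩
  have hTmem : ∀ v ∈ top, ∃ j : ℤ, -(d.N : ℤ) < j ∧ j ≤ 0 ∧ v = Ax d y j := by
    intro v hv
    rw [htop] at hv
    obtain ⟨j, h1, h2, h3⟩ := mem_ups hv
    exact ⟨-(d.N : ℤ) + j, by omega, by omega, h3⟩
  have hTPX : ∀ v ∈ top, (d.n1 : ℤ) + d.κ + d.c0 + d.D + 2 ≤ sg d x v := by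
    intro v hv
    obtain ⟨j, h1, h2, h3⟩ := hTmem v hv
    have h4 := X2 ((c' : ℤ) * d.τ + j) (by omega)
    rw [h3, hAy]
    omega
  have hTl : top.length = d.N := by rw [htop, ups_length]
  have hTs : Sw G b' top := by
    rw [htop, hb']
    exact ups_sw H y _ _
  have hTe : endp b' top = y := by
    rw [htop, hb', ups_endp, neg_add_cancel, Ax_zero H hy]
  have hAe : endp x (hd d x) = a := by
    rw [ha, ← pt_length, hd_length, pt_hd H hx le_rfl]
  -- self-avoiding
  have hS2 : Sw G a (l' ++ top) := by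
    refine Sw_append hl'1 (by rw [hl'2]; exact hTs) ?_
    intro v hv hvT
    obtain ⟨j, h1, h2, h3⟩ := hTmem v hvT
    rcases hPY v (hl'4 v hv) with ⟨i, h4, h5⟩ | h4
    · rw [h3] at h5
      have h6 := Ax_inj H y h5
      omega
    · have h5 := sg_Ax_ge H y (-(d.n1 : ℤ)) j (by rw [neg_mul, ← hN]; omega)
      rw [← h3] at h5
      omega
  have hS1 : Sw G x (hd d x ++ (l' ++ top)) := by
    refine Sw_append (hw_hd H hx).2.1 (by rw [hAe]; exact hS2) ?_
    intro v hv hv2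
    obtain ⟨i, h1, h2, h3⟩ := hAmem v hv
    have h6 := sg_Ax_le H x (d.n1 : ℤ) i (by rw [← hN]; exact h2)
    rw [← h3] at h6
    rcases List.mem_append.1 hv2 with h | h
    · rcases hPX v (hl'4 v (List.mem_cons_of_mem _ h)) with ⟨j, h4, h5⟩ | h4
      · rw [h3] at h5
        have h7 := Ax_inj H x h5
        have h8 : i = d.N := by omega
        have h9 : v = a := by rw [h3, ha, h8]
        rw [h9] at h
        exact (List.nodup_cons.1 hl'1.2).1 h
      · omega
    · have h4 := hTPX v h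
      omega
  -- lengths
  have hlen : (hd d x ++ (l' ++ top)).length = d.N + (l'.length + d.N) := by
    rw [List.length_append, List.length_append, hd_length, hTl]
  have hend : endp x (hd d x ++ (l' ++ top)) = y := by
    rw [endp_append, hAe, endp_append, hl'2, hTe]
  have hXκ : ∀ v ∈ a :: (l' ++ top), (d.κ : ℤ) ≤ sg d x v := by
    intro v hv
    have h1 : v ∈ a :: l' ∨ v ∈ top := by
      rcases List.mem_cons.1 hv with h | h
      · exact Or.inl (by rw [h]; exact List.mem_cons_self)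
      · rcases List.mem_append.1 h with h | h
        · exact Or.inl (List.mem_cons_of_mem _ h)
        · exact Or.inr h
    rcases h1 with h | h
    · rcases hPX v (hl'4 v h) with ⟨j, h4, h5⟩ | h4
      · have h6 := sg_Ax_ge H x (d.n1 : ℤ) j (by rw [← hN]; exact h4)
        rw [← h5] at h6
        omega
      · omega
    · have h4 := hTPX v h
      omega
  have hYκ : ∀ v ∈ x :: (hd d x ++ l'), sg d y v ≤ -(d.κ : ℤ) := by
    intro v hv
    have h1 : v ∈ x :: hd d x ∨ v ∈ l' := by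
      rcases List.mem_cons.1 hv with h | h
      · exact Or.inl (by rw [h]; exact List.mem_cons_self)
      · rcases List.mem_append.1 h with h | h
        · exact Or.inl (List.mem_cons_of_mem _ h)
        · exact Or.inr h
    rcases h1 with h | h
    · have h4 := hAPY v h
      omega
    · rcases hPY v (hl'4 v (List.mem_cons_of_mem _ h)) with ⟨j, h4, h5⟩ | h4
      · have h6 := sg_Ax_le H y (-(d.n1 : ℤ)) j (by rw [neg_mul, ← hN]; exact h4)
        rw [← h5] at h6
        omega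
      · omega
  refine ⟨hd d x ++ (l' ++ top), ⟨⟨hx, hS1, by rw [hlen]; omega, ?_, ?_⟩, by rw [hend]; exact hy,
    by rw [hlen]; omega, ?_, ?_⟩, hend⟩
  · intro j hj
    rw [pt_left _ _ _ (by rw [hd_length]; exact hj), pt_hd H hx hj]
  · intro j hj
    obtain ⟨k, rfl⟩ := Nat.exists_eq_add_of_le hj
    have h1 := pt_right x (hd d x) (l' ++ top) k
    rw [hd_length, hAe] at h1
    rw [h1]
    exact hXκ _ (pt_mem _ _ _)
  · intro j hj
    rw [hend, hlen]
    have h1 := pt_right x (hd d x ++ l') top (d.N - j)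
    have h2 : (hd d x ++ l').length = d.N + l'.length := by rw [List.length_append, hd_length]
    have h3 : d.N + (l'.length + d.N) - j = (d.N + l'.length) + (d.N - j) := by omega
    rw [h2, List.append_assoc, endp_append, hAe, hl'2, htop, hb'] at h1
    rw [← htop, ← hb', htop, hb', ups_pt y _ (Nat.sub_le _ _)] at h1
    rw [h3, htop, h1]
    congr 1
    omega
  · intro j hj
    rw [hlen] at hj
    rw [hend, ← List.append_assoc, pt_left _ _ _ (by rw [List.length_append, hd_length]; omega)]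
    exact hYκ _ (pt_mem _ _ _)

end Pool.Agent.SWQ
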