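import Pool.Agent.SWQ.Hdf

/-!
# SWQ module Cod: the code property

PROOF.  Let `l1.length ≤ l1'.length` (else exchange the roles).  `List.append_eq_append_iff`: `l1' = l1 ++ m`, `l2 = m ++ l2'`.  If `m ≠ []` put
`t = l1.length < l1'.length`, `y = endp x l1 = pt x l1' t`, `y' = endp x l1'`.  Then `l1'.take t = l1` is a bridge, `L ≤ sg x y`, and
`l1'.drop t ++ hd y' = m ++ hd y'` is an initial part of `l2 = m ++ l2'` of length at least `N` (`l2'.take N = hd y'` by `hw_take`), so it is in
`Hw y` (`hw_prefix`).  This contradicts `Cd L x l1'`.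
-/

set_option autoImplicit false

open scoped ENNReal NNReal Classical
open Filter Topology

namespace Pool.Agent.SWQ

open SWH

variable {Γ I : Type} [Group Γ] [Fintype I] {G : SimpleGraph (Γ × I)} {d : Dat Γ I} {θ : ℝ}

private theorem cod_aux (H : Hyq G d θ) {L : ℤ} {x : Γ × I} {l1 l2 l2' m : List (Γ × I)}
    (h1 : Cd G d L x l1) (h2 : Hw G d (endp x l1) l2) (h1' : Cd G d L x (l1 ++ m))
    (h2' : Hw G d (endp x (l1 ++ m)) l2') (he : l2 = m ++ l2') : m = [] := by
  by_contra hm
  have hm' : 0 < m.length := List.length_pos_iff.2 hm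
  refine h1'.2.2 l1.length (by rw [List.length_append]; omega) ⟨?_, ?_, ?_⟩
  · rw [List.take_left' rfl]
    exact h1.1
  · rw [pt_left x l1 m le_rfl, pt_length]
    exact h1.2.1
  · rw [pt_left x l1 m le_rfl, pt_length, List.drop_left' rfl]
    have h3 : l2 = (m ++ hd d (endp x (l1 ++ m))) ++ l2'.drop d.N := by
      rw [List.append_assoc, ← hw_take H h2', List.take_append_drop, he]
    rw [h3] at h2
    refine hw_prefix h2 ?_
    rw [List.length_append, hd_length]
    omega

theorem cd_inj (H : Hyq G d θ) {L : ℤ} {x : Γ × I} {l1 l2 l1' l2' : List (Γ × I)} (h1 : Cd G d L x l1)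
    (h2 : Hw G d (endp x l1) l2) (h1' : Cd G d L x l1') (h2' : Hw G d (endp x l1') l2')
    (he : l1 ++ l2 = l1' ++ l2') : l1 = l1' := by
  rcases List.append_eq_append_iff.1 he with ⟨m, hm1, hm2⟩ | ⟨m, hm1, hm2⟩
  · subst hm1
    have h3 := cod_aux H h1 h2 h1' h2' hm2
    rw [h3, List.append_nil]
  · subst hm1
    have h3 := cod_aux H h1' h2' h1 h2 hm2
    rw [h3, List.append_nil]

end Pool.Agent.SWQ
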