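import Pool.Agent.SWQ.Defs

/-!
# SWQ module Dcs: a quasimorphism which is exact along g on both sides

PROOF.  `λ = q g > 0`.  `a ~ b` iff `b = g^i * a * g^j` for some `i, j : ℤ` is an equivalence relation.  If `g^i * a * g^j = g^i' * a * g^j'` then `a⁻¹ * g^(i - i') * a = g^(j' - j)`, apply `q`: `(i - i') λ = (j' - j) λ`
(`conj` with `b = a⁻¹`), so `i + j = i' + j'`.  Let `ra` be the chosen representative of the class of `a`, `a = g^i * ra * g^j`: `s a = ⌊q ra / λ⌋ + i + j` is well defined (does not depend on the choice of `i, j`), `s (g a) = s a + 1 = s (a g)`.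
`|q a - q ra - i λ - j λ| ≤ 2 Dq`, so `|s a - q a / λ| ≤ 2 Dq / λ + 1`, and `|s (a b) - s a - s b| ≤ 3 (2 Dq / λ + 1) + Dq / λ ≤ D`.
-/

set_option autoImplicit false

open scoped ENNReal NNReal Classical
open Filter Topology

namespace Pool.Agent.SWQ

open SWH

theorem dcs {Γ : Type} [Group Γ] (q : Γ → ℝ) (Dq : ℝ) (qm : ∀ a b, |q (a * b) - q a - q b| ≤ Dq)
    (hom : ∀ a (n : ℤ), q (a ^ n) = n * q a) (conj : ∀ a b, q (b * a * b⁻¹) = q a) (g : Γ) (hg : 0 < q g) :
    ∃ (s : Γ → ℤ) (D : ℕ), (∀ a, s (g * a) = s a + 1) ∧ (∀ a, s (a * g) = s a + 1) ∧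
      ∀ a b, |s (a * b) - s a - s b| ≤ D := by
  set l : ℝ := q g with hl
  have key : ∀ (a : Γ) (i j i' j' : ℤ), g ^ i * a * g ^ j = g ^ i' * a * g ^ j' → i + j = i' + j' := by
    intro a i j i' j' h
    have h1 : a⁻¹ * g ^ (i - i') * (a⁻¹)⁻¹ = g ^ (j' - j) := by
      rw [inv_inv, zpow_sub, zpow_sub]
      have h2 : g ^ i * a = g ^ i' * a * g ^ j' * (g ^ j)⁻¹ := by
        rw [← h]; group
      have h3 : g ^ i * (g ^ i')⁻¹ = (g ^ i')⁻¹ * g ^ i := by
        rw [← zpow_neg, ← zpow_add, ← zpow_add, add_comm]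
      rw [h3, mul_assoc a⁻¹, mul_assoc (g ^ i')⁻¹, h2]
      group
    have h4 := conj (g ^ (i - i')) a⁻¹
    rw [h1, hom, hom] at h4
    have h5 : ((j' - j : ℤ) : ℝ) = ((i - i' : ℤ) : ℝ) := mul_right_cancel₀ hg.ne' h4
    have h6 : j' - j = i - i' := by exact_mod_cast h5
    omega
  let S : Setoid Γ :=
    { r := fun a b => ∃ i j : ℤ, b = g ^ i * a * g ^ j
      iseqv :=
        { refl := fun a => ⟨0, 0, by simp⟩
          symm := by
            rintro a b ⟨i, j, rfl⟩
            exact ⟨-i, -j, by group⟩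
          trans := by
            rintro a b c ⟨i, j, rfl⟩ ⟨i', j', rfl⟩
            exact ⟨i' + i, j + j', by rw [zpow_add, zpow_add]; group⟩ } }
  let rep : Γ → Γ := fun a => (Quotient.mk S a).out
  have hrep : ∀ a, ∃ i j : ℤ, a = g ^ i * rep a * g ^ j := fun a => Quotient.exact (Quotient.out_eq (Quotient.mk S a))
  choose I J hIJ using hrep
  have repl : ∀ a, rep (g * a) = rep a := by
    intro a
    have : Quotient.mk S (g * a) = Quotient.mk S a :=
      Quotient.sound (show ∃ i j : ℤ, a = g ^ i * (g * a) * g ^ j from ⟨-1, 0, by group⟩)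
    simp only [rep, this]
  have repr' : ∀ a, rep (a * g) = rep a := by
    intro a
    have : Quotient.mk S (a * g) = Quotient.mk S a :=
      Quotient.sound (show ∃ i j : ℤ, a = g ^ i * (a * g) * g ^ j from ⟨0, -1, by group⟩)
    simp only [rep, this]
  let s : Γ → ℤ := fun a => ⌊q (rep a) / l⌋ + (I a + J a)
  have close : ∀ a, |(s a : ℝ) - q a / l| ≤ 2 * Dq / l + 1 := by
    intro a
    have h1 := qm (g ^ I a * rep a) (g ^ J a)
    have h2 := qm (g ^ I a) (rep a)
    rw [← hIJ a, hom, ← hl] at h1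
    rw [hom, ← hl] at h2
    have h3 : |q a - q (rep a) - (I a + J a) * l| ≤ 2 * Dq := by
      rw [abs_le] at h1 h2 ⊢
      constructor <;> nlinarith
    have h4 : |(q a - q (rep a) - (I a + J a) * l) / l| ≤ 2 * Dq / l := by
      rw [abs_div, abs_of_pos hg]
      exact div_le_div_of_nonneg_right h3 hg.le
    have h5 : (q a - q (rep a) - (I a + J a) * l) / l = q a / l - q (rep a) / l - (I a + J a) := by
      field_simp
    rw [h5] at h4
    have h6 : ((s a : ℤ) : ℝ) = (⌊q (rep a) / l⌋ : ℝ) + (I a + J a) := by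
      simp only [s]; push_cast; ring
    rw [h6]
    have h7 := Int.floor_le (q (rep a) / l)
    have h8 := Int.lt_floor_add_one (q (rep a) / l)
    rw [abs_le] at h4 ⊢
    constructor <;> linarith
  refine ⟨s, ⌈3 * (2 * Dq / l + 1) + Dq / l⌉₊, ?_, ?_, ?_⟩
  · intro a
    have h1 : g ^ I (g * a) * rep a * g ^ J (g * a) = g ^ (1 + I a) * rep a * g ^ J a := by
      have h2 := hIJ (g * a)
      rw [repl a] at h2
      rw [← h2]
      conv_lhs => rw [hIJ a]
      rw [zpow_add, zpow_one]
      simp only [mul_assoc]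
    have h3 := key _ _ _ _ _ h1
    simp only [s, repl a]
    omega
  · intro a
    have h1 : g ^ I (a * g) * rep a * g ^ J (a * g) = g ^ I a * rep a * g ^ (J a + 1) := by
      have h2 := hIJ (a * g)
      rw [repr' a] at h2
      rw [← h2]
      conv_lhs => rw [hIJ a]
      rw [zpow_add, zpow_one]
      simp only [mul_assoc]
    have h3 := key _ _ _ _ _ h1
    simp only [s, repr' a]
    omega
  · intro a b
    have h1 := close a
    have h2 := close b
    have h3 := close (a * b)
    have h4 : |(q (a * b) - q a - q b) / l| ≤ Dq / l := by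
      rw [abs_div, abs_of_pos hg]
      exact div_le_div_of_nonneg_right (qm a b) hg.le
    have h5 : (q (a * b) - q a - q b) / l = q (a * b) / l - q a / l - q b / l := by ring
    rw [h5] at h4
    have h6 : |((s (a * b) : ℝ) - s a - s b)| ≤ 3 * (2 * Dq / l + 1) + Dq / l := by
      rw [abs_le] at h1 h2 h3 h4 ⊢
      constructor <;> linarith
    have h7 := h6.trans (Nat.le_ceil _)
    have h8 : ((|s (a * b) - s a - s b| : ℤ) : ℝ) ≤ ((⌈3 * (2 * Dq / l + 1) + Dq / l⌉₊ : ℕ) : ℤ) := by
      push_cast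
      exact h7
    exact_mod_cast h8

end Pool.Agent.SWQ
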