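import Pool.Agent.SWQ.Bas
import Pool.Agent.SWQ.Ptf

/-!
# SWQ module Ovl: overlapping handles

PROOF.  Put `p' = pt x l t' = (a', i0)`, `p = pt x l t = (a, i0)`, `m = t - t'`, `0 < m < N`.  For `-N ≤ j ≤ 0`: `tr a (X j) = Ax p j = pt x l (t + j)` (by `c`)
and `t + j = t' + (m + j)` with `-N ≤ m + j ≤ m < N`, so it is `Ax p' (m + j) = tr a' (X (m + j))` (by `b` if `m + j ≥ 0`, else by `a`; all indices
are nonnegative because `N ≤ t'`).  Hence `X (m + j) = tr (a'⁻¹ * a) (X j)` for `-N0 ≤ j ≤ 0` (`N0 ≤ N`, `H.hN`).  `H.ovl` with `k = -N0` gives `i`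
with `a'⁻¹ * a = g ^ i`, `m = i τ`, and `i ≥ 1` because `m > 0`.  So `p = (a' g ^ i, i0) = Ax p' (i τ)` (`Ax_mul`).
-/

set_option autoImplicit false

open scoped ENNReal NNReal Classical
open Filter Topology

namespace Pool.Agent.SWQ

open SWH

variable {Γ I : Type} [Group Γ] [Fintype I] {G : SimpleGraph (Γ × I)} {d : Dat Γ I} {θ : ℝ}

theorem ovl_pt (H : Hyq G d θ) {x : Γ × I} {l : List (Γ × I)} {t' t : ℕ} (ht : t' < t) (htl : t ≤ l.length)
    (hN : t - t' < d.N) (hN' : d.N ≤ t') (h1 : (pt x l t').2 = d.i0) (h2 : (pt x l t).2 = d.i0)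
    (a : ∀ j : ℕ, j ≤ d.N → pt x l (t' - j) = Ax d (pt x l t') (-(j : ℤ)))
    (b : ∀ j : ℕ, j ≤ d.N → t' + j ≤ l.length → pt x l (t' + j) = Ax d (pt x l t') j)
    (c : ∀ j : ℕ, j ≤ d.N → pt x l (t - j) = Ax d (pt x l t) (-(j : ℤ))) :
    ∃ i : ℕ, 1 ≤ i ∧ pt x l t = Ax d (pt x l t') (i * d.τ) := by
  obtain ⟨m, hm⟩ : ∃ m : ℕ, t = t' + m := ⟨t - t', by omega⟩
  have hm0 : 0 < m := by omega
  have hmN : m < d.N := by omega
  have hN0 : d.N0 ≤ d.N := H.hN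
  have key : ∀ j' : ℕ, j' ≤ d.N → Ax d (pt x l t) (-(j' : ℤ)) = Ax d (pt x l t') ((m : ℤ) - j') := by
    intro j' hj'
    rw [← c j' hj']
    by_cases hjm : j' ≤ m
    · have e1 : t - j' = t' + (m - j') := by omega
      rw [e1, b (m - j') (by omega) (by omega)]
      congr 1
      omega
    · have e1 : t - j' = t' - (j' - m) := by omega
      rw [e1, a (j' - m) (by omega)]
      congr 1
      omega
  obtain ⟨i, hi1, hi2⟩ := H.ovl m ((pt x l t').1⁻¹ * (pt x l t).1) (-(d.N0 : ℤ)) hm0 (by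
    intro j hj1 hj2
    have hk := key (-j).toNat (by omega)
    have e2 : (((-j).toNat : ℕ) : ℤ) = -j := Int.toNat_of_nonneg (by omega)
    rw [e2, neg_neg, sub_neg_eq_add] at hk
    unfold Ax at hk
    rw [tr_mul, hk, ← tr_mul, inv_mul_cancel, tr_one])
  refine ⟨i, ?_, ?_⟩
  · rcases Nat.eq_zero_or_pos i with h0 | h0
    · rw [h0, zero_mul] at hi2
      omega
    · exact h0
  · rw [Ax_mul H]
    refine Prod.ext ?_ h2
    change (pt x l t).1 = (pt x l t').1 * d.g ^ (i : ℤ)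
    rw [zpow_natCast, ← hi1, mul_inv_cancel_left]

end Pool.Agent.SWQ
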