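import Pool.Agent.SWQ.Hdf
import Pool.Agent.SWQ.Ovl

/-!
# SWQ module Dec: decomposition of bridges

PROOF.  Let `y = endp x l`, `p t = pt x l t`.  Let `t` be the least number with `t ≤ l.length`, `Eb x (l.take t)`, `L ≤ sg x (p t)` and (`t = l.length` or
`Hw (p t) (l.drop t ++ hd y)`) (`Nat.find`; `t = l.length` has these properties).  `l1 = l.take t`, `l2 = l.drop t`.
(1) `Cd L x l1`: let `t' < t` with `Eb x (l.take t')`, `L ≤ sg x (p t')`, `Hw (p t') ((l.take t).drop t' ++ hd (p t))` (i).  Claim:
`Hw (p t') (l.drop t' ++ hd y)`, which contradicts the choice of `t`.  If `t = l.length` this is (i).  Let `t < l.length`, (ii) `Hw (p t) (l.drop t ++ hd y)`, whose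
first `N` vertices are `hd (p t)`.  Write `l.drop t' = m1 ++ l.drop t`, `m1 = (l.take t).drop t'`.  `Sw`: it is a final part of `l ++ hd y`, and
`Hw x (l ++ hd y)` by `eb_hw`, `hw_hd`.  First `N` vertices: by (i) (`m1 ++ hd (p t)` is an initial part of `m1 ++ l.drop t ++ hd y`).
Heights: the vertices with number at most `m1.length + N`: (i).  Others: `v` is a vertex with number at least `N` in (ii): `sg (p t) v ≥ κ`.  If `m1.length ≥ N` then
`sg (p t') (p t) ≥ κ` by (i) and `sg (p t') v ≥ 2 κ - D ≥ κ`.  If `m1.length < N`: `ovl_pt` (a: `Eb x (l.take t')`, b: (i), c: `Eb x (l.take t)`) gives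
`p t = Ax (p t') (i τ)`, `i ≥ 1`, and `sg (p t') v = sg (p t) v + i ≥ κ` (`sg_Ax_left`).
(2) If `l2.length < 2 N`: the second alternative (`Sw_split`).  Else `t < l.length`, `Hw (p t) l2` by `hw_prefix`, and the two conditions on the end of
`l2` are those for `l` (`pt_drop`): `Eb (p t) l2`.
-/

set_option autoImplicit false

open scoped ENNReal NNReal Classical
open Filter Topology

namespace Pool.Agent.SWQ

open SWH

variable {Γ I : Type} [Group Γ] [Fintype I] {G : SimpleGraph (Γ × I)} {d : Dat Γ I} {θ : ℝ}

private theorem dec_step (H : Hyq G d θ) {x : Γ × I} {l : List (Γ × I)} (h1 : Eb G d x l) {t t' : ℕ}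
    (ht : t < l.length) (h3 : Eb G d x (l.take t)) (h5 : Hw G d (pt x l t) (l.drop t ++ hd d (endp x l)))
    (ht' : t' < t) (a1 : Eb G d x (l.take t')) (a3 : Hw G d (pt x l t') ((l.take t).drop t' ++ hd d (pt x l t))) :
    Hw G d (pt x l t') (l.drop t' ++ hd d (endp x l)) := by
  have hm : ((l.take t).drop t').length = t - t' := by
    rw [List.length_drop, List.length_take]
    omega
  have hdrop : l.drop t' = (l.take t).drop t' ++ l.drop t := by
    conv_lhs => rw [← List.take_append_drop t l]
    rw [List.drop_append_of_le_length]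
    rw [List.length_take]
    omega
  have hend : endp (pt x l t') ((l.take t).drop t') = pt x l t := by
    have e1 := endp_drop x (l.take t) (t := t') (by rw [List.length_take]; omega)
    rw [pt_take x l ht'.le, endp_take] at e1
    exact e1
  have hR : l.drop t' ++ hd d (endp x l) = (l.take t).drop t' ++ (l.drop t ++ hd d (endp x l)) := by
    rw [hdrop, List.append_assoc]
  have hfirst : ∀ j ≤ (t - t') + d.N, pt (pt x l t') (l.drop t' ++ hd d (endp x l)) j =
      pt (pt x l t') ((l.take t).drop t' ++ hd d (pt x l t)) j := by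
    intro j hj
    have e1 : ((l.take t).drop t' ++ (l.drop t ++ hd d (endp x l))).take ((t - t') + d.N) =
        (l.take t).drop t' ++ hd d (pt x l t) := by
      rw [← hm, List.take_length_add_append, hw_take H h5]
    rw [hR, ← e1, pt_take _ _ hj]
  have hstart : ∀ j : ℕ, j ≤ d.N → pt (pt x l t') (l.drop t' ++ hd d (endp x l)) j = Ax d (pt x l t') j := by
    intro j hj
    rw [hfirst j (by omega)]
    exact a3.2.2.2.1 j hj
  refine ⟨a3.1, ?_, ?_, hstart, ?_⟩
  · have e1 := (eb_hw H h1 (hw_hd H h1.2.1)).2.1
    rw [← List.take_append_drop t' l, List.append_assoc] at e1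
    have e2 := (Sw_split e1).2
    rw [endp_take] at e2
    rw [List.take_append_drop] at e2
    exact e2
  · rw [List.length_append, hd_length]
    omega
  · intro j hj
    by_cases hj2 : j ≤ (t - t') + d.N
    · rw [hfirst j hj2]
      exact a3.2.2.2.2 j hj
    · obtain ⟨j', rfl⟩ : ∃ j', j = (t - t') + j' := ⟨j - (t - t'), by omega⟩
      have e1 : pt (pt x l t') (l.drop t' ++ hd d (endp x l)) ((t - t') + j') =
          pt (pt x l t) (l.drop t ++ hd d (endp x l)) j' := by
        rw [hR, ← hm, pt_right, hend]
      rw [e1]
      set v := pt (pt x l t) (l.drop t ++ hd d (endp x l)) j' with hv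
      have e2 : (d.κ : ℤ) ≤ sg d (pt x l t) v := h5.2.2.2.2 j' (by omega)
      by_cases hN : d.N ≤ t - t'
      · have e3 := a3.2.2.2.2 (t - t') hN
        rw [pt_left _ _ _ (by rw [hm]), ← hm, pt_length, hend] at e3
        have e4 := sg_tri H (pt x l t') (pt x l t) v
        rw [abs_le] at e4
        have e5 := H.hκ
        omega
      · have hl1 : (l.take t').length = t' := by
          rw [List.length_take]
          omega
        have hl2 : (l.take t).length = t := by
          rw [List.length_take]
          omega
        have hN2 : 2 * d.N ≤ t' := by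
          have := a1.2.2.1
          rwa [hl1] at this
        obtain ⟨i, hi, e3⟩ := ovl_pt H (x := x) (l := l) (t' := t') (t := t) ht' ht.le (by omega) (by omega)
          a3.1 (by have := h3.2.1; rwa [endp_take] at this) (by
            intro j hj
            have e1 := a1.2.2.2.1 j hj
            rw [hl1, pt_take x l (by omega : t' - j ≤ t'), endp_take] at e1
            exact e1) (by
            intro j hj hj'
            have e1 := hstart j hj
            rw [pt_left _ _ _ (by rw [List.length_drop]; omega), pt_drop x l (by omega)] at e1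
            exact e1) (by
            intro j hj
            have e1 := h3.2.2.2.1 j hj
            rw [hl2, pt_take x l (by omega : t - j ≤ t), endp_take] at e1
            exact e1)
        have e4 := sg_Ax_left H (pt x l t') i v
        rw [← e3] at e4
        omega

theorem eb_dec (H : Hyq G d θ) {L : ℤ} {x : Γ × I} {l : List (Γ × I)} (h1 : Eb G d x l)
    (h2 : L ≤ sg d x (endp x l)) : ∃ l1 l2, l = l1 ++ l2 ∧ Cd G d L x l1 ∧
      (Eb G d (endp x l1) l2 ∨ Sh G d (endp x l1) l2) := by
  classical
  have hex : ∃ t : ℕ, t ≤ l.length ∧ Eb G d x (l.take t) ∧ L ≤ sg d x (pt x l t) ∧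
      (t = l.length ∨ Hw G d (pt x l t) (l.drop t ++ hd d (endp x l))) := by
    refine ⟨l.length, le_rfl, ?_, ?_, Or.inl rfl⟩
    · rw [List.take_length]
      exact h1
    · rw [pt_length]
      exact h2
  obtain ⟨ht, h3, h4, h5⟩ := Nat.find_spec hex
  have hmin := fun t' (h : t' < Nat.find hex) => Nat.find_min hex h
  revert ht h3 h4 h5 hmin
  generalize Nat.find hex = t
  intro ht h3 h4 h5 hmin
  have hl2 : (l.take t).length = t := by
    rw [List.length_take]
    omega
  refine ⟨l.take t, l.drop t, (List.take_append_drop t l).symm, ⟨h3, ?_, ?_⟩, ?_⟩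
  · rw [endp_take]
    exact h4
  · rintro t' ht' ⟨a1, a2, a3⟩
    rw [hl2] at ht'
    rw [List.take_take, min_eq_left ht'.le] at a1
    rw [pt_take x l ht'.le] at a2 a3
    rw [endp_take] at a3
    refine hmin t' ht' ⟨by omega, a1, a2, Or.inr ?_⟩
    rcases h5 with h5 | h5
    · subst h5
      rw [List.take_length, pt_length] at a3
      exact a3
    · rcases ht.lt_or_eq with ht2 | ht2
      · exact dec_step H h1 ht2 h3 h5 ht' a1 a3
      · subst ht2
        rw [List.take_length, pt_length] at a3
        exact a3
  · rw [endp_take]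
    have hi0 : (pt x l t).2 = d.i0 := by
      have := h3.2.1
      rwa [endp_take] at this
    have hi1 : (endp (pt x l t) (l.drop t)).2 = d.i0 := by
      rw [endp_drop x l ht]
      exact h1.2.1
    have hld : (l.drop t).length = l.length - t := List.length_drop
    by_cases hc : (l.drop t).length < 2 * d.N
    · refine Or.inr ⟨?_, hc, hi0, hi1⟩
      have e1 := h1.1.2.1
      rw [← List.take_append_drop t l] at e1
      have e2 := (Sw_split e1).2
      rw [endp_take] at e2
      simpa using e2
    · have hpos := N_pos H
      have ht2 : t < l.length := by omega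
      have h6 : Hw G d (pt x l t) (l.drop t ++ hd d (endp x l)) := by
        rcases h5 with h5 | h5
        · omega
        · exact h5
      refine Or.inl ⟨hw_prefix h6 (by omega), hi1, by omega, ?_, ?_⟩
      · intro j hj
        rw [endp_drop x l ht, pt_drop x l ht, hld]
        have e1 := h1.2.2.2.1 j hj
        rw [← e1]
        congr 1
        omega
      · intro j hj
        rw [endp_drop x l ht, pt_drop x l ht]
        exact h1.2.2.2.2 (t + j) (by omega)

end Pool.Agent.SWQ
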