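import Pool.Agent.SWQ.Defs
import Pool.Agent.SWH.Nrm

/-!
# SWQ module Dfq: a Dirichlet form

PROOF.  `φ x = √ (∑ j in Ico M (M + n), v (x.1 * γ x.2 * g ^ j) ^ 2)`; it has finite support (`v` has; for each type and each `j` the map `a ↦ a * γ i * g ^ j` is injective).
(1) `∑' x, φ x ^ 2 = ∑ i, ∑ j, ∑' a, v (a * γ i * g ^ j) ^ 2 = card I * n * ∑' a, v a ^ 2 ≥ card I * n / 2` (`Equiv.mulRight`).
(2) `∑' x, ∑' y, 1[x ~ y] (φ x - φ y)^2 = ∑ i, ∑ x' ~ (1, i), ∑' a, (φ (a, i) - φ (tr a x'))^2` (`H.inv`).  Fix `i, x'`, `δ = d' i x'`, `u = x'.1 * γ x'.2`, and let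
`A a = (v (a * γ i * g^j))_j`, `B a = (v (a * u * g^j))_j`, `B' a = (v (a * u * g^(j + δ)))_j`, `j ∈ Ico M (M + n)` (vectors in euclidean space).
`(‖A‖ - ‖B‖)^2 ≤ 2 (‖A‖ - ‖B'‖)^2 + 2 (‖B'‖ - ‖B‖)^2`, `(‖A‖ - ‖B'‖)^2 ≤ ‖A - B'‖^2` (reverse triangle inequality; or by Cauchy-Schwarz for finite sums) and
`(‖B'‖ - ‖B‖)^2 ≤ |‖B'‖^2 - ‖B‖^2| ≤ ∑_{j in exactly one of the two windows} v (a * u * g^j)^2` (`(s - t)^2 ≤ |s^2 - t^2|` for `s, t ≥ 0`).  Sum over `a`: the first is at most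
`n ε` by `hedge`, the second at most `2 |δ| ≤ 2 dm` (`∑' a, v (a * b)^2 ≤ 1`).  Total for each edge orbit: `2 n ε + 4 dm`.
(3) `H.gap φ`.
-/

set_option autoImplicit false

open scoped ENNReal NNReal Classical
open Filter Topology

namespace Pool.Agent.SWQ

open SWH

variable {Γ I : Type} [Group Γ] [Fintype I] {G : SimpleGraph (Γ × I)} {d : Dat Γ I} {θ : ℝ}

private theorem dfq_sqrt {s t : ℝ} (hs : 0 ≤ s) (ht : 0 ≤ t) : (√s - √t) ^ 2 ≤ |s - t| := by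
  have h1 : s - t = (√s - √t) * (√s + √t) := by
    have h2 := Real.mul_self_sqrt hs
    have h3 := Real.mul_self_sqrt ht
    nlinarith
  have h4 := Real.sqrt_nonneg s
  have h5 := Real.sqrt_nonneg t
  rw [h1, abs_mul, sq, ← abs_mul_abs_self (√s - √t)]
  refine mul_le_mul_of_nonneg_left ?_ (abs_nonneg _)
  rw [abs_of_nonneg (add_nonneg h4 h5), abs_le]
  constructor <;> linarith

private theorem dfq_tri {ι : Type} (S : Finset ι) (p r : ι → ℝ) :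
    (√(∑ j ∈ S, p j ^ 2) - √(∑ j ∈ S, r j ^ 2)) ^ 2 ≤ ∑ j ∈ S, (p j - r j) ^ 2 := by
  have h1 := Real.sum_mul_le_sqrt_mul_sqrt S p r
  have h2 := Real.sq_sqrt (Finset.sum_nonneg (fun j _ => sq_nonneg (p j)) : 0 ≤ ∑ j ∈ S, p j ^ 2)
  have h3 := Real.sq_sqrt (Finset.sum_nonneg (fun j _ => sq_nonneg (r j)) : 0 ≤ ∑ j ∈ S, r j ^ 2)
  have h4 : ∑ j ∈ S, (p j - r j) ^ 2 = ∑ j ∈ S, p j ^ 2 - 2 * ∑ j ∈ S, p j * r j + ∑ j ∈ S, r j ^ 2 := by
    rw [Finset.mul_sum, ← Finset.sum_sub_distrib, ← Finset.sum_add_distrib]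
    exact Finset.sum_congr rfl fun j _ => by ring
  rw [h4]
  nlinarith

private theorem dfq_pt (f p : ℤ → ℝ) (M δ : ℤ) (n : ℕ) :
    (√(∑ j ∈ Finset.Ico M (M + n), p j ^ 2) - √(∑ j ∈ Finset.Ico M (M + n), f j ^ 2)) ^ 2 ≤
      2 * ∑ j ∈ Finset.Ico M (M + n), (p j - f (j + δ)) ^ 2 +
      2 * (∑ k ∈ Finset.Ico (M + δ) (M + n + δ) \ Finset.Ico M (M + n), f k ^ 2 +
        ∑ k ∈ Finset.Ico M (M + n) \ Finset.Ico (M + δ) (M + n + δ), f k ^ 2) := by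
  have h1 := dfq_tri (Finset.Ico M (M + n)) p (fun j => f (j + δ))
  have h2 : ∑ j ∈ Finset.Ico M (M + n), f (j + δ) ^ 2 = ∑ k ∈ Finset.Ico (M + δ) (M + n + δ), f k ^ 2 :=
    Finset.sum_Ico_add' (fun k => f k ^ 2) M (M + n) δ
  rw [h2] at h1
  have h3 := dfq_sqrt (Finset.sum_nonneg (fun j _ => sq_nonneg (f j)) : 0 ≤ ∑ k ∈ Finset.Ico (M + δ) (M + n + δ), f k ^ 2)
    (Finset.sum_nonneg (fun j _ => sq_nonneg (f j)) : 0 ≤ ∑ k ∈ Finset.Ico M (M + n), f k ^ 2)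
  have h4 := Finset.sum_sdiff_sub_sum_sdiff (s₁ := Finset.Ico M (M + n)) (s₂ := Finset.Ico (M + δ) (M + n + δ))
    (f := fun k => f k ^ 2)
  rw [← h4] at h3
  have h5 : 0 ≤ ∑ k ∈ Finset.Ico (M + δ) (M + n + δ) \ Finset.Ico M (M + n), f k ^ 2 :=
    Finset.sum_nonneg (fun j _ => sq_nonneg (f j))
  have h6 : 0 ≤ ∑ k ∈ Finset.Ico M (M + n) \ Finset.Ico (M + δ) (M + n + δ), f k ^ 2 :=
    Finset.sum_nonneg (fun j _ => sq_nonneg (f j))
  have h7 : |∑ k ∈ Finset.Ico (M + δ) (M + n + δ) \ Finset.Ico M (M + n), f k ^ 2 -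
      ∑ k ∈ Finset.Ico M (M + n) \ Finset.Ico (M + δ) (M + n + δ), f k ^ 2| ≤
      ∑ k ∈ Finset.Ico (M + δ) (M + n + δ) \ Finset.Ico M (M + n), f k ^ 2 +
      ∑ k ∈ Finset.Ico M (M + n) \ Finset.Ico (M + δ) (M + n + δ), f k ^ 2 := by
    rw [abs_le]
    constructor <;> linarith
  have h8 := h3.trans h7
  nlinarith [sq_nonneg ((√(∑ j ∈ Finset.Ico M (M + n), p j ^ 2) - √(∑ k ∈ Finset.Ico (M + δ) (M + n + δ), f k ^ 2)) -
    (√(∑ k ∈ Finset.Ico (M + δ) (M + n + δ), f k ^ 2) - √(∑ j ∈ Finset.Ico M (M + n), f j ^ 2)))]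

private theorem dfq_pt' (f p : ℤ → ℝ) (M δ : ℤ) (n : ℕ) :
    ENNReal.ofReal ((√(∑ j ∈ Finset.Ico M (M + n), p j ^ 2) - √(∑ j ∈ Finset.Ico M (M + n), f j ^ 2)) ^ 2) ≤
      2 * ∑ j ∈ Finset.Ico M (M + n), ENNReal.ofReal ((p j - f (j + δ)) ^ 2) +
      2 * (∑ k ∈ Finset.Ico (M + δ) (M + n + δ) \ Finset.Ico M (M + n), ENNReal.ofReal (f k ^ 2) +
        ∑ k ∈ Finset.Ico M (M + n) \ Finset.Ico (M + δ) (M + n + δ), ENNReal.ofReal (f k ^ 2)) := by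
  refine (ENNReal.ofReal_le_ofReal (dfq_pt f p M δ n)).trans (le_of_eq ?_)
  have h5 : ∀ S : Finset ℤ, 0 ≤ ∑ k ∈ S, f k ^ 2 := fun S => Finset.sum_nonneg (fun j _ => sq_nonneg (f j))
  have h6 : 0 ≤ ∑ j ∈ Finset.Ico M (M + n), (p j - f (j + δ)) ^ 2 :=
    Finset.sum_nonneg (fun j _ => sq_nonneg _)
  rw [ENNReal.ofReal_add (by positivity) (mul_nonneg (by norm_num) (add_nonneg (h5 _) (h5 _))),
    ENNReal.ofReal_mul (by norm_num), ENNReal.ofReal_mul (by norm_num), ENNReal.ofReal_add (h5 _) (h5 _),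
    ENNReal.ofReal_sum_of_nonneg (fun j _ => sq_nonneg _), ENNReal.ofReal_sum_of_nonneg (fun j _ => sq_nonneg _),
    ENNReal.ofReal_sum_of_nonneg (fun j _ => sq_nonneg _)]
  simp

private theorem dfq_card1 (M δ : ℤ) (n : ℕ) :
    (Finset.Ico (M + δ) (M + n + δ) \ Finset.Ico M (M + n)).card ≤ δ.natAbs := by
  have h1 : Finset.Ico (M + δ) (M + n + δ) \ Finset.Ico M (M + n) ⊆
      Finset.Ico (M + n) (M + n + δ) ∪ Finset.Ico (M + δ) M := by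
    intro k hk
    simp only [Finset.mem_sdiff, Finset.mem_Ico, Finset.mem_union] at hk ⊢
    omega
  refine (Finset.card_le_card h1).trans ((Finset.card_union_le _ _).trans ?_)
  rw [Int.card_Ico, Int.card_Ico]
  omega

private theorem dfq_card2 (M δ : ℤ) (n : ℕ) :
    (Finset.Ico M (M + n) \ Finset.Ico (M + δ) (M + n + δ)).card ≤ δ.natAbs := by
  have h1 : Finset.Ico M (M + n) \ Finset.Ico (M + δ) (M + n + δ) ⊆
      Finset.Ico (M + n + δ) (M + n) ∪ Finset.Ico M (M + δ) := by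
    intro k hk
    simp only [Finset.mem_sdiff, Finset.mem_Ico, Finset.mem_union] at hk ⊢
    omega
  refine (Finset.card_le_card h1).trans ((Finset.card_union_le _ _).trans ?_)
  rw [Int.card_Ico, Int.card_Ico]
  omega

private theorem dfq_shift (v : Γ → ℝ) (b : Γ) :
    ∑' a, ENNReal.ofReal (v (a * b) ^ 2) = ∑' a, ENNReal.ofReal (v a ^ 2) :=
  Equiv.tsum_eq (Equiv.mulRight b) (fun a => ENNReal.ofReal (v a ^ 2))

private theorem dfq_T (v : Γ → ℝ) (hv2 : ∑' a, ENNReal.ofReal (v a ^ 2) ≤ 1) (u : ℤ → Γ) (T : Finset ℤ) (m : ℕ)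
    (hT : T.card ≤ m) : ∑' a, ∑ k ∈ T, ENNReal.ofReal (v (a * u k) ^ 2) ≤ m := by
  rw [Summable.tsum_finsetSum (fun i _ => ENNReal.summable)]
  calc ∑ k ∈ T, ∑' a, ENNReal.ofReal (v (a * u k) ^ 2) ≤ ∑ _k ∈ T, (1 : ℝ≥0∞) := by
        refine Finset.sum_le_sum fun k _ => ?_
        rw [dfq_shift]
        exact hv2
    _ = T.card := by simp
    _ ≤ m := by exact_mod_cast hT

/-- The test function. -/
private noncomputable def dfqF (d : Dat Γ I) (γ : I → Γ) (M : ℤ) (n : ℕ) (v : Γ → ℝ) (x : Γ × I) : ℝ :=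
  √(∑ j ∈ Finset.Ico M (M + n), v (x.1 * (γ x.2 * d.g ^ j)) ^ 2)

private theorem dfq_supp (γ : I → Γ) (M : ℤ) (n : ℕ) (v : Γ → ℝ) (hv : v.support.Finite) :
    (dfqF d γ M n v).support.Finite := by
  have h1 : (⋃ i : I, ⋃ j ∈ Finset.Ico M (M + n),
      (fun b : Γ => (b * (γ i * d.g ^ j)⁻¹, i)) '' v.support).Finite := by
    refine Set.finite_iUnion fun i => ?_
    refine Set.Finite.biUnion (Finset.finite_toSet _) fun j _ => ?_
    exact hv.image _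
  refine h1.subset ?_
  intro x hx
  by_contra hc
  apply hx
  unfold dfqF
  rw [Finset.sum_eq_zero, Real.sqrt_zero]
  intro j hj
  have h2 : v (x.1 * (γ x.2 * d.g ^ j)) = 0 := by
    by_contra h3
    apply hc
    refine Set.mem_iUnion.2 ⟨x.2, Set.mem_iUnion.2 ⟨j, Set.mem_iUnion.2 ⟨hj, ?_⟩⟩⟩
    refine ⟨x.1 * (γ x.2 * d.g ^ j), h3, ?_⟩
    refine Prod.ext ?_ rfl
    change x.1 * (γ x.2 * d.g ^ j) * (γ x.2 * d.g ^ j)⁻¹ = x.1
    group
  rw [h2]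
  ring

private theorem dfq_one (γ : I → Γ) (M : ℤ) (n : ℕ) (v : Γ → ℝ) :
    ∑' x, ENNReal.ofReal (dfqF d γ M n v x ^ 2) = ((n * Fintype.card I : ℕ) : ℝ≥0∞) * ∑' a, ENNReal.ofReal (v a ^ 2) := by
  have h1 : ∀ x : Γ × I, ENNReal.ofReal (dfqF d γ M n v x ^ 2) =
      ∑ j ∈ Finset.Ico M (M + n), ENNReal.ofReal (v (x.1 * (γ x.2 * d.g ^ j)) ^ 2) := by
    intro x
    unfold dfqF
    rw [Real.sq_sqrt (Finset.sum_nonneg (fun j _ => sq_nonneg _)), ENNReal.ofReal_sum_of_nonneg (fun j _ => sq_nonneg _)]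
  calc ∑' x, ENNReal.ofReal (dfqF d γ M n v x ^ 2)
      = ∑' x : Γ × I, ∑ j ∈ Finset.Ico M (M + n), ENNReal.ofReal (v (x.1 * (γ x.2 * d.g ^ j)) ^ 2) :=
        tsum_congr h1
    _ = ∑ j ∈ Finset.Ico M (M + n), ∑' x : Γ × I, ENNReal.ofReal (v (x.1 * (γ x.2 * d.g ^ j)) ^ 2) :=
        Summable.tsum_finsetSum (fun i _ => ENNReal.summable)
    _ = ∑ j ∈ Finset.Ico M (M + n), ∑ i : I, ∑' a : Γ, ENNReal.ofReal (v (a * (γ i * d.g ^ j)) ^ 2) := by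
        refine Finset.sum_congr rfl fun j _ => ?_
        rw [ENNReal.tsum_prod', ENNReal.tsum_comm, tsum_fintype]
    _ = ∑ _j ∈ Finset.Ico M (M + n), ∑ _i : I, ∑' a : Γ, ENNReal.ofReal (v a ^ 2) := by
        refine Finset.sum_congr rfl fun j _ => Finset.sum_congr rfl fun i _ => ?_
        exact dfq_shift v _
    _ = _ := by
        rw [Finset.sum_const, Finset.sum_const, Int.card_Ico, Finset.card_univ, nsmul_eq_mul, nsmul_eq_mul, ← mul_assoc]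
        congr 1
        have h2 : (M + (n : ℤ) - M).toNat = n := by omega
        rw [h2]
        push_cast
        rfl

private theorem dfq_edge (γ : I → Γ) (M : ℤ) (n : ℕ) (v : Γ → ℝ)
    (hv2 : ∑' a, ENNReal.ofReal (v a ^ 2) ≤ 1) (ε : ℝ≥0∞) (dm : ℕ) (i : I) (x' : Γ × I) (δ : ℤ) (hδ : |δ| ≤ dm)
    (hedge : ∀ j : ℤ, M ≤ j → j < M + n →
      ∑' a, ENNReal.ofReal ((v (a * (γ i * d.g ^ j)) - v (a * (x'.1 * γ x'.2 * d.g ^ (j + δ)))) ^ 2) ≤ ε) :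
    ∑' a, ENNReal.ofReal ((dfqF d γ M n v (a, i) - dfqF d γ M n v (tr a x')) ^ 2) ≤
      2 * (ε * (n : ℝ≥0∞)) + 4 * (dm : ℝ≥0∞) := by
  have hδ' : δ.natAbs ≤ dm := by
    rw [abs_le] at hδ
    omega
  have h1 : ∀ a : Γ, ENNReal.ofReal ((dfqF d γ M n v (a, i) - dfqF d γ M n v (tr a x')) ^ 2) ≤
      2 * ∑ j ∈ Finset.Ico M (M + n), ENNReal.ofReal ((v (a * (γ i * d.g ^ j)) - v (a * (x'.1 * γ x'.2 * d.g ^ (j + δ)))) ^ 2) +
      2 * (∑ k ∈ Finset.Ico (M + δ) (M + n + δ) \ Finset.Ico M (M + n), ENNReal.ofReal (v (a * (x'.1 * γ x'.2 * d.g ^ k)) ^ 2) +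
        ∑ k ∈ Finset.Ico M (M + n) \ Finset.Ico (M + δ) (M + n + δ), ENNReal.ofReal (v (a * (x'.1 * γ x'.2 * d.g ^ k)) ^ 2)) := by
    intro a
    have h2 := dfq_pt' (fun k => v (a * (x'.1 * γ x'.2 * d.g ^ k))) (fun j => v (a * (γ i * d.g ^ j))) M δ n
    have h3 : dfqF d γ M n v (tr a x') = √(∑ j ∈ Finset.Ico M (M + n), v (a * (x'.1 * γ x'.2 * d.g ^ j)) ^ 2) := by
      unfold dfqF tr
      congr 1
      refine Finset.sum_congr rfl fun j _ => ?_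
      congr 2
      group
    rw [h3]
    exact h2
  refine (ENNReal.tsum_le_tsum h1).trans ?_
  rw [ENNReal.tsum_add, ENNReal.tsum_mul_left, ENNReal.tsum_mul_left, ENNReal.tsum_add,
    Summable.tsum_finsetSum (fun i _ => ENNReal.summable)]
  have h4 : ∑ j ∈ Finset.Ico M (M + n), ∑' a, ENNReal.ofReal ((v (a * (γ i * d.g ^ j)) - v (a * (x'.1 * γ x'.2 * d.g ^ (j + δ)))) ^ 2)
      ≤ ε * (n : ℝ≥0∞) := by
    calc _ ≤ ∑ _j ∈ Finset.Ico M (M + n), ε := by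
          refine Finset.sum_le_sum fun j hj => ?_
          rw [Finset.mem_Ico] at hj
          exact hedge j hj.1 hj.2
      _ = ε * (n : ℝ≥0∞) := by
          rw [Finset.sum_const, Int.card_Ico, nsmul_eq_mul, mul_comm]
          have h2 : (M + (n : ℤ) - M).toNat = n := by omega
          rw [h2]
  have h5 := dfq_T v hv2 (fun k => x'.1 * γ x'.2 * d.g ^ k) _ dm ((dfq_card1 M δ n).trans hδ')
  have h6 := dfq_T v hv2 (fun k => x'.1 * γ x'.2 * d.g ^ k) _ dm ((dfq_card2 M δ n).trans hδ')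
  calc _ ≤ 2 * (ε * (n : ℝ≥0∞)) + 2 * ((dm : ℝ≥0∞) + dm) := by
        gcongr
    _ = _ := by ring

private theorem dfq_two (H : Hyq G d θ) (f : Γ × I → ℝ) (C : ℝ≥0∞)
    (h : ∀ i x', G.Adj (1, i) x' → ∑' a, ENNReal.ofReal ((f (a, i) - f (tr a x')) ^ 2) ≤ C) :
    (∑' x, ∑' y, if G.Adj x y then ENNReal.ofReal ((f x - f y) ^ 2) else 0) ≤
      ((∑ i : I, (G.neighborSet (1, i)).ncard : ℕ) : ℝ≥0∞) * C := by
  have h1 : (∑' x, ∑' y, if G.Adj x y then ENNReal.ofReal ((f x - f y) ^ 2) else 0) =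
      ∑ i : I, ∑' x' : Γ × I, if G.Adj (1, i) x' then ∑' a, ENNReal.ofReal ((f (a, i) - f (tr a x')) ^ 2) else 0 := by
    rw [ENNReal.tsum_prod', ENNReal.tsum_comm, tsum_fintype]
    refine Finset.sum_congr rfl fun i _ => ?_
    have h2 : ∀ a : Γ, (∑' y, if G.Adj (a, i) y then ENNReal.ofReal ((f (a, i) - f y) ^ 2) else 0) =
        ∑' x' : Γ × I, if G.Adj (1, i) x' then ENNReal.ofReal ((f (a, i) - f (tr a x')) ^ 2) else 0 := by
      intro a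
      let e : Γ × I ≃ Γ × I := (Equiv.mulLeft a).prodCongr (Equiv.refl I)
      have h3 := Equiv.tsum_eq e (fun y => if G.Adj (a, i) y then ENNReal.ofReal ((f (a, i) - f y) ^ 2) else 0)
      rw [← h3]
      refine tsum_congr fun x' => ?_
      have h4 : e x' = tr a x' := rfl
      have h5 : (a, i) = tr a (1, i) := by simp [tr]
      have h6 : G.Adj (a, i) (tr a x') ↔ G.Adj (1, i) x' := by
        rw [h5]
        exact H.inv a _ _
      simp only [h4, h6]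
    rw [tsum_congr h2, ENNReal.tsum_comm]
    refine tsum_congr fun x' => ?_
    split_ifs with h7
    · rfl
    · simp
  rw [h1]
  push_cast
  rw [Finset.sum_mul]
  refine Finset.sum_le_sum fun i _ => ?_
  have hfin := H.fin (1, i)
  have h2 : (∑' x' : Γ × I, if G.Adj (1, i) x' then ∑' a, ENNReal.ofReal ((f (a, i) - f (tr a x')) ^ 2) else 0) ≤
      ∑' x' : Γ × I, if x' ∈ hfin.toFinset then C else 0 := by
    refine ENNReal.tsum_le_tsum fun x' => ?_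
    have h3 : x' ∈ hfin.toFinset ↔ G.Adj (1, i) x' := by simp
    simp only [h3]
    split_ifs with h4
    · exact h i x' h4
    · exact le_rfl
  refine h2.trans (le_of_eq ?_)
  rw [tsum_eq_sum (s := hfin.toFinset) (fun x' hx' => by simp only [hx', if_false]), Set.ncard_eq_toFinset_card _ hfin]
  rw [Finset.sum_congr rfl (fun x' hx' => by rw [if_pos hx']), Finset.sum_const, nsmul_eq_mul]

theorem dfq (H : Hyq G d θ) (γ : I → Γ) (M : ℤ) (n : ℕ) (v : Γ → ℝ) (hv : v.support.Finite)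
    (hv1 : 1 / 2 ≤ ∑' a, ENNReal.ofReal (v a ^ 2)) (hv2 : ∑' a, ENNReal.ofReal (v a ^ 2) ≤ 1) (ε : ℝ≥0∞)
    (dm : ℕ) (d' : I → Γ × I → ℤ) (hd' : ∀ i x', G.Adj (1, i) x' → |d' i x'| ≤ dm)
    (hedge : ∀ i x', G.Adj (1, i) x' → ∀ j : ℤ, M ≤ j → j < M + n →
      ∑' a, ENNReal.ofReal ((v (a * (γ i * d.g ^ j)) - v (a * (x'.1 * γ x'.2 * d.g ^ (j + d' i x')))) ^ 2) ≤ ε) :
    ENNReal.ofReal θ * (((n * Fintype.card I : ℕ) : ℝ≥0∞) / 2) ≤
      ((∑ i : I, (G.neighborSet (1, i)).ncard : ℕ) : ℝ≥0∞) * (2 * (ε * (n : ℝ≥0∞)) + 4 * (dm : ℝ≥0∞)) := by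
  have h1 := H.gap (dfqF d γ M n v) (dfq_supp γ M n v hv)
  have h2 := dfq_two H (dfqF d γ M n v) (2 * (ε * (n : ℝ≥0∞)) + 4 * (dm : ℝ≥0∞))
    (fun i x' hx' => dfq_edge γ M n v hv2 ε dm i x' (d' i x') (hd' i x' hx') (hedge i x' hx'))
  refine le_trans ?_ (h1.trans h2)
  gcongr
  rw [dfq_one]
  rw [div_eq_mul_inv]
  gcongr
  rw [← one_div]
  exact hv1

end Pool.Agent.SWQ
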