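import Pool.Agent.SWQ.Defs
import Pool.Agent.SWH.Cnv

/-!
# SWQ module Nwf: the sum of the norms of the parts

PROOF.  `Nw_cnv`: pointwise `slc w T (cnv k k') a ≤ ∑' T1, cnv (slc 0 T1 k) (slc (w + D) (T - T1) k') a` (for `c` put `T1 = s c`; if `|s a - T| ≤ w` then
`|s (c⁻¹ a) - (T - T1)| ≤ w + D` by `hqm c (c⁻¹ a)`), so `nrm (slc w T (cnv k k')) ≤ ∑' T1, nrm (slc 0 T1 k) * nrm (slc (w + D) (T - T1) k')` (`nrm_tsum`, `nrm_cnv`, `nrm_mono`);
sum over `T` (`ENNReal.tsum_comm`, `Equiv.subRight`, `ENNReal.tsum_mul_left`).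
`Nw_le`: `slc w T k ≤ ∑ i ∈ Icc (-w) w, slc 0 (T + i) k`.  `Nw_mass`: `Nw_le` and `nrm (slc 0 T k) ≤ ∑' a, slc 0 T k a`, `∑' T, slc 0 T k a = k a`.
`nrm_hi`: `hi T k = ∑' j : ℕ, slc 0 (T + j) k`.
-/

set_option autoImplicit false

open scoped ENNReal NNReal Classical
open Filter Topology

namespace Pool.Agent.SWQ

open SWH

variable {Γ I : Type} [Group Γ] {d : Dat Γ I}

theorem slc_le (w : ℕ) (T : ℤ) (k : Γ → ℝ≥0∞) (a : Γ) : slc d w T k a ≤ k a := by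
  unfold slc
  split_ifs
  · exact le_rfl
  · exact bot_le

private theorem nwf_pos {w : ℕ} {T : ℤ} {k : Γ → ℝ≥0∞} {a : Γ} (h : |d.s a - T| ≤ w) :
    slc d w T k a = k a := by
  unfold slc
  rw [if_pos h]

theorem tsum_slc (k : Γ → ℝ≥0∞) (a : Γ) : ∑' T : ℤ, slc d 0 T k a = k a := by
  rw [tsum_eq_single (d.s a)]
  · exact nwf_pos (by simp)
  · intro T hT
    unfold slc
    rw [if_neg]
    intro h
    rw [Nat.cast_zero, abs_nonpos_iff, sub_eq_zero] at h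
    exact hT h.symm

private theorem nwf_slc_mono (w : ℕ) (T : ℤ) {k k' : Γ → ℝ≥0∞} (h : ∀ a, k a ≤ k' a) (a : Γ) :
    slc d w T k a ≤ slc d w T k' a := by
  unfold slc
  split_ifs
  · exact h a
  · exact le_rfl

theorem Nw_mono (w : ℕ) {k k' : Γ → ℝ≥0∞} (h : ∀ a, k a ≤ k' a) : Nw d w k ≤ Nw d w k' := by
  unfold Nw
  exact ENNReal.tsum_le_tsum fun T => nrm_mono (nwf_slc_mono w T h)

theorem Nw_add (w : ℕ) (k k' : Γ → ℝ≥0∞) : Nw d w (fun a => k a + k' a) ≤ Nw d w k + Nw d w k' := by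
  unfold Nw
  rw [← ENNReal.tsum_add]
  refine ENNReal.tsum_le_tsum fun T => ?_
  refine le_trans (le_of_eq ?_) (nrm_add (slc d w T k) (slc d w T k'))
  refine congrArg nrm (funext fun a => ?_)
  unfold slc
  split_ifs
  · rfl
  · rw [add_zero]

theorem Nw_le (w : ℕ) (k : Γ → ℝ≥0∞) : Nw d w k ≤ (2 * (w : ℝ≥0∞) + 1) * Nw d 0 k := by
  have h1 : ∀ T : ℤ, nrm (slc d w T k)
      ≤ ∑' i : Fin (2 * w + 1), nrm (slc d 0 (T + ((i : ℕ) - (w : ℤ))) k) := by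
    intro T
    refine le_trans (nrm_mono (l := fun a => ∑' i : Fin (2 * w + 1),
      slc d 0 (T + ((i : ℕ) - (w : ℤ))) k a) ?_) (nrm_tsum _)
    intro a
    by_cases h : |d.s a - T| ≤ w
    · rw [nwf_pos h]
      rw [abs_le] at h
      have h2 := ENNReal.le_tsum (f := fun i : Fin (2 * w + 1) =>
        slc d 0 (T + ((i : ℕ) - (w : ℤ))) k a) ⟨(d.s a - T + w).toNat, by omega⟩
      refine le_trans (le_of_eq ?_) h2
      refine (nwf_pos ?_).symm
      have h3 : (((d.s a - T + w).toNat : ℕ) : ℤ) = d.s a - T + w := Int.toNat_of_nonneg (by omega)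
      change |d.s a - (T + ((((d.s a - T + w).toNat : ℕ) : ℤ) - (w : ℤ)))| ≤ ((0 : ℕ) : ℤ)
      rw [h3]
      have h4 : d.s a - (T + (d.s a - T + (w : ℤ) - (w : ℤ))) = 0 := by ring
      rw [h4]
      simp
    · unfold slc
      rw [if_neg h]
      exact bot_le
  have h2 : ∀ c : ℤ, ∑' T : ℤ, nrm (slc d 0 (T + c) k) = Nw d 0 k := fun c =>
    (Equiv.addRight c).tsum_eq (fun T => nrm (slc d 0 T k))
  calc Nw d w k ≤ ∑' T : ℤ, ∑' i : Fin (2 * w + 1), nrm (slc d 0 (T + ((i : ℕ) - (w : ℤ))) k) :=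
        ENNReal.tsum_le_tsum h1
    _ = ∑' i : Fin (2 * w + 1), ∑' T : ℤ, nrm (slc d 0 (T + ((i : ℕ) - (w : ℤ))) k) :=
        ENNReal.tsum_comm
    _ = (2 * (w : ℝ≥0∞) + 1) * Nw d 0 k := by
        simp only [h2]
        rw [tsum_fintype, Finset.sum_const, Finset.card_univ, Fintype.card_fin, nsmul_eq_mul]
        push_cast
        rfl

theorem Nw_mass (w : ℕ) (k : Γ → ℝ≥0∞) : Nw d w k ≤ (2 * (w : ℝ≥0∞) + 1) * ∑' a, k a := by
  refine (Nw_le w k).trans (mul_le_mul_right ?_ _)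
  calc Nw d 0 k ≤ ∑' T : ℤ, ∑' a, slc d 0 T k a := ENNReal.tsum_le_tsum fun T => nrm_le_tsum _
    _ = ∑' a, ∑' T : ℤ, slc d 0 T k a := ENNReal.tsum_comm
    _ = ∑' a, k a := tsum_congr fun a => tsum_slc k a

theorem Nw_cnv (hqm : ∀ a b, |d.s (a * b) - d.s a - d.s b| ≤ d.D) (w : ℕ) (k k' : Γ → ℝ≥0∞) :
    Nw d w (cnv k k') ≤ Nw d 0 k * Nw d (w + d.D) k' := by
  have h1 : ∀ T : ℤ, nrm (slc d w T (cnv k k'))
      ≤ ∑' T1 : ℤ, nrm (slc d 0 T1 k) * nrm (slc d (w + d.D) (T - T1) k') := by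
    intro T
    refine le_trans (nrm_mono (l := fun a => ∑' T1 : ℤ,
      cnv (slc d 0 T1 k) (slc d (w + d.D) (T - T1) k') a) ?_) ((nrm_tsum _).trans
        (ENNReal.tsum_le_tsum fun T1 => nrm_cnv _ _))
    intro a
    by_cases h : |d.s a - T| ≤ w
    · rw [nwf_pos h]
      unfold cnv
      rw [ENNReal.tsum_comm]
      refine ENNReal.tsum_le_tsum fun c => ?_
      have h2 := ENNReal.le_tsum (f := fun T1 : ℤ =>
        slc d 0 T1 k c * slc d (w + d.D) (T - T1) k' (c⁻¹ * a)) (d.s c)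
      refine le_trans (le_of_eq ?_) h2
      have h3 : slc d 0 (d.s c) k c = k c := nwf_pos (by simp)
      have h4 : slc d (w + d.D) (T - d.s c) k' (c⁻¹ * a) = k' (c⁻¹ * a) := by
        refine nwf_pos ?_
        have h5 := hqm c (c⁻¹ * a)
        rw [mul_inv_cancel_left] at h5
        rw [abs_le] at h5 h ⊢
        push_cast
        omega
      change k c * k' (c⁻¹ * a) = slc d 0 (d.s c) k c * slc d (w + d.D) (T - d.s c) k' (c⁻¹ * a)
      rw [h3, h4]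
    · unfold slc
      rw [if_neg h]
      exact bot_le
  calc Nw d w (cnv k k')
      ≤ ∑' T : ℤ, ∑' T1 : ℤ, nrm (slc d 0 T1 k) * nrm (slc d (w + d.D) (T - T1) k') :=
        ENNReal.tsum_le_tsum h1
    _ = ∑' T1 : ℤ, ∑' T : ℤ, nrm (slc d 0 T1 k) * nrm (slc d (w + d.D) (T - T1) k') :=
        ENNReal.tsum_comm
    _ = ∑' T1 : ℤ, nrm (slc d 0 T1 k) * Nw d (w + d.D) k' := by
        refine tsum_congr fun T1 => ?_
        rw [ENNReal.tsum_mul_left]
        exact congrArg (fun t => nrm (slc d 0 T1 k) * t)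
          ((Equiv.subRight T1).tsum_eq (fun T => nrm (slc d (w + d.D) T k')))
    _ = Nw d 0 k * Nw d (w + d.D) k' := ENNReal.tsum_mul_right

theorem nrm_hi (T : ℤ) (k : Γ → ℝ≥0∞) : nrm (hi d T k) ≤ ∑' j : ℕ, nrm (slc d 0 (T + j) k) := by
  refine le_trans (nrm_mono (l := fun a => ∑' j : ℕ, slc d 0 (T + j) k a) ?_) (nrm_tsum _)
  intro a
  unfold hi
  split_ifs with h
  · have h2 := ENNReal.le_tsum (f := fun j : ℕ => slc d 0 (T + j) k a) (d.s a - T).toNat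
    refine le_trans (le_of_eq ?_) h2
    refine (nwf_pos ?_).symm
    have h3 : (((d.s a - T).toNat : ℕ) : ℤ) = d.s a - T := Int.toNat_of_nonneg (by omega)
    rw [h3]
    have h4 : d.s a - (T + (d.s a - T)) = 0 := by ring
    rw [h4]
    simp
  · exact bot_le

end Pool.Agent.SWQ
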