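import Pool.Agent.SWQ.Fnq
import Pool.Agent.SWQ.Ivq
import Pool.Agent.SWQ.Nwf
import Pool.Agent.SWH.Wtk
import Pool.Agent.SWH.Ker
import Pool.Agent.SWH.Brg

/-!
# SWQ module Dub: the generating function of the walks with two handles

PROOF.  `Q x z0 = ∑' b, if (z0 :: b) is a chain, endp z0 b = x, b.length ≤ R then (z⁻¹) ^ b.length else 0`, `Q' y0 y = ∑' u, if (y :: u) is a chain, endp y u = y0, u.length ≤ R then (z⁻¹) ^ u.length else 0`,
`E T x y = wt z (fun x l => Eb x l and T ≤ sg x (endp x l)) x y`.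
(1) `wt z (DU R T) x y ≤ cmp (cmp Q (E T)) Q' x y`: for every `l` with `DU R T x l`, `endp x l = y`, choose `z0, b, u`; `z ^ l.length = (z⁻¹) ^ b.length * z ^ (b ++ l ++ u).length * (z⁻¹) ^ u.length` (`z ≠ 0, ⊤`); the map
`l ↦ (z0, b, b ++ l ++ u, u)` is injective.  (2) `Q, Q'` are invariant and have finite row sums (finitely many walks of length `≤ R` from a vertex, `swN_finite`; for `Q` reverse the walks, `rv`), so `nn Q, nn Q' < ⊤` (`nn_le_row`).
(3) `nn (E T) = nrm (blk (E T) i0 i0)` (the other blocks are zero: the ends of bridges have type `i0`, `nrm 0 = 0`) and `blk (E T) i0 i0 a = hi T (blk (wt z Eb) i0 i0) a`, because `sg (1, i0) (a, i0) = d.s a`.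
`nn_cmp` (`InvK_wt`, `Eb_inv`).  `c = nn Q * nn Q'`.
-/

set_option autoImplicit false

open scoped ENNReal NNReal Classical
open Filter Topology

namespace Pool.Agent.SWQ

open SWH

variable {Γ I : Type} [Group Γ] [Fintype I] {G : SimpleGraph (Γ × I)} {d : Dat Γ I} {θ : ℝ}

private theorem Dub_sub {α : Type} (p : α → Prop) [DecidablePred p] (f : α → ℝ≥0∞) :
    (∑' a, if p a then f a else 0) = ∑' a : {a // p a}, f a := by
  have h1 : (∑' a : {a // p a}, f a) = ∑' a, Set.indicator {a | p a} f a :=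
    tsum_subtype {a | p a} f
  rw [h1]
  refine tsum_congr fun a => ?_
  by_cases h : p a
  · rw [if_pos h, Set.indicator_of_mem (show a ∈ {a | p a} from h)]
  · rw [if_neg h, Set.indicator_of_notMem (show a ∉ {a | p a} from h)]

private theorem Dub_cmp {V : Type} (w z : ℝ≥0∞) (W E : V → List V → Prop) (x y : V) :
    cmp (cmp (tp (wt w W)) (wt z E)) (tp (wt w W)) x y =
      ∑' p : V × (V × (List V × (List V × List V))),
        (if W p.2.1 p.2.2.1 ∧ endp p.2.1 p.2.2.1 = x then w ^ p.2.2.1.length else 0) *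
        (if E p.2.1 p.2.2.2.1 ∧ endp p.2.1 p.2.2.2.1 = p.1 then z ^ p.2.2.2.1.length else 0) *
        (if W y p.2.2.2.2 ∧ endp y p.2.2.2.2 = p.1 then w ^ p.2.2.2.2.length else 0) := by
  rw [ENNReal.tsum_prod (f := fun (y0 : V) (q : V × (List V × (List V × List V))) =>
        (if W q.1 q.2.1 ∧ endp q.1 q.2.1 = x then w ^ q.2.1.length else 0) *
        (if E q.1 q.2.2.1 ∧ endp q.1 q.2.2.1 = y0 then z ^ q.2.2.1.length else 0) *
        (if W y q.2.2.2 ∧ endp y q.2.2.2 = y0 then w ^ q.2.2.2.length else 0))]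
  unfold SWH.cmp
  refine tsum_congr fun y0 => ?_
  rw [ENNReal.tsum_prod (f := fun (z0 : V) (q : List V × (List V × List V)) =>
        (if W z0 q.1 ∧ endp z0 q.1 = x then w ^ q.1.length else 0) *
        (if E z0 q.2.1 ∧ endp z0 q.2.1 = y0 then z ^ q.2.1.length else 0) *
        (if W y q.2.2 ∧ endp y q.2.2 = y0 then w ^ q.2.2.length else 0))]
  rw [← ENNReal.tsum_mul_right]
  refine tsum_congr fun z0 => ?_
  rw [ENNReal.tsum_prod (f := fun (b : List V) (q : List V × List V) =>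
        (if W z0 b ∧ endp z0 b = x then w ^ b.length else 0) *
        (if E z0 q.1 ∧ endp z0 q.1 = y0 then z ^ q.1.length else 0) *
        (if W y q.2 ∧ endp y q.2 = y0 then w ^ q.2.length else 0))]
  have hb : ∀ b : List V, ∑' q : List V × List V,
        (if W z0 b ∧ endp z0 b = x then w ^ b.length else 0) *
        (if E z0 q.1 ∧ endp z0 q.1 = y0 then z ^ q.1.length else 0) *
        (if W y q.2 ∧ endp y q.2 = y0 then w ^ q.2.length else 0) =
      (if W z0 b ∧ endp z0 b = x then w ^ b.length else 0) * (wt z E z0 y0 * wt w W y y0) := by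
    intro b
    rw [ENNReal.tsum_prod (f := fun (e : List V) (u : List V) =>
        (if W z0 b ∧ endp z0 b = x then w ^ b.length else 0) *
        (if E z0 e ∧ endp z0 e = y0 then z ^ e.length else 0) *
        (if W y u ∧ endp y u = y0 then w ^ u.length else 0))]
    have he : ∀ e : List V, ∑' u : List V,
        (if W z0 b ∧ endp z0 b = x then w ^ b.length else 0) *
        (if E z0 e ∧ endp z0 e = y0 then z ^ e.length else 0) *
        (if W y u ∧ endp y u = y0 then w ^ u.length else 0) =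
        (if W z0 b ∧ endp z0 b = x then w ^ b.length else 0) *
        ((if E z0 e ∧ endp z0 e = y0 then z ^ e.length else 0) * wt w W y y0) := by
      intro e
      rw [ENNReal.tsum_mul_left, mul_assoc]
      rfl
    simp_rw [he]
    rw [ENNReal.tsum_mul_left, ENNReal.tsum_mul_right]
    rfl
  simp_rw [hb]
  rw [ENNReal.tsum_mul_right, mul_assoc]
  rfl

private theorem Dub_le {V : Type} {z : ℝ≥0∞} (h0 : z ≠ 0) (ht : z ≠ ⊤) (P W E : V → List V → Prop)
    (x y : V) (h : ∀ l, P x l → ∃ z0 b u, endp z0 b = x ∧ W z0 b ∧ W (endp x l) u ∧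
      E z0 (b ++ l ++ u)) :
    wt z P x y ≤ cmp (cmp (tp (wt z⁻¹ W)) (wt z E)) (tp (wt z⁻¹ W)) x y := by
  rw [Dub_cmp]
  have hL : wt z P x y = ∑' l : {l // P x l ∧ endp x l = y}, z ^ l.1.length := by
    unfold wt
    exact Dub_sub (fun l => P x l ∧ endp x l = y) (fun l => z ^ l.length)
  rw [hL]
  choose z0 b u hz hb hu hE using h
  let F : {l // P x l ∧ endp x l = y} → V × (V × (List V × (List V × List V))) := fun l =>
    (endp (z0 l.1 l.2.1) (b l.1 l.2.1 ++ l.1 ++ u l.1 l.2.1),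
      (z0 l.1 l.2.1, (b l.1 l.2.1, (b l.1 l.2.1 ++ l.1 ++ u l.1 l.2.1, u l.1 l.2.1))))
  have hF : Function.Injective F := by
    intro l l' he
    have e1 : b l.1 l.2.1 = b l'.1 l'.2.1 := congrArg (fun p => p.2.2.1) he
    have e2 : b l.1 l.2.1 ++ l.1 ++ u l.1 l.2.1 = b l'.1 l'.2.1 ++ l'.1 ++ u l'.1 l'.2.1 :=
      congrArg (fun p => p.2.2.2.1) he
    have e3 : u l.1 l.2.1 = u l'.1 l'.2.1 := congrArg (fun p => p.2.2.2.2) he
    rw [e1, e3] at e2
    have e4 := List.append_cancel_right e2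
    have e5 := List.append_cancel_left e4
    exact Subtype.ext e5
  refine le_trans ?_ (ENNReal.tsum_comp_le_tsum_of_injective hF _)
  refine ENNReal.tsum_le_tsum fun l => ?_
  obtain ⟨l, hl, hy⟩ := l
  simp only [F]
  have c1 : endp y (u l hl) = endp (z0 l hl) (b l hl ++ l ++ u l hl) := by
    rw [endp_append, endp_append, hz l hl, hy]
  have c2 : W y (u l hl) := by
    have := hu l hl
    rwa [hy] at this
  rw [if_pos ⟨hb l hl, hz l hl⟩, if_pos ⟨hE l hl, trivial⟩, if_pos ⟨c2, c1⟩]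
  rw [List.length_append, List.length_append, pow_add, pow_add]
  have k1 : ∀ n : ℕ, z⁻¹ ^ n * z ^ n = 1 := by
    intro n
    rw [← mul_pow, ENNReal.inv_mul_cancel h0 ht, one_pow]
  have k2 : z⁻¹ ^ (b l hl).length * (z ^ (b l hl).length * z ^ l.length * z ^ (u l hl).length) *
      z⁻¹ ^ (u l hl).length = (z⁻¹ ^ (b l hl).length * z ^ (b l hl).length) * z ^ l.length *
        (z⁻¹ ^ (u l hl).length * z ^ (u l hl).length) := by ring
  rw [k2, k1, k1, one_mul, mul_one]

private theorem Dub_E (_H : Hyq G d θ) (z : ℝ≥0∞) (T : ℤ) :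
    nn (wt z (fun x l => Eb G d x l ∧ T ≤ sg d x (endp x l))) =
      nrm (hi d T (blk (wt z (Eb G d)) d.i0 d.i0)) := by
  unfold nn
  have hz : ∀ i j, (i ≠ d.i0 ∨ j ≠ d.i0) →
      nrm (blk (wt z (fun x l => Eb G d x l ∧ T ≤ sg d x (endp x l))) i j) = 0 := by
    intro i j hij
    have hk : ∀ g, blk (wt z (fun x l => Eb G d x l ∧ T ≤ sg d x (endp x l))) i j g = 0 := by
      intro g
      unfold blk wt
      rw [ENNReal.tsum_eq_zero]
      intro l
      rw [if_neg]
      rintro ⟨⟨hE, _⟩, hy⟩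
      rcases hij with h | h
      · exact h hE.1.1
      · apply h
        have := hE.2.1
        rw [hy] at this
        exact this
    refine le_antisymm (le_trans (nrm_le_tsum _) ?_) bot_le
    simp_rw [hk]
    simp
  rw [Finset.sum_eq_single d.i0]
  · rw [Finset.sum_eq_single d.i0]
    · congr 1
      funext a
      unfold hi blk wt
      by_cases hT : T ≤ d.s a
      · rw [if_pos hT]
        refine tsum_congr fun l => ?_
        by_cases hl : Eb G d (1, d.i0) l ∧ endp (1, d.i0) l = (a, d.i0)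
        · rw [if_pos hl, if_pos]
          refine ⟨⟨hl.1, ?_⟩, hl.2⟩
          rw [hl.2]
          unfold sg
          simpa using hT
        · rw [if_neg hl, if_neg]
          exact fun h => hl ⟨h.1.1, h.2⟩
      · rw [if_neg hT, ENNReal.tsum_eq_zero]
        intro l
        rw [if_neg]
        rintro ⟨⟨_, hs⟩, hy⟩
        rw [hy] at hs
        unfold sg at hs
        exact hT (by simpa using hs)
    · intro j _ hj
      exact hz _ _ (Or.inr hj)
    · intro h
      exact absurd (Finset.mem_univ _) h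
  · intro i _ hi
    exact Finset.sum_eq_zero fun j _ => hz _ _ (Or.inl hi)
  · intro h
    exact absurd (Finset.mem_univ _) h

theorem dub (H : Hyq G d θ) (z : ℝ≥0∞) (h0 : z ≠ 0) (h1 : z ≤ 1) (R : ℕ) : ∃ c : ℝ≥0∞, c ≠ ⊤ ∧
    ∀ T : ℤ, nn (wt z (DU G d R T)) ≤ c * nrm (hi d T (blk (wt z (Eb G d)) d.i0 d.i0)) := by
  have ht : z ≠ ⊤ := ne_top_of_le_ne_top ENNReal.one_ne_top h1
  have hW : InvK (wt z⁻¹ (Ln (Sw G) R)) :=
    InvK_wt (fun γ x l => Ln_inv (Sw_inq H) R γ x l) z⁻¹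
  have hfin : nn (tp (wt z⁻¹ (Ln (Sw G) R))) ≠ ⊤ := by
    rw [nn_tp hW]
    exact nn_swN_ne_top H z⁻¹ (ENNReal.inv_ne_top.2 h0) R
  refine ⟨nn (tp (wt z⁻¹ (Ln (Sw G) R))) * nn (tp (wt z⁻¹ (Ln (Sw G) R))),
    ENNReal.mul_ne_top hfin hfin, fun T => ?_⟩
  have hEinv : InvK (wt z (fun x l => Eb G d x l ∧ T ≤ sg d x (endp x l))) := by
    refine InvK_wt (fun γ x l => ?_) z
    rw [Eb_inv H, endp_map, sg_tr]
  have hle : nn (wt z (DU G d R T)) ≤ nn (cmp (cmp (tp (wt z⁻¹ (Ln (Sw G) R)))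
      (wt z (fun x l => Eb G d x l ∧ T ≤ sg d x (endp x l)))) (tp (wt z⁻¹ (Ln (Sw G) R)))) := by
    refine nn_mono fun x y => ?_
    refine Dub_le h0 ht _ _ _ x y ?_
    rintro l ⟨z0, b, u, hz0, hb, hu, hE, hT⟩
    have s1 := Sw_split hE.1.2.1
    have s2 := Sw_split s1.1
    refine ⟨z0, b, u, hz0, ⟨s2.1, hb⟩, ⟨?_, hu⟩, hE, hT⟩
    have := s1.2
    rwa [endp_append, hz0] at this
  calc nn (wt z (DU G d R T)) ≤ _ := hle
    _ ≤ nn (cmp (tp (wt z⁻¹ (Ln (Sw G) R)))
      (wt z (fun x l => Eb G d x l ∧ T ≤ sg d x (endp x l)))) *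
        nn (tp (wt z⁻¹ (Ln (Sw G) R))) := nn_cmp (InvK_tp hW)
    _ ≤ (nn (tp (wt z⁻¹ (Ln (Sw G) R))) *
      nn (wt z (fun x l => Eb G d x l ∧ T ≤ sg d x (endp x l)))) *
        nn (tp (wt z⁻¹ (Ln (Sw G) R))) := by
        gcongr
        exact nn_cmp hEinv
    _ = _ := by
        rw [Dub_E H]
        ring

end Pool.Agent.SWQ
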