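import Pool.Agent.SWQ.Hdf
import Pool.Agent.SWQ.Ovl

/-!
# SWQ module Eql: bridges of span L

PROOF.  Let `y = endp x l`, `t < l.length`, `p = pt x l t` and suppose `Eb x (l.take t)`, `L ≤ sg x p`, `Hw p (l.drop t ++ hd y)`.
If `l.length - t ≥ N` then `y` is the vertex number `l.length - t` of this half-space walk, so `κ ≤ sg p y`, and
`sg x y ≥ sg x p + sg p y - D ≥ L + κ - D > L`, a contradiction.
If `l.length - t < N`: `ovl_pt` for the walk `l ++ hd y` (or `l`) and the times `t < l.length`: (a) from `Eb x (l.take t)` (`2 N ≤ t`), (b) from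
`Hw p (l.drop t ++ hd y)`, (c) from `Eb x l`.  So `y = Ax p (i τ)`, `i ≥ 1`, `sg x y = sg x p + i ≥ L + 1` (`sg_Ax_right`), a contradiction.
-/

set_option autoImplicit false

open scoped ENNReal NNReal Classical
open Filter Topology

namespace Pool.Agent.SWQ

open SWH

variable {Γ I : Type} [Group Γ] [Fintype I] {G : SimpleGraph (Γ × I)} {d : Dat Γ I} {θ : ℝ}

theorem eb_cd (H : Hyq G d θ) {L : ℤ} {x : Γ × I} {l : List (Γ × I)} (h1 : Eb G d x l)
    (h2 : sg d x (endp x l) = L) : Cd G d L x l := by
  refine ⟨h1, h2.ge, ?_⟩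
  rintro t ht ⟨a1, a2, a3⟩
  have hlen : (l.drop t).length = l.length - t := List.length_drop
  have htl : (l.take t).length = t := by
    rw [List.length_take]
    omega
  have hN2 : 2 * d.N ≤ t := by
    have := a1.2.2.1
    rwa [htl] at this
  have hpos := N_pos H
  by_cases hc : d.N ≤ l.length - t
  · have e1 : pt (pt x l t) (l.drop t ++ hd d (endp x l)) (l.length - t) = endp x l := by
      rw [pt_left _ _ _ (by rw [hlen]), pt_drop x l ht.le, ← pt_length x l]
      congr 1
      omega
    have e2 := a3.2.2.2.2 (l.length - t) hc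
    rw [e1] at e2
    have e3 := sg_tri H x (pt x l t) (endp x l)
    rw [abs_le] at e3
    have e4 := H.hκ
    omega
  · have key := ovl_pt H (x := x) (l := l) (t' := t) (t := l.length) ht le_rfl (by omega) (by omega)
      a3.1 (by rw [pt_length]; exact h1.2.1) (by
        intro j hj
        have e1 := a1.2.2.2.1 j hj
        rw [htl, pt_take x l (by omega : t - j ≤ t), endp_take] at e1
        exact e1) (by
        intro j hj hj'
        have e1 := a3.2.2.2.1 j hj
        rw [pt_left _ _ _ (by rw [hlen]; omega), pt_drop x l ht.le] at e1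
        exact e1) (by
        intro j hj
        rw [pt_length]
        exact h1.2.2.2.1 j hj)
    obtain ⟨i, hi, e1⟩ := key
    have e2 := sg_Ax_right H (pt x l t) i x
    rw [← e1, pt_length] at e2
    omega

end Pool.Agent.SWQ
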