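import Pool.Agent.SWQ.Ivq
import Pool.Agent.SWH.Wtk
import Pool.Agent.SWH.Ker

/-!
# SWQ module Fnq: finiteness of truncated generating functions

PROOF.  `G` has only finitely many vertices up to translation, so the degrees are bounded (`H.fin`, `H.inv`), and there are finitely many lists `l` of length at most
`n` with `Sw G x l` (induction on `n`).  `row_wt`: the row sum is a finite sum of finite numbers.  `nn_le_row`.
`axs`: the list `hd`-like list `Ax x 1, ..., Ax x n` for `x = (1, i0)` is a self-avoiding walk of length `n`.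
-/

set_option autoImplicit false

open scoped ENNReal NNReal Classical
open Filter Topology

namespace Pool.Agent.SWQ

open SWH

variable {Γ I : Type} [Group Γ] [Fintype I] {G : SimpleGraph (Γ × I)} {d : Dat Γ I} {θ : ℝ}

theorem swN_finite (H : Hyq G d θ) (n : ℕ) (x : Γ × I) :
    {l : List (Γ × I) | (x :: l).IsChain G.Adj ∧ l.length ≤ n}.Finite := by
  induction n generalizing x with
  | zero =>
    refine (Set.finite_singleton []).subset ?_
    rintro l ⟨-, hl⟩
    exact List.length_eq_zero_iff.1 (Nat.le_zero.1 hl)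
  | succ n ih =>
    refine ((Set.finite_singleton []).union
      ((H.fin x).biUnion fun y _ => (ih y).image (List.cons y))).subset ?_
    rintro l ⟨hc, hl⟩
    rcases l with _ | ⟨y, l⟩
    · exact Or.inl rfl
    · rw [List.isChain_cons_cons] at hc
      refine Or.inr (Set.mem_iUnion₂.2 ⟨y, hc.1, l, ⟨hc.2, ?_⟩, rfl⟩)
      rw [List.length_cons] at hl
      omega

theorem row_swN_ne_top (H : Hyq G d θ) (z : ℝ≥0∞) (hz : z ≠ ⊤) (n : ℕ) (x : Γ × I) :
    row (wt z (Ln (Sw G) n)) x ≠ ⊤ := by
  rw [row_wt, tsum_eq_sum (s := (swN_finite H n x).toFinset)]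
  · refine ENNReal.sum_ne_top.2 fun l _ => ?_
    split_ifs
    · exact ENNReal.pow_ne_top hz
    · exact ENNReal.zero_ne_top
  · intro l hl
    rw [if_neg]
    intro h
    exact hl ((swN_finite H n x).mem_toFinset.2 ⟨h.1.1, h.2⟩)

theorem nn_swN_ne_top (H : Hyq G d θ) (z : ℝ≥0∞) (hz : z ≠ ⊤) (n : ℕ) : nn (wt z (Ln (Sw G) n)) ≠ ⊤ :=
  ne_top_of_le_ne_top (ENNReal.sum_ne_top.2 fun i _ => row_swN_ne_top H z hz n (1, i)) (nn_le_row _)

theorem axs (H : Hyq G d θ) (n : ℕ) : ∃ l, Sw G (1, d.i0) l ∧ l.length = n := by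
  refine ⟨(List.range n).map (fun k : ℕ => d.X ((k : ℤ) + 1)), ?_, by rw [List.length_map, List.length_range]⟩
  have h1 : (1, d.i0) :: (List.range n).map (fun k : ℕ => d.X ((k : ℤ) + 1))
      = (List.range (n + 1)).map (fun k : ℕ => d.X (k : ℤ)) := by
    rw [List.range_succ_eq_map, List.map_cons, List.map_map, Nat.cast_zero, H.X0]
    refine congrArg (List.cons _) (List.map_congr_left fun k _ => ?_)
    rw [Function.comp_apply, Nat.cast_succ]
  unfold Sw
  rw [h1]
  refine ⟨?_, ?_⟩
  · rw [List.isChain_map, List.isChain_range_succ]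
    intro m _
    rw [Nat.cast_succ]
    exact H.Xadj m
  · refine List.Nodup.map ?_ List.nodup_range
    intro a b hab
    exact_mod_cast H.Xinj hab

end Pool.Agent.SWQ
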