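import Pool.Agent.SWQ.Defs
import Pool.Agent.SWH.Gap

/-!
# SWQ module Gaq: the exponential gap (real analysis)

PROOF.  (Compare `Pool/Agent/SWH/Gap.lean`, which is written out.)  `u n = log (c n)` is subadditive and nonnegative; `Subadditive.tendsto_lim`: `u n / n → λ ≥ 0`, `λ ≤ u n / n`.
Put `b = exp λ ≥ 1`: `b ^ n ≤ c n` for all `n`.  `z = 1 / b ≤ 1`.  For `z' < z`: `c n ≤ b' ^ n` for large `n`, where `b < b' < 1/z'`, so `∑ c n z'^n < ∞`.  Let `C` be as in `hb`: `(n + 1) N n ≤ C b^n` for all `n`.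
Choose `n ≥ 1` with `C / (n + 1) ≤ 1/2`.  Then `N n ≤ b^n / 2 = a^n` with `a = b * (1/2)^(1/n)`, `0 < a < b`.
For `k, r`: `N (k n + r) ≤ (N n)^k * N r ≤ a^(k n) * N r`.  `D = ∑_{r < n} N r / a^r`: write `j = k n + r`, `r < n`.
-/

set_option autoImplicit false

open scoped ENNReal NNReal Classical
open Filter Topology

namespace Pool.Agent.SWQ

open SWH

theorem gaq (c : ℕ → ℝ) (N : ℕ → ℝ≥0∞) (hc1 : ∀ n, 1 ≤ c n) (hcs : ∀ m n, c (m + n) ≤ c m * c n)
    (hNs : ∀ m n, N (m + n) ≤ N m * N n) (hNf : ∀ n, N n ≠ ⊤)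
    (hb : ∀ z : ℝ≥0∞, z ≠ 0 → z ≤ 1 → (∀ z' < z, ∑' n : ℕ, ENNReal.ofReal (c n) * z' ^ n ≠ ⊤) →
      ∃ C : ℝ≥0∞, C ≠ ⊤ ∧ ∀ n : ℕ, ((n : ℝ≥0∞) + 1) * (z ^ n * N n) ≤ C) :
    ∃ a b D : ℝ, 0 ≤ a ∧ a < b ∧ 0 ≤ D ∧ (∀ n, b ^ n ≤ c n) ∧ ∀ n, N n ≤ ENNReal.ofReal (D * a ^ n) := by
  obtain ⟨lam, hlam, hbc, hsum⟩ := gap_aux1 c hc1 hcs
  set b := Real.exp lam with hbdef
  have hb1 : 1 ≤ b := Real.one_le_exp hlam
  have hb0 : 0 < b := lt_of_lt_of_le one_pos hb1
  have hz0pos : (0 : ℝ) < 1 / (2 * b) := by positivity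
  have hzpos : (0 : ℝ) < 1 / b := by positivity
  have hzle : (1 : ℝ) / b ≤ 1 := by
    rw [div_le_one hb0]; exact hb1
  have hlt : 1 / (2 * b) < 1 / b := by
    apply one_div_lt_one_div_of_lt hb0; linarith
  obtain ⟨C, hC, hCz⟩ := hb (ENNReal.ofReal (1 / b)) (by
    intro h; rw [ENNReal.ofReal_eq_zero] at h; linarith) (by
    rw [← ENNReal.ofReal_one]; exact ENNReal.ofReal_le_ofReal hzle) (by
    intro z' hz'
    set t : ℝ := max z'.toReal (1 / (2 * b)) with ht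
    have hz'top : z' ≠ ⊤ := ne_top_of_lt hz'
    have ht0 : 0 < t := lt_of_lt_of_le hz0pos (le_max_right _ _)
    have ht1 : t < 1 / b := by
      refine max_lt ?_ hlt
      have h1 : z'.toReal < (ENNReal.ofReal (1 / b)).toReal := (ENNReal.toReal_lt_toReal hz'top ENNReal.ofReal_ne_top).mpr hz'
      rwa [ENNReal.toReal_ofReal hzpos.le] at h1
    have hz't : z' ≤ ENNReal.ofReal t := by
      rw [← ENNReal.ofReal_toReal hz'top]
      exact ENNReal.ofReal_le_ofReal (le_max_left _ _)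
    have h3 : ∑' n : ℕ, ENNReal.ofReal (c n) * ENNReal.ofReal t ^ n ≠ ⊤ := by
      have h2 : ∀ n : ℕ, ENNReal.ofReal (c n) * ENNReal.ofReal t ^ n = ENNReal.ofReal (c n * t ^ n) := by
        intro n
        rw [← ENNReal.ofReal_pow ht0.le, ← ENNReal.ofReal_mul (le_trans zero_le_one (hc1 n))]
      rw [tsum_congr h2]
      exact (hsum t ht0 ht1).tsum_ofReal_ne_top
    refine ne_top_of_le_ne_top h3 (ENNReal.tsum_le_tsum fun n => ?_)
    gcongr)
  have hN0 : ∀ n, 0 ≤ (N n).toReal := fun n => ENNReal.toReal_nonneg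
  have key : ∀ n : ℕ, ((n : ℝ) + 1) * (N n).toReal ≤ C.toReal * b ^ n := by
    intro n
    have h1 := hCz n
    have h3 := ENNReal.toReal_mono hC h1
    rw [ENNReal.toReal_mul, ENNReal.toReal_mul, ENNReal.toReal_pow, ENNReal.toReal_ofReal hzpos.le] at h3
    have h4 : ((n : ℝ≥0∞) + 1).toReal = (n : ℝ) + 1 := by
      rw [ENNReal.toReal_add (by simp) (by simp)]; simp
    rw [h4] at h3
    have hbn : 0 < b ^ n := pow_pos hb0 n
    calc ((n : ℝ) + 1) * (N n).toReal = (((n : ℝ) + 1) * ((1 / b) ^ n * (N n).toReal)) * b ^ n := by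
          rw [one_div, inv_pow]; field_simp
      _ ≤ C.toReal * b ^ n := mul_le_mul_of_nonneg_right h3 hbn.le
  obtain ⟨n, hn⟩ := exists_nat_gt (2 * C.toReal)
  have hC0 : 0 ≤ C.toReal := ENNReal.toReal_nonneg
  have hnpos : 0 < n := by
    rcases Nat.eq_zero_or_pos n with h | h
    · subst h; simp at hn; linarith
    · exact h
  have hn' : (0 : ℝ) < n := by exact_mod_cast hnpos
  have hhalf : (N n).toReal ≤ b ^ n / 2 := by
    have h1 := key n
    have hbn : 0 < b ^ n := pow_pos hb0 n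
    have h2 : C.toReal * b ^ n ≤ ((n : ℝ) + 1) / 2 * b ^ n := by
      apply mul_le_mul_of_nonneg_right _ hbn.le
      linarith
    have h3 : ((n : ℝ) + 1) * (N n).toReal ≤ ((n : ℝ) + 1) * (b ^ n / 2) := by
      calc _ ≤ _ := h1
        _ ≤ _ := h2
        _ = _ := by ring
    exact le_of_mul_le_mul_left h3 (by linarith)
  set t : ℝ := (1 / 2 : ℝ) ^ (1 / (n : ℝ)) with ht
  have ht0 : 0 < t := Real.rpow_pos_of_pos (by norm_num) _
  have ht1 : t < 1 := Real.rpow_lt_one (by norm_num) (by norm_num) (by positivity)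
  have htn : t ^ n = 1 / 2 := by
    rw [ht, ← Real.rpow_natCast, ← Real.rpow_mul (by norm_num), one_div_mul_cancel hn'.ne', Real.rpow_one]
  have ha0 : 0 < b * t := mul_pos hb0 ht0
  obtain ⟨D, hD, hDj⟩ := gap_aux3 (fun n => (N n).toReal) hN0 (fun m k => by
      change (N (m + k)).toReal ≤ (N m).toReal * (N k).toReal
      rw [← ENNReal.toReal_mul]
      exact ENNReal.toReal_mono (ENNReal.mul_ne_top (hNf m) (hNf k)) (hNs m k))
    (b * t) ha0 n hnpos (by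
      change (N n).toReal ≤ (b * t) ^ n
      rw [mul_pow, htn]
      linarith)
  refine ⟨b * t, b, D, ha0.le, ?_, hD, hbc, ?_⟩
  · nlinarith
  · intro j
    rw [← ENNReal.ofReal_toReal (hNf j)]
    exact ENNReal.ofReal_le_ofReal (hDj j)

end Pool.Agent.SWQ
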