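import Pool.Agent.SWQ.Bnq
import Pool.Agent.SWQ.Gaq
import Pool.Agent.SWQ.Fnq
import Pool.Agent.SWH.Cna
import Pool.Agent.SWH.Cnt

/-!
# SWQ module Fiq: the gap between self-avoiding loops and walks

PROOF.  (Compare `Pool/Agent/SWH/Fin.lean`, which is written out.)  `gaq` with `c n = saw G n v`, `N n = nn (wt 1 (SwE G n))`.  `hc1`: `axs`, `saw_eq`, `hconst`.  `hcs`: `saw_sub`.  `hNs`: `swE_add`, `nn_mono`, `nn_cmp`
(`InvK_wt`, `Sw_inq`).  `hNf`: `SwE` is a subclass of `Ln Sw n` (`nn_swN_ne_top`).  `hb`: `bnq` (with `row_sw` and `hconst` for the hypothesis), `swN_two`, `nn_smul`, `nn_cmp`: `(n + 1) z^n N n ≤ B^2`.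
Then `sal_le`: `sal G (n+1) v ≤ ∑' y, adK G v y * wt 1 (SwE n) v y ≤ deg * N n ≤ deg * D * a^n` (`le_nn`), and for `a < a' < b` this is `≤ a' ^ (n + 1)` for large `n`.
-/

set_option autoImplicit false

open scoped ENNReal NNReal Classical
open Filter Topology

namespace Pool.Agent.SWQ

open SWH

variable {Γ I : Type} [Group Γ] [Fintype I] {G : SimpleGraph (Γ × I)} {d : Dat Γ I} {θ : ℝ}

private theorem fiq_swE (H : Hyq G d θ) (n : ℕ) (z : ℝ≥0∞) : InvK (wt z (SwE G n)) := by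
  refine InvK_wt (fun γ x l => ?_) z
  unfold SwE
  rw [Sw_inq H, List.length_map]

private theorem fiq_swN (H : Hyq G d θ) (n : ℕ) (z : ℝ≥0∞) : InvK (wt z (SwN G n)) := by
  refine InvK_wt (fun γ x l => ?_) z
  unfold SwN
  rw [Sw_inq H, List.length_map]

private theorem fiq_ne_top (H : Hyq G d θ) (n : ℕ) : nn (wt 1 (SwE G n)) ≠ ⊤ := by
  refine ne_top_of_le_ne_top ?_ (nn_le_row _)
  refine (ENNReal.sum_lt_top.2 fun i _ => ?_).ne
  rw [saw_eq H.fin n]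
  exact ENNReal.natCast_lt_top _

private theorem fiq_one_le (H : Hyq G d θ) (hconst : ∀ n x y, SAWL.saw G n x = SAWL.saw G n y) (n : ℕ)
    (v : Γ × I) : 1 ≤ SAWL.saw G n v := by
  rw [hconst n v (1, d.i0)]
  obtain ⟨l, h1, h2⟩ := axs H n
  have h3 : (1 : ℝ≥0∞) ≤ (SAWL.saw G n (1, d.i0) : ℝ≥0∞) := by
    rw [← saw_eq H.fin n (1, d.i0), row_wt]
    have h4 := ENNReal.le_tsum (f := fun l : List (Γ × I) => if SwE G n (1, d.i0) l then (1 : ℝ≥0∞) ^ l.length else 0) l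
    have h5 : (if SwE G n (1, d.i0) l then (1 : ℝ≥0∞) ^ l.length else 0) = 1 := by
      rw [one_pow]
      exact if_pos ⟨h1, h2⟩
    exact h5.ge.trans h4
  exact_mod_cast h3

private theorem fiq_hb (H : Hyq G d θ) (hconst : ∀ n x y, SAWL.saw G n x = SAWL.saw G n y) (v : Γ × I)
    (z : ℝ≥0∞) (h0 : z ≠ 0) (h01 : z ≤ 1)
    (hz : ∀ z' < z, ∑' n : ℕ, ENNReal.ofReal (SAWL.saw G n v : ℝ) * z' ^ n ≠ ⊤) : ∃ C : ℝ≥0∞, C ≠ ⊤ ∧
      ∀ n : ℕ, ((n : ℝ≥0∞) + 1) * (z ^ n * nn (wt 1 (SwE G n))) ≤ C := by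
  have h1 : ∀ z' < z, ∀ x, row (wt z' (Sw G)) x ≠ ⊤ := by
    intro z' hz' x
    rw [row_sw H.fin z' x]
    have h2 : (∑' n : ℕ, (SAWL.saw G n x : ℝ≥0∞) * z' ^ n) =
        ∑' n : ℕ, ENNReal.ofReal (SAWL.saw G n v : ℝ) * z' ^ n := by
      refine tsum_congr fun n => ?_
      rw [hconst n x v, ENNReal.ofReal_natCast]
    rw [h2]
    exact hz z' hz'
  obtain ⟨C, hC, hC'⟩ := bnq H z h0 h01 h1
  refine ⟨C * C, ENNReal.mul_ne_top hC hC, ?_⟩
  intro n
  have h2 := hC' n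
  calc ((n : ℝ≥0∞) + 1) * (z ^ n * nn (wt 1 (SwE G n)))
      = nn (fun x y => ((n : ℝ≥0∞) + 1) * (z ^ n * wt 1 (SwE G n) x y)) := by
        rw [nn_smul ((n : ℝ≥0∞) + 1) (fun x y => z ^ n * wt 1 (SwE G n) x y), nn_smul (z ^ n) (wt 1 (SwE G n))]
    _ ≤ nn (cmp (wt z (SwN G n)) (wt z (SwN G n))) := nn_mono (swN_two z n)
    _ ≤ nn (wt z (SwN G n)) * nn (wt z (SwN G n)) := nn_cmp (fiq_swN H n z)
    _ ≤ C * C := mul_le_mul' h2 h2

private theorem fiq_sal (H : Hyq G d θ) (v : Γ × I) : ∃ D : ℝ, 0 ≤ D ∧ ∀ (n : ℕ) (x : ℝ), 0 ≤ x →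
    nn (wt 1 (SwE G n)) ≤ ENNReal.ofReal x → (SAWL.sal G (n + 1) v : ℝ) ≤ D * x := by
  refine ⟨((H.fin v).toFinset.card : ℝ), by positivity, ?_⟩
  intro n x hx hN
  have h1 := sal_le H.fin n v
  have h2 : (∑' y, adK G v y * wt 1 (SwE G n) v y) ≤ ((H.fin v).toFinset.card : ℝ≥0∞) * ENNReal.ofReal x := by
    calc (∑' y, adK G v y * wt 1 (SwE G n) v y) ≤ ∑' y, adK G v y * ENNReal.ofReal x :=
          ENNReal.tsum_le_tsum fun y => mul_le_mul' le_rfl ((le_nn (fiq_swE H n 1) v y).trans hN)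
      _ = (∑' y, adK G v y) * ENNReal.ofReal x := ENNReal.tsum_mul_right
      _ = ((H.fin v).toFinset.card : ℝ≥0∞) * ENNReal.ofReal x := by
          congr 1
          have h3 : ∀ y ∉ (H.fin v).toFinset, adK G v y = 0 := by
            intro y hy
            rw [Set.Finite.mem_toFinset, SimpleGraph.mem_neighborSet] at hy
            unfold adK
            rw [if_neg hy]
          rw [tsum_eq_sum h3]
          have h4 : ∀ y ∈ (H.fin v).toFinset, adK G v y = 1 := by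
            intro y hy
            rw [Set.Finite.mem_toFinset, SimpleGraph.mem_neighborSet] at hy
            unfold adK
            rw [if_pos hy]
          rw [Finset.sum_congr rfl h4]
          simp
  have h3 : (SAWL.sal G (n + 1) v : ℝ≥0∞) ≤ ENNReal.ofReal (((H.fin v).toFinset.card : ℝ) * x) := by
    rw [ENNReal.ofReal_mul (by positivity), ENNReal.ofReal_natCast]
    exact h1.trans h2
  rw [← ENNReal.ofReal_natCast] at h3
  exact (ENNReal.ofReal_le_ofReal_iff (by positivity)).1 h3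

theorem main0q (H : Hyq G d θ) (hconst : ∀ n x y, SAWL.saw G n x = SAWL.saw G n y) (v : Γ × I) :
    ∃ a b : ℝ, 0 ≤ a ∧ a < b ∧ (∀ᶠ n : ℕ in atTop, (SAWL.sal G n v : ℝ) ≤ a ^ n) ∧
      (∀ᶠ n : ℕ in atTop, b ^ n ≤ (SAWL.saw G n v : ℝ)) := by
  obtain ⟨a, b, D, ha, hab, hD, hbc, hN⟩ := gaq (fun n => (SAWL.saw G n v : ℝ)) (fun n => nn (wt 1 (SwE G n)))
    (fun n => by exact_mod_cast fiq_one_le H hconst n v)
    (fun m n => by exact_mod_cast saw_sub H.fin hconst m n v)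
    (fun m n => (nn_mono (swE_add m n)).trans (nn_cmp (fiq_swE H n 1)))
    (fun n => fiq_ne_top H n)
    (fun z h0 h01 hz => fiq_hb H hconst v z h0 h01 hz)
  obtain ⟨e, he, he'⟩ := fiq_sal H v
  refine ⟨(a + b) / 2, b, by linarith, by linarith, ?_, Eventually.of_forall hbc⟩
  have ha' : 0 < (a + b) / 2 := by linarith
  have hr : Tendsto (fun n : ℕ => e * D * (a / ((a + b) / 2)) ^ n) atTop (𝓝 (e * D * 0)) := by
    refine Tendsto.const_mul _ (tendsto_pow_atTop_nhds_zero_of_lt_one (by positivity) ?_)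
    rw [div_lt_one ha']
    linarith
  rw [mul_zero] at hr
  obtain ⟨M, hM⟩ := eventually_atTop.1 (hr.eventually_lt_const ha')
  refine eventually_atTop.2 ⟨M + 1, fun n hn => ?_⟩
  obtain ⟨k, rfl⟩ : ∃ k, n = k + 1 := ⟨n - 1, by omega⟩
  have h1 := hM k (by omega)
  have h2 := he' k (D * a ^ k) (by positivity) (hN k)
  have h3 : e * D * (a / ((a + b) / 2)) ^ k * ((a + b) / 2) ^ k ≤ (a + b) / 2 * ((a + b) / 2) ^ k :=
    mul_le_mul_of_nonneg_right h1.le (by positivity)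
  rw [mul_assoc (e * D), ← mul_pow, div_mul_cancel₀ _ ha'.ne'] at h3
  calc (SAWL.sal G (k + 1) v : ℝ) ≤ e * (D * a ^ k) := h2
    _ = e * D * a ^ k := by ring
    _ ≤ (a + b) / 2 * ((a + b) / 2) ^ k := h3
    _ = ((a + b) / 2) ^ (k + 1) := by rw [pow_succ]; ring

end Pool.Agent.SWQ
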