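import Pool.Agent.SWQ.Bas
import Pool.Agent.SWQ.Ptf
import Pool.Agent.SWH.Brg

/-!
# SWQ module Hdf: handles, half-space walks and bridges

PROOF.  `hd d y` is the list `Ax y 1, ..., Ax y N`.  `hw_hd`: the chain condition is `Ax_adj`, no repetitions: `Ax_inj` (and `Ax_zero`); for `j ≥ N` the
vertex is `Ax y N = Ax y (n1 τ)` and `sg y (..) = sg y y + n1 ≥ n1 - D ≥ κ` (`sg_Ax_right`, `sg_self`, `H.hn`).
`hw_take`: `pt_ext`.  `hw_prefix`: `Sw_split`, `pt_left`, for `j ≥ l1.length` the vertex is `endp x l1 = pt x (l1 ++ l2) l1.length`.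
`eb_sg`: the vertex number `l.length - N ≥ N` is `Ax y (-N) = Ax y (-n1 τ)`, `y = endp x l`; `κ ≤ sg x (Ax y (-n1 τ)) = sg x y - n1`.
`eb_hw`: let `y = endp x l1`.  (a) `Sw_append`: suppose `v = pt x l1 i = pt y l2 j` with `j ≥ 1`.  If `i + N ≤ l1.length` then `sg y v ≤ -κ`, but
`sg y v ≥ κ` if `j ≥ N`, and `sg y v ≥ -c0 > -κ` if `j < N` (`v = Ax y j`, `sg_Ax_ge` with `n = 0`).  If `i = l1.length - i'` with `i' < N` then
`v = Ax y (-i')`, `sg y v ≤ c0 < κ` (`sg_Ax_le`), so `j < N` and `v = Ax y j`, contradiction to `Ax_inj` because `j ≥ 1 > -i'`.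
(b) the first `N` vertices: `pt_left`.  (c) `sg x v ≥ κ` for the vertices `v` of `l2`: `sg x v ≥ sg x y + sg y v - D ≥ κ + n1 - c0 - D ≥ κ`.
-/

set_option autoImplicit false

open scoped ENNReal NNReal Classical
open Filter Topology

namespace Pool.Agent.SWQ

open SWH

variable {Γ I : Type} [Group Γ] [Fintype I] {G : SimpleGraph (Γ × I)} {d : Dat Γ I} {θ : ℝ}

private theorem hdf_hd (y : Γ × I) : hd d y = (List.range d.N).map (fun k : ℕ => Ax d y ((k : ℤ) + 1)) := by
  unfold hd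
  rw [bind_pure_comp, List.map_eq_map, List.map_map]
  rfl

theorem hd_length (y : Γ × I) : (hd d y).length = d.N := by
  rw [hdf_hd, List.length_map, List.length_range]

theorem pt_hd (H : Hyq G d θ) {y : Γ × I} (hy : y.2 = d.i0) {j : ℕ} (hj : j ≤ d.N) :
    pt y (hd d y) j = Ax d y j := by
  cases j with
  | zero =>
    rw [pt_zero, Nat.cast_zero, Ax_zero H hy]
  | succ k =>
    unfold pt
    rw [hdf_hd, ← List.map_take, List.take_range, min_eq_left hj, List.range_succ, List.map_append, endp_append,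
      List.map_cons, List.map_nil, endp_cons, endp_nil, Nat.cast_succ]

private theorem hdf_cons (H : Hyq G d θ) {y : Γ × I} (hy : y.2 = d.i0) :
    y :: hd d y = (List.range (d.N + 1)).map (fun k : ℕ => Ax d y (k : ℤ)) := by
  rw [List.range_succ_eq_map, List.map_cons, List.map_map, Nat.cast_zero, Ax_zero H hy, hdf_hd]
  rfl

private theorem hdf_sgN (H : Hyq G d θ) (v y : Γ × I) : sg d v (Ax d y d.N) = sg d v y + d.n1 := by
  rw [N_cast]
  exact sg_Ax_right H y d.n1 v

private theorem hdf_sgN' (H : Hyq G d θ) (v y : Γ × I) : sg d v (Ax d y (-(d.N : ℤ))) = sg d v y - d.n1 := by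
  have h1 := sg_Ax_right H y (-(d.n1 : ℤ)) v
  have h2 : -(d.n1 : ℤ) * d.τ = -(d.N : ℤ) := by rw [N_cast, neg_mul]
  rw [h2] at h1
  rw [h1, sub_eq_add_neg]

theorem hw_hd (H : Hyq G d θ) {y : Γ × I} (hy : y.2 = d.i0) : Hw G d y (hd d y) := by
  refine ⟨hy, ⟨?_, ?_⟩, le_of_eq (hd_length y).symm, fun j hj => pt_hd H hy hj, ?_⟩
  · rw [chain_pt]
    intro j hj
    rw [hd_length] at hj
    rw [pt_hd H hy (le_of_lt hj), pt_hd H hy hj, Nat.cast_succ]
    exact Ax_adj H y j
  · rw [hdf_cons H hy]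
    refine List.Nodup.map ?_ List.nodup_range
    intro a b hab
    have h1 := Ax_inj H y hab
    exact_mod_cast h1
  · intro j hj
    have h1 : pt y (hd d y) j = Ax d y d.N := by
      rw [pt_ge y _ (by rw [hd_length]; exact hj), ← pt_hd H hy (le_refl d.N), pt_ge y _ (by rw [hd_length])]
    rw [h1, hdf_sgN H]
    have h2 := sg_self H y
    have h3 := H.hn
    rw [abs_le] at h2
    omega

theorem hw_take (H : Hyq G d θ) {y : Γ × I} {l : List (Γ × I)} (h : Hw G d y l) : l.take d.N = hd d y := by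
  obtain ⟨h1, h2, h3, h4, h5⟩ := h
  refine pt_ext (x := y) ?_ ?_
  · rw [List.length_take, hd_length, min_eq_left h3]
  · intro j hj
    rw [List.length_take, min_eq_left h3] at hj
    rw [pt_take y l hj, h4 j hj, pt_hd H h1 hj]

theorem hw_prefix {x : Γ × I} {l1 l2 : List (Γ × I)} (h : Hw G d x (l1 ++ l2)) (hN : d.N ≤ l1.length) :
    Hw G d x l1 := by
  obtain ⟨h1, h2, h3, h4, h5⟩ := h
  refine ⟨h1, (Sw_split h2).1, hN, ?_, ?_⟩
  · intro j hj
    rw [← pt_left x l1 l2 (hj.trans hN)]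
    exact h4 j hj
  · intro j hj
    rcases le_total j l1.length with h6 | h6
    · rw [← pt_left x l1 l2 h6]
      exact h5 j hj
    · rw [pt_ge x l1 h6, ← pt_length x l1, ← pt_left x l1 l2 le_rfl]
      exact h5 _ hN

theorem eb_sg (H : Hyq G d θ) {x : Γ × I} {l : List (Γ × I)} (h : Eb G d x l) :
    (d.κ : ℤ) + d.n1 ≤ sg d x (endp x l) := by
  obtain ⟨⟨h1, h2, h3, h4, h5⟩, h6, h7, h8, h9⟩ := h
  have h10 := h5 (l.length - d.N) (by omega)
  rw [h8 d.N le_rfl, hdf_sgN' H] at h10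
  omega

theorem eb_hw (H : Hyq G d θ) {x : Γ × I} {l1 l2 : List (Γ × I)} (h1 : Eb G d x l1) (h2 : Hw G d (endp x l1) l2) :
    Hw G d x (l1 ++ l2) := by
  have hsg := eb_sg H h1
  obtain ⟨y, hy⟩ : ∃ y, y = endp x l1 := ⟨_, rfl⟩
  rw [← hy] at h2 hsg
  obtain ⟨⟨a1, a2, a3, a4, a5⟩, a6, a7, a8, a9⟩ := h1
  rw [← hy] at a6 a8 a9
  obtain ⟨b1, b2, b3, b4, b5⟩ := h2
  have hk := H.hκ
  have hn := H.hn
  have hlow : ∀ j : ℕ, -(d.c0 : ℤ) ≤ sg d y (pt y l2 j) := by
    intro j
    rcases le_total j d.N with hj | hj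
    · rw [b4 j hj]
      have := sg_Ax_ge H y 0 j (by omega)
      omega
    · have := b5 j hj
      omega
  refine ⟨a1, Sw_append a2 (by rw [← hy]; exact b2) ?_, ?_, ?_, ?_⟩
  · intro v hv hv'
    obtain ⟨i, hi, hiv⟩ := mem_pt hv
    obtain ⟨j, hj1, hj2, hjv⟩ := mem_pt_pos (x := y) hv'
    rcases le_or_gt (i + d.N) l1.length with hc | hc
    · have e1 := a9 i hc
      have e2 := hlow j
      rw [hiv] at e1
      rw [hjv] at e2
      omega
    · have e1 := a8 (l1.length - i) (by omega)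
      have e2 : l1.length - (l1.length - i) = i := by omega
      rw [e2, hiv] at e1
      have e3 := sg_Ax_le H y 0 (-((l1.length - i : ℕ) : ℤ)) (by omega)
      rw [← e1] at e3
      rcases le_or_gt d.N j with hjN | hjN
      · have e4 := b5 j hjN
        rw [hjv] at e4
        omega
      · have e4 := b4 j hjN.le
        rw [hjv, e1] at e4
        have e5 := Ax_inj H y e4
        omega
  · rw [List.length_append]
    omega
  · intro j hj
    rw [pt_left x l1 l2 (by omega)]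
    exact a4 j hj
  · intro j hj
    rcases le_total j l1.length with hc | hc
    · rw [pt_left x l1 l2 hc]
      exact a5 j hj
    · obtain ⟨j', rfl⟩ : ∃ j', j = l1.length + j' := ⟨j - l1.length, by omega⟩
      rw [pt_right, ← hy]
      have e1 := hlow j'
      have e2 := sg_tri H x y (pt y l2 j')
      rw [abs_le] at e2
      omega

end Pool.Agent.SWQ
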