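import Pool.Agent.SWQ.Defs

/-!
# SWQ module Hmg: homogeneous quasimorphisms

PROOF.  (1) `|q (a^n) - n q a| ≤ n D` (induction), hence for `n, m ≥ 1`: `|q (a^(n m)) - n q (a^m)| ≤ n D` and `|q (a^(n m)) - m q (a^n)| ≤ m D`, so `|q (a^m)/m - q (a^n)/n| ≤ D/m + D/n`: Cauchy sequence, `q' a = lim q (a^n)/n`
(`n → ∞`), `|q' a - q a| ≤ D` (`n → ∞` in `|q (a^n)/n - q a| ≤ D`).
(2) `|q' (a b) - q' a - q' b| ≤ 4 D`.  (3) `q' (a^k) = k q' a` for `k : ℕ` (subsequence); `q' (a⁻¹) = - q' a`: `|q (a^n) + q (a^(-n))| ≤ D + |q 1|`, divide by `n`.  So for all `k : ℤ`.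
(4) `|q' (b a^n b⁻¹) - q' (a^n)| ≤ 8 D + |q' b + q' b⁻¹| = 8 D` and `b a^n b⁻¹ = (b a b⁻¹)^n`: `n |q' (b a b⁻¹) - q' a| ≤ 8 D` for all `n`.
(5) `q'` is not zero because `q` is unbounded and `|q - q'| ≤ D`; replace `a` by `a⁻¹` if necessary.
-/

set_option autoImplicit false

open scoped ENNReal NNReal Classical
open Filter Topology

namespace Pool.Agent.SWQ

open SWH

theorem hmg {Γ : Type} [Group Γ] (q : Γ → ℝ) (D : ℝ) (hq : ∀ a b, |q (a * b) - q a - q b| ≤ D)
    (hu : ∀ C : ℝ, ∃ a, C < |q a|) : ∃ (q' : Γ → ℝ) (D' : ℝ), (∀ a b, |q' (a * b) - q' a - q' b| ≤ D') ∧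
      (∀ a (n : ℤ), q' (a ^ n) = n * q' a) ∧ (∀ a b, q' (b * a * b⁻¹) = q' a) ∧ ∃ a, 0 < q' a := by
  have hq1 : |q 1| ≤ D := by
    have h := hq 1 1
    rw [mul_one] at h
    have e : q 1 - q 1 - q 1 = - q 1 := by ring
    rwa [e, abs_neg] at h
  have hD : 0 ≤ D := (abs_nonneg _).trans hq1
  have hpow : ∀ (a : Γ) (n : ℕ), |q (a ^ n) - n * q a| ≤ (n + 1) * D := by
    intro a n
    induction n with
    | zero => simpa using hq1
    | succ n ih =>
      have h := hq (a ^ n) a
      rw [pow_succ]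
      rw [abs_le] at h ih ⊢
      push_cast
      constructor <;> nlinarith [h.1, h.2, ih.1, ih.2]
  have hcau : ∀ (a : Γ) (m n : ℕ), 0 < m → 0 < n →
      |q (a ^ m) / m - q (a ^ n) / n| ≤ 2 * D / m + 2 * D / n := by
    intro a m n hm hn
    have hm' : (1 : ℝ) ≤ m := by exact_mod_cast hm
    have hn' : (1 : ℝ) ≤ n := by exact_mod_cast hn
    have hm0 : (0 : ℝ) < m := by linarith
    have hn0 : (0 : ℝ) < n := by linarith
    have h1 := hpow (a ^ m) n
    have h2 := hpow (a ^ n) m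
    rw [← pow_mul] at h1 h2
    rw [mul_comm n m] at h2
    have e : q (a ^ m) / m - q (a ^ n) / n = (n * q (a ^ m) - m * q (a ^ n)) / (m * n) := by
      field_simp
    have e2 : 2 * D / m + 2 * D / n = (2 * (n + m) * D) / (m * n) := by
      field_simp
    rw [e, e2, abs_div, abs_of_pos (mul_pos hm0 hn0)]
    apply div_le_div_of_nonneg_right _ (mul_pos hm0 hn0).le
    rw [abs_le] at h1 h2 ⊢
    constructor <;> nlinarith [h1.1, h1.2, h2.1, h2.2]
  have hlim : ∀ a : Γ, ∃ L : ℝ, Tendsto (fun n : ℕ => q (a ^ n) / n) atTop (𝓝 L) := by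
    intro a
    have hc : CauchySeq (fun n : ℕ => q (a ^ (n + 1)) / ((n + 1 : ℕ) : ℝ)) := by
      apply cauchySeq_of_le_tendsto_0 (fun N : ℕ => 4 * D / ((N : ℝ) + 1))
      · intro n m N hn hm
        rw [Real.dist_eq]
        refine (hcau a (n + 1) (m + 1) (Nat.succ_pos _) (Nat.succ_pos _)).trans ?_
        have hN : (0 : ℝ) < (N : ℝ) + 1 := by positivity
        have a1 : 2 * D / ((n + 1 : ℕ) : ℝ) ≤ 2 * D / ((N : ℝ) + 1) := by
          apply div_le_div_of_nonneg_left (by positivity) hN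
          exact_mod_cast Nat.succ_le_succ hn
        have a2 : 2 * D / ((m + 1 : ℕ) : ℝ) ≤ 2 * D / ((N : ℝ) + 1) := by
          apply div_le_div_of_nonneg_left (by positivity) hN
          exact_mod_cast Nat.succ_le_succ hm
        have e : 4 * D / ((N : ℝ) + 1) = 2 * D / ((N : ℝ) + 1) + 2 * D / ((N : ℝ) + 1) := by ring
        rw [e]
        exact add_le_add a1 a2
      · have h := (tendsto_one_div_add_atTop_nhds_zero_nat (𝕜 := ℝ)).const_mul (4 * D)
        rw [mul_zero] at h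
        refine h.congr fun n => ?_
        ring
    obtain ⟨L, hL⟩ := cauchySeq_tendsto_of_complete hc
    exact ⟨L, (tendsto_add_atTop_iff_nat (f := fun n : ℕ => q (a ^ n) / (n : ℝ)) 1).1 hL⟩
  choose q' hq' using hlim
  have hclose : ∀ a, |q' a - q a| ≤ 2 * D := by
    intro a
    have h1 : Tendsto (fun n : ℕ => |q (a ^ n) / n - q a|) atTop (𝓝 |q' a - q a|) :=
      ((hq' a).sub_const _).abs
    refine le_of_tendsto h1 ?_
    filter_upwards [eventually_gt_atTop 0] with n hn
    have h := hcau a n 1 hn one_pos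
    have hn' : (1 : ℝ) ≤ n := by exact_mod_cast hn
    have h2 := hpow a n
    have e : q (a ^ n) / n - q a = (q (a ^ n) - n * q a) / n := by field_simp
    rw [e, abs_div, abs_of_pos (by linarith : (0 : ℝ) < n), div_le_iff₀ (by linarith)]
    nlinarith
  have hquasi : ∀ a b, |q' (a * b) - q' a - q' b| ≤ 7 * D := by
    intro a b
    have h1 := hclose (a * b)
    have h2 := hclose a
    have h3 := hclose b
    have h4 := hq a b
    rw [abs_le] at *
    constructor <;> linarith [h1.1, h1.2, h2.1, h2.2, h3.1, h3.2, h4.1, h4.2]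
  have hnat : ∀ a (k : ℕ), q' (a ^ k) = k * q' a := by
    intro a k
    rcases Nat.eq_zero_or_pos k with rfl | hk
    · have h1 : Tendsto (fun n : ℕ => q ((a ^ 0) ^ n) / n) atTop (𝓝 0) := by
        have : (fun n : ℕ => q ((a ^ 0) ^ n) / n) = fun n : ℕ => q 1 / (n : ℝ) := by
          funext n; simp
        rw [this]
        exact tendsto_const_div_atTop_nhds_zero_nat _
      rw [tendsto_nhds_unique (hq' (a ^ 0)) h1]; simp
    · have h1 : Tendsto (fun n : ℕ => k * n) atTop atTop :=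
        tendsto_id.const_mul_atTop' hk
      have h2 := ((hq' a).comp h1).const_mul (k : ℝ)
      refine tendsto_nhds_unique (hq' (a ^ k)) (h2.congr fun n => ?_)
      have hk0 : (k : ℝ) ≠ 0 := by exact_mod_cast hk.ne'
      simp only [Function.comp_apply]
      rw [← pow_mul]
      push_cast
      rcases Nat.eq_zero_or_pos n with rfl | hn
      · simp
      · have hn0 : (n : ℝ) ≠ 0 := by exact_mod_cast hn.ne'
        field_simp
  have hinv : ∀ a, q' a⁻¹ = - q' a := by
    intro a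
    have h1 := (hq' a⁻¹).add (hq' a)
    have h2 : Tendsto (fun n : ℕ => q (a⁻¹ ^ n) / n + q (a ^ n) / n) atTop (𝓝 0) := by
      apply squeeze_zero_norm' (a := fun n : ℕ => 2 * D / (n : ℝ)) _
        (tendsto_const_div_atTop_nhds_zero_nat _)
      filter_upwards with n
      have h := hq (a⁻¹ ^ n) (a ^ n)
      rw [inv_pow, inv_mul_cancel] at h
      rw [Real.norm_eq_abs, inv_pow, ← add_div, abs_div, Nat.abs_cast]
      apply div_le_div_of_nonneg_right _ (Nat.cast_nonneg _)
      rw [abs_le] at h hq1 ⊢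
      constructor <;> linarith [h.1, h.2, hq1.1, hq1.2]
    have := tendsto_nhds_unique h1 h2
    linarith
  have hint : ∀ a (n : ℤ), q' (a ^ n) = n * q' a := by
    intro a n
    rcases n with n | n
    · simpa using hnat a n
    · rw [zpow_negSucc, hinv, hnat]
      push_cast
      ring
  refine ⟨q', 7 * D, hquasi, hint, ?_, ?_⟩
  · intro a b
    have hb : ∀ x, |q' (b * x * b⁻¹) - q' x| ≤ 14 * D := by
      intro x
      have h1 := hquasi (b * x) b⁻¹
      have h2 := hquasi b x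
      have h3 := hinv b
      rw [abs_le] at *
      constructor <;> linarith [h1.1, h1.2, h2.1, h2.2]
    have hn : ∀ n : ℕ, (n : ℝ) * |q' (b * a * b⁻¹) - q' a| ≤ 14 * D := by
      intro n
      have h1 := hb (a ^ n)
      have e : b * a ^ n * b⁻¹ = (b * a * b⁻¹) ^ n := by rw [conj_pow]
      rw [e, hnat, hnat, ← mul_sub, abs_mul, Nat.abs_cast] at h1
      exact h1
    by_contra hne
    have hpos : 0 < |q' (b * a * b⁻¹) - q' a| := abs_pos.2 (sub_ne_zero.2 hne)
    obtain ⟨n, hn'⟩ := exists_nat_gt (14 * D / |q' (b * a * b⁻¹) - q' a|)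
    rw [div_lt_iff₀ hpos] at hn'
    exact absurd (hn n) (not_le.2 hn')
  · obtain ⟨a, ha⟩ := hu (2 * D)
    have h1 := hclose a
    rcases lt_trichotomy (q' a) 0 with h | h | h
    · exact ⟨a⁻¹, by rw [hinv]; linarith⟩
    · exfalso
      rw [h, zero_sub, abs_neg] at h1
      linarith
    · exact ⟨a, h⟩

end Pool.Agent.SWQ
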