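import Pool.Agent.SWQ.Defs

/-!
# SWQ module Itr: an iteration lemma

PROOF.  `ρ < 1`.  By induction on `k`: `F 0 ≤ A k + ρ ^ k * F (k D)` with `A k = ∑ i < k, ρ ^ i * (a (2 i D + 1) + ρ b (2 (i + 1) D + 1)) < ⊤`.  With `F (k D) ≤ (2 k D + 1) F 0`:
`F 0 ≤ A k + ρ ^ k (2 k D + 1) F 0`.  Choose `k` with `ρ ^ k (2 k D + 1) ≤ 1/2` (real numbers: `r^k * (2 k D + 1) → 0`, `tendsto_self_mul_const_pow_of_lt_one`).  As `F 0 ≠ ⊤`: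
`F 0 ≤ 2 A k = C`.
-/

set_option autoImplicit false

open scoped ENNReal NNReal Classical
open Filter Topology

namespace Pool.Agent.SWQ

open SWH

private lemma itr_small (ρ : ℝ≥0∞) (D : ℕ) (hρ : ρ < 1) :
    ∃ k : ℕ, ρ ^ k * (2 * ((k * D : ℕ) : ℝ≥0∞) + 1) ≤ 2⁻¹ := by
  have hρt : ρ ≠ ⊤ := ne_top_of_lt hρ
  set r : ℝ := ρ.toReal with hr
  have hr0 : 0 ≤ r := ENNReal.toReal_nonneg
  have hr1 : r < 1 := by
    have := (ENNReal.toReal_lt_toReal hρt ENNReal.one_ne_top).2 hρ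
    simpa using this
  have hρr : ρ = ENNReal.ofReal r := (ENNReal.ofReal_toReal hρt).symm
  have h1 : Tendsto (fun n : ℕ => (n : ℝ) * r ^ n) atTop (𝓝 0) :=
    tendsto_self_mul_const_pow_of_lt_one hr0 hr1
  have h2 : Tendsto (fun n : ℕ => r ^ n) atTop (𝓝 0) :=
    tendsto_pow_atTop_nhds_zero_of_lt_one hr0 hr1
  have h3 : Tendsto (fun n : ℕ => (2 * (D : ℝ)) * ((n : ℝ) * r ^ n) + r ^ n) atTop (𝓝 0) := by
    have := (h1.const_mul (2 * (D : ℝ))).add h2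
    simpa using this
  have h4 : ∀ᶠ n : ℕ in atTop, (2 * (D : ℝ)) * ((n : ℝ) * r ^ n) + r ^ n < 1 / 2 :=
    h3.eventually (gt_mem_nhds (by norm_num))
  obtain ⟨k, hk⟩ := h4.exists
  refine ⟨k, ?_⟩
  have h5 : ρ ^ k * (2 * ((k * D : ℕ) : ℝ≥0∞) + 1)
      = ENNReal.ofReal (r ^ k * (2 * ((k * D : ℕ) : ℝ) + 1)) := by
    rw [ENNReal.ofReal_mul (pow_nonneg hr0 k), hρr, ENNReal.ofReal_pow hr0,
      ENNReal.ofReal_add (by positivity) (by norm_num), ENNReal.ofReal_mul (by norm_num),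
      ENNReal.ofReal_natCast, ENNReal.ofReal_one]
    norm_num
  have h6 : (2⁻¹ : ℝ≥0∞) = ENNReal.ofReal (1 / 2) := by
    rw [one_div, ENNReal.ofReal_inv_of_pos (by norm_num)]
    norm_num
  rw [h5, h6]
  apply ENNReal.ofReal_le_ofReal
  have h7 : r ^ k * (2 * ((k * D : ℕ) : ℝ) + 1) = (2 * (D : ℝ)) * ((k : ℝ) * r ^ k) + r ^ k := by
    push_cast
    ring
  rw [h7]
  exact hk.le

theorem itr (a b ρ δ : ℝ≥0∞) (D : ℕ) (ha : a ≠ ⊤) (hb : b ≠ ⊤) (hδ : δ ≠ 0) (hρ : ρ + δ ≤ 1) :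
    ∃ C : ℝ≥0∞, C ≠ ⊤ ∧ ∀ F : ℕ → ℝ≥0∞, F 0 ≠ ⊤ → (∀ w, F w ≤ (2 * (w : ℝ≥0∞) + 1) * F 0) →
      (∀ w, F w ≤ a * (2 * (w : ℝ≥0∞) + 1) + ρ * (F (w + D) + b * (2 * ((w + D : ℕ) : ℝ≥0∞) + 1))) → F 0 ≤ C := by
  have hρt : ρ ≠ ⊤ := by
    intro h
    rw [h, top_add] at hρ
    exact absurd hρ (by simp)
  have hρ1 : ρ < 1 := lt_of_lt_of_le (ENNReal.lt_add_right hρt hδ) hρ
  have key : ∀ k : ℕ, ∃ A : ℝ≥0∞, A ≠ ⊤ ∧ ∀ F : ℕ → ℝ≥0∞,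
      (∀ w, F w ≤ a * (2 * (w : ℝ≥0∞) + 1) + ρ * (F (w + D) + b * (2 * ((w + D : ℕ) : ℝ≥0∞) + 1))) →
      F 0 ≤ A + ρ ^ k * F (k * D) := by
    intro k
    induction k with
    | zero =>
      refine ⟨0, ENNReal.zero_ne_top, fun F _ => ?_⟩
      simp
    | succ k ih =>
      obtain ⟨A, hA, hF⟩ := ih
      refine ⟨A + ρ ^ k * (a * (2 * ((k * D : ℕ) : ℝ≥0∞) + 1)
        + ρ * (b * (2 * ((k * D + D : ℕ) : ℝ≥0∞) + 1))), ?_, fun F h => ?_⟩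
      · have hn : ∀ m : ℕ, (2 * ((m : ℕ) : ℝ≥0∞) + 1) ≠ ⊤ := fun m =>
          ENNReal.add_ne_top.2 ⟨ENNReal.mul_ne_top ENNReal.ofNat_ne_top (ENNReal.natCast_ne_top m),
            ENNReal.one_ne_top⟩
        exact ENNReal.add_ne_top.2 ⟨hA, ENNReal.mul_ne_top (ENNReal.pow_ne_top hρt)
          (ENNReal.add_ne_top.2 ⟨ENNReal.mul_ne_top ha (hn _),
            ENNReal.mul_ne_top hρt (ENNReal.mul_ne_top hb (hn _))⟩)⟩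
      · have h1 := hF F h
        have h2 := h (k * D)
        have h3 : (k + 1) * D = k * D + D := by ring
        rw [h3]
        calc F 0 ≤ A + ρ ^ k * F (k * D) := h1
          _ ≤ A + ρ ^ k * (a * (2 * ((k * D : ℕ) : ℝ≥0∞) + 1)
              + ρ * (F (k * D + D) + b * (2 * ((k * D + D : ℕ) : ℝ≥0∞) + 1))) := by gcongr
          _ = A + ρ ^ k * (a * (2 * ((k * D : ℕ) : ℝ≥0∞) + 1)
              + ρ * (b * (2 * ((k * D + D : ℕ) : ℝ≥0∞) + 1))) + ρ ^ (k + 1) * F (k * D + D) := by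
            ring
  obtain ⟨k, hk⟩ := itr_small ρ D hρ1
  obtain ⟨A, hA, hF⟩ := key k
  refine ⟨2 * A, ENNReal.mul_ne_top ENNReal.ofNat_ne_top hA, fun F h0 hw h => ?_⟩
  have h1 := hF F h
  have h2 : F 0 ≤ A + 2⁻¹ * F 0 := by
    calc F 0 ≤ A + ρ ^ k * F (k * D) := h1
      _ ≤ A + ρ ^ k * ((2 * ((k * D : ℕ) : ℝ≥0∞) + 1) * F 0) := by
        gcongr
        exact hw (k * D)
      _ = A + (ρ ^ k * (2 * ((k * D : ℕ) : ℝ≥0∞) + 1)) * F 0 := by ring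
      _ ≤ A + 2⁻¹ * F 0 := by gcongr
  have h3 : 2⁻¹ * F 0 + 2⁻¹ * F 0 = F 0 := by
    rw [← add_mul, ENNReal.inv_two_add_inv_two, one_mul]
  have h4 : 2⁻¹ * F 0 ≠ ⊤ := ENNReal.mul_ne_top (by simp) h0
  have h5 : 2⁻¹ * F 0 ≤ A := by
    have h6 : 2⁻¹ * F 0 + 2⁻¹ * F 0 ≤ A + 2⁻¹ * F 0 := by rw [h3]; exact h2
    exact (ENNReal.add_le_add_iff_right h4).1 h6
  calc F 0 = 2⁻¹ * F 0 + 2⁻¹ * F 0 := h3.symm
    _ ≤ A + A := add_le_add h5 h5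
    _ = 2 * A := (two_mul A).symm

end Pool.Agent.SWQ
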