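import Pool.Agent.SWQ.Brk

/-!
# SWQ module Lrg: high walks

PROOF.  Let `C` be as in `ray`, `K0 = κ + C + D + n1 + c0 + 1 + 2 D`.  Let `K ≥ K0`, `m = K + 4 D`, `ℓ, r` as in `ray` for `m`, `R0 = ℓ`.  Let `R ≥ R0`, `B` as in `sg_bd`, `T0 = B R + C + D + 1`, `T ≥ T0`.
Let `Dh K R x l z b` and `v ∈ x :: l` with `h0 = sg x v` maximal, `h0 ≥ T`.  `y = endp v (r v)`.
`sg x y ≥ sg x v + sg v y - D ≥ h0 + m - D`, `sg y x ≤ -sg x y + 2 D` (`sg_symm`).  For `w ∈ x :: l`: `sg y w ≤ sg y x + sg x w + D ≤ -(h0 + m - D) + 2 D + h0 + D = -m + 4 D = -K`.  For `w ∈ z :: b`: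
`sg x w ≤ B R ≤ h0` (`sg_bd` for the reversed walk, `rv`, `chain_rv`, `mem_rv`, `endp z b = x`), so again `sg y w ≤ -K`.  So `hy` of `brk` holds.
Let `q` be the largest number `≤ (r v).length` with `pt v (r v) q ∈ z :: (b ++ l)` (`q = 0` is one).  This vertex is not in `z :: b`: `sg x (pt ..) ≥ h0 + sg v (pt ..) - D ≥ T - C - D > B R`.  So it is in `l` (or `x :: l`),
`= pt x l c`.  `brk` (with `R' = ℓ`, `Dh_mono`): `l1 = l.take c`, `l2 = l.drop c`, `u = (r v).drop q`.  Span: `sg z y ≥ sg z x + sg x y - D ≥ K + h0 + m - 2 D ≥ T`.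
-/

set_option autoImplicit false

open scoped ENNReal NNReal Classical
open Filter Topology

namespace Pool.Agent.SWQ

open SWH

variable {Γ I : Type} [Group Γ] [Fintype I] {G : SimpleGraph (Γ × I)} {d : Dat Γ I} {θ : ℝ}

theorem lrg (H : Hyq G d θ) : ∃ K0 : ℕ, ∀ K ≥ K0, ∃ R0 : ℕ, ∀ R ≥ R0, ∃ T0 : ℤ, ∀ T ≥ T0, ∀ x l,
    DH G d K R x l → (∃ v ∈ x :: l, T ≤ sg d x v) →
      ∃ l1 l2, l = l1 ++ l2 ∧ DU G d R T x l1 ∧ DH G d.flip K R (endp x l1) l2 := by
  obtain ⟨C, hC⟩ := ray H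
  obtain ⟨B, hBm, hB⟩ := sg_bd H
  refine ⟨d.κ + C + d.D + d.n1 + d.c0 + 1 + 2 * d.D, fun K hK => ?_⟩
  obtain ⟨ℓ, r, _, hr⟩ := hC (K + 4 * d.D)
  refine ⟨ℓ, fun R hR => ⟨(B R : ℤ) + C + d.D + 1, fun T hT x l hDH hex => ?_⟩⟩
  obtain ⟨hSw, z, b, hDh⟩ := hDH
  obtain ⟨v0, hv0, hTv0⟩ := hex
  obtain ⟨v, hv, hmax⟩ := Finset.exists_max_image (x :: l).toFinset (fun w => sg d x w)
    ⟨v0, List.mem_toFinset.2 hv0⟩
  rw [List.mem_toFinset] at hv
  have hmax' : ∀ w ∈ x :: l, sg d x w ≤ sg d x v := fun w hw =>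
    hmax w (List.mem_toFinset.2 hw)
  have hh0 : T ≤ sg d x v := le_trans hTv0 (hmax' v0 hv0)
  have hRay := hr v
  obtain ⟨hend, hbR, hNb, hHw, hKz⟩ := hDh
  have hDh' : Dh G d K R x l z b := ⟨hend, hbR, hNb, hHw, hKz⟩
  obtain ⟨rSw, rty, rN, rℓ, rax, rC, rκ, rm⟩ := hRay
  have hRay' : Ray G d C (K + 4 * d.D) ℓ v (r v) := hr v
  have t1 := abs_le.1 (sg_tri H x v (endp v (r v)))
  have t2 := abs_le.1 (sg_symm H x (endp v (r v)))
  push_cast at rm
  have hzb : ∀ w ∈ z :: b, sg d x w ≤ B R := by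
    intro w hw
    have hSz : Sw G z b := (Sw_split hHw.2.1).1
    have hch := chain_rv hSz.1
    rw [hend] at hch
    have hw' : w ∈ x :: rv z b := by
      have := (mem_rv z b w).2 hw
      rwa [hend] at this
    have h1 := (hB x (rv z b) hch w hw').1
    rw [rv_length] at h1
    have h2 : (B b.length : ℤ) ≤ B R := by exact_mod_cast hBm hbR
    have h3 := (abs_le.1 h1).2
    omega
  have hBR : (B R : ℤ) ≤ sg d x v := by omega
  have hyle : ∀ w, sg d x w ≤ sg d x v → sg d (endp v (r v)) w ≤ -(K : ℤ) := by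
    intro w hw
    have t3 := abs_le.1 (sg_tri H (endp v (r v)) x w)
    omega
  have hy : ∀ w ∈ z :: (b ++ l), sg d (endp v (r v)) w ≤ -(K : ℤ) := by
    intro w hw
    rw [← List.cons_append, List.mem_append] at hw
    rcases hw with hw | hw
    · exact hyle w (le_trans (hzb w hw) hBR)
    · exact hyle w (hmax' w (List.mem_cons_of_mem _ hw))
  have hxm : x ∈ z :: b := by
    rw [← hend]
    exact endp_mem z b
  have hvm : v ∈ z :: (b ++ l) := by
    rw [← List.cons_append, List.mem_append]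
    rcases List.mem_cons.1 hv with h | h
    · left
      rw [h]
      exact hxm
    · right
      exact h
  have hP0 : pt v (r v) 0 ∈ z :: (b ++ l) := by
    rw [pt_zero]
    exact hvm
  set q := Nat.findGreatest (fun j => pt v (r v) j ∈ z :: (b ++ l)) (r v).length with hqdef
  have hq1 : q ≤ (r v).length := Nat.findGreatest_le _
  have hq2 : pt v (r v) q ∈ z :: (b ++ l) :=
    Nat.findGreatest_spec (P := fun j => pt v (r v) j ∈ z :: (b ++ l)) (Nat.zero_le _) hP0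
  have hq3 : ∀ j, q < j → j ≤ (r v).length → pt v (r v) j ∉ z :: (b ++ l) := by
    intro j h1 h2
    exact Nat.findGreatest_is_greatest (P := fun j => pt v (r v) j ∈ z :: (b ++ l)) h1 h2
  have hql : pt v (r v) q ∈ x :: l := by
    rw [← List.cons_append, List.mem_append] at hq2
    rcases hq2 with h | h
    · exfalso
      have h1 := hzb _ h
      have h2 := abs_le.1 (sg_tri H x v (pt v (r v) q))
      have h3 := rC _ (pt_mem v (r v) q)
      omega
    · exact List.mem_cons_of_mem _ h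
  obtain ⟨c, hc, hcq⟩ := mem_pt hql
  have hbrk := brk H (R' := ℓ) (by omega : d.κ + C + d.D + d.n1 + d.c0 + 1 ≤ K) hSw hDh' hv
    hRay' hy hc hq1 hcq.symm hq3
  have hSs : Sw G x (l.take c ++ l.drop c) := by
    rw [List.take_append_drop]
    exact hSw
  refine ⟨l.take c, l.drop c, (List.take_append_drop c l).symm,
    ⟨z, b, (r v).drop q, hend, hbR, ?_, hbrk.1, ?_⟩, (Sw_split hSs).2,
    endp v (r v), rv (pt v (r v) q) ((r v).drop q), ?_⟩
  · rw [List.length_drop]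
    omega
  · have he : endp z (b ++ l.take c ++ (r v).drop q) = endp v (r v) := by
      rw [endp_append, endp_append, hend, endp_take, hcq, endp_drop v (r v) hq1]
    rw [he]
    have t4 := abs_le.1 (sg_tri H z x (endp v (r v)))
    have t5 := hKz x (List.mem_cons_self)
    omega
  · rw [endp_take]
    exact Dh_mono hR hbrk.2

end Pool.Agent.SWQ
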