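import Pool.Agent.SWQ.Axa
import Pool.Agent.SWQ.Dcs

/-!
# SWQ module Mkq: the hypotheses are satisfied

PROOF.  `axq`, `dcs`.  `s (g^k * a) = s a + k` for `k : ℤ`, `X (k τ + r) = tr (g^k) (X r)`, so `s (X (k τ + r)).1 = k + s (X r).1`; `c0 = ∑ r < τ, |s (X r).1|` (natural number): `c0up`, `c0dn` (for `j ≤ 0` we have `k ≤ 0`).
`N0 = τ^2`, `κ = c0 + D + 1`, `n1 = κ + c0 + 2 D + 1 + τ^2`.
-/

set_option autoImplicit false

open scoped ENNReal NNReal Classical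
open Filter Topology

namespace Pool.Agent.SWQ

open SWH

theorem mkq {Γ I : Type} [Group Γ] [Fintype I] (G : SimpleGraph (Γ × I))
    (inv : ∀ (γ : Γ) (x y : Γ × I), G.Adj (tr γ x) (tr γ y) ↔ G.Adj x y) (conn : G.Connected)
    (fin : ∀ x, (G.neighborSet x).Finite) (θ : ℝ) (pos : 0 < θ)
    (gap : ∀ f : Γ × I → ℝ, f.support.Finite →
      ENNReal.ofReal θ * ∑' x, ENNReal.ofReal (f x ^ 2) ≤
        ∑' x, ∑' y, if G.Adj x y then ENNReal.ofReal ((f x - f y) ^ 2) else 0)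
    (q : Γ → ℝ) (Dq : ℝ) (qm : ∀ a b, |q (a * b) - q a - q b| ≤ Dq)
    (hom : ∀ a (n : ℤ), q (a ^ n) = n * q a) (conj : ∀ a b, q (b * a * b⁻¹) = q a) (hpos : ∃ a, 0 < q a) :
    ∃ d : Dat Γ I, Hyq G d θ := by
  obtain ⟨i0, g, X, τ, hg, hτ, hX0, hadj, hinj, hper, hovl⟩ := axq G inv conn q hom conj hpos
  obtain ⟨s, D, hsl, hsr, hqm⟩ := dcs q Dq qm hom conj g hg
  have hτ' : (0 : ℤ) < (τ : ℤ) := by exact_mod_cast hτ
  -- powers of `g` on the left
  have hnat : ∀ (k : ℕ) (j : ℤ), s (X (j + (k : ℤ) * τ)).1 = s (X j).1 + k := by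
    intro k
    induction k with
    | zero => intro j; simp
    | succ k ih =>
      intro j
      have h1 : j + ((k + 1 : ℕ) : ℤ) * (τ : ℤ) = (j + (k : ℤ) * τ) + τ := by push_cast; ring
      rw [h1, hper]
      change s (g * (X (j + (k : ℤ) * τ)).1) = _
      rw [hsl, ih]
      push_cast
      ring
  have hint : ∀ (k j : ℤ), s (X (j + k * τ)).1 = s (X j).1 + k := by
    intro k j
    rcases le_total 0 k with hk | hk
    · obtain ⟨n, rfl⟩ := Int.eq_ofNat_of_zero_le hk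
      exact hnat n j
    · obtain ⟨n, hn⟩ := Int.eq_ofNat_of_zero_le (neg_nonneg.2 hk)
      have h1 := hnat n (j + k * τ)
      have h2 : j + k * (τ : ℤ) + (n : ℤ) * τ = j := by
        have h3 : (n : ℤ) = -k := hn.symm
        rw [h3]
        ring
      rw [h2] at h1
      omega
  set c0 : ℕ := ∑ r ∈ Finset.range τ, (s (X (r : ℤ)).1).natAbs with hc0
  have hr : ∀ r : ℤ, 0 ≤ r → r < τ → |s (X r).1| ≤ (c0 : ℤ) := by
    intro r h1 h2
    obtain ⟨n, rfl⟩ := Int.eq_ofNat_of_zero_le h1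
    have h3 : n < τ := by exact_mod_cast h2
    have h4 : (s (X (n : ℤ)).1).natAbs ≤ c0 :=
      Finset.single_le_sum (f := fun r : ℕ => (s (X (r : ℤ)).1).natAbs) (fun _ _ => Nat.zero_le _)
        (Finset.mem_range.2 h3)
    have h5 : ((s (X (n : ℤ)).1).natAbs : ℤ) ≤ (c0 : ℤ) := by exact_mod_cast h4
    rwa [Int.natCast_natAbs] at h5
  have hdiv : ∀ j : ℤ, s (X j).1 = s (X (j % τ)).1 + j / τ := by
    intro j
    have h1 := hint (j / τ) (j % τ)
    have h2 : j % (τ : ℤ) + j / τ * τ = j := by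
      rw [mul_comm]
      exact Int.emod_add_mul_ediv j τ
    rw [h2] at h1
    exact h1
  refine ⟨⟨i0, g, s, X, D, τ, τ ^ 2, c0, c0 + D + 1, (c0 + D + 1) + c0 + 2 * D + 1 + τ ^ 2⟩,
    ?_⟩
  refine
    { inv := inv
      conn := conn
      fin := fin
      pos := pos
      gap := gap
      sl := hsl
      sr := hsr
      qm := hqm
      X0 := hX0
      Xadj := hadj
      Xinj := hinj
      Xper := hper
      τpos := hτ
      ovl := hovl
      c0up := ?_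
      c0dn := ?_
      hκ := ?_
      hn := ?_
      hN := ?_ }
  · intro j hj
    change -(c0 : ℤ) ≤ s (X j).1
    have h1 := hr (j % τ) (Int.emod_nonneg _ hτ'.ne') (Int.emod_lt_of_pos _ hτ')
    have h2 : 0 ≤ j / (τ : ℤ) := Int.ediv_nonneg hj hτ'.le
    rw [hdiv j]
    rw [abs_le] at h1
    omega
  · intro j hj
    change s (X j).1 ≤ (c0 : ℤ)
    have h1 := hr (j % τ) (Int.emod_nonneg _ hτ'.ne') (Int.emod_lt_of_pos _ hτ')
    have h2 : j / (τ : ℤ) ≤ 0 := by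
      have h3 := Int.ediv_le_ediv hτ' hj
      rwa [Int.zero_ediv] at h3
    rw [hdiv j]
    rw [abs_le] at h1
    omega
  · change c0 + D + 1 ≤ c0 + D + 1
    exact le_rfl
  · change c0 + D + 1 + c0 + 2 * D + 1 ≤ (c0 + D + 1) + c0 + 2 * D + 1 + τ ^ 2
    omega
  · change τ ^ 2 ≤ ((c0 + D + 1) + c0 + 2 * D + 1 + τ ^ 2) * τ
    have h1 : τ ^ 2 ≤ (c0 + D + 1) + c0 + 2 * D + 1 + τ ^ 2 := by omega
    calc τ ^ 2 ≤ (c0 + D + 1) + c0 + 2 * D + 1 + τ ^ 2 := h1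
      _ ≤ ((c0 + D + 1) + c0 + 2 * D + 1 + τ ^ 2) * τ := Nat.le_mul_of_pos_right _ hτ

end Pool.Agent.SWQ
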