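import Pool.Agent.SWQ.Cod
import Pool.Agent.SWQ.Ivq
import Pool.Agent.SWH.Wtk
import Pool.Agent.SWH.Ker

/-!
# SWQ module Msq: the mass of the code

PROOF.  Let `x0 = (1, i0)`.  For `z' < z`, `z' ≠ 0`: `cmp_wt_le` with `Q = Cd L`, `R = P = Hw` (`eb_hw`, `cd_inj`) gives
`cmp (wt z' Cd) (wt z' Hw) ≤ wt z' Hw`, hence (`row_cmp`) `∑' y, wt z' Cd x0 y * row (wt z' Hw) y ≤ row (wt z' Hw) x0`.  Put `r = row (wt z' Hw) x0`; `r < ⊤`
(`wt_mono`, `Hw → Sw`), `r > 0` (`hd x0` is in the class, `hw_hd`, `row_wt`).  For `y = (a, i0)`: `row (wt z' Hw) y = r` (`row_tr`, `InvK_wt`).  So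
`(∑' a, wt z' Cd x0 (a, i0)) * r ≤ r` and `∑' a, wt z' Cd x0 (a, i0) ≤ 1` (drop the `y` of other types).
Then let `z' → z`: `∑' a, wt z Cd x0 (a, i0)` is a sum over lists; for finitely many lists `∑ z ^ l.length` is the limit of `∑ z' ^ l.length ≤ 1` for `z' ↑ z`
(`ENNReal.tsum_eq_iSup_sum`, continuity of polynomials, or `z ^ n = ⨆ z' < z, z' ^ n`).
-/

set_option autoImplicit false

open scoped ENNReal NNReal Classical
open Filter Topology

namespace Pool.Agent.SWQ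

open SWH

variable {Γ I : Type} [Group Γ] [Fintype I] {G : SimpleGraph (Γ × I)} {d : Dat Γ I} {θ : ℝ}

private theorem msq_aux (H : Hyq G d θ) (z : ℝ≥0∞) (hz0 : z ≠ 0)
    (hz : ∀ x, row (wt z (Sw G)) x ≠ ⊤) (L : ℤ) :
    ∑' a, blk (wt z (Cd G d L)) d.i0 d.i0 a ≤ 1 := by
  have h0 : row (wt z (Hw G d)) (1, d.i0) ≠ ⊤ := by
    refine ne_top_of_le_ne_top (hz (1, d.i0)) ?_
    unfold row
    exact ENNReal.tsum_le_tsum fun y => wt_mono _ (fun l hl => hl.2.1) z y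
  have h1 : row (wt z (Hw G d)) (1, d.i0) ≠ 0 := by
    have h2 := le_wt (hw_hd H (y := (1, d.i0)) rfl) rfl z
    have h3 : wt z (Hw G d) (1, d.i0) (endp (1, d.i0) (hd d (1, d.i0))) ≤ row (wt z (Hw G d)) (1, d.i0) := by
      unfold row
      exact ENNReal.le_tsum _
    have h4 : z ^ (hd d (1, d.i0)).length ≠ 0 := pow_ne_zero _ hz0
    intro h5
    rw [h5] at h3
    exact h4 (le_antisymm (h2.trans h3) zero_le)
  have h2 : row (cmp (wt z (Cd G d L)) (wt z (Hw G d))) (1, d.i0) ≤ row (wt z (Hw G d)) (1, d.i0) := by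
    unfold row
    refine ENNReal.tsum_le_tsum fun y => ?_
    refine cmp_wt_le (1, d.i0) (fun l1 l2 a b => eb_hw H a.1 b) ?_ z y
    intro l1 l2 l1' l2' a b a' b' he
    exact cd_inj H a b a' b' he
  rw [row_cmp] at h2
  have hK : InvK (wt z (Hw G d)) := InvK_wt (Hw_inv H) z
  have h3 : ∀ a : Γ, row (wt z (Hw G d)) (a, d.i0) = row (wt z (Hw G d)) (1, d.i0) := by
    intro a
    have h4 := row_tr hK a (1, d.i0)
    simpa [tr] using h4
  have h4 : (∑' a, blk (wt z (Cd G d L)) d.i0 d.i0 a) * row (wt z (Hw G d)) (1, d.i0) ≤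
      ∑' y, wt z (Cd G d L) (1, d.i0) y * row (wt z (Hw G d)) y := by
    rw [← ENNReal.tsum_mul_right]
    have h5 : ∀ a : Γ, blk (wt z (Cd G d L)) d.i0 d.i0 a * row (wt z (Hw G d)) (1, d.i0) =
        (fun y => wt z (Cd G d L) (1, d.i0) y * row (wt z (Hw G d)) y) (a, d.i0) := by
      intro a
      change _ = wt z (Cd G d L) (1, d.i0) (a, d.i0) * row (wt z (Hw G d)) (a, d.i0)
      rw [h3 a]
      rfl
    simp only [h5]
    exact ENNReal.tsum_comp_le_tsum_of_injective (f := fun a : Γ => (a, d.i0))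
      (fun a b hab => congrArg Prod.fst hab) _
  have h5 := h4.trans h2
  have h6 : (∑' a, blk (wt z (Cd G d L)) d.i0 d.i0 a) * row (wt z (Hw G d)) (1, d.i0) ≤
      1 * row (wt z (Hw G d)) (1, d.i0) := by rw [one_mul]; exact h5
  exact (ENNReal.mul_le_mul_iff_left h1 h0).1 h6

theorem msq (H : Hyq G d θ) (z : ℝ≥0∞) (hz0 : z ≠ 0) (hz : ∀ z' < z, ∀ x, row (wt z' (Sw G)) x ≠ ⊤) (L : ℤ) :
    ∑' a, blk (wt z (Cd G d L)) d.i0 d.i0 a ≤ 1 := by
  have h1 : ∀ z' : ℝ≥0∞, ∑' a, blk (wt z' (Cd G d L)) d.i0 d.i0 a =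
      ∑' p : Γ × List (Γ × I), if Cd G d L (1, d.i0) p.2 ∧ endp (1, d.i0) p.2 = (p.1, d.i0) then
        z' ^ p.2.length else 0 := by
    intro z'
    rw [ENNReal.tsum_prod']
    refine tsum_congr fun a => ?_
    change ∑' l : List (Γ × I), _ = _
    refine tsum_congr fun l => ?_
    by_cases h : Cd G d L (1, d.i0) l ∧ endp (1, d.i0) l = (a, d.i0)
    · rw [if_pos h, if_pos h]
    · rw [if_neg h, if_neg h]
  rw [h1, ENNReal.tsum_eq_iSup_sum]
  refine iSup_le fun F => ?_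
  have h2 : Continuous (fun z' : ℝ≥0∞ => ∑ p ∈ F,
      if Cd G d L (1, d.i0) p.2 ∧ endp (1, d.i0) p.2 = (p.1, d.i0) then z' ^ p.2.length else 0) := by
    refine continuous_finsetSum _ fun p _ => ?_
    split_ifs
    · exact ENNReal.continuous_pow _
    · exact continuous_const
  have h3 : Tendsto (fun z' : ℝ≥0∞ => ∑ p ∈ F,
      if Cd G d L (1, d.i0) p.2 ∧ endp (1, d.i0) p.2 = (p.1, d.i0) then z' ^ p.2.length else 0) (𝓝[<] z)
      (𝓝 (∑ p ∈ F,
      if Cd G d L (1, d.i0) p.2 ∧ endp (1, d.i0) p.2 = (p.1, d.i0) then z ^ p.2.length else 0)) :=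
    (h2.tendsto z).mono_left nhdsWithin_le_nhds
  have hzp : 0 < z := pos_iff_ne_zero.2 hz0
  have : (𝓝[<] z).NeBot := nhdsLT_neBot_of_exists_lt ⟨0, hzp⟩
  refine le_of_tendsto h3 ?_
  filter_upwards [Ioo_mem_nhdsLT hzp] with z' hz'
  have h4 := msq_aux H z' hz'.1.ne' (hz z' hz'.2) L
  rw [h1] at h4
  exact (ENNReal.sum_le_tsum F).trans h4

end Pool.Agent.SWQ
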