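import Pool.Agent.SWQ.Bas
import Pool.Agent.SWQ.Ptf

/-!
# SWQ module Sla: low walks are in a slab

PROOF.  Let `B` be as in `sg_bd`, `b = B R`, and `Dh K R x l z p`.  For `v ∈ x :: l`: `sg x v < T`, and `sg x v ≥ sg z v - sg z x - D ≥ K - b - D ≥ - b - D` (`sg_bd` for the walk `p` from `z` to `x`).
For `v, w ∈ x :: l`: `sg v w ≤ sg v x + sg x w + D ≤ (- sg x v + 2 D) + sg x w + D`, so `|sg x v| ≤ A := |T| + b + D` and `|sg v w| ≤ 2 A + 3 D =: T0` (a natural number).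
For `w ∈ z :: p`, `v ∈ x :: l`: `sg x w ≤ b` (reversed walk), `sg v w ≤ sg v x + sg x w + D ≤ T0 + b + D`, so `C0 = b + D`.
-/

set_option autoImplicit false

open scoped ENNReal NNReal Classical
open Filter Topology

namespace Pool.Agent.SWQ

open SWH

variable {Γ I : Type} [Group Γ] [Fintype I] {G : SimpleGraph (Γ × I)} {d : Dat Γ I} {θ : ℝ}

theorem sla (H : Hyq G d θ) (K R : ℕ) : ∃ C0 : ℕ, ∀ T : ℤ, ∃ T0 : ℕ, ∀ T' ≥ T0, ∀ C ≥ C0, ∀ x l,
    DH G d K R x l → (∀ v ∈ x :: l, sg d x v < T) → SH G d K R T' C x l := by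
  obtain ⟨B, hB, hB2⟩ := sg_bd H
  refine ⟨B R + d.D, fun T => ⟨2 * (T.natAbs + B R + d.D) + 3 * d.D, ?_⟩⟩
  rintro T' hT' C hC x l ⟨hS, z, b, hD⟩ hT
  have hD' := hD
  obtain ⟨h1, h2, h3, h4, h5⟩ := hD'
  have hch : (z :: b).IsChain G.Adj := by
    have h6 := h4.2.1.1
    rw [← List.cons_append] at h6
    exact h6.left_of_append
  have hBm : B b.length ≤ B R := hB h2
  have hxmem : x ∈ z :: b := h1 ▸ endp_mem z b
  have hzx : |sg d z x| ≤ (B R : ℤ) :=
    ((hB2 z b hch x hxmem).1).trans (by exact_mod_cast hBm)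
  have hxw : ∀ w ∈ z :: b, |sg d x w| ≤ (B R : ℤ) := by
    intro w hw
    have h7 := (hB2 (endp z b) (rv z b) (chain_rv hch) w ((mem_rv z b w).2 hw)).1
    rw [h1, rv_length] at h7
    exact h7.trans (by exact_mod_cast hBm)
  have hxv : ∀ v ∈ x :: l, |sg d x v| ≤ (T.natAbs : ℤ) + B R + d.D := by
    intro v hv
    have h8 := hT v hv
    have h9 := h5 v hv
    have h10 := sg_tri H z x v
    rw [abs_le] at hzx h10 ⊢
    have h11 : (0 : ℤ) ≤ K := Int.natCast_nonneg K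
    have h12 : T ≤ (T.natAbs : ℤ) := by omega
    constructor <;> omega
  have hvx : ∀ v ∈ x :: l, |sg d v x| ≤ (T.natAbs : ℤ) + B R + d.D + 2 * d.D := by
    intro v hv
    have h8 := hxv v hv
    have h9 := sg_symm H x v
    rw [abs_le] at h8 h9 ⊢
    constructor <;> omega
  refine ⟨hS, ?_, z, b, hD, ?_⟩
  · intro v hv w hw
    have h8 := hvx v hv
    have h9 := hxv w hw
    have h10 := sg_tri H v x w
    rw [abs_le] at h8 h9 h10 ⊢
    have h11 : ((2 * (T.natAbs + B R + d.D) + 3 * d.D : ℕ) : ℤ) ≤ T' := by exact_mod_cast hT'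
    push_cast at h11
    constructor <;> omega
  · intro w hw v hv
    have h8 := hvx v hv
    have h9 := hxw w hw
    have h10 := sg_tri H v x w
    rw [abs_le] at h8 h9 h10
    have h11 : ((2 * (T.natAbs + B R + d.D) + 3 * d.D : ℕ) : ℤ) ≤ T' := by exact_mod_cast hT'
    have h12 : ((B R + d.D : ℕ) : ℤ) ≤ C := by exact_mod_cast hC
    push_cast at h11 h12
    omega

end Pool.Agent.SWQ
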