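import Pool.Agent.SWQ.Slb
import Pool.Agent.SWQ.Fnq
import Pool.Agent.SWQ.Ivq
import Pool.Agent.SWH.Wtk
import Pool.Agent.SWH.Ker

/-!
# SWQ module Slk: the generating function of the walks in a slab

PROOF.  Let `C1` be as in `ray` for `H` and for `H.flip` (maximum, `Ray_mono`), `K0 = κ + C1 + D + n1 + c0 + 1`, `C0 = C1 + D`.  Given `K ≥ K0`, `C ≥ C0`, `T`, `R`: `m = T + C + 3 D + K`; rays `r` for `d` and `r'` for `d.flip` with `m`, maximal length
`ℓ` (`Ray_mono`), `b` a bound as in `ray_mult` for both, `R1 = max R ℓ`.  `SH K R T C` implies `SH K R1 T C` (`Dh_mono`), so we may replace `R` by `R1`.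
Claim: for all `k, M` there is `B ≠ ⊤` with `nn (wt z (Ln (SH d K R1 T C and Pot r r' k M) n)) ≤ B` and the same for `d.flip`, for all `n`.  Induction on `k`.
`k ≤ 1`: `cnt ≥ 1` for both (the vertex itself), so all vertices are counted in `Pot`, `l.length + 1 ≤ M`: `B = nn (wt z (Ln Sw M))` (`nn_swN_ne_top`, `wt_mono`, `nn_mono`).
`k + 1`: by `slb` (for `H`, and for `H.flip` with the roles of `r, r'` exchanged, `Pot_comm`, `flip_flip`) every walk of the class is short (`≤ (R1 + 1) b`) or `l1 ++ l2` with `DU R1 0 x l1` and `l2` in the class for `d.flip`, `k`,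
`M' = M + (R1 + 2) b + 1`; so (`wt_le_cmp`; a class which is contained in a union of two: `wt ≤ wt + wt`) `nn ≤ nn (wt z (Ln Sw ..)) + nn (wt z (DU R1 0)) * B'` (`nn_add`, `nn_cmp` with `InvK_wt`, invariance of the class: `SH_inv` and
invariance of `Pot`, because `r, r'` are equivariant).
At the end: `Pot r r' (2 (ℓ + 1)) 0` always holds (`cnt r L v ≤ (r v).length + 1`).
-/

set_option autoImplicit false

open scoped ENNReal NNReal Classical
open Filter Topology

namespace Pool.Agent.SWQ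

open SWH

variable {Γ I : Type} [Group Γ] [Fintype I] {G : SimpleGraph (Γ × I)} {d : Dat Γ I} {θ : ℝ}

private theorem Slk_cnt_map (r : Γ × I → List (Γ × I)) (hr : ∀ a v, r (tr a v) = (r v).map (tr a)) (a : Γ)
    (L : List (Γ × I)) (v : Γ × I) : cnt r (L.map (tr a)) (tr a v) = cnt r L v := by
  unfold cnt
  rw [hr, ← List.map_cons, List.filter_map, List.length_map]
  congr 1
  apply List.filter_congr
  intro w _
  simp only [Function.comp_apply, decide_eq_decide]
  constructor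
  · intro h
    obtain ⟨u, hu, e⟩ := List.mem_map.1 h
    rw [← tr_inj a e]
    exact hu
  · exact fun h => List.mem_map_of_mem h

private theorem Slk_Pot_map (r r' : Γ × I → List (Γ × I)) (hr : ∀ a v, r (tr a v) = (r v).map (tr a))
    (hr' : ∀ a v, r' (tr a v) = (r' v).map (tr a)) (k M : ℕ) (a : Γ) (L : List (Γ × I)) :
    Pot r r' k M (L.map (tr a)) ↔ Pot r r' k M L := by
  unfold Pot
  rw [List.filter_map, List.length_map]
  have h : (L.filter ((fun v => decide (k < cnt r (L.map (tr a)) v + cnt r' (L.map (tr a)) v)) ∘ (tr a))) =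
      L.filter (fun v => decide (k < cnt r L v + cnt r' L v)) := by
    apply List.filter_congr
    intro w _
    simp only [Function.comp_apply]
    rw [Slk_cnt_map r hr, Slk_cnt_map r' hr']
  rw [h]

private theorem Slk_cnt_pos {V : Type} (r : V → List V) (L : List V) {v : V} (hv : v ∈ L) : 1 ≤ cnt r L v := by
  unfold cnt
  rw [List.filter_cons_of_pos (by simpa using hv), List.length_cons]
  omega

private theorem Slk_cnt_le {V : Type} (r : V → List V) (L : List V) (v : V) : cnt r L v ≤ (r v).length + 1 := by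
  unfold cnt
  exact (List.length_filter_le _ _).trans (le_of_eq (List.length_cons))

private theorem Slk_split {V : Type} (z : ℝ≥0∞) {P Q R : V → List V → Prop} (h : ∀ x l, P x l → Q x l ∨ R x l)
    (x y : V) : wt z P x y ≤ wt z Q x y + wt z R x y := by
  unfold wt
  rw [← ENNReal.tsum_add]
  refine ENNReal.tsum_le_tsum fun l => ?_
  by_cases a : P x l ∧ endp x l = y
  · rw [if_pos a]
    rcases h x l a.1 with b | b
    · have e : (if Q x l ∧ endp x l = y then z ^ l.length else 0) = z ^ l.length := if_pos ⟨b, a.2⟩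
      rw [e]
      exact le_self_add
    · have e : (if R x l ∧ endp x l = y then z ^ l.length else 0) = z ^ l.length := if_pos ⟨b, a.2⟩
      rw [e]
      exact le_add_self
  · rw [if_neg a]
    exact zero_le

private theorem Slk_SH_mono {K R R' T C : ℕ} (hR : R ≤ R') {x : Γ × I} {l : List (Γ × I)}
    (h : SH G d K R T C x l) : SH G d K R' T C x l := by
  obtain ⟨h1, h2, z, b, h3, h4⟩ := h
  exact ⟨h1, h2, z, b, Dh_mono hR h3, h4⟩

/-- The induction step for one direction. -/
private theorem Slk_step (H : Hyq G d θ) (z : ℝ≥0∞) {K R T C C1 m ℓ : ℕ}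
    (hK : d.κ + C1 + d.D + d.n1 + d.c0 + 1 ≤ K) (hC : C1 + d.D ≤ C)
    (hm : T + C + 3 * d.D + K ≤ m) (hR : ℓ ≤ R) (r r' : Γ × I → List (Γ × I))
    (hra : ∀ a v, r (tr a v) = (r v).map (tr a)) (hra' : ∀ a v, r' (tr a v) = (r' v).map (tr a))
    (hr : ∀ v, Ray G d C1 m ℓ v (r v)) {b : ℕ}
    (hb : ∀ (w : Γ × I) (L : List (Γ × I)), L.Nodup → (∀ v ∈ L, w ∈ v :: r v) → L.length ≤ b)
    (k M n : ℕ) (B : ℝ≥0∞)
    (hB : nn (wt z (Ln (fun x l => SH G d.flip K R T C x l ∧ Pot r r' k (M + (R + 2) * b + 1) (x :: l)) n)) ≤ B) :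
    nn (wt z (Ln (fun x l => SH G d K R T C x l ∧ Pot r r' (k + 1) M (x :: l)) n)) ≤
      nn (wt z (Ln (Sw G) ((R + 1) * b))) + nn (wt z (DU G d R 0)) * B := by
  have hinv : InvK (wt z (Ln (fun x l => SH G d.flip K R T C x l ∧
      Pot r r' k (M + (R + 2) * b + 1) (x :: l)) n)) := by
    apply InvK_wt
    apply Ln_inv
    intro γ x l
    rw [SH_inv H.flip, ← List.map_cons, Slk_Pot_map r r' hra hra']
  have h1 : ∀ x y, wt z (Ln (fun x l => SH G d K R T C x l ∧ Pot r r' (k + 1) M (x :: l)) n) x y ≤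
      wt z (Ln (Sw G) ((R + 1) * b)) x y + cmp (wt z (DU G d R 0))
        (wt z (Ln (fun x l => SH G d.flip K R T C x l ∧
          Pot r r' k (M + (R + 2) * b + 1) (x :: l)) n)) x y := by
    intro x y
    refine (Slk_split z (Q := Ln (Sw G) ((R + 1) * b)) (R := fun x l => ∃ l1 l2, l = l1 ++ l2 ∧
      DU G d R 0 x l1 ∧ Ln (fun x l => SH G d.flip K R T C x l ∧
        Pot r r' k (M + (R + 2) * b + 1) (x :: l)) n (endp x l1) l2) ?_ x y).trans ?_
    · rintro x l ⟨⟨h2, h3⟩, h4⟩
      rcases slb H hK hC hm hR r r' hr hb k M x l h2 h3 with h5 | ⟨l1, l2, e, h6, h7, h8⟩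
      · exact Or.inl ⟨h2.1, h5⟩
      · refine Or.inr ⟨l1, l2, e, h6, ⟨h7, h8⟩, ?_⟩
        rw [e, List.length_append] at h4
        omega
    · exact add_le_add le_rfl (wt_le_cmp x (fun l hl => hl) z y)
  refine (nn_mono h1).trans ((nn_add _ _).trans (add_le_add le_rfl ((nn_cmp hinv).trans ?_)))
  exact mul_le_mul' le_rfl hB

theorem slk (H : Hyq G d θ) (z : ℝ≥0∞) (h1 : z ≤ 1) (hd : ∀ R : ℕ, nn (wt z (DU G d R 0)) ≠ ⊤)
    (hd' : ∀ R : ℕ, nn (wt z (DU G d.flip R 0)) ≠ ⊤) : ∃ K0 : ℕ, ∀ K ≥ K0, ∃ C0 : ℕ, ∀ C ≥ C0, ∀ T R : ℕ,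
      ∃ B : ℝ≥0∞, B ≠ ⊤ ∧ ∀ n, nn (wt z (Ln (SH G d K R T C) n)) ≤ B ∧
        nn (wt z (Ln (SH G d.flip K R T C) n)) ≤ B := by
  have hz : z ≠ ⊤ := (h1.trans_lt ENNReal.one_lt_top).ne
  obtain ⟨Ca, hCa⟩ := ray H
  obtain ⟨Cb, hCb⟩ := ray H.flip
  refine ⟨d.κ + max Ca Cb + d.D + d.n1 + d.c0 + 1, fun K hK => ⟨max Ca Cb + d.D, fun C hC T R => ?_⟩⟩
  obtain ⟨ℓa, r, hra, hr⟩ := hCa (T + C + 3 * d.D + K)
  obtain ⟨ℓb, r', hra', hr'⟩ := hCb (T + C + 3 * d.D + K)
  have hr1 : ∀ v, Ray G d (max Ca Cb) (T + C + 3 * d.D + K) (max ℓa ℓb) v (r v) :=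
    fun v => Ray_mono (le_max_left _ _) le_rfl (le_max_left _ _) (hr v)
  have hr1' : ∀ v, Ray G d.flip (max Ca Cb) (T + C + 3 * d.D + K) (max ℓa ℓb) v (r' v) :=
    fun v => Ray_mono (le_max_right _ _) le_rfl (le_max_right _ _) (hr' v)
  obtain ⟨ba, hba⟩ := ray_mult hra (fun v => (hr1 v).2.2.2.1)
  obtain ⟨bb, hbb⟩ := ray_mult hra' (fun v => (hr1' v).2.2.2.1)
  set ℓ := max ℓa ℓb with hℓ
  set C1 := max Ca Cb with hC1
  set b := max ba bb with hbdef
  set R1 := max R ℓ with hR1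
  have hb1 : ∀ (w : Γ × I) (L : List (Γ × I)), L.Nodup → (∀ v ∈ L, w ∈ v :: r v) → L.length ≤ b :=
    fun w L h2 h3 => (hba w L h2 h3).trans (le_max_left _ _)
  have hb2 : ∀ (w : Γ × I) (L : List (Γ × I)), L.Nodup → (∀ v ∈ L, w ∈ v :: r' v) → L.length ≤ b :=
    fun w L h2 h3 => (hbb w L h2 h3).trans (le_max_right _ _)
  have claim : ∀ k M : ℕ, ∃ B : ℝ≥0∞, B ≠ ⊤ ∧ ∀ n,
      nn (wt z (Ln (fun x l => SH G d K R1 T C x l ∧ Pot r r' k M (x :: l)) n)) ≤ B ∧
      nn (wt z (Ln (fun x l => SH G d.flip K R1 T C x l ∧ Pot r r' k M (x :: l)) n)) ≤ B := by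
    intro k
    induction k with
    | zero =>
      intro M
      refine ⟨nn (wt z (Ln (Sw G) M)), nn_swN_ne_top H z hz M, fun n => ?_⟩
      have key : ∀ (x : Γ × I) (l : List (Γ × I)), Pot r r' 0 M (x :: l) → l.length ≤ M := by
        intro x l h2
        unfold Pot at h2
        rw [List.filter_eq_self.2 ?_] at h2
        · rw [List.length_cons] at h2
          omega
        · intro v hv
          have h3 := Slk_cnt_pos r _ hv
          simp only [decide_eq_true_eq]
          omega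
      constructor
      · apply nn_mono
        intro x y
        apply wt_mono
        rintro l ⟨⟨h2, h3⟩, h4⟩
        exact ⟨h2.1, key x l h3⟩
      · apply nn_mono
        intro x y
        apply wt_mono
        rintro l ⟨⟨h2, h3⟩, h4⟩
        exact ⟨h2.1, key x l h3⟩
    | succ k ih =>
      intro M
      obtain ⟨B, hB, hB1⟩ := ih (M + (R1 + 2) * b + 1)
      refine ⟨nn (wt z (Ln (Sw G) ((R1 + 1) * b))) +
        (nn (wt z (DU G d R1 0)) * B + nn (wt z (DU G d.flip R1 0)) * B), ?_, fun n => ?_⟩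
      · exact ENNReal.add_ne_top.2 ⟨nn_swN_ne_top H z hz _, ENNReal.add_ne_top.2
          ⟨ENNReal.mul_ne_top (hd R1) hB, ENNReal.mul_ne_top (hd' R1) hB⟩⟩
      · constructor
        · refine (Slk_step H z hK hC le_rfl (le_max_right _ _) r r' hra hra' hr1 hb1 k M n B
            (hB1 n).2).trans ?_
          exact add_le_add le_rfl le_self_add
        · have h2 := Slk_step (d := d.flip) H.flip z (K := K) (R := R1) (T := T) (C := C) (C1 := C1)
            (m := T + C + 3 * d.D + K) (ℓ := ℓ) hK hC le_rfl (le_max_right _ _) r' r hra' hra hr1' hb2 k M n B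
            (by
              rw [flip_flip]
              have h3 : (fun (x : Γ × I) (l : List (Γ × I)) => SH G d K R1 T C x l ∧
                  Pot r' r k (M + (R1 + 2) * b + 1) (x :: l)) =
                  (fun (x : Γ × I) (l : List (Γ × I)) => SH G d K R1 T C x l ∧
                  Pot r r' k (M + (R1 + 2) * b + 1) (x :: l)) := by
                funext x l
                rw [Pot_comm]
              rw [h3]
              exact (hB1 n).1)
          have h3 : (fun (x : Γ × I) (l : List (Γ × I)) => SH G d.flip K R1 T C x l ∧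
              Pot r' r (k + 1) M (x :: l)) =
              (fun (x : Γ × I) (l : List (Γ × I)) => SH G d.flip K R1 T C x l ∧
              Pot r r' (k + 1) M (x :: l)) := by
            funext x l
            rw [Pot_comm]
          rw [h3] at h2
          exact h2.trans (add_le_add le_rfl le_add_self)
  obtain ⟨B, hB, hB1⟩ := claim (2 * (ℓ + 1)) 0
  have hpot : ∀ L : List (Γ × I), Pot r r' (2 * (ℓ + 1)) 0 L := by
    intro L
    unfold Pot
    rw [List.filter_eq_nil_iff.2]
    · simp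
    · intro v _
      have h2 := Slk_cnt_le r L v
      have h3 := Slk_cnt_le r' L v
      have h4 := (hr1 v).2.2.2.1
      have h5 := (hr1' v).2.2.2.1
      simp only [decide_eq_true_eq]
      omega
  refine ⟨B, hB, fun n => ⟨?_, ?_⟩⟩
  · refine le_trans (nn_mono fun x y => wt_mono x ?_ z y) (hB1 n).1
    rintro l ⟨h2, h3⟩
    exact ⟨⟨Slk_SH_mono (le_max_left _ _) h2, hpot _⟩, h3⟩
  · refine le_trans (nn_mono fun x y => wt_mono x ?_ z y) (hB1 n).2
    rintro l ⟨h2, h3⟩
    exact ⟨⟨Slk_SH_mono (le_max_left _ _) h2, hpot _⟩, h3⟩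

end Pool.Agent.SWQ
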