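import Pool.Agent.SWQ.Nwf

/-!
# SWQ module Tai: tails

PROOF.  `nrm_hi`: `nrm (hi T k) ≤ ∑' j : ℕ, nrm (slc 0 (T + j) k)`, a tail of the convergent series `∑' T : ℤ, nrm (slc 0 T k)`.  The sum over `T ≥ 0` (`T : ℕ`) is
finite (injection `ℕ → ℤ`), its tails tend to `0` (`ENNReal.tendsto_tsum_compl_atTop_zero` or `tendsto_sum_nat_add`).
-/

set_option autoImplicit false

open scoped ENNReal NNReal Classical
open Filter Topology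

namespace Pool.Agent.SWQ

open SWH

variable {Γ I : Type} [Group Γ] {d : Dat Γ I}

theorem tai (k : Γ → ℝ≥0∞) (hk : Nw d 0 k ≠ ⊤) (ε : ℝ≥0∞) (hε : ε ≠ 0) :
    ∃ T0 : ℤ, ∀ T ≥ T0, nrm (hi d T k) ≤ ε := by
  have h1 : ∑' j : ℕ, nrm (slc d 0 ((j : ℕ) : ℤ) k) ≤ Nw d 0 k :=
    ENNReal.tsum_comp_le_tsum_of_injective (f := fun j : ℕ => (j : ℤ)) Nat.cast_injective
      (fun T : ℤ => nrm (slc d 0 T k))
  have h2 : ∑' j : ℕ, nrm (slc d 0 ((j : ℕ) : ℤ) k) ≠ ⊤ := ne_top_of_le_ne_top hk h1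
  have h3 := ENNReal.tendsto_sum_nat_add (fun j : ℕ => nrm (slc d 0 ((j : ℕ) : ℤ) k)) h2
  have h4 := (ENNReal.tendsto_atTop_zero.mp h3) ε (pos_iff_ne_zero.mpr hε)
  obtain ⟨n0, hn0⟩ := h4
  refine ⟨n0, fun T hT => ?_⟩
  obtain ⟨n, rfl⟩ := Int.eq_ofNat_of_zero_le (show (0 : ℤ) ≤ T by omega)
  have h5 := hn0 n (by exact_mod_cast hT)
  refine (nrm_hi _ k).trans (le_trans (le_of_eq ?_) h5)
  refine tsum_congr (fun j => ?_)
  have h6 : ((n : ℕ) : ℤ) + (j : ℤ) = ((j + n : ℕ) : ℤ) := by push_cast; ring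
  exact congrArg (fun T : ℤ => nrm (slc d 0 T k)) h6

end Pool.Agent.SWQ
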