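import Pool.Agent.SWQ.Smq
import Pool.Agent.SWQ.Tai
import Pool.Agent.SWQ.Dub
import Pool.Agent.SWQ.Lrg
import Pool.Agent.SWQ.Sla
import Pool.Agent.SWQ.Slk

/-!
# SWQ module Rcr: the generating function of the walks with a handle

PROOF.  `smq` for `H` and `H.flip`: `Nw 0 E ≠ ⊤`.  `dub` and `nrm (hi d T k) ≤ Nw d 0 k`-like bounds (`nrm_hi`; `hi d 0 k ≤ k`) give `nn (wt z (DU R 0)) ≠ ⊤` for all `R`, for `d` and `d.flip`, the hypotheses of `slk`.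
`K0` = maximum of the numbers of `lrg H`, `lrg H.flip`, `slk`.  For `K ≥ K0`: `R0` = maximum of the two numbers of `lrg`.  For `R ≥ R0`: `c` as in `dub` (maximum for `d, d.flip`), `T` so large that `lrg` holds for both and
`c * nrm (hi T E) ≤ 1/2` for both (`tai`).  `C` = maximum of the numbers `C0` of `sla` (for both) and `slk`, `T'` from `sla`, `B` from `slk` for `T', R, C`.
Then (for `d`, and in the same way for `d.flip`, using `flip_flip`) every `l` with `Ln (DH K R) n x l` is in `Ln (SH K R T' C) n` (if all `sg x v < T`, `sla`), or `l = l1 ++ l2` with `DU R T x l1`, `Ln (DH d.flip K R) n (endp x l1) l2` (`lrg`).  So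
`a n ≤ B + 1/2 * a' n`, `a' n ≤ B + 1/2 * a n`, `a n = nn (wt z (Ln (DH d K R) n))`, `a' n` for `d.flip` (`wt_le_cmp`, `nn_cmp`, `nn_add`).  `a n, a' n < ⊤` (`nn_swN_ne_top`), so `a n + a' n ≤ 4 B`.
-/

set_option autoImplicit false

open scoped ENNReal NNReal Classical
open Filter Topology

namespace Pool.Agent.SWQ

open SWH

variable {Γ I : Type} [Group Γ] [Fintype I] {G : SimpleGraph (Γ × I)} {d : Dat Γ I} {θ : ℝ}

private theorem rcr_nrm (k : Γ → ℝ≥0∞) (hk : Nw d 0 k ≠ ⊤) : nrm (hi d 0 k) ≠ ⊤ := by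
  refine ne_top_of_le_ne_top hk ((nrm_hi 0 k).trans ?_)
  unfold Nw
  have hinj : Function.Injective (fun j : ℕ => (0 + (j : ℤ))) := by
    intro a b hab
    simpa using hab
  exact ENNReal.tsum_comp_le_tsum_of_injective hinj (fun T : ℤ => nrm (slc d 0 T k))

private theorem rcr_half (c : ℝ≥0∞) (hc : c ≠ ⊤) : ∃ ε : ℝ≥0∞, ε ≠ 0 ∧ c * ε ≤ 2⁻¹ := by
  have h1 : c + 1 ≠ ⊤ := ENNReal.add_ne_top.2 ⟨hc, ENNReal.one_ne_top⟩
  have h2 : c + 1 ≠ 0 := by simp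
  refine ⟨(2 * (c + 1))⁻¹, ENNReal.inv_ne_zero.2 (ENNReal.mul_ne_top ENNReal.ofNat_ne_top h1), ?_⟩
  have h3 : (2 * (c + 1))⁻¹ = 2⁻¹ * (c + 1)⁻¹ :=
    ENNReal.mul_inv (Or.inl two_ne_zero) (Or.inl ENNReal.ofNat_ne_top)
  rw [h3]
  calc c * (2⁻¹ * (c + 1)⁻¹) ≤ (c + 1) * (2⁻¹ * (c + 1)⁻¹) := mul_le_mul_left le_self_add _
    _ = 2⁻¹ * ((c + 1) * (c + 1)⁻¹) := by ring
    _ = 2⁻¹ := by rw [ENNReal.mul_inv_cancel h2 h1, mul_one]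

private theorem rcr_or {V : Type} {P Q Q' : V → List V → Prop} (x : V) (h : ∀ l, P x l → Q x l ∨ Q' x l)
    (z : ℝ≥0∞) (y : V) : wt z P x y ≤ wt z Q x y + wt z Q' x y := by
  unfold wt
  rw [← ENNReal.tsum_add]
  refine ENNReal.tsum_le_tsum fun l => ?_
  by_cases a : P x l ∧ endp x l = y
  · rw [if_pos a]
    rcases h l a.1 with h1 | h1
    · rw [if_pos ⟨h1, a.2⟩]
      exact le_self_add
    · rw [if_pos (show Q' x l ∧ endp x l = y from ⟨h1, a.2⟩)]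
      exact le_add_self
  · rw [if_neg a]
    exact zero_le

private theorem rcr_step (H : Hyq G d θ) (z : ℝ≥0∞) (K R C T' : ℕ) (T : ℤ)
    (hsla : ∀ x l, DH G d K R x l → (∀ v ∈ x :: l, sg d x v < T) → SH G d K R T' C x l)
    (hlrg : ∀ x l, DH G d K R x l → (∃ v ∈ x :: l, T ≤ sg d x v) →
      ∃ l1 l2, l = l1 ++ l2 ∧ DU G d R T x l1 ∧ DH G d.flip K R (endp x l1) l2)
    (hq : nn (wt z (DU G d R T)) ≤ 2⁻¹) (n : ℕ) :
    nn (wt z (Ln (DH G d K R) n)) ≤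
      nn (wt z (Ln (SH G d K R T' C) n)) + 2⁻¹ * nn (wt z (Ln (DH G d.flip K R) n)) := by
  let P2 : Γ × I → List (Γ × I) → Prop := fun x l =>
    Ln (DH G d K R) n x l ∧ ∃ v ∈ x :: l, T ≤ sg d x v
  have hinv : InvK (wt z (Ln (DH G d.flip K R) n)) :=
    InvK_wt (Ln_inv (DH_inv H.flip K R) n) z
  have hpt : ∀ x y, wt z (Ln (DH G d K R) n) x y ≤
      wt z (Ln (SH G d K R T' C) n) x y + cmp (wt z (DU G d R T)) (wt z (Ln (DH G d.flip K R) n)) x y := by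
    intro x y
    refine (rcr_or (Q := Ln (SH G d K R T' C) n) (Q' := P2) x ?_ z y).trans ?_
    · intro l hl
      by_cases hv : ∃ v ∈ x :: l, T ≤ sg d x v
      · exact Or.inr ⟨hl, hv⟩
      · refine Or.inl ⟨hsla x l hl.1 ?_, hl.2⟩
        intro v hv'
        by_contra hcon
        exact hv ⟨v, hv', not_lt.1 hcon⟩
    · refine add_le_add le_rfl (wt_le_cmp x ?_ z y)
      rintro l ⟨⟨hl1, hl2⟩, hl3⟩
      obtain ⟨l1, l2, h1, h2, h3⟩ := hlrg x l hl1 hl3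
      refine ⟨l1, l2, h1, h2, h3, ?_⟩
      rw [h1, List.length_append] at hl2
      omega
  refine (nn_mono hpt).trans ((nn_add _ _).trans (add_le_add le_rfl ((nn_cmp hinv).trans ?_)))
  exact mul_le_mul_left hq _

private theorem rcr_fin (H : Hyq G d θ) (z : ℝ≥0∞) (h1 : z ≤ 1) (K R n : ℕ) :
    nn (wt z (Ln (DH G d K R) n)) ≠ ⊤ := by
  refine ne_top_of_le_ne_top (nn_swN_ne_top H z (ne_top_of_le_ne_top ENNReal.one_ne_top h1) n) (nn_mono fun x y => ?_)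
  exact wt_mono x (fun l hl => ⟨hl.1.1, hl.2⟩) z y

theorem rcr (H : Hyq G d θ) (z : ℝ≥0∞) (h0 : z ≠ 0) (h1 : z ≤ 1) (hz : ∀ z' < z, ∀ x, row (wt z' (Sw G)) x ≠ ⊤) :
    ∃ K0 : ℕ, ∀ K ≥ K0, ∃ R0 : ℕ, ∀ R ≥ R0, ∃ B : ℝ≥0∞, B ≠ ⊤ ∧ ∀ n, nn (wt z (Ln (DH G d K R) n)) ≤ B := by
  have hE := smq H z h0 h1 hz
  have hE' := smq H.flip z h0 h1 hz
  have hd : ∀ R : ℕ, nn (wt z (DU G d R 0)) ≠ ⊤ := by
    intro R
    obtain ⟨c, hc, h2⟩ := dub H z h0 h1 R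
    exact ne_top_of_le_ne_top (ENNReal.mul_ne_top hc (rcr_nrm _ hE)) (h2 0)
  have hd' : ∀ R : ℕ, nn (wt z (DU G d.flip R 0)) ≠ ⊤ := by
    intro R
    obtain ⟨c, hc, h2⟩ := dub H.flip z h0 h1 R
    exact ne_top_of_le_ne_top (ENNReal.mul_ne_top hc (rcr_nrm _ hE')) (h2 0)
  obtain ⟨K1, hK1⟩ := slk H z h1 hd hd'
  obtain ⟨K2, hK2⟩ := lrg H
  obtain ⟨K3, hK3⟩ := lrg H.flip
  refine ⟨max K1 (max K2 K3), fun K hK => ?_⟩
  obtain ⟨C1, hC1⟩ := hK1 K (by omega)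
  obtain ⟨R2, hR2⟩ := hK2 K (by omega)
  obtain ⟨R3, hR3⟩ := hK3 K (by omega)
  refine ⟨max R2 R3, fun R hR => ?_⟩
  obtain ⟨T2, hT2⟩ := hR2 R (by omega)
  obtain ⟨T3, hT3⟩ := hR3 R (by omega)
  obtain ⟨c, hc, hcd⟩ := dub H z h0 h1 R
  obtain ⟨c', hc', hcd'⟩ := dub H.flip z h0 h1 R
  obtain ⟨ε, hε, hε2⟩ := rcr_half c hc
  obtain ⟨ε', hε', hε2'⟩ := rcr_half c' hc'
  obtain ⟨T4, hT4⟩ := tai _ hE ε hε
  obtain ⟨T5, hT5⟩ := tai _ hE' ε' hε'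
  obtain ⟨C2, hC2⟩ := sla H K R
  obtain ⟨C3, hC3⟩ := sla H.flip K R
  obtain ⟨T, ha2, ha3, ha4, ha5⟩ : ∃ T : ℤ, T2 ≤ T ∧ T3 ≤ T ∧ T4 ≤ T ∧ T5 ≤ T :=
    ⟨max (max T2 T3) (max T4 T5), by omega, by omega, by omega, by omega⟩
  obtain ⟨T6, hT6⟩ := hC2 T
  obtain ⟨T7, hT7⟩ := hC3 T
  obtain ⟨C, hb1, hb2, hb3⟩ : ∃ C : ℕ, C1 ≤ C ∧ C2 ≤ C ∧ C3 ≤ C :=
    ⟨max C1 (max C2 C3), by omega, by omega, by omega⟩
  obtain ⟨T', he6, he7⟩ : ∃ T' : ℕ, T6 ≤ T' ∧ T7 ≤ T' := ⟨max T6 T7, by omega, by omega⟩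
  obtain ⟨B, hB, hB2⟩ := hC1 C hb1 T' R
  have s1 : ∀ n, nn (wt z (Ln (DH G d K R) n)) ≤ B + 2⁻¹ * nn (wt z (Ln (DH G d.flip K R) n)) := by
    intro n
    refine (rcr_step H z K R C T' T (hT6 T' he6 C hb2) (hT2 T ha2) ?_ n).trans (add_le_add (hB2 n).1 le_rfl)
    exact (hcd T).trans ((mul_le_mul_right (hT4 T ha4) _).trans hε2)
  have s2 : ∀ n, nn (wt z (Ln (DH G d.flip K R) n)) ≤ B + 2⁻¹ * nn (wt z (Ln (DH G d K R) n)) := by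
    intro n
    have h3 := rcr_step H.flip z K R C T' T (hT7 T' he7 C hb3) (hT3 T ha3)
      ((hcd' T).trans ((mul_le_mul_right (hT5 T ha5) _).trans hε2')) n
    rw [flip_flip] at h3
    exact h3.trans (add_le_add (hB2 n).2 le_rfl)
  refine ⟨4 * B, ENNReal.mul_ne_top ENNReal.ofNat_ne_top hB, fun n => ?_⟩
  have f1 := rcr_fin H z h1 K R n
  have f2 := rcr_fin H.flip z h1 K R n
  have g1 := s1 n
  have g2 := s2 n
  revert f1 f2 g1 g2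
  generalize nn (wt z (Ln (DH G d K R) n)) = a
  generalize nn (wt z (Ln (DH G d.flip K R) n)) = a'
  intro f1 f2 g1 g2
  lift a to ℝ≥0 using f1
  lift a' to ℝ≥0 using f2
  lift B to ℝ≥0 using hB
  have e2 : (2 : ℝ≥0∞)⁻¹ = ((2⁻¹ : ℝ≥0) : ℝ≥0∞) := by
    rw [ENNReal.coe_inv two_ne_zero]; rfl
  rw [e2] at g1 g2
  norm_cast at g1 g2 ⊢
  rw [← NNReal.coe_le_coe] at g1 g2 ⊢
  push_cast at g1 g2 ⊢
  have p1 := a.2
  have p2 := a'.2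
  have p3 := B.2
  linarith

end Pool.Agent.SWQ
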