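import Pool.Agent.SWQ.Stq
import Pool.Agent.SWQ.Eql
import Pool.Agent.SWQ.Nwf
import Pool.Agent.SWQ.Ivq
import Pool.Agent.SWH.Wtk
import Pool.Agent.SWH.Ker

/-!
# SWQ module Skq: strict inequality for the code

PROOF.  Let `L, F` be as in `stq`, `k = blk (wt z (Cd L)) i0 i0`.  For `a ∈ F` the bridge `l a` from `(1, i0)` to `(a, i0)` has `sg = d.s a = L`, so it is in `Cd L` (`eb_cd`) and
`k a ≥ z ^ (l a).length ≥ η = z ^ n0 > 0`, `n0` the maximal length.  Let `k1 a = k a - η` for `a ∈ F`, `k1 = k` otherwise, for the part `s = L`: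
`slc 0 L k = slc 0 L k1 + η 1_F`, so `nrm (slc 0 L k) ≤ ∑' a, slc 0 L k1 a + η nrF F` and `∑' a, slc 0 L k a = ∑' a, slc 0 L k1 a + η card F`; hence
`nrm (slc 0 L k) + η (card F - nrF F) ≤ ∑' a, slc 0 L k a`.  For the other `T`: `nrm_le_tsum`.  Sum over `T` (`tsum_slc`).  `δ = η (card F - nrF F)`.
-/

set_option autoImplicit false

open scoped ENNReal NNReal Classical
open Filter Topology

namespace Pool.Agent.SWQ

open SWH

variable {Γ I : Type} [Group Γ] [Fintype I] {G : SimpleGraph (Γ × I)} {d : Dat Γ I} {θ : ℝ}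

omit [Fintype I] in
private theorem skq_part (k : Γ → ℝ≥0∞) (F : Finset Γ) (L : ℤ) (η : ℝ≥0∞) (hF : ∀ a ∈ F, d.s a = L)
    (hk : ∀ a ∈ F, η ≤ k a) (hn : nrF F < F.card) :
    nrm (slc d 0 L k) + η * ((F.card : ℝ≥0∞) - nrF F) ≤ ∑' a, slc d 0 L k a := by
  set k1 : Γ → ℝ≥0∞ := fun a => if a ∈ F then k a - η else k a with hk1
  set e : Γ → ℝ≥0∞ := fun a => if a ∈ F then 1 else 0 with he
  have h1 : ∀ a, slc d 0 L k a = slc d 0 L k1 a + η * e a := by
    intro a
    by_cases ha : a ∈ F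
    · have h2 : |d.s a - L| ≤ ((0 : ℕ) : ℤ) := by rw [hF a ha]; simp
      unfold slc
      rw [if_pos h2, if_pos h2, hk1, he]
      simp only [if_pos ha, mul_one]
      exact (tsub_add_cancel_of_le (hk a ha)).symm
    · unfold slc
      rw [hk1, he]
      simp only [if_neg ha, mul_zero, add_zero]
  have h2 : nrm (slc d 0 L k) ≤ ∑' a, slc d 0 L k1 a + η * nrF F := by
    calc nrm (slc d 0 L k) = nrm (fun a => slc d 0 L k1 a + η * e a) := by
          congr 1
          funext a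
          exact h1 a
      _ ≤ nrm (slc d 0 L k1) + nrm (fun a => η * e a) := nrm_add _ _
      _ = nrm (slc d 0 L k1) + η * nrF F := by rw [nrm_smul η e]; rfl
      _ ≤ ∑' a, slc d 0 L k1 a + η * nrF F := by
          gcongr
          exact nrm_le_tsum _
  have h3 : ∑' a, slc d 0 L k a = ∑' a, slc d 0 L k1 a + η * (F.card : ℝ≥0∞) := by
    rw [tsum_congr h1, ENNReal.tsum_add, ENNReal.tsum_mul_left]
    congr 2
    have h4 : ∀ a ∉ F, e a = 0 := fun a ha => if_neg ha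
    have h5 : ∀ a ∈ F, e a = 1 := fun a ha => if_pos ha
    rw [tsum_eq_sum h4, Finset.sum_congr rfl h5]
    simp
  calc nrm (slc d 0 L k) + η * ((F.card : ℝ≥0∞) - nrF F)
      ≤ ∑' a, slc d 0 L k1 a + η * nrF F + η * ((F.card : ℝ≥0∞) - nrF F) := by gcongr
    _ = ∑' a, slc d 0 L k1 a + η * (nrF F + ((F.card : ℝ≥0∞) - nrF F)) := by rw [mul_add, add_assoc]
    _ = ∑' a, slc d 0 L k a := by rw [h3, add_tsub_cancel_of_le hn.le]

theorem skq (H : Hyq G d θ) (z : ℝ≥0∞) (h0 : z ≠ 0) (h1 : z ≤ 1) : ∃ (L : ℤ) (δ : ℝ≥0∞), δ ≠ 0 ∧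
    Nw d 0 (blk (wt z (Cd G d L)) d.i0 d.i0) + δ ≤ ∑' a, blk (wt z (Cd G d L)) d.i0 d.i0 a := by
  obtain ⟨L, F, hF, hn⟩ := stq H
  choose! l hl1 hl2 using fun a ha => (hF a ha).2
  set n0 : ℕ := F.sup (fun a => (l a).length) with hn0
  set k : Γ → ℝ≥0∞ := blk (wt z (Cd G d L)) d.i0 d.i0 with hkd
  have hk : ∀ a ∈ F, z ^ n0 ≤ k a := by
    intro a ha
    have h2 : Cd G d L (1, d.i0) (l a) := by
      apply eb_cd H (hl1 a ha)
      rw [hl2 a ha]
      unfold sg
      rw [inv_one, one_mul]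
      exact (hF a ha).1
    have h3 : z ^ (l a).length ≤ k a := le_wt h2 (hl2 a ha) z
    refine le_trans ?_ h3
    exact pow_le_pow_right_of_le_one' h1 (Finset.le_sup (f := fun a => (l a).length) ha)
  have hp := skq_part k F L (z ^ n0) (fun a ha => (hF a ha).1) hk hn
  refine ⟨L, z ^ n0 * ((F.card : ℝ≥0∞) - nrF F), ?_, ?_⟩
  · apply mul_ne_zero (pow_ne_zero _ h0)
    exact (tsub_pos_of_lt hn).ne'
  · set δ : ℝ≥0∞ := z ^ n0 * ((F.card : ℝ≥0∞) - nrF F) with hδ
    have h2 : δ = ∑' T : ℤ, if T = L then δ else 0 := by rw [tsum_ite_eq]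
    calc Nw d 0 k + δ = ∑' T : ℤ, (nrm (slc d 0 T k) + if T = L then δ else 0) := by
          rw [ENNReal.tsum_add, ← h2]
          rfl
      _ ≤ ∑' T : ℤ, ∑' a, slc d 0 T k a := by
          refine ENNReal.tsum_le_tsum fun T => ?_
          by_cases hT : T = L
          · rw [if_pos hT, hT]
            exact hp
          · rw [if_neg hT, add_zero]
            exact nrm_le_tsum _
      _ = ∑' a, k a := by
          rw [ENNReal.tsum_comm]
          exact tsum_congr fun a => tsum_slc k a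

end Pool.Agent.SWQ
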