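import Pool.Agent.SWQ.Brk

/-!
# SWQ module Slb: one step in a slab

PROOF.  Let `z, p` be as in `SH` (`Dh K R x l z p`, `sg v w ≤ T + C` for `w ∈ z :: p`, `v ∈ x :: l`).  For `v ∈ x :: l` let `y v = endp v (r v)`, `m ≤ sg v (y v)`, so `sg (y v) v ≤ - m + 2 D`.  For `w ∈ x :: l`:
`sg (y v) w ≤ sg (y v) v + sg v w + D ≤ - m + 3 D + T ≤ -K`; for `w ∈ z :: p`: `≤ - m + 3 D + T + C ≤ - K`.  So `hy` of `brk` holds for every `v ∈ x :: l`.  Let `q v` be the largest number `≤ (r v).length` with
`last v := pt v (r v) (q v) ∈ z :: (p ++ l)`.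
Case 1: `last v ∉ x :: l` for all `v ∈ x :: l`.  Then `last v ∈ z :: p` for all `v`, and each `w ∈ z :: p` is `last v` for at most `b` vertices `v` (`hb`), so `l.length + 1 ≤ (R + 1) * b` (split the list `x :: l` according to
the value of `last`; `z :: p` has at most `R + 1` elements).
Case 2: let `c ≤ l.length` be maximal such that `last v = pt x l c` for some `v ∈ x :: l`.  `brk` for this `v`: `l1 = l.take c`, `l2 = l.drop c`, `v1 = pt x l c`.  `DU R 0 x l1` (`eb_sg`: the span is `≥ 0`; `(r v).drop q` has length
`≤ ℓ ≤ R`).  `SH d.flip K R T C v1 l2`: `Sw_split`; `|sg d.flip| = |sg d|`; `Dh d.flip` from `brk` (`Dh_mono`); for `w` on the ray of `v` and `v' ∈ v1 :: l2`: `sg d.flip v' w = - sg d v' w`, `sg d v' w ≥ sg d v' v + sg d v w - D ≥ - T - C1 - D ≥ - T - C`.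
`Pot r r' k (M + ..) (v1 :: l2)`: let `v' ∈ v1 :: l2`, and `w = last v'`.  Either `v' = v1` (one vertex); or `w ∈ z :: p` (at most `(R + 1) * b` vertices `v'`); or `w = v1` (at most `b`); or else `w ∈ x :: l`, `w = pt x l c'` with
`c' < c` (maximality of `c`), so `w ∉ v1 :: l2`, and `w` is counted in `cnt r (x :: l) v'` but not in `cnt r (v1 :: l2) v'`: `cnt r (v1 :: l2) v' + 1 ≤ cnt r (x :: l) v'`, `cnt r' (v1 :: l2) v' ≤ cnt r' (x :: l) v'`; so if
`k < cnt r (v1 :: l2) v' + cnt r' (v1 :: l2) v'` then `k + 1 < cnt r (x :: l) v' + cnt r' (x :: l) v'`, and there are at most `M` such `v'`.  Total `M + 1 + (R + 1) b + b`.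
-/

set_option autoImplicit false

open scoped ENNReal NNReal Classical
open Filter Topology

namespace Pool.Agent.SWQ

open SWH

variable {Γ I : Type} [Group Γ] [Fintype I] {G : SimpleGraph (Γ × I)} {d : Dat Γ I} {θ : ℝ}

private theorem slb_filt_le {α : Type} (A : List α) (p q : α → Bool) (h : ∀ a ∈ A, p a = true → q a = true) :
    (A.filter p).length ≤ (A.filter q).length := by
  induction A with
  | nil => simp
  | cons a A ih =>
    have ih' := ih (fun b hb => h b (List.mem_cons_of_mem _ hb))
    by_cases h1 : p a = true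
    · have h2 := h a List.mem_cons_self h1
      rw [List.filter_cons_of_pos h1, List.filter_cons_of_pos h2]
      simpa using ih'
    · rw [List.filter_cons_of_neg h1]
      by_cases h2 : q a = true
      · rw [List.filter_cons_of_pos h2, List.length_cons]
        omega
      · rw [List.filter_cons_of_neg h2]
        exact ih'

private theorem slb_filt_lt {α : Type} (A : List α) (p q : α → Bool) (h : ∀ a ∈ A, p a = true → q a = true)
    (a0 : α) (ha0 : a0 ∈ A) (h1 : q a0 = true) (h2 : ¬ p a0 = true) :
    (A.filter p).length + 1 ≤ (A.filter q).length := by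
  induction A with
  | nil => simp at ha0
  | cons a A ih =>
    have hA : ∀ b ∈ A, p b = true → q b = true := fun b hb => h b (List.mem_cons_of_mem _ hb)
    rcases List.mem_cons.mp ha0 with rfl | h3
    · rw [List.filter_cons_of_neg h2, List.filter_cons_of_pos h1, List.length_cons]
      have := slb_filt_le A p q hA
      omega
    · have ih' := ih hA h3
      by_cases h4 : p a = true
      · have h5 := h a List.mem_cons_self h4
        rw [List.filter_cons_of_pos h4, List.filter_cons_of_pos h5, List.length_cons, List.length_cons]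
        omega
      · rw [List.filter_cons_of_neg h4]
        by_cases h5 : q a = true
        · rw [List.filter_cons_of_pos h5, List.length_cons]
          omega
        · rw [List.filter_cons_of_neg h5]
          exact ih'

private theorem slb_cnt_le {V : Type} (r : V → List V) (L1 L2 : List V) (v : V) (h : ∀ w ∈ L1, w ∈ L2) :
    cnt r L1 v ≤ cnt r L2 v := by
  unfold cnt
  apply slb_filt_le
  intro a _ h1
  simp only [decide_eq_true_eq] at h1 ⊢
  exact h a h1

private theorem slb_cnt_lt {V : Type} (r : V → List V) (L1 L2 : List V) (v : V) (h : ∀ w ∈ L1, w ∈ L2) (w : V)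
    (hw : w ∈ v :: r v) (h1 : w ∈ L2) (h2 : w ∉ L1) : cnt r L1 v + 1 ≤ cnt r L2 v := by
  unfold cnt
  apply slb_filt_lt _ _ _ _ w hw
  · simp only [decide_eq_true_eq]
    exact h1
  · simp only [decide_eq_true_eq]
    exact h2
  · intro a _ h1
    simp only [decide_eq_true_eq] at h1 ⊢
    exact h a h1

private theorem slb_mult {r : Γ × I → List (Γ × I)} {b : ℕ}
    (hb : ∀ (w : Γ × I) (L : List (Γ × I)), L.Nodup → (∀ v ∈ L, w ∈ v :: r v) → L.length ≤ b)
    (f : Γ × I → Γ × I) (s t : Finset (Γ × I)) (hf : ∀ v ∈ s, f v ∈ v :: r v) (hst : ∀ v ∈ s, f v ∈ t) :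
    s.card ≤ b * t.card := by
  apply Finset.card_le_mul_card_image_of_maps_to hst
  intro w _
  have h1 := hb w (s.filter (fun v => f v = w)).toList (Finset.nodup_toList _) (by
    intro v hv
    rw [Finset.mem_toList, Finset.mem_filter] at hv
    rw [← hv.2]
    exact hf v hv.1)
  rwa [Finset.length_toList] at h1

theorem slb (H : Hyq G d θ) {K R T C C1 m ℓ : ℕ} (hK : d.κ + C1 + d.D + d.n1 + d.c0 + 1 ≤ K) (hC : C1 + d.D ≤ C)
    (hm : T + C + 3 * d.D + K ≤ m) (hR : ℓ ≤ R) (r r' : Γ × I → List (Γ × I))
    (hr : ∀ v, Ray G d C1 m ℓ v (r v)) {b : ℕ}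
    (hb : ∀ (w : Γ × I) (L : List (Γ × I)), L.Nodup → (∀ v ∈ L, w ∈ v :: r v) → L.length ≤ b)
    (k M : ℕ) (x : Γ × I) (l : List (Γ × I)) (h : SH G d K R T C x l) (hp : Pot r r' (k + 1) M (x :: l)) :
    l.length ≤ (R + 1) * b ∨ ∃ l1 l2, l = l1 ++ l2 ∧ DU G d R 0 x l1 ∧
      SH G d.flip K R T C (endp x l1) l2 ∧ Pot r r' k (M + (R + 2) * b + 1) (endp x l1 :: l2) := by
  obtain ⟨hsw, hslab, z, p, hD, hhigh⟩ := h
  have hD' := hD
  obtain ⟨hend, hpR, hpN, hHw, hKz⟩ := hD'
  -- the set S
  have hxS : ∀ w ∈ x :: l, w ∈ z :: (p ++ l) := by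
    intro w hw
    rcases List.mem_cons.mp hw with rfl | h1
    · rw [← hend]
      have := endp_mem z p
      rcases List.mem_cons.mp this with h2 | h2
      · rw [h2]; exact List.mem_cons_self
      · exact List.mem_cons_of_mem _ (List.mem_append_left _ h2)
    · exact List.mem_cons_of_mem _ (List.mem_append_right _ h1)
  have hSx : ∀ w ∈ z :: (p ++ l), w ∈ z :: p ∨ w ∈ x :: l := by
    intro w hw
    rcases List.mem_cons.mp hw with rfl | h1
    · left; exact List.mem_cons_self
    · rcases List.mem_append.mp h1 with h2 | h2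
      · left; exact List.mem_cons_of_mem _ h2
      · right; exact List.mem_cons_of_mem _ h2
  -- heights seen from the ends of the rays
  have hy : ∀ v ∈ x :: l, ∀ w ∈ z :: (p ++ l), sg d (endp v (r v)) w ≤ -(K : ℤ) := by
    intro v hv w hw
    have h1 := (hr v).2.2.2.2.2.2.2
    have h2 := sg_symm H v (endp v (r v))
    have h3 := sg_tri H (endp v (r v)) v w
    have h4 : sg d v w ≤ (T : ℤ) + C := by
      rcases hSx w hw with h5 | h5
      · exact hhigh w h5 v hv
      · have h6 := hslab v hv w h5
        rw [abs_le] at h6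
        omega
    rw [abs_le] at h2 h3
    have hm' : (T : ℤ) + C + 3 * d.D + K ≤ m := by exact_mod_cast hm
    omega
  -- the last vertex of the ray in S
  set q : Γ × I → ℕ := fun v => Nat.findGreatest (fun q => pt v (r v) q ∈ z :: (p ++ l)) (r v).length with hq
  set last : Γ × I → Γ × I := fun v => pt v (r v) (q v) with hlast
  have hqle : ∀ v, q v ≤ (r v).length := fun v => Nat.findGreatest_le _
  have hlastS : ∀ v ∈ x :: l, last v ∈ z :: (p ++ l) := by
    intro v hv
    have h0 : pt v (r v) 0 ∈ z :: (p ++ l) := by
      rw [pt_zero]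
      exact hxS v hv
    exact Nat.findGreatest_spec (P := fun q => pt v (r v) q ∈ z :: (p ++ l)) (Nat.zero_le _) h0
  have hlastR : ∀ v, last v ∈ v :: r v := fun v => pt_mem v (r v) (q v)
  have hgt : ∀ v j, q v < j → j ≤ (r v).length → pt v (r v) j ∉ z :: (p ++ l) := by
    intro v j h1 h2
    exact Nat.findGreatest_is_greatest h1 h2
  have hnd : (x :: l).Nodup := hsw.2
  have hcardp : (z :: p).toFinset.card ≤ R + 1 := by
    refine (List.toFinset_card_le _).trans ?_
    rw [List.length_cons]
    omega
  by_cases hcase : ∀ v ∈ x :: l, last v ∉ x :: l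
  · left
    have h1 := slb_mult hb last (x :: l).toFinset (z :: p).toFinset (fun v _ => hlastR v) (by
      intro v hv
      rw [List.mem_toFinset] at hv ⊢
      rcases hSx _ (hlastS v hv) with h2 | h2
      · exact h2
      · exact absurd h2 (hcase v hv))
    rw [List.toFinset_card_of_nodup hnd, List.length_cons] at h1
    have h2 : b * (z :: p).toFinset.card ≤ b * (R + 1) := Nat.mul_le_mul_left _ hcardp
    have h3 : b * (R + 1) = (R + 1) * b := Nat.mul_comm _ _
    omega
  · right
    push Not at hcase
    obtain ⟨v0, hv0, hv0l⟩ := hcase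
    obtain ⟨c0, hc0, hc0l⟩ := mem_pt hv0l
    set P : ℕ → Prop := fun c => ∃ v ∈ x :: l, last v = pt x l c with hP
    set c : ℕ := Nat.findGreatest P l.length with hc
    have hPc : P c := Nat.findGreatest_spec (P := P) hc0 ⟨v0, hv0, hc0l.symm⟩
    have hcl : c ≤ l.length := Nat.findGreatest_le _
    obtain ⟨v, hv, hvc⟩ := hPc
    obtain ⟨hE, hDf⟩ := brk H hK hsw hD hv (hr v) (hy v hv) hcl (hqle v) hvc (hgt v)
    have hsub : ∀ w ∈ pt x l c :: l.drop c, w ∈ x :: l := by
      intro w hw
      rcases List.mem_cons.mp hw with rfl | h1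
      · exact pt_mem x l c
      · exact List.mem_cons_of_mem _ (List.mem_of_mem_drop h1)
    refine ⟨l.take c, l.drop c, (List.take_append_drop c l).symm, ?_, ?_, ?_⟩
    · refine ⟨z, p, (r v).drop (q v), hend, hpR, ?_, hE, ?_⟩
      · have h1 := (hr v).2.2.2.1
        rw [List.length_drop]
        omega
      · have h1 := eb_sg H hE
        have h2 : (0 : ℤ) ≤ (d.κ : ℤ) + d.n1 := by positivity
        exact h2.trans h1
    · rw [endp_take]
      have hsw2 : Sw G (pt x l c) (l.drop c) := by
        have h1 : Sw G x (l.take c ++ l.drop c) := by rw [List.take_append_drop]; exact hsw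
        exact (Sw_split h1).2
      refine ⟨hsw2, ?_, endp v (r v), rv (pt v (r v) (q v)) ((r v).drop (q v)), Dh_mono hR hDf, ?_⟩
      · intro a ha a' ha'
        rw [sg_flip, abs_neg]
        exact hslab a (hsub a ha) a' (hsub a' ha')
      · intro w hw v' hv'
        have h1 : w ∈ v :: r v := by
          have h2 : endp (pt v (r v) (q v)) ((r v).drop (q v)) = endp v (r v) := endp_drop v (r v) (hqle v)
          rw [← h2, mem_rv] at hw
          rcases List.mem_cons.mp hw with rfl | h3
          · exact pt_mem _ _ _
          · exact List.mem_cons_of_mem _ (List.mem_of_mem_drop h3)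
        have h2 := (hr v).2.2.2.2.2.1 w h1
        have h3 := hslab v' (hsub v' hv') v hv
        have h4 := sg_tri H v' v w
        rw [sg_flip]
        rw [abs_le] at h3 h4
        have hC' : (C1 : ℤ) + d.D ≤ C := by exact_mod_cast hC
        omega
    · rw [endp_take]
      set L1 := pt x l c :: l.drop c with hL1
      have hndL : L1.Nodup := by
        have h1 : Sw G x (l.take c ++ l.drop c) := by rw [List.take_append_drop]; exact hsw
        exact (Sw_split h1).2.2
      unfold Pot at hp ⊢
      -- the finset version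
      have e1 : (L1.filter (fun v => k < cnt r L1 v + cnt r' L1 v)).length =
          (L1.filter (fun v => k < cnt r L1 v + cnt r' L1 v)).toFinset.card :=
        (List.toFinset_card_of_nodup (hndL.filter _)).symm
      have e2 : ((x :: l).filter (fun v => k + 1 < cnt r (x :: l) v + cnt r' (x :: l) v)).toFinset.card ≤ M := by
        rw [List.toFinset_card_of_nodup (hnd.filter _)]
        exact hp
      rw [e1]
      set A1 := L1.toFinset.filter (fun v => last v ∈ (z :: p).toFinset) with hA1
      set A2 := L1.toFinset.filter (fun v => last v = pt x l c) with hA2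
      have hA1c : A1.card ≤ b * (R + 1) := by
        refine (slb_mult hb last A1 (z :: p).toFinset (fun v _ => hlastR v) ?_).trans (Nat.mul_le_mul_left _ hcardp)
        intro v hv
        exact (Finset.mem_filter.mp hv).2
      have hA2c : A2.card ≤ b := by
        have h1 := slb_mult hb last A2 {pt x l c} (fun v _ => hlastR v) (by
          intro v hv
          rw [Finset.mem_singleton]
          exact (Finset.mem_filter.mp hv).2)
        rw [Finset.card_singleton, Nat.mul_one] at h1
        exact h1
      have hcov : (L1.filter (fun v => k < cnt r L1 v + cnt r' L1 v)).toFinset ⊆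
          A1 ∪ A2 ∪ ((x :: l).filter (fun v => k + 1 < cnt r (x :: l) v + cnt r' (x :: l) v)).toFinset := by
        intro v' hv'
        rw [List.mem_toFinset, List.mem_filter] at hv'
        obtain ⟨hv1, hv2⟩ := hv'
        have hv3 : k < cnt r L1 v' + cnt r' L1 v' := by simpa using hv2
        have hvx : v' ∈ x :: l := hsub v' hv1
        rw [Finset.mem_union, Finset.mem_union]
        by_cases g1 : last v' ∈ z :: p
        · left; left
          rw [hA1, Finset.mem_filter, List.mem_toFinset, List.mem_toFinset]
          exact ⟨hv1, g1⟩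
        by_cases g2 : last v' = pt x l c
        · left; right
          rw [hA2, Finset.mem_filter, List.mem_toFinset]
          exact ⟨hv1, g2⟩
        right
        rw [List.mem_toFinset, List.mem_filter]
        refine ⟨hvx, ?_⟩
        have g3 : last v' ∈ x :: l := by
          rcases hSx _ (hlastS v' hvx) with g4 | g4
          · exact absurd g4 g1
          · exact g4
        obtain ⟨c', hc', hcc'⟩ := mem_pt g3
        have g5 : c' ≤ c := by
          by_contra g6
          push Not at g6
          exact Nat.findGreatest_is_greatest (P := P) g6 hc' ⟨v', hvx, hcc'.symm⟩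
        have g7 : c' < c := by
          rcases Nat.lt_or_ge c' c with g8 | g8
          · exact g8
          · exfalso
            have : c' = c := le_antisymm g5 g8
            rw [this] at hcc'
            exact g2 hcc'.symm
        have g8 : last v' ∉ L1 := by
          intro g9
          rw [hL1] at g9
          obtain ⟨j, hj, hj2⟩ := mem_pt g9
          rw [pt_drop x l hcl] at hj2
          rw [← hcc'] at hj2
          rw [List.length_drop] at hj
          have := pt_inj hnd (by omega : c + j ≤ l.length) hc' hj2
          omega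
        have g9 := slb_cnt_lt r L1 (x :: l) v' hsub (last v') (hlastR v') g3 g8
        have g10 := slb_cnt_le r' L1 (x :: l) v' hsub
        simp only [decide_eq_true_eq]
        omega
      have h1 := Finset.card_le_card hcov
      have h2 := Finset.card_union_le (A1 ∪ A2)
        ((x :: l).filter (fun v => k + 1 < cnt r (x :: l) v + cnt r' (x :: l) v)).toFinset
      have h3 := Finset.card_union_le A1 A2
      have h4 : b * (R + 1) + b = (R + 2) * b := by ring
      omega

theorem Pot_comm {V : Type} (r r' : V → List V) (k M : ℕ) (L : List V) : Pot r r' k M L ↔ Pot r' r k M L := by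
  unfold Pot
  have : (fun v => decide (k < cnt r L v + cnt r' L v)) = (fun v => decide (k < cnt r' L v + cnt r L v)) := by
    funext v
    rw [Nat.add_comm]
  rw [this]

end Pool.Agent.SWQ
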