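import Pool.Agent.SWQ.Nwf
import Pool.Agent.SWH.Wtk

/-!
# SWQ module Sup: monotone limits

PROOF.  `nrm_sup`: for finite `A, B` and `u, v` the double sum for `⨆ n, k n` is the supremum of the double sums for `k n` (`ENNReal.finsetSum_iSup_of_monotone`,
`ENNReal.mul_iSup`, `ENNReal.iSup_mul`).  `Nw_sup`: for a finite set of `T`s `∑ nrm (slc w T (⨆ k n)) = ∑ ⨆ nrm (slc w T (k n)) = ⨆ ∑ ..  ≤ C`
(monotone), then `ENNReal.tsum_eq_iSup_sum`.  `wt_sup`: `∑' l, ...` is the supremum over finite sets of lists; a finite set of lists has bounded lengths.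
-/

set_option autoImplicit false

open scoped ENNReal NNReal Classical
open Filter Topology

namespace Pool.Agent.SWQ

open SWH

theorem nrm_sup {Γ : Type} [Group Γ] (k : ℕ → Γ → ℝ≥0∞) (hm : ∀ a, Monotone (fun n => k n a)) :
    nrm (fun a => ⨆ n, k n a) = ⨆ n, nrm (k n) := by
  refine le_antisymm ?_ (iSup_le fun n => nrm_mono fun g => le_iSup (fun n => k n g) n)
  refine iSup_le fun A => iSup_le fun B => iSup_le fun u => iSup_le fun v => iSup_le fun hu =>
    iSup_le fun hv => ?_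
  have h1 : (∑ a ∈ A, ∑ b ∈ B, (u a : ℝ≥0∞) * (⨆ n, k n (a⁻¹ * b)) * (v b : ℝ≥0∞)) =
      ⨆ n, ∑ a ∈ A, ∑ b ∈ B, (u a : ℝ≥0∞) * k n (a⁻¹ * b) * (v b : ℝ≥0∞) := by
    have h2 : ∀ a b : Γ, Monotone (fun n => (u a : ℝ≥0∞) * k n (a⁻¹ * b) * (v b : ℝ≥0∞)) := by
      intro a b m n hmn
      exact mul_le_mul_left (mul_le_mul_right (hm (a⁻¹ * b) hmn) _) _
    have h3 : ∀ a : Γ, Monotone (fun n => ∑ b ∈ B, (u a : ℝ≥0∞) * k n (a⁻¹ * b) * (v b : ℝ≥0∞)) := by
      intro a m n hmn
      exact Finset.sum_le_sum fun b _ => h2 a b hmn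
    rw [← ENNReal.finsetSum_iSup_of_monotone h3]
    refine Finset.sum_congr rfl fun a _ => ?_
    rw [← ENNReal.finsetSum_iSup_of_monotone (h2 a)]
    refine Finset.sum_congr rfl fun b _ => ?_
    rw [ENNReal.mul_iSup, ENNReal.iSup_mul]
  rw [h1]
  refine iSup_mono fun n => ?_
  unfold nrm
  exact le_iSup_of_le A (le_iSup_of_le B (le_iSup_of_le u (le_iSup_of_le v (le_iSup_of_le hu
    (le_iSup_of_le hv le_rfl)))))

theorem Nw_sup {Γ I : Type} [Group Γ] {d : Dat Γ I} (w : ℕ) (k : ℕ → Γ → ℝ≥0∞) (hm : ∀ a, Monotone (fun n => k n a))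
    (C : ℝ≥0∞) (hC : ∀ n, Nw d w (k n) ≤ C) : Nw d w (fun a => ⨆ n, k n a) ≤ C := by
  have hm' : ∀ (T : ℤ) (a : Γ), Monotone (fun n => slc d w T (k n) a) := by
    intro T a m n hmn
    change slc d w T (k m) a ≤ slc d w T (k n) a
    unfold slc
    split_ifs
    · exact hm a hmn
    · exact le_rfl
  have h1 : ∀ T : ℤ, nrm (slc d w T (fun a => ⨆ n, k n a)) = ⨆ n, nrm (slc d w T (k n)) := by
    intro T
    rw [← nrm_sup (fun n => slc d w T (k n)) (hm' T)]
    congr 1
    funext a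
    unfold slc
    split_ifs
    · rfl
    · simp
  unfold Nw
  simp only [h1]
  rw [ENNReal.tsum_eq_iSup_sum]
  refine iSup_le fun s => ?_
  rw [ENNReal.finsetSum_iSup_of_monotone]
  · refine iSup_le fun n => ?_
    exact (ENNReal.sum_le_tsum s).trans (hC n)
  · intro T m n hmn
    exact nrm_mono fun a => hm' T a hmn

theorem wt_Ln_mono {V : Type} (z : ℝ≥0∞) (P : V → List V → Prop) (x y : V) : Monotone (fun n => wt z (Ln P n) x y) := by
  intro m n hmn
  exact wt_mono x (fun l hl => ⟨hl.1, hl.2.trans hmn⟩) z y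

theorem wt_sup {V : Type} (z : ℝ≥0∞) (P : V → List V → Prop) (x y : V) :
    wt z P x y = ⨆ n, wt z (Ln P n) x y := by
  refine le_antisymm ?_ (iSup_le fun n => wt_mono x (fun l hl => hl.1) z y)
  have h0 : ∀ l : List V, (if P x l ∧ endp x l = y then z ^ l.length else 0) ≤
      ⨆ n, (if Ln P n x l ∧ endp x l = y then z ^ l.length else 0) := by
    intro l
    refine le_trans ?_ (le_iSup (fun n => if Ln P n x l ∧ endp x l = y then z ^ l.length else 0) l.length)
    by_cases h : P x l ∧ endp x l = y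
    · have h' : Ln P l.length x l ∧ endp x l = y := ⟨⟨h.1, le_rfl⟩, h.2⟩
      change _ ≤ (if Ln P l.length x l ∧ endp x l = y then z ^ l.length else 0)
      rw [if_pos h, if_pos h']
    · rw [if_neg h]
      exact zero_le
  have h1 : ∀ l : List V, Monotone (fun n => if Ln P n x l ∧ endp x l = y then z ^ l.length else 0) := by
    intro l m n hmn
    by_cases h : Ln P m x l ∧ endp x l = y
    · have h' : Ln P n x l ∧ endp x l = y := ⟨⟨h.1.1, h.1.2.trans hmn⟩, h.2⟩
      change (if Ln P m x l ∧ endp x l = y then z ^ l.length else 0) ≤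
        (if Ln P n x l ∧ endp x l = y then z ^ l.length else 0)
      rw [if_pos h, if_pos h']
    · change (if Ln P m x l ∧ endp x l = y then z ^ l.length else 0) ≤ _
      rw [if_neg h]
      exact zero_le
  unfold wt
  rw [ENNReal.tsum_eq_iSup_sum]
  refine iSup_le fun s => ?_
  refine (Finset.sum_le_sum fun l _ => h0 l).trans ?_
  rw [ENNReal.finsetSum_iSup_of_monotone h1]
  exact iSup_mono fun n => ENNReal.sum_le_tsum s

end Pool.Agent.SWQ
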