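import Pool.Agent.SWQ.Skq
import Pool.Agent.SWQ.Msq
import Pool.Agent.SWQ.Dec
import Pool.Agent.SWQ.Sup
import Pool.Agent.SWQ.Itr
import Pool.Agent.SWQ.Fnq
import Pool.Agent.SWQ.Eql

/-!
# SWQ module Smq: the norms of the bridges are summable

PROOF.  Let `L, δ` be as in `skq`, `C = blk (wt z (Cd L)) i0 i0`, `E n = blk (wt z (Ln Eb n)) i0 i0`, `S = blk (wt z Sh) i0 i0`; `∑' a, C a ≤ 1` (`msq`), so `ρ + δ ≤ 1` with
`ρ = Nw 0 C`.  Let `E' n a = E n a` if `s a < L`, else `0`.
(1) `E n a ≤ E' n a + cnv C (fun c => E n c + S c) a`: if `s a ≥ L` then every `l` with `Ln Eb n (1, i0) l`, `endp = (a, i0)` is `l1 ++ l2` with `Cd L (1, i0) l1` and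
`(Ln Eb n or Sh) (endp (1, i0) l1) l2` (`eb_dec`); `wt_le_cmp`; in the sum over the middle vertex only those of type `i0` count (end of a bridge), use the invariance (`InvK_wt`).
(2) `∑' a, E' n a ≤ L.toNat`: the values `T = s a` with `E n a ≠ 0` satisfy `0 ≤ T` (`eb_sg`), and for each `T` `∑' a, 1[s a = T] E n a ≤ ∑' a, blk (wt z (Cd T)) i0 i0 a ≤ 1`
(`eb_cd`, `msq`).  (3) `∑' a, S a < ⊤`: `row_swN_ne_top` (`Sh` is a subclass of `Ln Sw (2 N)`).
(4) `F w = Nw w (E n)`: `Nw_add`, `Nw_cnv`, `Nw_mass`, `Nw_le` give the hypotheses of `itr` with `a = L.toNat`, `b = ∑' S`; `F 0 ≤ ∑' E n < ⊤`.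
So `Nw 0 (E n) ≤ C'` for all `n` and `Nw_sup`, `wt_sup` give the claim.
-/

set_option autoImplicit false

open scoped ENNReal NNReal Classical
open Filter Topology

namespace Pool.Agent.SWQ

open SWH

variable {Γ I : Type} [Group Γ] [Fintype I] {G : SimpleGraph (Γ × I)} {d : Dat Γ I} {θ : ℝ}

omit [Fintype I] in
private theorem smq_sum_le_row (K : Ker (Γ × I)) (i j : I) : ∑' a, blk K i j a ≤ row K (1, i) := by
  unfold row blk
  exact ENNReal.tsum_comp_le_tsum_of_injective (f := fun a : Γ => ((a, j) : Γ × I))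
    (fun a b hab => (Prod.ext_iff.1 hab).1) (fun y => K (1, i) y)


omit [Fintype I] in
private theorem smq_or {V : Type} (z : ℝ≥0∞) (P Q : V → List V → Prop) (x y : V) :
    wt z (fun x l => P x l ∨ Q x l) x y ≤ wt z P x y + wt z Q x y := by
  unfold wt
  rw [← ENNReal.tsum_add]
  refine ENNReal.tsum_le_tsum fun l => ?_
  by_cases a : P x l ∧ endp x l = y
  · rw [if_pos a, if_pos ⟨Or.inl a.1, a.2⟩]
    exact le_self_add
  · by_cases b : Q x l ∧ endp x l = y
    · rw [if_pos b, if_pos ⟨Or.inr b.1, b.2⟩]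
      exact le_add_self
    · rw [if_neg (by rintro ⟨h1 | h1, h2⟩; exacts [a ⟨h1, h2⟩, b ⟨h1, h2⟩])]
      exact zero_le

private theorem smq_one (H : Hyq G d θ) (z : ℝ≥0∞) (L : ℤ) (n : ℕ) (a : Γ) :
    blk (wt z (Ln (Eb G d) n)) d.i0 d.i0 a ≤
      (if d.s a < L then blk (wt z (Ln (Eb G d) n)) d.i0 d.i0 a else 0) +
      cnv (blk (wt z (Cd G d L)) d.i0 d.i0)
        (fun c => blk (wt z (Ln (Eb G d) n)) d.i0 d.i0 c + blk (wt z (Sh G d)) d.i0 d.i0 c) a := by
  by_cases ha : d.s a < L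
  · rw [if_pos ha]
    exact le_self_add
  · rw [if_neg ha, zero_add]
    push Not at ha
    set R : Γ × I → List (Γ × I) → Prop := fun x l => Ln (Eb G d) n x l ∨ Sh G d x l with hR
    have hRi : InvK (wt z R) := by
      refine InvK_wt (fun γ x l => ?_) z
      rw [hR]
      simp only
      rw [Ln_inv (Eb_inv H) n, Sh_inv H]
    have h1 : wt z (Ln (Eb G d) n) (1, d.i0) (a, d.i0) ≤
        wt z (fun x l => Ln (Eb G d) n x l ∧ L ≤ sg d x (endp x l)) (1, d.i0) (a, d.i0) := by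
      unfold wt
      refine ENNReal.tsum_le_tsum fun l => ?_
      by_cases b : Ln (Eb G d) n (1, d.i0) l ∧ endp (1, d.i0) l = (a, d.i0)
      · have h2 : L ≤ sg d (1, d.i0) (endp (1, d.i0) l) := by
          rw [b.2]
          unfold sg
          rw [inv_one, one_mul]
          exact ha
        rw [if_pos b, if_pos ⟨⟨b.1, h2⟩, b.2⟩]
      · rw [if_neg b]
        exact zero_le
    have h2 : wt z (fun x l => Ln (Eb G d) n x l ∧ L ≤ sg d x (endp x l)) (1, d.i0) (a, d.i0) ≤
        cmp (wt z (Cd G d L)) (wt z R) (1, d.i0) (a, d.i0) := by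
      refine wt_le_cmp (1, d.i0) (fun l hl => ?_) z (a, d.i0)
      obtain ⟨l1, l2, h3, h4, h5⟩ := eb_dec H hl.1.1 hl.2
      refine ⟨l1, l2, h3, h4, ?_⟩
      rcases h5 with h5 | h5
      · left
        refine ⟨h5, ?_⟩
        have h6 := hl.1.2
        rw [h3, List.length_append] at h6
        omega
      · exact Or.inr h5
    have h3 : cmp (wt z (Cd G d L)) (wt z R) (1, d.i0) (a, d.i0) =
        cnv (blk (wt z (Cd G d L)) d.i0 d.i0) (blk (wt z R) d.i0 d.i0) a := by
      have h4 := blk_cmp (K := wt z (Cd G d L)) hRi d.i0 d.i0 a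
      have h5 : blk (cmp (wt z (Cd G d L)) (wt z R)) d.i0 d.i0 a =
        cmp (wt z (Cd G d L)) (wt z R) (1, d.i0) (a, d.i0) := rfl
      rw [← h5, h4, Finset.sum_eq_single d.i0]
      · intro i _ hi
        have h6 : ∀ c, blk (wt z (Cd G d L)) d.i0 i c = 0 := by
          intro c
          unfold blk wt
          rw [ENNReal.tsum_eq_zero]
          intro l
          apply if_neg
          rintro ⟨h7, h8⟩
          have h9 := h7.1.2.1
          rw [h8] at h9
          exact hi h9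
        unfold cnv
        simp only [h6, zero_mul, tsum_zero]
      · intro h6
        exact absurd (Finset.mem_univ _) h6
    have h4 : cnv (blk (wt z (Cd G d L)) d.i0 d.i0) (blk (wt z R) d.i0 d.i0) a ≤
        cnv (blk (wt z (Cd G d L)) d.i0 d.i0)
        (fun c => blk (wt z (Ln (Eb G d) n)) d.i0 d.i0 c + blk (wt z (Sh G d)) d.i0 d.i0 c) a := by
      unfold cnv
      refine ENNReal.tsum_le_tsum fun c => mul_le_mul' le_rfl ?_
      exact smq_or z (Ln (Eb G d) n) (Sh G d) _ _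
    exact (h1.trans h2).trans (h3.le.trans h4)

private theorem smq_two (H : Hyq G d θ) (z : ℝ≥0∞) (h0 : z ≠ 0) 
    (hz : ∀ z' < z, ∀ x, row (wt z' (Sw G)) x ≠ ⊤) (L : ℤ) (n : ℕ) :
    ∑' a, (if d.s a < L then blk (wt z (Ln (Eb G d) n)) d.i0 d.i0 a else 0) ≤ (L.toNat : ℝ≥0∞) := by
  have h1 : ∀ a, (if d.s a < L then blk (wt z (Ln (Eb G d) n)) d.i0 d.i0 a else 0) ≤
      ∑ T ∈ Finset.range L.toNat, (if d.s a = (T : ℤ) then blk (wt z (Ln (Eb G d) n)) d.i0 d.i0 a else 0) := by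
    intro a
    by_cases ha : d.s a < L
    · rw [if_pos ha]
      by_cases h2 : 0 ≤ d.s a
      · have h3 : (d.s a).toNat ∈ Finset.range L.toNat := by
          rw [Finset.mem_range]
          omega
        have h4 := Finset.single_le_sum (f := fun T : ℕ => if d.s a = (T : ℤ) then
          blk (wt z (Ln (Eb G d) n)) d.i0 d.i0 a else 0) (fun _ _ => zero_le) h3
        have h5 : d.s a = ((d.s a).toNat : ℤ) := (Int.toNat_of_nonneg h2).symm
        have h6 : (if d.s a = ((d.s a).toNat : ℤ) then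
          blk (wt z (Ln (Eb G d) n)) d.i0 d.i0 a else 0) = blk (wt z (Ln (Eb G d) n)) d.i0 d.i0 a := if_pos h5
        exact h6.ge.trans h4
      · have h3 : blk (wt z (Ln (Eb G d) n)) d.i0 d.i0 a = 0 := by
          unfold blk wt
          rw [ENNReal.tsum_eq_zero]
          intro l
          apply if_neg
          rintro ⟨h7, h8⟩
          have h9 := eb_sg H h7.1
          rw [h8] at h9
          unfold sg at h9
          rw [inv_one, one_mul] at h9
          change (d.κ : ℤ) + d.n1 ≤ d.s a at h9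
          omega
        rw [h3]
        exact zero_le
    · rw [if_neg ha]
      exact zero_le
  calc ∑' a, (if d.s a < L then blk (wt z (Ln (Eb G d) n)) d.i0 d.i0 a else 0)
      ≤ ∑' a, ∑ T ∈ Finset.range L.toNat,
        (if d.s a = (T : ℤ) then blk (wt z (Ln (Eb G d) n)) d.i0 d.i0 a else 0) := ENNReal.tsum_le_tsum h1
    _ = ∑ T ∈ Finset.range L.toNat, ∑' a,
        (if d.s a = (T : ℤ) then blk (wt z (Ln (Eb G d) n)) d.i0 d.i0 a else 0) :=
        Summable.tsum_finsetSum (fun _ _ => ENNReal.summable)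
    _ ≤ ∑ T ∈ Finset.range L.toNat, 1 := by
        refine Finset.sum_le_sum fun T _ => ?_
        refine le_trans (ENNReal.tsum_le_tsum fun a => ?_) (msq H z h0 hz (T : ℤ))
        by_cases ha : d.s a = (T : ℤ)
        · rw [if_pos ha]
          unfold blk wt
          refine ENNReal.tsum_le_tsum fun l => ?_
          by_cases b : Ln (Eb G d) n (1, d.i0) l ∧ endp (1, d.i0) l = (a, d.i0)
          · have h2 : Cd G d (T : ℤ) (1, d.i0) l := by
              apply eb_cd H b.1.1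
              rw [b.2]
              unfold sg
              rw [inv_one, one_mul]
              exact ha
            rw [if_pos b, if_pos ⟨h2, b.2⟩]
          · rw [if_neg b]
            exact zero_le
        · rw [if_neg ha]
          exact zero_le
    _ = (L.toNat : ℝ≥0∞) := by simp

theorem smq (H : Hyq G d θ) (z : ℝ≥0∞) (h0 : z ≠ 0) (h1 : z ≤ 1)
    (hz : ∀ z' < z, ∀ x, row (wt z' (Sw G)) x ≠ ⊤) : Nw d 0 (blk (wt z (Eb G d)) d.i0 d.i0) ≠ ⊤ := by
  have hzt : z ≠ ⊤ := ne_top_of_le_ne_top ENNReal.one_ne_top h1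
  obtain ⟨L, δ, hδ, hL⟩ := skq H z h0 h1
  have hm := msq H z h0 hz L
  set C : Γ → ℝ≥0∞ := blk (wt z (Cd G d L)) d.i0 d.i0 with hC
  set S : Γ → ℝ≥0∞ := blk (wt z (Sh G d)) d.i0 d.i0 with hS
  have hSt : ∑' a, S a ≠ ⊤ := by
    refine ne_top_of_le_ne_top (row_swN_ne_top H z hzt (2 * d.N) (1, d.i0)) ?_
    refine (smq_sum_le_row (wt z (Sh G d)) d.i0 d.i0).trans ?_
    refine ENNReal.tsum_le_tsum fun y => wt_mono _ (fun l hl => ?_) z y
    exact ⟨hl.1, hl.2.1.le⟩
  have hEt : ∀ n, ∑' a, blk (wt z (Ln (Eb G d) n)) d.i0 d.i0 a ≠ ⊤ := by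
    intro n
    refine ne_top_of_le_ne_top (row_swN_ne_top H z hzt n (1, d.i0)) ?_
    refine (smq_sum_le_row (wt z (Ln (Eb G d) n)) d.i0 d.i0).trans ?_
    refine ENNReal.tsum_le_tsum fun y => wt_mono _ (fun l hl => ?_) z y
    exact ⟨hl.1.1.2.1, hl.2⟩
  obtain ⟨C', hC't, hC'⟩ := itr (L.toNat : ℝ≥0∞) (∑' a, S a) (Nw d 0 C) δ d.D (ENNReal.natCast_ne_top _) hSt hδ
    (hL.trans hm)
  have key : ∀ n, Nw d 0 (blk (wt z (Ln (Eb G d) n)) d.i0 d.i0) ≤ C' := by
    intro n
    set E : Γ → ℝ≥0∞ := blk (wt z (Ln (Eb G d) n)) d.i0 d.i0 with hE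
    refine hC' (fun w => Nw d w E) ?_ (fun w => Nw_le w E) ?_
    · refine ne_top_of_le_ne_top ?_ (Nw_mass 0 E)
      refine ENNReal.mul_ne_top ?_ (hEt n)
      simp
    · intro w
      have h2 : Nw d w E ≤ Nw d w (fun a => (if d.s a < L then E a else 0) + cnv C (fun c => E c + S c) a) :=
        Nw_mono w (fun a => smq_one H z L n a)
      refine h2.trans ((Nw_add w _ _).trans ?_)
      refine add_le_add ?_ ?_
      · refine (Nw_mass w _).trans ?_
        rw [mul_comm]
        exact mul_le_mul' (smq_two H z h0 hz L n) le_rfl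
      · refine (Nw_cnv H.qm w C _).trans (mul_le_mul' le_rfl ?_)
        refine (Nw_add _ _ _).trans (add_le_add le_rfl ?_)
        rw [mul_comm]
        exact Nw_mass _ _
  refine ne_top_of_le_ne_top hC't ?_
  have h3 := Nw_sup (d := d) 0 (fun n => blk (wt z (Ln (Eb G d) n)) d.i0 d.i0)
    (fun a => wt_Ln_mono z (Eb G d) (1, d.i0) (a, d.i0)) C' key
  refine le_trans (Nw_mono 0 fun a => ?_) h3
  exact (wt_sup z (Eb G d) (1, d.i0) (a, d.i0)).le

end Pool.Agent.SWQ
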