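import Pool.Agent.SWQ.Cnn
import Pool.Agent.SWQ.Dfq
import Pool.Agent.SWQ.Ivq
import Pool.Agent.SWH.Nea

/-!
# SWQ module Stq: strict inequality for the norm of the bridges of one span

PROOF.  (Compare `Pool/Agent/SWH/Str.lean`, which is written out.)  Suppose not: `F.card ≤ nrF F` for all `L` and all finite sets `F` as in the statement.
For each type `i` let `l i` be a walk from `(1, i)` to `(γ i, i0)` for some `γ i` (`byp_conn`, e.g. `γ i = 1`).  For an edge `(1, i) ~ x'` put `u = (γ i)⁻¹ * x'.1 * γ x'.2`,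
`p = (γ i, i0)`, `p' = (x'.1 * γ x'.2, i0)`; there is a walk from `p` to `p'` of length at most `R` (`l i` reversed, then `x'`, then `l x'.2` translated by `x'.1`),
`R` independent of the edge.  Let `K` be as in `con R`, `δ = d.s 1 - d.s u` (`d'` of `dfq`), `dm` a bound for `|δ|` over the finitely many edges at the `(1, i)`.
`M = K + dm`, `n` large, `L = d.s 1 + M + n + K`.  For `j ∈ [M, M + n)`: `c = L - d.s 1 - j ≥ K`, `j ≥ K`, `j + δ ≥ K`.  By `con` (for the edge walk, and for the trivial walk at `p`)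
there are bridges from `Ax p (-c τ) = (γ i g^(-c), i0)` to `Ax p' ((j + δ) τ) = (γ i u g^(j + δ), i0)` and to `Ax p (j τ) = (γ i g^j, i0)`.  Translate by `(γ i g^(-c))⁻¹` (`Eb_inv`): bridges from
`(1, i0)` to `(g^c u g^(j + δ), i0)` and to `(g^(c + j), i0)`; `d.s (g^c u g^(j+δ)) = c + d.s u + j + δ = L`, `d.s (g^(c+j)) = d.s 1 + c + j = L`.
`F` = the set of all these elements.  `near F ε` gives `v`; for `h = g^(c + j)`, `h' = g^c u g^(j+δ)`: `∑' a, (v (a h) - v (a h'))^2 ≤ ε`; substitute `a ↦ a γ i g^(-c)`: this is `hedge`.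
`dfq`: `θ n card I / 2 ≤ D0 (2 ε n + 4 dm)`, `D0 = ∑ i, (G.neighborSet (1, i)).ncard`.  With `D0 * 2 ε ≤ θ card I / 4` and `n` large this is a contradiction.
-/

set_option autoImplicit false

open scoped ENNReal NNReal Classical
open Filter Topology

namespace Pool.Agent.SWQ

open SWH

variable {Γ I : Type} [Group Γ] [Fintype I] {G : SimpleGraph (Γ × I)} {d : Dat Γ I} {θ : ℝ}

private theorem stq_chain {V : Type} {G : SimpleGraph V} (x : V) (l1 l2 : List V) :
    (x :: (l1 ++ l2)).IsChain G.Adj ↔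
      (x :: l1).IsChain G.Adj ∧ (endp x l1 :: l2).IsChain G.Adj := by
  induction l1 generalizing x with
  | nil =>
    rw [List.nil_append, endp_nil]
    exact ⟨fun h => ⟨List.isChain_singleton x, h⟩, fun h => h.2⟩
  | cons a l ih =>
    rw [List.cons_append, List.isChain_cons_cons, List.isChain_cons_cons, endp_cons, ih, and_assoc]

private theorem stq_sl (H : Hyq G d θ) (k : ℤ) (a : Γ) : d.s (d.g ^ k * a) = d.s a + k := by
  induction k using Int.induction_on generalizing a with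
  | zero => rw [zpow_zero, one_mul, add_zero]
  | succ n ih =>
    rw [zpow_add_one, mul_assoc, ih, H.sl]
    ring
  | pred n ih =>
    have h1 := H.sl (d.g⁻¹ * a)
    rw [mul_inv_cancel_left] at h1
    rw [zpow_sub_one, mul_assoc, ih]
    linarith

private theorem stq_sr (H : Hyq G d θ) (k : ℤ) (a : Γ) : d.s (a * d.g ^ k) = d.s a + k := by
  induction k using Int.induction_on generalizing a with
  | zero => rw [zpow_zero, mul_one, add_zero]
  | succ n ih =>
    rw [zpow_add_one, ← mul_assoc, H.sr, ih]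
    ring
  | pred n ih =>
    have h1 := H.sr (a * d.g ^ (-(n : ℤ)) * d.g⁻¹)
    rw [inv_mul_cancel_right, ih] at h1
    rw [zpow_sub_one, ← mul_assoc]
    linarith

/-- Translated bridges. -/
private theorem stq_br (H : Hyq G d θ) (R : ℕ) : ∃ K : ℕ, ∀ (u : Γ) (l : List (Γ × I)),
    ((1, d.i0) :: l).IsChain G.Adj → endp (1, d.i0) l = (u, d.i0) → l.length ≤ R →
      ∀ c c' : ℤ, (K : ℤ) ≤ c → (K : ℤ) ≤ c' →
        ∃ e, Eb G d (1, d.i0) e ∧ endp (1, d.i0) e = (d.g ^ c * u * d.g ^ c', d.i0) := by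
  obtain ⟨K, hK⟩ := con H R
  refine ⟨K, fun u l hl hu hR c c' hc hc' => ?_⟩
  obtain ⟨c1, rfl⟩ : ∃ m : ℕ, c = m := ⟨c.toNat, by omega⟩
  obtain ⟨c2, rfl⟩ : ∃ m : ℕ, c' = m := ⟨c'.toNat, by omega⟩
  obtain ⟨e, h1, h2⟩ := hK (1, d.i0) l hl rfl (by rw [hu]) hR c1 c2 (by omega) (by omega)
  rw [Ax_mul H, hu, Ax_mul H] at h2
  rw [Ax_mul H] at h1
  have h3 := (Eb_inv H (d.g ^ (c1 : ℤ)) _ e).2 h1
  have h4 := endp_map (d.g ^ (c1 : ℤ)) ((1, d.i0).1 * d.g ^ (-(c1 : ℤ)), d.i0) e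
  have h5 : tr (d.g ^ (c1 : ℤ)) (((1, d.i0) : Γ × I).1 * d.g ^ (-(c1 : ℤ)), d.i0) = (1, d.i0) := by
    unfold tr
    rw [one_mul, ← zpow_add, add_neg_cancel, zpow_zero]
  rw [h5] at h3 h4
  refine ⟨_, h3, ?_⟩
  rw [h4, h2]
  unfold tr
  rw [mul_assoc]

/-- Walks along the edges. -/
private theorem stq_edge (H : Hyq G d θ) : ∃ R : ℕ, ∀ (i : I) (x' : Γ × I), G.Adj (1, i) x' →
    ∃ l : List (Γ × I), ((1, d.i0) :: l).IsChain G.Adj ∧ endp (1, d.i0) l = (x'.1, d.i0) ∧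
      l.length ≤ R := by
  choose l hl1 hl2 using fun i : I => byp_conn H.conn ((1, i) : Γ × I) (1, d.i0)
  refine ⟨2 * (∑ i, (l i).length) + 1, fun i x' hx => ?_⟩
  have hle : ∀ j, (l j).length ≤ ∑ i, (l i).length := fun j =>
    Finset.single_le_sum (f := fun i => (l i).length) (fun _ _ => Nat.zero_le _) (Finset.mem_univ j)
  have hx' : tr x'.1 ((1, x'.2) : Γ × I) = x' := by
    unfold tr
    rw [mul_one]
  have e1 : endp (1, d.i0) (rv (1, i) (l i)) = ((1, i) : Γ × I) := by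
    have := endp_rv ((1, i) : Γ × I) (l i)
    rwa [hl2 i] at this
  refine ⟨rv (1, i) (l i) ++ (x' :: (l x'.2).map (tr x'.1)), ?_, ?_, ?_⟩
  · rw [stq_chain, e1]
    refine ⟨?_, ?_⟩
    · have := chain_rv (hl1 i).1
      rwa [hl2 i] at this
    · rw [List.isChain_cons_cons]
      refine ⟨hx, ?_⟩
      have h1 := ((Sw_inq H x'.1 (1, x'.2) (l x'.2)).2 (hl1 x'.2)).1
      rwa [hx'] at h1
  · rw [endp_append, e1, endp_cons]
    have h1 := endp_map x'.1 ((1, x'.2) : Γ × I) (l x'.2)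
    rw [hx', hl2] at h1
    rw [h1]
    unfold tr
    rw [mul_one]
  · rw [List.length_append, List.length_cons, List.length_map, rv_length]
    have h1 := hle i
    have h2 := hle x'.2
    omega

theorem stq (H : Hyq G d θ) : ∃ (L : ℤ) (F : Finset Γ),
    (∀ a ∈ F, d.s a = L ∧ ∃ l, Eb G d (1, d.i0) l ∧ endp (1, d.i0) l = (a, d.i0)) ∧ nrF F < F.card := by
  by_contra hcon
  push Not at hcon
  obtain ⟨R, hR⟩ := stq_edge H
  obtain ⟨K, hK⟩ := stq_br H R
  set S : Set (Γ × I) := ⋃ i : I, G.neighborSet (1, i) with hS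
  have hSf : S.Finite := Set.finite_iUnion fun i => H.fin (1, i)
  obtain ⟨dm, hdm⟩ : ∃ dm : ℕ, ∀ x' ∈ S, |d.s 1 - d.s x'.1| ≤ dm := by
    obtain ⟨B, hB⟩ := (hSf.image (fun x' : Γ × I => |d.s 1 - d.s x'.1|)).bddAbove
    refine ⟨B.toNat, fun x' hx' => ?_⟩
    have h1 : |d.s 1 - d.s x'.1| ≤ B := hB ⟨x', hx', rfl⟩
    have h2 : B ≤ B.toNat := Int.self_le_toNat B
    omega
  have hSm : ∀ (i : I) (x' : Γ × I), G.Adj (1, i) x' → x' ∈ S := fun i x' h =>
    Set.mem_iUnion.2 ⟨i, h⟩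
  set D : ℕ := ∑ i : I, (G.neighborSet (1, i)).ncard with hD
  set ci : ℕ := Fintype.card I with hci
  have hci1 : 1 ≤ ci := Fintype.card_pos_iff.mpr ⟨d.i0⟩
  have hθ := H.pos
  have hciR : (0 : ℝ) < ci := by exact_mod_cast hci1
  have hD0 : (0 : ℝ) ≤ D := Nat.cast_nonneg D
  have hdm0 : (0 : ℝ) ≤ dm := Nat.cast_nonneg dm
  set ε : ℝ := θ * ci / (8 * (D + 1)) with hε
  have hε0 : 0 < ε := by positivity
  obtain ⟨n, hn⟩ := exists_nat_gt (16 * D * dm / (θ * ci))
  have hn1 : 16 * D * dm < n * (θ * ci) := by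
    rwa [div_lt_iff₀ (by positivity)] at hn
  set M : ℤ := (K : ℤ) + dm with hM
  set m0 : ℤ := M + n + K with hm0
  set dl : Γ × I → ℤ := fun x' => d.s 1 - d.s x'.1 with hdl
  set F : Finset Γ := ((hSf.toFinset ×ˢ Finset.Ico M (M + n)).image
    (fun q => d.g ^ (m0 - q.2) * q.1.1 * d.g ^ (q.2 + dl q.1))) ∪ {d.g ^ m0} with hF
  have hFE : ∀ a ∈ F, d.s a = d.s 1 + m0 ∧
      ∃ l, Eb G d (1, d.i0) l ∧ endp (1, d.i0) l = (a, d.i0) := by
    intro a ha
    rw [hF, Finset.mem_union, Finset.mem_image, Finset.mem_singleton] at ha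
    rcases ha with ⟨⟨x', j⟩, hq, rfl⟩ | rfl
    · rw [Finset.mem_product, Set.Finite.mem_toFinset, Finset.mem_Ico] at hq
      obtain ⟨hx', hj1, hj2⟩ := hq
      simp only at hx' hj1 hj2 ⊢
      have hδ := abs_le.1 (hdm x' hx')
      refine ⟨?_, ?_⟩
      · rw [stq_sr H, stq_sl H, hdl]
        ring
      · obtain ⟨i, hi⟩ := Set.mem_iUnion.1 hx'
        obtain ⟨l, h1, h2, h3⟩ := hR i x' hi
        exact hK x'.1 l h1 h2 h3 (m0 - j) (j + dl x') (by omega) (by
          change (K : ℤ) ≤ j + (d.s 1 - d.s x'.1)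
          omega)
    · refine ⟨?_, ?_⟩
      · have := stq_sl H m0 1
        rwa [mul_one] at this
      · obtain ⟨e, h1, h2⟩ := hK 1 [] (List.isChain_singleton _) rfl (Nat.zero_le _) K (m0 - K)
          le_rfl (by omega)
        refine ⟨e, h1, ?_⟩
        rw [h2, mul_one, ← zpow_add, add_sub_cancel]
  have hm0F : d.g ^ m0 ∈ F := by
    rw [hF]
    exact Finset.mem_union_right _ (Finset.mem_singleton_self _)
  obtain ⟨v, v1, v2, v3, v4⟩ := near F ⟨_, hm0F⟩ (hcon _ F hFE) ε hε0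
  have key := dfq H (fun _ => 1) M n v v1 v2 v3 (ENNReal.ofReal ε) dm (fun _ x' => dl x')
    (fun i x' hx => hdm x' (hSm i x' hx)) (by
      intro i x' hx j hj1 hj2
      have hmem : d.g ^ (m0 - j) * x'.1 * d.g ^ (j + dl x') ∈ F := by
        rw [hF]
        refine Finset.mem_union_left _ (Finset.mem_image.2 ⟨(x', j), ?_, rfl⟩)
        rw [Finset.mem_product, Set.Finite.mem_toFinset, Finset.mem_Ico]
        exact ⟨hSm i x' hx, hj1, hj2⟩
      have h1 := v4 _ hm0F _ hmem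
      rw [← (Equiv.mulRight (d.g ^ (m0 - j))⁻¹).tsum_eq] at h1
      refine le_trans (le_of_eq ?_) h1
      refine tsum_congr fun a => ?_
      have e1 : a * (d.g ^ (m0 - j))⁻¹ * d.g ^ m0 = a * (1 * d.g ^ j) := by
        rw [one_mul, mul_assoc, ← zpow_neg, ← zpow_add]
        congr 2
        ring
      have e2 : a * (d.g ^ (m0 - j))⁻¹ * (d.g ^ (m0 - j) * x'.1 * d.g ^ (j + dl x'))
          = a * (x'.1 * 1 * d.g ^ (j + dl x')) := by
        rw [mul_one, mul_assoc, mul_assoc (d.g ^ (m0 - j)), inv_mul_cancel_left]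
      rw [Equiv.coe_mulRight, e1, e2])
  have key2 : θ * (((n * ci : ℕ) : ℝ) / 2) ≤ D * (2 * (ε * n) + 4 * dm) := by
    have e1 : ENNReal.ofReal θ * (((n * ci : ℕ) : ℝ≥0∞) / 2)
        = ENNReal.ofReal (θ * (((n * ci : ℕ) : ℝ) / 2)) := by
      rw [ENNReal.ofReal_mul hθ.le, ENNReal.ofReal_div_of_pos (by norm_num), ENNReal.ofReal_natCast]
      norm_num
    have e2 : ((D : ℕ) : ℝ≥0∞) * (2 * (ENNReal.ofReal ε * (n : ℝ≥0∞)) + 4 * (dm : ℝ≥0∞)) =
        ENNReal.ofReal (D * (2 * (ε * n) + 4 * dm)) := by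
      rw [ENNReal.ofReal_mul hD0, ENNReal.ofReal_add (by positivity) (by positivity),
        ENNReal.ofReal_mul (by norm_num : (0 : ℝ) ≤ 2), ENNReal.ofReal_mul hε0.le,
        ENNReal.ofReal_mul (by norm_num : (0 : ℝ) ≤ 4), ENNReal.ofReal_natCast,
        ENNReal.ofReal_natCast, ENNReal.ofReal_natCast]
      norm_num
    rw [e1] at key
    rw [e2] at key
    exact (ENNReal.ofReal_le_ofReal_iff (by positivity)).mp key
  have h5 : (D : ℝ) * (2 * ε) ≤ θ * ci / 4 := by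
    rw [hε]
    have h6 : (D : ℝ) * (2 * (θ * ci / (8 * (D + 1)))) = (θ * ci / 4) * (D / (D + 1)) := by
      field_simp
      ring
    rw [h6]
    have h7 : (D : ℝ) / (D + 1) ≤ 1 := by
      rw [div_le_one (by positivity)]
      linarith
    have h8 : (0 : ℝ) ≤ θ * ci / 4 := by positivity
    nlinarith
  have hn0 : (0 : ℝ) ≤ n := Nat.cast_nonneg n
  have h9 : (D : ℝ) * (2 * ε) * n ≤ θ * ci / 4 * n := mul_le_mul_of_nonneg_right h5 hn0
  push_cast at key2
  nlinarith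

end Pool.Agent.SWQ
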