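import Pool.Agent.SWQ.Defs

/-!
# SWQ module Trq: transport to the vertex set N × I

PROOF.  (Compare `Pool/Agent/SWH/Trn.lean`, which is written out for the case with a height function.)  `Γ` is transitive and `N` has finite index, so there are finitely many `N`-orbits of vertices: if `Γ` is the union of the `N g_i` then every
vertex is `n g_i v0`.  Choose one representative of each `N`-orbit: `I` = the quotient type or a finite subtype of representatives.  `e0 : N × I ≃ V`, `(γ, r) ↦ γ • r` (injective by freeness).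
`G' = G.comap e0`, `e` the isomorphism.  `tr γ` corresponds to the action of `γ`: `inv` from `hadj` for `γ` and `γ⁻¹`.  `gap`: substitute `e0` in the sums (`Equiv.tsum_eq`).
-/

set_option autoImplicit false

open scoped ENNReal NNReal Classical
open Filter Topology

namespace Pool.Agent.SWQ

open SWH

theorem trq {V Γ : Type} [Group Γ] [MulAction Γ V] [Nonempty V] (G : SimpleGraph V) (hc : G.Connected)
    (hfin : ∀ v : V, (G.neighborSet v).Finite) (hadj : ∀ (γ : Γ) (x y : V), G.Adj x y → G.Adj (γ • x) (γ • y))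
    (htr : ∀ x y : V, ∃ γ : Γ, γ • x = y) (N : Subgroup Γ) (hi : N.FiniteIndex)
    (hfree : ∀ γ ∈ N, ∀ x : V, γ • x = x → γ = 1) (θ : ℝ)
    (hgap : ∀ f : V → ℝ, f.support.Finite →
      ENNReal.ofReal θ * ∑' x, ENNReal.ofReal (f x ^ 2) ≤
        ∑' x, ∑' y, if G.Adj x y then ENNReal.ofReal ((f x - f y) ^ 2) else 0) :
    ∃ (I : Type) (_ : Fintype I) (G' : SimpleGraph (N × I)) (_ : G' ≃g G),
      (∀ (γ : N) (x y : N × I), G'.Adj (tr γ x) (tr γ y) ↔ G'.Adj x y) ∧ G'.Connected ∧
      (∀ x, (G'.neighborSet x).Finite) ∧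
      ∀ f : N × I → ℝ, f.support.Finite →
        ENNReal.ofReal θ * ∑' x, ENNReal.ofReal (f x ^ 2) ≤
          ∑' x, ∑' y, if G'.Adj x y then ENNReal.ofReal ((f x - f y) ^ 2) else 0 := by
  obtain ⟨x0⟩ := (inferInstance : Nonempty V)
  let I : Type := MulAction.orbitRel.Quotient N V
  have hQ : Finite (Γ ⧸ N) := Subgroup.finite_quotient_of_finiteIndex
  have hIf : Finite I := by
    refine Finite.of_surjective (fun q : Γ ⧸ N => (Quotient.mk _ ((Quotient.out q)⁻¹ • x0) : I)) ?_
    intro q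
    induction q using Quotient.inductionOn with
    | h x =>
      obtain ⟨γ, rfl⟩ := htr x0 x
      refine ⟨(QuotientGroup.mk γ⁻¹ : Γ ⧸ N), ?_⟩
      apply Quotient.sound
      change MulAction.orbitRel N V _ _
      rw [MulAction.orbitRel_apply]
      have h1 : (QuotientGroup.mk (Quotient.out (QuotientGroup.mk γ⁻¹ : Γ ⧸ N)) : Γ ⧸ N) = QuotientGroup.mk γ⁻¹ :=
        Quotient.out_eq _
      have h2 := QuotientGroup.eq.1 h1
      have h3 : (Quotient.out (QuotientGroup.mk γ⁻¹ : Γ ⧸ N))⁻¹ * γ⁻¹ ∈ N := h2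
      refine ⟨⟨_, h3⟩, ?_⟩
      change ((Quotient.out (QuotientGroup.mk γ⁻¹ : Γ ⧸ N))⁻¹ * γ⁻¹) • γ • x0 = _
      rw [mul_smul, inv_smul_smul]
  let hI : Fintype I := Fintype.ofFinite I
  let rep : I → V := fun i => Quotient.out i
  have hrep : ∀ i : I, (Quotient.mk _ (rep i) : I) = i := fun i => Quotient.out_eq i
  let f0 : N × I → V := fun p => (p.1 : Γ) • rep p.2
  have hcls : ∀ (γ : N) (x : V), (Quotient.mk _ ((γ : Γ) • x) : I) = Quotient.mk _ x := by
    intro γ x
    apply Quotient.sound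
    change MulAction.orbitRel N V ((γ : Γ) • x) x
    rw [MulAction.orbitRel_apply]
    exact ⟨γ, rfl⟩
  have hbij : Function.Bijective f0 := by
    constructor
    · rintro ⟨γ, i⟩ ⟨γ', j⟩ hij
      change (γ : Γ) • rep i = (γ' : Γ) • rep j at hij
      have h1 : i = j := by
        rw [← hrep i, ← hrep j, ← hcls γ (rep i), ← hcls γ' (rep j), hij]
      subst h1
      have h2 : ((γ'⁻¹ * γ : N) : Γ) • rep i = rep i := by
        rw [Subgroup.coe_mul, mul_smul, hij, Subgroup.coe_inv, inv_smul_smul]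
      have h3 := hfree _ (γ'⁻¹ * γ : N).2 _ h2
      have h4 : γ'⁻¹ * γ = 1 := Subtype.ext h3
      rw [inv_mul_eq_one] at h4
      rw [h4]
    · intro x
      have h1 : (Quotient.mk _ x : I) = Quotient.mk _ (rep (Quotient.mk _ x)) := (hrep _).symm
      have h2 := Quotient.exact h1
      change MulAction.orbitRel N V x (rep (Quotient.mk _ x)) at h2
      rw [MulAction.orbitRel_apply] at h2
      obtain ⟨γ, hγ⟩ := h2
      exact ⟨(γ, Quotient.mk _ x), hγ⟩
  let e0 : N × I ≃ V := Equiv.ofBijective f0 hbij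
  have he0 : ∀ p, e0 p = (p.1 : Γ) • rep p.2 := fun p => rfl
  have htr' : ∀ (γ : N) (p : N × I), e0 (tr γ p) = (γ : Γ) • e0 p := by
    intro γ p
    rw [he0, he0, tr, Subgroup.coe_mul, mul_smul]
  refine ⟨I, hI, G.comap e0, SimpleGraph.Iso.comap e0 G, ?_⟩
  have hadj' : ∀ a b, (G.comap e0).Adj a b ↔ G.Adj (e0 a) (e0 b) := fun a b => Iff.rfl
  refine ⟨?_, ?_, ?_, ?_⟩
  · intro γ x y
    rw [hadj', hadj', htr', htr']
    constructor
    · intro hh
      have := hadj (γ : Γ)⁻¹ _ _ hh
      rwa [inv_smul_smul, inv_smul_smul] at this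
    · exact hadj _ _ _
  · exact (SimpleGraph.Iso.comap e0 G).connected_iff.2 hc
  · intro x
    exact (hfin (e0 x)).preimage (e0.injective.injOn)
  · intro f hf
    have h1 := hgap (fun v => f (e0.symm v)) (by
      refine (hf.image e0).subset ?_
      intro v hv
      exact ⟨e0.symm v, hv, e0.apply_symm_apply v⟩)
    have h2 : ∑' x, ENNReal.ofReal (f x ^ 2) = ∑' v, ENNReal.ofReal ((f (e0.symm v)) ^ 2) := by
      rw [← e0.tsum_eq]
      simp only [e0.symm_apply_apply]
    rw [h2]
    refine h1.trans (le_of_eq ?_)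
    rw [← e0.tsum_eq]
    apply tsum_congr
    intro x
    rw [← e0.tsum_eq]
    apply tsum_congr
    intro y
    rw [e0.symm_apply_apply, e0.symm_apply_apply]
    by_cases hxy : G.Adj (e0 x) (e0 y)
    · rw [if_pos hxy, if_pos ((hadj' x y).2 hxy)]
    · rw [if_neg hxy, if_neg (fun hh => hxy ((hadj' x y).1 hh))]

end Pool.Agent.SWQ
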