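import Pool.Agent.SWQ.Fiq
import Pool.Agent.SWQ.Hmg
import Pool.Agent.SWQ.Mkq
import Pool.Agent.SWQ.Trq
import Pool.Agent.SWH.Spc
import Pool.Agent.SWH.Iso

/-!
# SWQ: the main theorem
-/

set_option autoImplicit false

open scoped ENNReal NNReal Classical
open Filter Topology

namespace Pool.Agent.SWQ

open SWH

/-- Left translations as automorphisms. -/
def actIso {V Γ : Type} [Group Γ] [MulAction Γ V] (G : SimpleGraph V)
    (hadj : ∀ (γ : Γ) (x y : V), G.Adj x y → G.Adj (γ • x) (γ • y)) (γ : Γ) : G ≃g G where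
  toEquiv := MulAction.toPerm γ
  map_rel_iff' := by
    intro x y
    constructor
    · intro h
      have h1 := hadj γ⁻¹ _ _ h
      simpa using h1
    · intro h
      exact hadj γ x y h

theorem main (V : Type) (G : SimpleGraph V) (hc : G.Connected) (hfin : ∀ v : V, (G.neighborSet v).Finite)
    (hche : ∃ c : ℝ, 0 < c ∧ ∀ S : Finset V, S.Nonempty →
        c * (S.card : ℝ) ≤
          ((({p : V × V | p.1 ∈ S ∧ p.2 ∉ S ∧ G.Adj p.1 p.2} : Set (V × V)).ncard : ℕ) : ℝ))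
    (Γ : Type) [Group Γ] [MulAction Γ V] (hadj : ∀ (γ : Γ) (x y : V), G.Adj x y → G.Adj (γ • x) (γ • y))
    (htr : ∀ x y : V, ∃ γ : Γ, γ • x = y)
    (H : Subgroup Γ) (hi : H.FiniteIndex) (hfree : ∀ γ ∈ H, ∀ x : V, γ • x = x → γ = 1)
    (q : H → ℝ) (D : ℝ) (hq : ∀ a b : H, |q (a * b) - q a - q b| ≤ D) (hu : ∀ C : ℝ, ∃ a : H, C < |q a|) (v : V) :
    ∃ a b : ℝ, 0 ≤ a ∧ a < b ∧
      (∀ᶠ n : ℕ in Filter.atTop,
        ((({c : G.Walk v v | c.IsCycle ∧ c.length = n} : Set (G.Walk v v)).ncard : ℕ) : ℝ) ≤ a ^ n) ∧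
      (∀ᶠ n : ℕ in Filter.atTop,
        b ^ n ≤ ((({p : Σ w : V, G.Walk v w | p.2.IsPath ∧ p.2.length = n} :
          Set (Σ w : V, G.Walk v w)).ncard : ℕ) : ℝ)) := by
  have : Nonempty V := ⟨v⟩
  obtain ⟨θ, hθ, hgap⟩ := spc G hfin (by
    intro x y
    obtain ⟨γ, rfl⟩ := htr x y
    exact ncard_iso2 (actIso G hadj γ) x) hche
  obtain ⟨q', D', h1, h2, h3, h4⟩ := hmg q D hq hu
  obtain ⟨I, hI, G', e, g1, g2, g3, g4⟩ := trq G hc hfin hadj htr H hi hfree θ hgap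
  obtain ⟨d, hyq⟩ := mkq G' g1 g2 g3 θ hθ g4 q' D' h1 h2 h3 h4
  have hcon : ∀ n x y, SAWL.saw G' n x = SAWL.saw G' n y := by
    intro n x y
    rw [saw_iso2 e n x, saw_iso2 e n y]
    obtain ⟨γ, hγ⟩ := htr (e x) (e y)
    rw [saw_iso2 (actIso G hadj γ) n (e x)]
    congr 1
  obtain ⟨a, b, h0, hab, k1, k2⟩ := main0q hyq hcon (e.symm v)
  refine ⟨a, b, h0, hab, ?_, ?_⟩
  · filter_upwards [k1] with n hn
    rw [sal_iso2 e n, RelIso.apply_symm_apply] at hn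
    exact hn
  · filter_upwards [k2] with n hn
    rw [saw_iso2 e n, RelIso.apply_symm_apply] at hn
    exact hn

end Pool.Agent.SWQ
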